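import Pool.Agent.Lib_MP_644907.IsoB

/-!
# Piece ARCICC: arcs and intervals
-/

set_option autoImplicit false

namespace Pool.Agent.DimDrop

open Complex

/-- a closed connected nonempty subset of the circle without the base point is an interval in the affine coordinate -/
theorem arc_Icc (κ : ℂ) (hκ : ‖κ‖ = 1) (A : Set ℂ) (h1 : IsClosed A) (h2 : IsPreconnected A) (h3 : A ⊆ Metric.sphere 0 1)
    (h4 : κ ^ 2 ∉ A) (h5 : A.Nonempty) : ∃ l r : ℝ, l ≤ r ∧ A = (fun x => pt κ x 1) '' Set.Icc l r := by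
  have hκ0 : κ ≠ 0 := by
    rintro rfl
    simp at hκ
  have hκ2 : κ ^ 2 ≠ 0 := pow_ne_zero 2 hκ0
  have hcomp : IsCompact A := (isCompact_sphere (0 : ℂ) 1).of_isClosed_subset h1 h3
  have hcont : ContinuousOn (co κ) A := by
    unfold co
    apply Complex.continuous_re.comp_continuousOn
    apply ContinuousOn.div
    · fun_prop
    · fun_prop
    · intro z hz h
      apply h4
      have h' : z / κ ^ 2 = 1 := sub_eq_zero.1 h
      rw [div_eq_one_iff_eq hκ2] at h'
      rwa [← h']
  have hB1 : IsCompact (co κ '' A) := hcomp.image_of_continuousOn hcont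
  have hB2 : IsConnected (co κ '' A) := ⟨h5.image _, h2.image _ hcont⟩
  have hB := eq_Icc_of_connected_compact hB2 hB1
  refine ⟨sInf (co κ '' A), sSup (co κ '' A), ?_, ?_⟩
  · obtain ⟨z, hz⟩ := hB2.nonempty
    rw [hB] at hz
    exact hz.1.trans hz.2
  · rw [← hB, Set.image_image]
    ext z
    constructor
    · intro hz
      refine ⟨z, hz, ?_⟩
      have hz1 : ‖z‖ = 1 := by simpa using h3 hz
      exact pt_co κ hκ z hz1 (fun h => h4 (h ▸ hz))
    · rintro ⟨w, hw, rfl⟩
      have hw1 : ‖w‖ = 1 := by simpa using h3 hw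
      have := pt_co κ hκ w hw1 (fun h => h4 (h ▸ hw))
      simp only [this]
      exact hw

end Pool.Agent.DimDrop
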