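import Pool.Agent.Lib_MP_644907.GeoB1

/-!
# Piece GEOB2: contraction
-/

set_option autoImplicit false

namespace Pool.Agent.DimDrop

open Set

private theorem GB2_len {a b a1 b1 a2 b2 : ℝ} (h1 : a1 < b1) (h2 : a2 < b2)
    (s1 : Icc a1 b1 ⊆ Icc a b) (s2 : Icc a2 b2 ⊆ Icc a b) (hd : Disjoint (Icc a1 b1) (Icc a2 b2)) :
    (b1 - a1) + (b2 - a2) ≤ b - a := by
  have e1 := s1 (left_mem_Icc.2 h1.le)
  have e2 := s1 (right_mem_Icc.2 h1.le)
  have e3 := s2 (left_mem_Icc.2 h2.le)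
  have e4 := s2 (right_mem_Icc.2 h2.le)
  rcases lt_or_ge b1 a2 with h | h
  · linarith [e1.1, e4.2]
  · rcases lt_or_ge b2 a1 with h' | h'
    · linarith [e3.1, e2.2]
    · exfalso
      have m1 : max a1 a2 ∈ Icc a1 b1 := ⟨le_max_left _ _, max_le h1.le h⟩
      have m2 : max a1 a2 ∈ Icc a2 b2 := ⟨le_max_right _ _, max_le h' h2.le⟩
      exact Set.disjoint_left.1 hd m1 m2

private theorem GB2_last {N : ℕ} {w : List (Lt N)} (hw : w ≠ []) (h : Red w) :
    ∃ t : Lt N, ∀ b : Lt N, Red (w ++ [b]) ↔ b ≠ bar t := by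
  rcases List.eq_nil_or_concat w with h' | ⟨w', t, rfl⟩
  · exact absurd h' hw
  · rw [List.concat_eq_append] at h ⊢
    refine ⟨t, fun b => ?_⟩
    have := red_append_iff w' [] t b
    constructor
    · intro h2
      exact (this.1 h2).2.1
    · intro h2
      exact this.2 ⟨h, h2, red_one b⟩

namespace Sch

variable {N : ℕ} (S : Sch N)

/-- Contraction. `I w` contains the pairwise disjoint intervals `I (w b)`, at least three (`three`), each of length at least
`c diam (I w)` (`diam_bound`, `cc_ratio`), so `diam I (w b) ≤ (1 - 2 c) diam (I w)`. With `diam_bound`: `c_w ^ (-2) ≤ C κ ^ |w|`. -/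
theorem contr (hN : 2 ≤ N) : ∃ C κ : ℝ, 0 < C ∧ 0 < κ ∧ κ < 1 ∧ ∀ (w : List (Lt N)), w ≠ [] → Red w →
    (S.cc w ^ 2)⁻¹ ≤ C * κ ^ w.length := by
  obtain ⟨C, hC, hdb⟩ := S.diam_bound
  obtain ⟨C1, hC1, hr⟩ := S.cc_ratio
  obtain ⟨g, D, hg, hD, -, hdist, -, -, -⟩ := S.consts
  have hsq : ∀ v : List (Lt N), S.cc v ^ 2 = |S.cc v| * |S.cc v| := fun v => by rw [← sq, sq_abs]
  set c0 : ℝ := C⁻¹ * (C1 * C1)⁻¹ * C⁻¹ with hc0
  have hc0p : 0 < c0 := by positivity
  have hκ1 : max (1 / 2) (1 - c0) < 1 := max_lt (by norm_num) (by linarith)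
  have hκ0 : 0 < max (1 / 2) (1 - c0) := lt_of_lt_of_le (by norm_num) (le_max_left _ _)
  -- children
  have hchild : ∀ (w : List (Lt N)) (a : Lt N), w ≠ [] → Red (w ++ [a]) →
      c0 * Metric.diam (S.I w) ≤ Metric.diam (S.I (w ++ [a])) := by
    intro w a hw ha
    have hrw := ha.append_left
    obtain ⟨d1, -⟩ := hdb w hw hrw
    obtain ⟨-, d2⟩ := hdb (w ++ [a]) (by simp) ha
    obtain ⟨r1, -⟩ := hr w a hw ha
    have hcw : 0 < |S.cc w| := abs_pos.2 (S.cc_ne w hw hrw)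
    have hca : 0 < |S.cc (w ++ [a])| := abs_pos.2 (S.cc_ne _ (by simp) ha)
    have k : (S.cc w ^ 2)⁻¹ ≤ (C1 * C1) * (S.cc (w ++ [a]) ^ 2)⁻¹ := by
      rw [hsq, hsq, ← div_eq_mul_inv, inv_eq_one_div, div_le_div_iff₀ (mul_pos hcw hcw) (mul_pos hca hca), one_mul]
      calc |S.cc (w ++ [a])| * |S.cc (w ++ [a])| ≤ (C1 * |S.cc w|) * (C1 * |S.cc w|) := by gcongr
        _ = _ := by ring
    calc c0 * Metric.diam (S.I w) ≤ c0 * (C * (S.cc w ^ 2)⁻¹) := by gcongr
      _ ≤ c0 * (C * ((C1 * C1) * (S.cc (w ++ [a]) ^ 2)⁻¹)) := by gcongr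
      _ ≤ c0 * (C * ((C1 * C1) * (C * Metric.diam (S.I (w ++ [a]))))) := by gcongr
      _ = Metric.diam (S.I (w ++ [a])) := by
          rw [hc0]
          field_simp
  have hstep : ∀ (w : List (Lt N)) (b : Lt N), w ≠ [] → Red (w ++ [b]) →
      Metric.diam (S.I (w ++ [b])) ≤ max (1 / 2) (1 - c0) * Metric.diam (S.I w) := by
    intro w b hw hb
    have hrw := hb.append_left
    obtain ⟨t, ht⟩ := GB2_last hw hrw
    obtain ⟨a1, a2, a3, h12, h13, h23, h1, h2, h3⟩ := three hN t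
    have hex : ∃ a : Lt N, a ≠ b ∧ a ≠ bar t := by
      by_cases h : a1 = b
      · exact ⟨a2, fun h' => h12 (h.trans h'.symm), h2⟩
      · exact ⟨a1, h, h1⟩
    obtain ⟨a, hab, hat⟩ := hex
    have ha : Red (w ++ [a]) := (ht a).2 hat
    obtain ⟨u, v, huv, hI⟩ := S.I_Icc w hw hrw
    obtain ⟨u1, v1, huv1, hI1⟩ := S.I_Icc (w ++ [a]) (by simp) ha
    obtain ⟨u2, v2, huv2, hI2⟩ := S.I_Icc (w ++ [b]) (by simp) hb
    have s1 := S.I_append_subset w [a] hw ha
    have s2 := S.I_append_subset w [b] hw hb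
    have hd := S.I_disjoint (w ++ [a]) (w ++ [b]) ha hb (by simp) (by simpa using hab)
    have hch := hchild w a hw ha
    rw [hI, hI1, Real.diam_Icc huv.le, Real.diam_Icc huv1.le] at hch
    rw [hI, hI1] at s1
    rw [hI, hI2] at s2
    rw [hI1, hI2] at hd
    have := GB2_len huv1 huv2 s1 s2 hd
    rw [hI, hI2, Real.diam_Icc huv.le, Real.diam_Icc huv2.le]
    have hvu : 0 < v - u := sub_pos.2 huv
    calc v2 - u2 ≤ (1 - c0) * (v - u) := by linarith
      _ ≤ _ := by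
        gcongr
        exact le_max_right _ _
  have hall : ∀ (w : List (Lt N)), w ≠ [] → Red w →
      Metric.diam (S.I w) ≤ (D * (max (1 / 2) (1 - c0))⁻¹) * max (1 / 2) (1 - c0) ^ w.length := by
    intro w
    induction w using List.reverseRecOn with
    | nil => intro h; exact absurd rfl h
    | append_singleton w b ih =>
      intro _ hb
      by_cases hw : w = []
      · subst hw
        simp only [List.nil_append, List.length_singleton, pow_one, I_one]
        rw [inv_mul_cancel_right₀ hκ0.ne']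
        exact Metric.diam_le_of_forall_dist_le hD.le fun x hx y hy => by
          rw [Real.dist_eq]; exact hdist x (S.A_subset_K0 b hx) y (S.A_subset_K0 b hy)
      · refine (hstep w b hw hb).trans ?_
        rw [List.length_append, List.length_singleton, pow_succ]
        have := ih hw hb.append_left
        calc max (1 / 2) (1 - c0) * Metric.diam (S.I w)
            ≤ max (1 / 2) (1 - c0) * ((D * (max (1 / 2) (1 - c0))⁻¹) * max (1 / 2) (1 - c0) ^ w.length) := by gcongr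
          _ = _ := by ring
  refine ⟨C * (D * (max (1 / 2) (1 - c0))⁻¹), max (1 / 2) (1 - c0), by positivity, hκ0, hκ1, ?_⟩
  intro w hw h
  calc (S.cc w ^ 2)⁻¹ ≤ C * Metric.diam (S.I w) := (hdb w hw h).2
    _ ≤ C * ((D * (max (1 / 2) (1 - c0))⁻¹) * max (1 / 2) (1 - c0) ^ w.length) := by
        gcongr
        exact hall w hw h
    _ = _ := by ring

/-- `cc_ratio` iterated -/
theorem lower : ∃ c κ : ℝ, 0 < c ∧ 0 < κ ∧ κ < 1 ∧ ∀ (w : List (Lt N)), w ≠ [] → Red w →
    c * κ ^ w.length ≤ (S.cc w ^ 2)⁻¹ := by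
  obtain ⟨C1, hC1, hr⟩ := S.cc_ratio
  obtain ⟨g, D, hg, hD, -, -, -, -, hcc⟩ := S.consts
  have hsq : ∀ v : List (Lt N), S.cc v ^ 2 = |S.cc v| * |S.cc v| := fun v => by rw [← sq, sq_abs]
  have hκ0 : 0 < (1 + C1 * C1)⁻¹ := by positivity
  have hκ1 : (1 + C1 * C1)⁻¹ < 1 := by
    apply inv_lt_one_of_one_lt₀
    have : 0 < C1 * C1 := by positivity
    linarith
  refine ⟨(D * D)⁻¹, (1 + C1 * C1)⁻¹, by positivity, hκ0, hκ1, ?_⟩
  intro w
  induction w using List.reverseRecOn with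
  | nil => intro h; exact absurd rfl h
  | append_singleton w b ih =>
    intro _ hb
    have hcb : 0 < |S.cc (w ++ [b])| := abs_pos.2 (S.cc_ne _ (by simp) hb)
    by_cases hw : w = []
    · subst hw
      simp only [List.nil_append, List.length_singleton, pow_one] at hcb ⊢
      have h5 := hcc b
      calc (D * D)⁻¹ * (1 + C1 * C1)⁻¹ ≤ (D * D)⁻¹ * 1 := by gcongr
        _ = (D * D)⁻¹ := mul_one _
        _ ≤ (S.cc [b] ^ 2)⁻¹ := by
          rw [hsq]
          gcongr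
    · have hrw := hb.append_left
      have := ih hw hrw
      obtain ⟨r1, -⟩ := hr w b hw hb
      have hcw : 0 < |S.cc w| := abs_pos.2 (S.cc_ne w hw hrw)
      have k : (S.cc w ^ 2)⁻¹ * (1 + C1 * C1)⁻¹ ≤ (S.cc (w ++ [b]) ^ 2)⁻¹ := by
        rw [hsq, hsq, ← mul_inv]
        apply inv_anti₀ (mul_pos hcb hcb)
        calc |S.cc (w ++ [b])| * |S.cc (w ++ [b])| ≤ (C1 * |S.cc w|) * (C1 * |S.cc w|) := by gcongr
          _ = |S.cc w| * |S.cc w| * (C1 * C1) := by ring
          _ ≤ |S.cc w| * |S.cc w| * (1 + C1 * C1) := by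
            gcongr
            linarith
      rw [List.length_append, List.length_singleton, pow_succ, ← mul_assoc]
      refine le_trans ?_ k
      gcongr

end Sch

end Pool.Agent.DimDrop
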