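import Pool.Agent.Lib_MP_644907.IsoC
import Pool.Agent.Lib_MP_644907.ArcIcc
import Pool.Agent.Lib_MP_644907.GeoB2

/-!
# Piece ARCSA: Schottky groups on the circle, base point
-/

set_option autoImplicit false

namespace Pool.Agent.DimDrop

open Set

/-- a classical Fuchsian Schottky group: isometries of the disk playing ping pong on disjoint closed arcs of the circle -/
structure ArcSch (N : ℕ) where
  h : Lt N → ℂ → ℂ
  A : Lt N → Set ℂ
  iso : ∀ a, IsoD (h a)
  inv : ∀ a z, ‖z‖ ≤ 1 → h (bar a) (h a z) = z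
  closed : ∀ a, IsClosed (A a)
  conn : ∀ a, IsPreconnected (A a)
  sub : ∀ a, A a ⊆ Metric.sphere 0 1
  disj : ∀ a b, a ≠ b → Disjoint (A a) (A b)
  ping : ∀ a z, ‖z‖ = 1 → z ∉ A (bar a) → h a z ∈ A a

namespace ArcSch

variable {N : ℕ} (T : ArcSch N)

/-- If some `A a` is empty then all points of the circle are in `A (bar a)`; but then for another letter `b ≠ a, bar a` both `A b` and `A (bar b)` are empty and `ping` for `b` fails. -/
theorem nonempty (hN : 2 ≤ N) (a : Lt N) : (T.A a).Nonempty := by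
  by_contra hne
  rw [Set.not_nonempty_iff_eq_empty] at hne
  have hall : ∀ z : ℂ, ‖z‖ = 1 → z ∈ T.A (bar a) := by
    intro z hz
    by_contra hz2
    have := T.ping a z hz hz2
    rw [hne] at this
    exact this
  obtain ⟨b, hb1, hb2⟩ := other hN a
  have hemp : ∀ c : Lt N, c ≠ bar a → ∀ z : ℂ, z ∉ T.A c := by
    intro c hc z hz
    have hz1 : ‖z‖ = 1 := by simpa using T.sub c hz
    exact Set.disjoint_left.mp (T.disj c (bar a) hc) hz (hall z hz1)
  have hbb : bar b ≠ bar a := by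
    intro h
    apply hb1
    have := congrArg bar h
    simpa using this
  have h1 : ‖(1 : ℂ)‖ = 1 := by simp
  exact hemp b hb2 _ (T.ping b 1 h1 (hemp (bar b) hbb 1))

/-- The circle is connected (`isPreconnected_sphere` or as the image of a segment), so it is not the union of the at least two pairwise disjoint nonempty closed sets `A a`; `κ` is a square root of a point
outside all of them. -/
theorem exists_base (hN : 2 ≤ N) : ∃ κ : ℂ, ‖κ‖ = 1 ∧ ∀ a, κ ^ 2 ∉ T.A a := by
  by_contra hcon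
  push Not at hcon
  have hcov : ∀ z : ℂ, ‖z‖ = 1 → ∃ a, z ∈ T.A a := by
    intro z hz
    obtain ⟨κ, hκ⟩ := IsAlgClosed.exists_pow_nat_eq z (n := 2) (by norm_num)
    have hn : ‖κ‖ = 1 := by
      have h1 : ‖κ‖ ^ 2 = 1 := by rw [← norm_pow, hκ, hz]
      have h2 : 0 ≤ ‖κ‖ := norm_nonneg κ
      nlinarith
    obtain ⟨a, ha⟩ := hcon κ hn
    exact ⟨a, by rwa [hκ] at ha⟩
  have hconn : IsPreconnected (Metric.sphere (0 : ℂ) 1) :=
    (isConnected_sphere (by rw [Complex.rank_real_complex]; norm_num) (0 : ℂ) (by norm_num)).isPreconnected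
  have a : Lt N := (⟨0, by omega⟩, true)
  rw [isPreconnected_closed_iff] at hconn
  have hcl : IsClosed (⋃ b ∈ {b : Lt N | b ≠ a}, T.A b) :=
    Set.Finite.isClosed_biUnion (Set.toFinite _) fun b _ => T.closed b
  have hsub : Metric.sphere (0 : ℂ) 1 ⊆ T.A a ∪ ⋃ b ∈ {b : Lt N | b ≠ a}, T.A b := by
    intro z hz
    obtain ⟨b, hb⟩ := hcov z (by simpa using hz)
    by_cases hba : b = a
    · left
      rwa [hba] at hb
    · right
      simp only [Set.mem_iUnion]
      exact ⟨b, hba, hb⟩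
  have hne1 : (Metric.sphere (0 : ℂ) 1 ∩ T.A a).Nonempty := by
    obtain ⟨z, hz⟩ := T.nonempty hN a
    exact ⟨z, T.sub a hz, hz⟩
  have hne2 : (Metric.sphere (0 : ℂ) 1 ∩ ⋃ b ∈ {b : Lt N | b ≠ a}, T.A b).Nonempty := by
    obtain ⟨z, hz⟩ := T.nonempty hN (bar a)
    refine ⟨z, T.sub _ hz, ?_⟩
    simp only [Set.mem_iUnion]
    exact ⟨bar a, bar_ne a, hz⟩
  obtain ⟨z, hz1, hz2, hz3⟩ := hconn _ _ (T.closed a) hcl hsub hne1 hne2
  simp only [Set.mem_iUnion] at hz3
  obtain ⟨b, hb, hz4⟩ := hz3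
  exact Set.disjoint_left.mp (T.disj b a hb) hz4 hz2

end ArcSch

end Pool.Agent.DimDrop
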