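import Pool.Agent.Lib_MP_644907.ArcsA

/-!
# Piece ARCSB: from Schottky groups acting on the circle to the line model
-/

set_option autoImplicit false

namespace Pool.Agent.DimDrop

open Set

namespace ArcSch

variable {N : ℕ} (T : ArcSch N)

theorem norm_of_mem {a : Lt N} {z : ℂ} (hz : z ∈ T.A a) : ‖z‖ = 1 := by
  have := T.sub a hz
  simpa using this

theorem not_mem_of_mem {a b : Lt N} {z : ℂ} (hz : z ∈ T.A b) (hab : b ≠ a) : z ∉ T.A a :=
  fun h => (Set.disjoint_left.1 (T.disj b a hab)) hz h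

theorem ping_mem {a b : Lt N} {z : ℂ} (hz : z ∈ T.A b) (hab : b ≠ bar a) : T.h a z ∈ T.A a :=
  T.ping a z (T.norm_of_mem hz) (T.not_mem_of_mem hz hab)

/-- the arc of a letter is not a single point -/
theorem not_subsingleton (hN : 2 ≤ N) (a : Lt N) : ¬ (T.A a).Subsingleton := by
  intro hs
  obtain ⟨b, c, d, hbc, hbd, hcd, hb, hc, hd⟩ := three hN a
  obtain ⟨z, hz⟩ := T.nonempty hN b
  obtain ⟨w, hw⟩ := T.nonempty hN c
  have h1 := T.ping_mem hz hb
  have h2 := T.ping_mem hw hc
  have h3 : T.h a z = T.h a w := hs h1 h2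
  have h4 : z = w := by
    rw [← T.inv a z (T.norm_of_mem hz).le, ← T.inv a w (T.norm_of_mem hw).le, h3]
  subst h4
  exact T.not_mem_of_mem hz hbc hw

/-- `M (i, true)` from `exists_rep`, `M (i, false) = (M (i, true))⁻¹` (`Rep.inv`). Intervals from `arc_Icc`; `l < r` since `A a` contains the images under the injective `h a` of two disjoint nonempty sets `A b`, `A c`, `b, c ≠ bar a` (`three`).
`low`: `κ^2 ∉ A (bar a)`, so `h a (κ^2) ∈ A a`, `h a (κ^2) ≠ κ^2`. `pole`: with `x = -M11 / M10`, `h a (pt κ x 1) = κ^2 ∉ A a` (`Rep.pole`), so `pt κ x 1 ∈ A (bar a)`. `maps`: `Rep.mob` (`den ≠ 0`, otherwise `κ^2 ∈ A a`). -/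
theorem exists_sch (hN : 2 ≤ N) (κ : ℂ) (hκ : ‖κ‖ = 1) (h : ∀ a, κ ^ 2 ∉ T.A a) : ∃ S : Sch N,
    (∀ a, Rep κ (T.h a) (S.M a)) ∧ ∀ a, T.A a = (fun x => pt κ x 1) '' S.A a := by
  classical
  have hκ2 : ‖κ ^ 2‖ = 1 := by rw [norm_pow, hκ, one_pow]
  have hinj : ∀ x y : ℝ, pt κ x 1 = pt κ y 1 → x = y := by
    intro x y hxy
    rw [← co_pt κ hκ x, ← co_pt κ hκ y, hxy]
  choose M0 hd0 hM0 using fun i : Fin N => exists_rep κ hκ (T.h (i, true)) (T.iso (i, true))
  have hu : ∀ i, IsUnit (M0 i).det := by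
    intro i
    rw [isUnit_iff_ne_zero]
    intro h0
    have := hd0 i
    rw [h0, abs_zero] at this
    exact zero_ne_one this
  let M : Lt N → Matrix (Fin 2) (Fin 2) ℝ := fun a => if a.2 then M0 a.1 else (M0 a.1)⁻¹
  have hMt : ∀ i, M (i, true) = M0 i := fun i => by simp [M]
  have hMf : ∀ i, M (i, false) = (M0 i)⁻¹ := fun i => by simp [M]
  have hinv : ∀ a, M (bar a) * M a = 1 := by
    rintro ⟨i, b⟩
    cases b
    · show M (i, true) * M (i, false) = 1
      rw [hMt, hMf]
      exact Matrix.mul_nonsing_inv _ (hu i)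
    · show M (i, false) * M (i, true) = 1
      rw [hMt, hMf]
      exact Matrix.nonsing_inv_mul _ (hu i)
  have hdet : ∀ a, |(M a).det| = 1 := by
    rintro ⟨i, b⟩
    cases b
    · rw [hMf]
      have h1 : ((M0 i)⁻¹).det * (M0 i).det = 1 := by
        rw [← Matrix.det_mul, Matrix.nonsing_inv_mul _ (hu i), Matrix.det_one]
      have h2 := congrArg abs h1
      rwa [abs_mul, hd0 i, mul_one, abs_one] at h2
    · rw [hMt]; exact hd0 i
  have hrep : ∀ a, Rep κ (T.h a) (M a) := by
    rintro ⟨i, b⟩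
    cases b
    · rw [hMf]
      refine Rep.inv (hM0 i) (Matrix.nonsing_inv_mul _ (hu i)) ?_ hκ
      intro z hz
      exact T.inv (i, true) z hz.le
    · rw [hMt]; exact hM0 i
  choose l r hlr hA using fun a => arc_Icc κ hκ (T.A a) (T.closed a) (T.conn a) (T.sub a) (h a) (T.nonempty hN a)
  have hmem : ∀ a (x : ℝ), pt κ x 1 ∈ T.A a ↔ x ∈ Set.Icc (l a) (r a) := by
    intro a x
    rw [hA a]
    constructor
    · rintro ⟨y, hy, hyx⟩
      rwa [← hinj _ _ hyx]
    · intro hx
      exact ⟨x, hx, rfl⟩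
  have hlt : ∀ a, l a < r a := by
    intro a
    refine lt_of_le_of_ne (hlr a) fun heq => T.not_subsingleton hN a ?_
    rw [hA a, heq, Set.Icc_self]
    exact (Set.subsingleton_singleton).image _
  have hb : ∀ a, T.h a (κ ^ 2) ∈ T.A a := fun a => T.ping a _ hκ2 (h _)
  refine ⟨{ M := M, l := l, r := r, lt := hlt, disj := ?_, det := hdet, inv := hinv, low := ?_, pole := ?_, maps := ?_ }, hrep, hA⟩
  · intro a b hab
    rw [Set.disjoint_left]
    intro x hx hx'
    exact T.not_mem_of_mem ((hmem a x).2 hx) hab ((hmem b x).2 hx')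
  · intro a h10
    have h1 := (hrep a).base hκ
    rw [h10] at h1
    have h00 : M a 0 0 ≠ 0 := by
      intro h00
      have := hdet a
      rw [Matrix.det_fin_two, h00, h10] at this
      simp at this
    have h2 : pt κ (M a 0 0) 0 = κ ^ 2 := by
      have := pt_smul κ hκ (M a 0 0) 1 0 h00
      rw [mul_one, mul_zero] at this
      rw [this, pt_one_zero κ hκ]
    rw [h2] at h1
    exact h a (h1 ▸ hb a)
  · intro a
    by_cases h10 : M a 1 0 = 0
    · exfalso
      have h1 := (hrep a).base hκ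
      rw [h10] at h1
      have h00 : M a 0 0 ≠ 0 := by
        intro h00
        have := hdet a
        rw [Matrix.det_fin_two, h00, h10] at this
        simp at this
      have h2 : pt κ (M a 0 0) 0 = κ ^ 2 := by
        have := pt_smul κ hκ (M a 0 0) 1 0 h00
        rw [mul_one, mul_zero] at this
        rw [this, pt_one_zero κ hκ]
      rw [h2] at h1
      exact h a (h1 ▸ hb a)
    rw [← hmem (bar a)]
    have hden : den (M a) (-(M a 1 1) / M a 1 0) = 0 := by
      unfold den
      field_simp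
      ring
    have h1 := (hrep a).pole hκ (hdet a) _ hden
    by_contra hn
    have hz : ‖pt κ (-(M a 1 1) / M a 1 0) 1‖ = 1 := norm_pt κ hκ _ _ (Or.inr one_ne_zero)
    have h2 := T.ping a _ hz hn
    rw [h1] at h2
    exact h a h2
  · intro a b hab x hx
    have hxb : pt κ x 1 ∈ T.A b := (hmem b x).2 hx
    have h1 := T.ping_mem hxb hab
    have hden : den (M a) x ≠ 0 := by
      intro h0
      rw [(hrep a).pole hκ (hdet a) x h0] at h1
      exact h a h1
    rw [(hrep a).mob hκ x hden] at h1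
    exact (hmem a _).1 h1

end ArcSch

end Pool.Agent.DimDrop
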