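import Pool.Agent.Lib_MP_644907.ArcsA

/-!
# Piece ARCSC: cylinders and closure of the orbit
-/

set_option autoImplicit false

namespace Pool.Agent.DimDrop

open Set

namespace ArcSch

variable {N : ℕ} (T : ArcSch N)

/-- by induction on `w`, `Rep.mob` and `den_M_ne` -/
theorem cyl_eq (κ : ℂ) (hκ : ‖κ‖ = 1) (S : Sch N) (hS : ∀ a, Rep κ (T.h a) (S.M a))
    (hA : ∀ a, T.A a = (fun x => pt κ x 1) '' S.A a) (w : List (Lt N)) (hw : w ≠ []) (hr : Red w) :
    cyl T.h T.A w = (fun x => pt κ x 1) '' S.I w := by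
  induction w with
  | nil => exact absurd rfl hw
  | cons a w ih =>
    cases w with
    | nil =>
      show T.A a = (fun x => pt κ x 1) '' S.A a
      exact hA a
    | cons b w =>
      have hr' := (red_cons_cons a b w).1 hr
      have ih' := ih (by simp) hr'.2
      show T.h a '' cyl T.h T.A (b :: w) = (fun x => pt κ x 1) '' S.I (a :: b :: w)
      rw [ih', S.I_cons a (b :: w) (by simp), Set.image_image, Set.image_image]
      refine Set.image_congr fun x hx => ?_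
      have hxb : x ∈ S.A b := S.I_subset_head b w hr'.2 hx
      have hxn : x ∉ S.A (bar a) := fun h => hr'.1 (S.A_inj hxb h)
      exact (hS a).mob hκ x (S.den_M_ne a x hxn)

/-- the composition along a word -/
def wd (w : List (Lt N)) : ℂ → ℂ := (w.map T.h).foldr (fun f g => f ∘ g) id

theorem wd_nil : T.wd [] = id := rfl

theorem wd_cons (a : Lt N) (w : List (Lt N)) : T.wd (a :: w) = T.h a ∘ T.wd w := rfl

theorem isoD_wd (w : List (Lt N)) (hw : w ≠ []) : IsoD (T.wd w) := by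
  induction w with
  | nil => exact absurd rfl hw
  | cons a w ih =>
    rw [wd_cons]
    cases w with
    | nil =>
      rw [wd_nil, Function.comp_id]
      exact T.iso a
    | cons b w => exact (T.iso a).comp (ih (by simp))

/-- the map of a word on the affine coordinate -/
theorem wd_pt (κ : ℂ) (hκ : ‖κ‖ = 1) (S : Sch N) (hS : ∀ a, Rep κ (T.h a) (S.M a)) (w : List (Lt N)) (b : Lt N)
    (hr : Red (w ++ [b])) (x : ℝ) (hx : x ∈ S.A b) : T.wd w (pt κ x 1) = pt κ (mob (S.mat w) x) 1 := by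
  induction w with
  | nil => rw [wd_nil, S.mat_nil, mob_one]; rfl
  | cons a w ih =>
    have hr1 : Red (a :: (w ++ [b])) := by simpa using hr
    have hr2 : Red (w ++ [b]) := by
      have h3 : Red ([a] ++ (w ++ [b])) := by simpa using hr
      exact h3.append_right
    have ih' := ih hr2
    rw [wd_cons, Function.comp_apply, ih', S.mat_cons]
    have hden := S.den_mat_ne w b hr2 x hx
    rw [mob_mul _ _ _ hden]
    refine (hS a).mob hκ _ (S.den_M_ne a _ ?_)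
    -- mob (mat w) x ∈ A (first letter of w ++ [b])
    have hmem : mob (S.mat w) x ∈ S.I (w ++ [b]) := by
      rw [S.I_append w [b] (by simp) hr2]
      exact ⟨x, hx, rfl⟩
    obtain ⟨c, v, hcv⟩ : ∃ c v, w ++ [b] = c :: v := by
      cases w with
      | nil => exact ⟨b, [], rfl⟩
      | cons c w => exact ⟨c, w ++ [b], rfl⟩
    rw [hcv] at hmem hr2 hr1
    have h4 := S.I_subset_head c v hr2 hmem
    have h5 := ((red_cons_cons a c v).1 hr1).1
    exact fun h6 => h5 (S.A_inj h4 h6)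

/-- The limit set is in the closure of the orbit of `0`. Let `x ∈ KK`, `x ∈ I w`, `w = w' ++ [b]`, `|w| = n + 1`. Take two points `z1 = pt κ (l b) 1`, `z2 = pt κ (r b) 1` of `A b`; `wd w' z1, wd w' z2` are in `pt '' I w`
(images of the end points of the interval `I w`), whose diameter is at most `2 diam (I w) → 0` (`dist_pt`, `diam_bound`, `contr`). By `IsoD.two_point`,
`|wd w' z1 - wd w' 0| ≤ 2 |wd w' z1 - wd w' z2| / |z1 - z2| → 0` (the letter `b` takes finitely many values). So `wd w' 0 → pt κ x 1`. -/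
theorem mem_closure (hN : 2 ≤ N) (κ : ℂ) (hκ : ‖κ‖ = 1) (S : Sch N) (hS : ∀ a, Rep κ (T.h a) (S.M a))
    (hA : ∀ a, T.A a = (fun x => pt κ x 1) '' S.A a) (x : ℝ) (hx : x ∈ S.KK) :
    pt κ x 1 ∈ closure {z | ∃ w : List (Lt N), w ≠ [] ∧ z = T.wd w 0} := by
  obtain ⟨C1, hC1, hd⟩ := S.diam_bound
  obtain ⟨C2, q, hC2, hq0, hq1, hc⟩ := S.contr hN
  have hdist : ∀ y z : ℝ, ‖pt κ y 1 - pt κ z 1‖ ≤ 2 * |y - z| := by
    intro y z
    rw [dist_pt κ hκ]
    have h1 : 1 ≤ √(1 + y ^ 2) := by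
      rw [Real.one_le_sqrt]; nlinarith [sq_nonneg y]
    have h2 : 1 ≤ √(1 + z ^ 2) := by
      rw [Real.one_le_sqrt]; nlinarith [sq_nonneg z]
    have h3 : 1 ≤ √(1 + y ^ 2) * √(1 + z ^ 2) := one_le_mul_of_one_le_of_one_le h1 h2
    exact div_le_self (by positivity) h3
  -- a positive lower bound for the distance of the end points
  have hpos : ∀ b, 0 < ‖pt κ (S.l b) 1 - pt κ (S.r b) 1‖ := by
    intro b
    rw [norm_pos_iff, sub_ne_zero]
    intro h0
    have h1 : S.l b = S.r b := by rw [← co_pt κ hκ (S.l b), ← co_pt κ hκ (S.r b), h0]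
    exact (S.lt b).ne h1
  have : Nonempty (Lt N) := ⟨(⟨0, by omega⟩, true)⟩
  obtain ⟨η, hη, hη'⟩ : ∃ η : ℝ, 0 < η ∧ ∀ b, η ≤ ‖pt κ (S.l b) 1 - pt κ (S.r b) 1‖ := by
    obtain ⟨b0, -, hb0⟩ := Finset.exists_min_image (Finset.univ : Finset (Lt N))
      (fun b => ‖pt κ (S.l b) 1 - pt κ (S.r b) 1‖) Finset.univ_nonempty
    exact ⟨_, hpos b0, fun b => hb0 b (Finset.mem_univ _)⟩
  rw [Metric.mem_closure_iff]
  intro ε hε
  -- choose the length
  have hlim : Filter.Tendsto (fun n : ℕ => (2 + 4 / η) * (C1 * (C2 * q ^ n))) Filter.atTop (nhds 0) := by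
    have h1 := tendsto_pow_atTop_nhds_zero_of_lt_one hq0.le hq1
    have h2 := ((h1.const_mul C2).const_mul C1).const_mul (2 + 4 / η)
    simpa using h2
  obtain ⟨n, hn⟩ := ((hlim.eventually (gt_mem_nhds hε)).and (Filter.eventually_ge_atTop 2)).exists
  obtain ⟨hn1, hn2⟩ := hn
  obtain ⟨w, hwr, hwl, hxw⟩ := hx n (by omega)
  have hw0 : w ≠ [] := by
    intro h0
    rw [h0] at hwl
    simp at hwl
    omega
  obtain ⟨w', b, rfl⟩ : ∃ w' b, w = w' ++ [b] := ⟨w.dropLast, w.getLast hw0, (List.dropLast_append_getLast hw0).symm⟩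
  have hw' : w' ≠ [] := by
    intro h0
    rw [h0] at hwl
    simp at hwl
    omega
  obtain ⟨c, d, hcd, hI⟩ := S.I_Icc (w' ++ [b]) hw0 hwr
  have hdiam : Metric.diam (S.I (w' ++ [b])) ≤ C1 * (C2 * q ^ n) := by
    refine (hd (w' ++ [b]) hw0 hwr).1.trans ?_
    refine mul_le_mul_of_nonneg_left ?_ hC1.le
    rw [← hwl]
    exact hc (w' ++ [b]) hw0 hwr
  have habs : ∀ y ∈ S.I (w' ++ [b]), ∀ z ∈ S.I (w' ++ [b]), |y - z| ≤ C1 * (C2 * q ^ n) := by
    intro y hy z hz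
    refine le_trans ?_ hdiam
    rw [← Real.dist_eq]
    refine Metric.dist_le_diam_of_mem ?_ hy hz
    rw [hI]
    exact Metric.isBounded_Icc c d
  have hl : S.l b ∈ S.A b := ⟨le_rfl, (S.lt b).le⟩
  have hr : S.r b ∈ S.A b := ⟨(S.lt b).le, le_rfl⟩
  have hIm : ∀ y ∈ S.A b, mob (S.mat w') y ∈ S.I (w' ++ [b]) := by
    intro y hy
    rw [S.I_append w' [b] (by simp) hwr]
    exact ⟨y, hy, rfl⟩
  have e1 := T.wd_pt κ hκ S hS w' b hwr (S.l b) hl
  have e2 := T.wd_pt κ hκ S hS w' b hwr (S.r b) hr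
  have hiso := T.isoD_wd w' hw'
  have htp := hiso.two_point (pt κ (S.l b) 1) (pt κ (S.r b) 1) (norm_pt κ hκ _ _ (Or.inr one_ne_zero))
    (norm_pt κ hκ _ _ (Or.inr one_ne_zero))
  rw [e1, e2] at htp
  have h1 : ‖pt κ (mob (S.mat w') (S.l b)) 1 - pt κ (mob (S.mat w') (S.r b)) 1‖ ≤ 2 * (C1 * (C2 * q ^ n)) :=
    (hdist _ _).trans (mul_le_mul_of_nonneg_left (habs _ (hIm _ hl) _ (hIm _ hr)) zero_le_two)
  have h2 : ‖pt κ (mob (S.mat w') (S.l b)) 1 - T.wd w' 0‖ ≤ 4 / η * (C1 * (C2 * q ^ n)) := by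
    have h3 : ‖pt κ (mob (S.mat w') (S.l b)) 1 - T.wd w' 0‖ * η ≤ 2 * (2 * (C1 * (C2 * q ^ n))) := by
      refine le_trans (mul_le_mul_of_nonneg_left (hη' b) (norm_nonneg _)) (htp.trans ?_)
      exact mul_le_mul_of_nonneg_left h1 zero_le_two
    rw [div_mul_eq_mul_div, le_div_iff₀ hη]
    linarith
  have h4 : ‖pt κ x 1 - pt κ (mob (S.mat w') (S.l b)) 1‖ ≤ 2 * (C1 * (C2 * q ^ n)) :=
    (hdist _ _).trans (mul_le_mul_of_nonneg_left (habs _ hxw _ (hIm _ hl)) zero_le_two)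
  refine ⟨T.wd w' 0, ⟨w', hw', rfl⟩, ?_⟩
  rw [dist_eq_norm]
  calc ‖pt κ x 1 - T.wd w' 0‖ = ‖(pt κ x 1 - pt κ (mob (S.mat w') (S.l b)) 1) +
        (pt κ (mob (S.mat w') (S.l b)) 1 - T.wd w' 0)‖ := by congr 1; ring
    _ ≤ 2 * (C1 * (C2 * q ^ n)) + 4 / η * (C1 * (C2 * q ^ n)) := (norm_add_le _ _).trans (add_le_add h4 h2)
    _ = (2 + 4 / η) * (C1 * (C2 * q ^ n)) := by ring
    _ < ε := hn1

end ArcSch

end Pool.Agent.DimDrop
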