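import Mathlib

/-!
# Piece BINOM: the binomial series
-/

set_option autoImplicit false

namespace Pool.Agent.DimDrop

open Finset Filter Topology

/-- binomial series: for `|x| < 1`, `(1 + x)^s = ∑ choose s j x^j`, `choose (-s) j ≠ 0` for `s > 0` and the coefficients are bounded by `C 2^j`
(any explicit form of the coefficients will do) -/
theorem binom (s : ℝ) (hs : 0 < s) : ∃ b : ℕ → ℝ, ∃ C R : ℝ, 0 < C ∧ 0 < R ∧ (∀ j, b j ≠ 0) ∧ (∀ j, |b j| ≤ C * R ^ j) ∧
    ∀ x : ℝ, |x| < 1 / R → HasSum (fun j => b j * x ^ j) ((1 + x) ^ (-s)) := by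
  have hsum : ∀ x : ℝ, |x| < 1 → HasSum (fun j => Ring.choose (-s) j * x ^ j) ((1 + x) ^ (-s)) := by
    intro x hx
    have h1 := (Real.one_add_rpow_hasFPowerSeriesOnBall_zero (a := -s)).hasSum (y := x) (by
      rw [Metric.mem_eball, edist_zero_right]
      have : ‖x‖ₑ < 1 := by
        rw [← ofReal_norm, Real.norm_eq_abs]
        exact ENNReal.ofReal_lt_one.mpr hx
      exact this)
    rw [zero_add] at h1
    have h2 : (fun n => (binomialSeries ℝ (-s) n) fun _ => x) = fun j => Ring.choose (-s) j * x ^ j := by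
      funext j
      simp [binomialSeries, FormalMultilinearSeries.ofScalars, smul_eq_mul]
    rw [h2] at h1
    exact h1
  have h2 : |(1/2:ℝ)| < 1 := by rw [abs_of_pos (by norm_num)]; norm_num
  have h3 := (hsum _ h2).summable.abs
  refine ⟨fun j => Ring.choose (-s) j, ∑' j, |Ring.choose (-s) j * (1/2:ℝ) ^ j| + 1, 2, ?_, by norm_num, ?_, ?_, ?_⟩
  · have : 0 ≤ ∑' j, |Ring.choose (-s) j * (1/2:ℝ) ^ j| := tsum_nonneg fun j => abs_nonneg _
    linarith
  · intro j
    change Ring.choose (-s) j ≠ 0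
    have hm : Ring.multichoose s j ≠ 0 := by
      intro h0
      have h5 := Ring.factorial_nsmul_multichoose_eq_ascPochhammer s j
      rw [h0, smul_zero, Polynomial.ascPochhammer_smeval_eq_eval] at h5
      exact (ascPochhammer_pos j s hs).ne h5
    rw [Ring.choose_neg']
    intro h0
    apply hm
    rcases Int.even_or_odd (j : ℤ) with he | ho
    · rw [Int.negOnePow_even _ he] at h0
      simpa using h0
    · rw [Int.negOnePow_odd _ ho] at h0
      simpa using h0
  · intro j
    have h4 : |Ring.choose (-s) j * (1/2:ℝ) ^ j| ≤ ∑' j, |Ring.choose (-s) j * (1/2:ℝ) ^ j| :=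
      h3.le_tsum j fun i _ => abs_nonneg _
    rw [abs_mul, abs_of_pos (by positivity : (0:ℝ) < (1/2:ℝ) ^ j)] at h4
    have h5 : (1/2:ℝ) ^ j * 2 ^ j = 1 := by rw [← mul_pow]; norm_num
    calc |Ring.choose (-s) j| = (|Ring.choose (-s) j| * (1/2:ℝ) ^ j) * 2 ^ j := by
          rw [mul_assoc, h5, mul_one]
      _ ≤ (∑' j, |Ring.choose (-s) j * (1/2:ℝ) ^ j|) * 2 ^ j :=
          mul_le_mul_of_nonneg_right h4 (by positivity)
      _ ≤ _ := mul_le_mul_of_nonneg_right (by linarith) (by positivity)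
  · intro x hx
    exact hsum x (lt_of_lt_of_le hx (by norm_num))

end Pool.Agent.DimDrop
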