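import Pool.Agent.Lib_MP_644907.ConfD

/-!
# Piece CWA: conformality for words
-/

set_option autoImplicit false

namespace Pool.Agent.DimDrop

open Finset MeasureTheory Filter Topology

namespace Sch

variable {N : ℕ} {S : Sch N} {δ : ℝ} {m : Measure ℝ}

/-- cylinders are measurable (compact) -/
theorem meas_I (S : Sch N) (w : List (Lt N)) (h : Red w) : MeasurableSet (S.I w) := by
  by_cases hw : w = []
  · subst hw
    exact MeasurableSet.univ
  · obtain ⟨a, b, _, hab⟩ := S.I_Icc w hw h
    rw [hab]
    exact measurableSet_Icc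

theorem mob_mat_cont (S : Sch N) (w : List (Lt N)) (b : Lt N) (hr : Red (w ++ [b])) :
    ContinuousOn (mob (S.mat w)) (S.A b) := by
  have h : ∀ x ∈ S.A b, S.mat w 1 0 * x + S.mat w 1 1 ≠ 0 := fun x hx => S.den_mat_ne w b hr x hx
  unfold mob
  exact ContinuousOn.div (by fun_prop) (by fun_prop) h

theorem mob_mat_inj (S : Sch N) (w : List (Lt N)) (b : Lt N) (hr : Red (w ++ [b])) :
    Set.InjOn (mob (S.mat w)) (S.A b) := by
  intro x hx y hy h
  have hx' := S.den_mat_ne w b hr x hx
  have hy' := S.den_mat_ne w b hr y hy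
  have h1 := mob_sub (S.mat w) x y hx' hy'
  rw [h, sub_self] at h1
  have h2 : (S.mat w).det ≠ 0 := by
    have := S.det_mat w
    intro h0
    rw [h0, abs_zero] at this
    exact zero_ne_one this
  have h4 := h1.symm
  rw [div_eq_zero_iff] at h4
  rcases h4 with h4 | h4
  · rcases mul_eq_zero.1 h4 with h5 | h5
    · exact absurd h5 h2
    · linarith
  · exact absurd h4 (mul_ne_zero hx' hy')

theorem meas_image (S : Sch N) (w : List (Lt N)) (b : Lt N) (hr : Red (w ++ [b])) (E : Set ℝ) (hE : E ⊆ S.A b)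
    (hE' : MeasurableSet E) : MeasurableSet (mob (S.mat w) '' E) :=
  hE'.image_of_continuousOn_injOn ((S.mob_mat_cont w b hr).mono hE) ((S.mob_mat_inj w b hr).mono hE)

theorem image_sub_head (S : Sch N) (w : List (Lt N)) (b : Lt N) (hr : Red (w ++ [b])) (E : Set ℝ) (hE : E ⊆ S.A b)
    (c : Lt N) (v : List (Lt N)) (hc : w ++ [b] = c :: v) : mob (S.mat w) '' E ⊆ S.A c := by
  have h1 : mob (S.mat w) '' E ⊆ S.I (w ++ [b]) := by
    rw [S.I_append w [b] (by simp) hr, S.I_one]
    exact Set.image_mono hE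
  rw [hc] at h1 hr
  exact h1.trans (S.I_subset_head c v hr)

/-- Induction on `w`: for `w = a :: w'`, `E' = mob (mat w') '' E ⊆ I (w' ++ [b]) ⊆ A (head)`, by `conf` for `a` the integral over `mob (M a) '' E'` of `h` is the integral over `E'` of
`h (f_a x) |den_a x|^(-2δ)`, apply the induction hypothesis to this function; `den (mat (a :: w')) x = den_a (mob (mat w') x) den (mat w') x` (`den_mul`) and
`mob (mat (a :: w')) x = mob (M a) (mob (mat w') x)`. `E'` is measurable: image of a measurable set under a map which is injective and continuous on `A b`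
(`MeasurableSet.image_of_continuousOn_injOn`). -/
theorem conf_word (hm : S.IsConf δ m) (w : List (Lt N)) (b : Lt N) (hr : Red (w ++ [b])) (E : Set ℝ) (hE : E ⊆ S.A b)
    (hE' : MeasurableSet E) (h : ℝ → ENNReal) (hh : Measurable h) :
    ∫⁻ x in mob (S.mat w) '' E, h x ∂m =
      ∫⁻ x in E, h (mob (S.mat w) x) * ENNReal.ofReal (|den (S.mat w) x| ^ (-2 * δ)) ∂m := by
  induction w generalizing h with
  | nil =>
    simp
  | cons a w ih =>
    have hr' : Red (w ++ [b]) := by
      have : Red ([a] ++ (w ++ [b])) := hr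
      exact this.append_right
    obtain ⟨c, v, hc⟩ : ∃ c v, w ++ [b] = c :: v := List.exists_cons_of_ne_nil (by simp)
    have hca : c ≠ bar a := by
      have : Red (a :: (w ++ [b])) := hr
      rw [hc] at this
      exact ((red_cons_cons a c v).1 this).1
    have hsub := S.image_sub_head w b hr' E hE c v hc
    have hmeas := S.meas_image w b hr' E hE hE'
    have himg : mob (S.mat (a :: w)) '' E = mob (S.M a) '' (mob (S.mat w) '' E) := by
      rw [Set.image_image]
      refine Set.image_congr fun x hx => ?_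
      rw [S.mat_cons, mob_mul _ _ _ (S.den_mat_ne w b hr' x (hE hx))]
    rw [himg, hm.conf a c hca _ hsub hmeas h hh]
    rw [ih hr' (fun x => h (mob (S.M a) x) * ENNReal.ofReal (|den (S.M a) x| ^ (-2 * δ)))
      ((hh.comp (mob_measurable _)).mul (S.dens_measurable δ a).ennreal_ofReal)]
    refine setLIntegral_congr_fun hE' fun x hx => ?_
    have hx' := S.den_mat_ne w b hr' x (hE hx)
    rw [S.mat_cons, mob_mul _ _ _ hx', den_mul _ _ _ hx', abs_mul, Real.mul_rpow (abs_nonneg _) (abs_nonneg _),
      ENNReal.ofReal_mul (Real.rpow_nonneg (abs_nonneg _) _), mul_assoc]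

/-- `m (I (w v)) = ∫_{I v} |den_w|^{-2δ} dm = |c_w|^{-2δ} ∫_{I v} |x - p_w|^{-2δ} dm` (`h = 1`, `I_append`, `den_mat`; the integrand is
bounded on `I v ⊆ A (head v)`) -/
theorem mass_append (hm : S.IsConf δ m) (w v : List (Lt N)) (hw : w ≠ []) (hv : v ≠ []) (hr : Red (w ++ v)) :
    m.real (S.I (w ++ v)) = |S.cc w| ^ (-2 * δ) * ∫ x in S.I v, |x - S.pp w| ^ (-2 * δ) ∂m := by
  obtain ⟨b, v', rfl⟩ := List.exists_cons_of_ne_nil hv
  have hrw : Red w := hr.append_left
  have hrb : Red (w ++ [b]) := by
    have : Red ((w ++ [b]) ++ v') := by simpa using hr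
    exact this.append_left
  have hrv : Red (b :: v') := hr.append_right
  have hsub := S.I_subset_head b v' hrv
  have hmeas := meas_I S (b :: v') hrv
  have h1 := conf_word hm w b hrb (S.I (b :: v')) hsub hmeas (fun _ => 1) measurable_const
  rw [lintegral_const, one_mul, Measure.restrict_apply_univ, ← S.I_append w (b :: v') (by simp) hr] at h1
  have h2 : ∀ x, |S.cc w| ^ (-2 * δ) * |x - S.pp w| ^ (-2 * δ) = |den (S.mat w) x| ^ (-2 * δ) := by
    intro x
    rw [S.den_mat w hw hrw x, abs_mul, Real.mul_rpow (abs_nonneg _) (abs_nonneg _)]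
  rw [← integral_const_mul]
  simp_rw [h2]
  rw [integral_eq_lintegral_of_nonneg_ae]
  · unfold Measure.real
    rw [h1]
    simp
  · exact Filter.Eventually.of_forall fun x => Real.rpow_nonneg (abs_nonneg _) _
  · exact ((den_measurable (S.mat w)).abs.pow_const _).aestronglyMeasurable

end Sch

end Pool.Agent.DimDrop
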