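import Pool.Agent.Lib_MP_644907.CWa

/-!
# Piece CWB: the conformal measure is carried by the cylinders
-/

set_option autoImplicit false

namespace Pool.Agent.DimDrop

open Finset MeasureTheory Filter Topology

namespace Sch

variable {N : ℕ} {S : Sch N} {δ : ℝ} {m : Measure ℝ}

/-- `m` is carried by the cylinders of length `n`. `n = 1`: `supp`, `n = 2`: `full`. Step `n → n + 1`: for `w = w' ++ [b'] ∈ words n` the set
`I w \ ⋃_b I (w ++ [b])` is the image under `mob (mat w')` of `A b' \ ⋃_b I [b', b]`, a null set by `full`, so it is a null set by `conf_word` with `h = 1`. -/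
theorem supp_words (hm : S.IsConf δ m) (n : ℕ) (hn : 1 ≤ n) : m (⋃ w ∈ words N n, S.I w)ᶜ = 0 := by
  induction n, hn using Nat.le_induction with
  | base =>
    refine measure_mono_null ?_ hm.supp
    intro x hx hx0
    apply hx
    obtain ⟨a, ha⟩ := Set.mem_iUnion.1 hx0
    exact Set.mem_iUnion₂.2 ⟨[a], mem_words.2 ⟨red_one a, rfl⟩, ha⟩
  | succ n hn ih =>
    have key : ∀ w ∈ words N n, m (S.I w \ ⋃ v ∈ words N (n + 1), S.I v) = 0 := by
      intro w hw
      obtain ⟨hr, hl⟩ := mem_words.1 hw
      obtain ⟨w', b', rfl⟩ : ∃ w' b', w = w' ++ [b'] := by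
        rcases List.eq_nil_or_concat w with h | ⟨L, b, h⟩
        · subst h
          simp at hl
          omega
        · exact ⟨L, b, by simpa using h⟩
      set E : Set ℝ := S.A b' \ ⋃ v ∈ words N 2, S.I v with hE
      have hEm : MeasurableSet E := by
        refine measurableSet_Icc.diff ?_
        exact Finset.measurableSet_biUnion _ fun v hv => S.meas_I v (mem_words.1 hv).1
      have hE0 : m E = 0 := measure_mono_null (fun x hx => hx.2) hm.full
      have hEA : E ⊆ S.A b' := Set.sdiff_subset
      have h1 := conf_word hm w' b' hr E hEA hEm (fun _ => 1) measurable_const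
      have h2 : m (mob (S.mat w') '' E) = 0 := by
        have h3 : ∫⁻ x in mob (S.mat w') '' E, (1 : ENNReal) ∂m = m (mob (S.mat w') '' E) := by
          rw [lintegral_one, Measure.restrict_apply_univ]
        rw [← h3, h1]
        exact setLIntegral_measure_zero _ _ hE0
      refine measure_mono_null ?_ h2
      rintro x ⟨hx, hx'⟩
      rw [S.I_append w' [b'] (by simp) hr] at hx
      obtain ⟨y, hy, rfl⟩ := hx
      refine ⟨y, ⟨hy, fun hy' => hx' ?_⟩, rfl⟩
      obtain ⟨v, hv, hyv⟩ := Set.mem_iUnion₂.1 hy'
      obtain ⟨hvr, hvl⟩ := mem_words.1 hv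
      obtain ⟨a, b, rfl⟩ := List.length_eq_two.1 hvl
      have ha : a = b' := S.A_inj (S.I_subset_head a [b] hvr hyv) hy
      subst ha
      have hab : b ≠ bar a := ((red_cons_cons a b []).1 hvr).1
      have hr2 : Red (w' ++ [a] ++ [b]) := (red_append_iff w' [] a b).2 ⟨hr, hab, red_one b⟩
      have hr3 : Red (w' ++ [a, b]) := by
        have : w' ++ [a, b] = w' ++ [a] ++ [b] := by simp
        rw [this]
        exact hr2
      refine Set.mem_iUnion₂.2 ⟨w' ++ [a, b], mem_words.2 ⟨hr3, ?_⟩, ?_⟩
      · simp at hl ⊢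
        omega
      · rw [S.I_append w' [a, b] (by simp) hr3]
        exact ⟨y, hyv, rfl⟩
    refine measure_mono_null (t := (⋃ w ∈ words N n, S.I w)ᶜ ∪
      ⋃ w ∈ words N n, (S.I w \ ⋃ v ∈ words N (n + 1), S.I v)) ?_ ?_
    · intro x hx
      by_cases h : x ∈ ⋃ w ∈ words N n, S.I w
      · right
        obtain ⟨w, hw, hxw⟩ := Set.mem_iUnion₂.1 h
        exact Set.mem_iUnion₂.2 ⟨w, hw, hxw, hx⟩
      · left
        exact h
    · refine measure_union_null ih ?_
      exact (measure_biUnion_null_iff (Finset.countable_toSet _)).2 key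

open Classical in
/-- additivity: `I (w ++ [b]) ⊆ I w` disjoint, `supp_words` for `|w| + 1` (the cylinders of the other words of that length are disjoint from `I w`) -/
theorem mass_add (hm : S.IsConf δ m) (w : List (Lt N)) (hw : w ≠ []) (hr : Red w) :
    m.real (S.I w) = ∑ b ∈ univ.filter (fun b : Lt N => Red (w ++ [b])), m.real (S.I (w ++ [b])) := by
  haveI := hm.prob
  have hU : m.real (⋃ b ∈ univ.filter (fun b : Lt N => Red (w ++ [b])), S.I (w ++ [b])) =
      ∑ b ∈ univ.filter (fun b : Lt N => Red (w ++ [b])), m.real (S.I (w ++ [b])) := by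
    refine measureReal_biUnion_finset ?_ ?_
    · intro a ha b hb hab
      rw [Finset.coe_filter] at ha hb
      refine S.I_disjoint _ _ ha.2 hb.2 (by simp) ?_
      intro h
      apply hab
      have := List.append_cancel_left h
      simpa using this
    · intro b hb
      exact S.meas_I _ (Finset.mem_filter.1 hb).2
  rw [← hU]
  refine measureReal_congr ?_
  refine (ae_eq_set).2 ⟨?_, ?_⟩
  · refine measure_mono_null ?_ (supp_words hm (w.length + 1) (by omega))
    rintro x ⟨hx, hx'⟩ hx2
    apply hx'
    obtain ⟨v, hv, hxv⟩ := Set.mem_iUnion₂.1 hx2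
    obtain ⟨hvr, hvl⟩ := mem_words.1 hv
    obtain ⟨v', b, rfl⟩ : ∃ v' b, v = v' ++ [b] := by
      rcases List.eq_nil_or_concat v with h | ⟨L, b, h⟩
      · subst h
        simp at hvl
      · exact ⟨L, b, by simpa using h⟩
    have hl' : v'.length = w.length := by
      simp at hvl
      exact hvl
    have hv' : v' ≠ [] := by
      intro h
      subst h
      apply hw
      exact List.length_eq_zero_iff.1 hl'.symm
    have hvw : v' = w := by
      by_contra hne
      have hd := S.I_disjoint v' w hvr.append_left hr hl' hne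
      exact Set.disjoint_left.1 hd (S.I_append_subset v' [b] hv' hvr hxv) hx
    subst hvw
    exact Set.mem_iUnion₂.2 ⟨b, Finset.mem_filter.2 ⟨Finset.mem_univ _, hvr⟩, hxv⟩
  · have : (⋃ b ∈ univ.filter (fun b : Lt N => Red (w ++ [b])), S.I (w ++ [b])) \ S.I w = ∅ := by
      rw [Set.sdiff_eq_empty]
      refine Set.iUnion₂_subset fun b hb => ?_
      exact S.I_append_subset w [b] hw (Finset.mem_filter.1 hb).2
    rw [this, measure_empty]

end Sch

end Pool.Agent.DimDrop
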