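import Pool.Agent.Lib_MP_644907.CWa

/-!
# Piece CWC: the conformal measure of cylinders
-/

set_option autoImplicit false

namespace Pool.Agent.DimDrop

open Finset MeasureTheory Filter Topology

namespace Sch

variable {N : ℕ} {S : Sch N} {δ : ℝ} {m : Measure ℝ}

theorem cwc_last (w : List (Lt N)) (hw : w ≠ []) : ∃ w' b, w = w' ++ [b] := by
  rcases List.eq_nil_or_concat w with h | ⟨L, b, h⟩
  · exact absurd h hw
  · exact ⟨L, b, by simpa using h⟩

/-- the integral of the distance to the pole over the interval of an admissible letter -/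
theorem cwc_integrable (hm : S.IsConf δ m) (w : List (Lt N)) (c b : Lt N)
    (hr : Red (w ++ [c] ++ [b])) :
    IntegrableOn (fun x => |x - S.pp (w ++ [c])| ^ (-2 * δ)) (S.A b) m ∧
    ∀ x ∈ S.A b, 0 < |x - S.pp (w ++ [c])| := by
  have := hm.prob
  have hne : ∀ x ∈ S.A b, 0 < |x - S.pp (w ++ [c])| := by
    intro x hx
    have h1 := (red_append_iff w [] c b).1 hr
    have h2 := (S.pole_mem w c h1.1).2
    refine abs_pos.2 (sub_ne_zero.2 ?_)
    rintro rfl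
    exact h1.2.1 (S.A_inj hx h2)
  refine ⟨?_, hne⟩
  refine ContinuousOn.integrableOn_compact ?_ ?_
  · exact isCompact_Icc
  · intro x hx
    refine ContinuousAt.continuousWithinAt ?_
    refine ContinuousAt.rpow_const ?_ (Or.inl (hne x hx).ne')
    exact (continuous_abs.comp (continuous_id.sub continuous_const)).continuousAt

/-- `m (A b0) > 0` for some `b0` (`supp`, `prob`); for any `v = v' ++ [b]` choose a letter `c` with `v c b0` reduced (`bridge`), then by `mass_append`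
`m (I v) ≥ m (I (v c b0)) = |c_{vc}|^{-2δ} ∫_{A b0} |x - p|^{-2δ} dm > 0`. -/
theorem mass_pos (hN : 2 ≤ N) (hm : S.IsConf δ m) (w : List (Lt N)) (hr : Red w) : 0 < m.real (S.I w) := by
  have := hm.prob
  by_cases hw : w = []
  · subst hw
    have : S.I ([] : List (Lt N)) = Set.univ := rfl
    rw [this]
    simp
  obtain ⟨b0, hb0⟩ : ∃ b0, m (S.A b0) ≠ 0 := by
    by_contra hcon
    push Not at hcon
    have h1 : m S.K0 = 0 := by
      unfold K0
      exact measure_iUnion_null hcon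
    have h2 : m (S.K0 ∪ S.K0ᶜ) = 0 := measure_union_null h1 hm.supp
    rw [Set.union_compl_self] at h2
    simp at h2
  obtain ⟨w', b, rfl⟩ := cwc_last w hw
  obtain ⟨c, hc, hc'⟩ := bridge hN b b0
  have hr2 : Red (w' ++ [b] ++ [c]) := (red_append_iff w' [] b c).2 ⟨hr, hc, red_one c⟩
  have hr3 : Red (w' ++ [b] ++ [c] ++ [b0]) := (red_append_iff (w' ++ [b]) [] c b0).2 ⟨hr2, hc', red_one b0⟩
  have hr4 : Red (w' ++ [b] ++ [c, b0]) := by
    have : w' ++ [b] ++ [c, b0] = w' ++ [b] ++ [c] ++ [b0] := by simp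
    rw [this]
    exact hr3
  have hsub : S.I (w' ++ [b] ++ [c, b0]) ⊆ S.I (w' ++ [b]) := S.I_append_subset _ _ (by simp) hr4
  have hle : m.real (S.I (w' ++ [b] ++ [c, b0])) ≤ m.real (S.I (w' ++ [b])) := measureReal_mono hsub
  refine lt_of_lt_of_le ?_ hle
  have heq : w' ++ [b] ++ [c, b0] = (w' ++ [b] ++ [c]) ++ [b0] := by simp
  rw [heq, mass_append hm (w' ++ [b] ++ [c]) [b0] (by simp) (by simp) hr3]
  have hcc : S.cc (w' ++ [b] ++ [c]) ≠ 0 := S.cc_ne _ (by simp) hr2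
  refine mul_pos (Real.rpow_pos_of_pos (abs_pos.2 hcc) _) ?_
  obtain ⟨hint, hpos⟩ := cwc_integrable hm (w' ++ [b]) c b0 hr3
  rw [S.I_one]
  rw [setIntegral_pos_iff_support_of_nonneg_ae]
  · refine lt_of_lt_of_le (pos_iff_ne_zero.2 hb0) (measure_mono ?_)
    intro x hx
    refine ⟨?_, hx⟩
    exact (Real.rpow_pos_of_pos (hpos x hx) _).ne'
  · exact Filter.Eventually.of_forall fun x => Real.rpow_nonneg (abs_nonneg _) _
  · exact hint

/-- `w = w' ++ [b]`, `m (I w) = |c_{w'}|^{-2δ} ∫_{A b} |x - p_{w'}|^{-2δ} dm`, `g ≤ |x - p_{w'}| ≤ D`, `0 < m (A b) ≤ 1`, `cc_ratio`. -/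
theorem mass_bound (hN : 2 ≤ N) (hδ : 0 < δ) (hm : S.IsConf δ m) : ∃ C : ℝ, 0 < C ∧ ∀ w : List (Lt N), w ≠ [] → Red w →
    m.real (S.I w) ≤ C * |S.cc w| ^ (-2 * δ) ∧ |S.cc w| ^ (-2 * δ) ≤ C * m.real (S.I w) := by
  have := hm.prob
  obtain ⟨g, D, hg, hD, hgap, hdiam, hlen, hcg, hcD⟩ := S.consts
  obtain ⟨C0, hC0, hratio⟩ := S.cc_ratio
  -- the minimal mass of an interval
  obtain ⟨m0, hm0, hm0'⟩ : ∃ m0 : ℝ, 0 < m0 ∧ ∀ b, m0 ≤ m.real (S.A b) := by
    have hne : (Finset.univ : Finset (Lt N)).Nonempty := ⟨(⟨0, by omega⟩, true), Finset.mem_univ _⟩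
    obtain ⟨b, -, hb⟩ := Finset.exists_min_image Finset.univ (fun b : Lt N => m.real (S.A b)) hne
    refine ⟨m.real (S.A b), ?_, fun c => hb c (Finset.mem_univ c)⟩
    exact mass_pos hN hm [b] (red_one b)
  have hneg : -2 * δ ≤ 0 := by linarith
  -- `x ≤ y → y^(-2δ) ≤ x^(-2δ)`
  have hanti : ∀ x y : ℝ, 0 < x → x ≤ y → y ^ (-2 * δ) ≤ x ^ (-2 * δ) := fun x y hx hxy =>
    Real.rpow_le_rpow_of_nonpos hx hxy hneg
  have hK1 : 0 < C0 ^ (2 * δ) := Real.rpow_pos_of_pos hC0 _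
  have hK2 : 0 < g ^ (-2 * δ) := Real.rpow_pos_of_pos hg _
  have hK3 : 0 < D ^ (-2 * δ) := Real.rpow_pos_of_pos hD _
  have hK4 : 0 < D ^ (2 * δ) := Real.rpow_pos_of_pos hD _
  set C : ℝ := C0 ^ (2 * δ) * g ^ (-2 * δ) + C0 ^ (2 * δ) / (D ^ (-2 * δ) * m0) + D ^ (2 * δ) +
    g ^ (-2 * δ) / m0 with hC
  have hC1 : C0 ^ (2 * δ) * g ^ (-2 * δ) ≤ C := by
    have h1 : 0 < C0 ^ (2 * δ) / (D ^ (-2 * δ) * m0) := by positivity
    have h2 : 0 < g ^ (-2 * δ) / m0 := by positivity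
    rw [hC]
    linarith
  have hC2 : C0 ^ (2 * δ) / (D ^ (-2 * δ) * m0) ≤ C := by
    have h1 : 0 < C0 ^ (2 * δ) * g ^ (-2 * δ) := by positivity
    have h2 : 0 < g ^ (-2 * δ) / m0 := by positivity
    rw [hC]
    linarith
  have hC3 : D ^ (2 * δ) ≤ C := by
    have h1 : 0 < C0 ^ (2 * δ) * g ^ (-2 * δ) := by positivity
    have h1' : 0 < C0 ^ (2 * δ) / (D ^ (-2 * δ) * m0) := by positivity
    have h2 : 0 < g ^ (-2 * δ) / m0 := by positivity
    rw [hC]
    linarith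
  have hC4 : g ^ (-2 * δ) / m0 ≤ C := by
    have h1 : 0 < C0 ^ (2 * δ) * g ^ (-2 * δ) := by positivity
    have h1' : 0 < C0 ^ (2 * δ) / (D ^ (-2 * δ) * m0) := by positivity
    rw [hC]
    linarith
  have hCpos : 0 < C := lt_of_lt_of_le hK4 hC3
  refine ⟨C, hCpos, fun w hw hr => ?_⟩
  obtain ⟨w', b, rfl⟩ := cwc_last w hw
  by_cases hw' : w' = []
  · subst hw'
    have hI : S.I ([] ++ [b]) = S.A b := rfl
    rw [hI, List.nil_append]
    have h1 : m.real (S.A b) ≤ 1 := measureReal_le_one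
    have hcpos : 0 < |S.cc [b]| := lt_of_lt_of_le hg (hcg b)
    constructor
    · have h2 : D ^ (-2 * δ) ≤ |S.cc [b]| ^ (-2 * δ) := hanti _ _ hcpos (hcD b)
      have h3 : D ^ (2 * δ) * D ^ (-2 * δ) = 1 := by
        rw [← Real.rpow_add hD]
        have : 2 * δ + -2 * δ = 0 := by ring
        rw [this, Real.rpow_zero]
      calc m.real (S.A b) ≤ 1 := h1
        _ = D ^ (2 * δ) * D ^ (-2 * δ) := h3.symm
        _ ≤ C * |S.cc [b]| ^ (-2 * δ) := by
            exact mul_le_mul hC3 h2 hK3.le hCpos.le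
    · have h2 : |S.cc [b]| ^ (-2 * δ) ≤ g ^ (-2 * δ) := hanti _ _ hg (hcg b)
      calc |S.cc [b]| ^ (-2 * δ) ≤ g ^ (-2 * δ) := h2
        _ = g ^ (-2 * δ) / m0 * m0 := by field_simp
        _ ≤ C * m.real (S.A b) := mul_le_mul hC4 (hm0' b) hm0.le hCpos.le
  · obtain ⟨w'', c, rfl⟩ := cwc_last w' hw'
    obtain ⟨hint, hpos⟩ := cwc_integrable hm w'' c b hr
    have h1 := (red_append_iff w'' [] c b).1 hr
    have hpole := (S.pole_mem w'' c h1.1).2
    have hcc' : 0 < |S.cc (w'' ++ [c])| := abs_pos.2 (S.cc_ne _ (by simp) h1.1)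
    have hcc : 0 < |S.cc (w'' ++ [c] ++ [b])| := abs_pos.2 (S.cc_ne _ (by simp) hr)
    obtain ⟨hr1, hr2⟩ := hratio (w'' ++ [c]) b (by simp) hr
    have hlow : ∀ x ∈ S.A b, g ≤ |x - S.pp (w'' ++ [c])| := fun x hx =>
      hgap b (bar c) h1.2.1 x hx _ hpole
    have hup : ∀ x ∈ S.A b, |x - S.pp (w'' ++ [c])| ≤ D := fun x hx =>
      hdiam x (S.A_subset_K0 b hx) _ (S.A_subset_K0 _ hpole)
    have hmass := mass_append hm (w'' ++ [c]) [b] (by simp) (by simp) hr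
    rw [S.I_one] at hmass
    have hmeas : MeasurableSet (S.A b) := measurableSet_Icc
    have hub : ∫ x in S.A b, |x - S.pp (w'' ++ [c])| ^ (-2 * δ) ∂m ≤ g ^ (-2 * δ) := by
      calc ∫ x in S.A b, |x - S.pp (w'' ++ [c])| ^ (-2 * δ) ∂m
          ≤ ∫ x in S.A b, g ^ (-2 * δ) ∂m := by
            refine setIntegral_mono_on hint (integrable_const _) hmeas ?_
            intro x hx
            exact hanti _ _ hg (hlow x hx)
        _ = m.real (S.A b) * g ^ (-2 * δ) := by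
            rw [setIntegral_const, smul_eq_mul]
        _ ≤ 1 * g ^ (-2 * δ) := by
            refine mul_le_mul_of_nonneg_right ?_ hK2.le
            exact measureReal_le_one
        _ = g ^ (-2 * δ) := one_mul _
    have hlb : D ^ (-2 * δ) * m0 ≤ ∫ x in S.A b, |x - S.pp (w'' ++ [c])| ^ (-2 * δ) ∂m := by
      calc D ^ (-2 * δ) * m0 ≤ m.real (S.A b) * D ^ (-2 * δ) := by
            rw [mul_comm]
            exact mul_le_mul_of_nonneg_right (hm0' b) hK3.le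
        _ = ∫ x in S.A b, D ^ (-2 * δ) ∂m := by
            rw [setIntegral_const, smul_eq_mul]
        _ ≤ ∫ x in S.A b, |x - S.pp (w'' ++ [c])| ^ (-2 * δ) ∂m := by
            refine setIntegral_mono_on (integrable_const _) hint hmeas ?_
            intro x hx
            exact hanti _ _ (hpos x hx) (hup x hx)
    -- comparison of `cc`
    have hA : |S.cc (w'' ++ [c])| ^ (-2 * δ) ≤ C0 ^ (2 * δ) * |S.cc (w'' ++ [c] ++ [b])| ^ (-2 * δ) := by
      have h2 : |S.cc (w'' ++ [c] ++ [b])| / C0 ≤ |S.cc (w'' ++ [c])| := by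
        rw [div_le_iff₀ hC0]
        linarith
      have h3 := hanti _ _ (div_pos hcc hC0) h2
      rw [Real.div_rpow hcc.le hC0.le] at h3
      have h4 : C0 ^ (-2 * δ) = (C0 ^ (2 * δ))⁻¹ := by
        rw [← Real.rpow_neg hC0.le]
        congr 1
        ring
      rw [h4] at h3
      rw [div_inv_eq_mul] at h3
      linarith
    have hB : |S.cc (w'' ++ [c] ++ [b])| ^ (-2 * δ) ≤ C0 ^ (2 * δ) * |S.cc (w'' ++ [c])| ^ (-2 * δ) := by
      have h2 : |S.cc (w'' ++ [c])| / C0 ≤ |S.cc (w'' ++ [c] ++ [b])| := by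
        rw [div_le_iff₀ hC0]
        linarith
      have h3 := hanti _ _ (div_pos hcc' hC0) h2
      rw [Real.div_rpow hcc'.le hC0.le] at h3
      have h4 : C0 ^ (-2 * δ) = (C0 ^ (2 * δ))⁻¹ := by
        rw [← Real.rpow_neg hC0.le]
        congr 1
        ring
      rw [h4] at h3
      rw [div_inv_eq_mul] at h3
      linarith
    have hp' : 0 < |S.cc (w'' ++ [c])| ^ (-2 * δ) := Real.rpow_pos_of_pos hcc' _
    have hp : 0 < |S.cc (w'' ++ [c] ++ [b])| ^ (-2 * δ) := Real.rpow_pos_of_pos hcc _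
    rw [hmass]
    constructor
    · calc |S.cc (w'' ++ [c])| ^ (-2 * δ) * ∫ x in S.A b, |x - S.pp (w'' ++ [c])| ^ (-2 * δ) ∂m
          ≤ (C0 ^ (2 * δ) * |S.cc (w'' ++ [c] ++ [b])| ^ (-2 * δ)) * g ^ (-2 * δ) := by
            refine mul_le_mul hA hub ?_ (by positivity)
            exact le_trans (by positivity) hlb
        _ = (C0 ^ (2 * δ) * g ^ (-2 * δ)) * |S.cc (w'' ++ [c] ++ [b])| ^ (-2 * δ) := by ring
        _ ≤ C * |S.cc (w'' ++ [c] ++ [b])| ^ (-2 * δ) := mul_le_mul_of_nonneg_right hC1 hp.le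
    · calc |S.cc (w'' ++ [c] ++ [b])| ^ (-2 * δ) ≤ C0 ^ (2 * δ) * |S.cc (w'' ++ [c])| ^ (-2 * δ) := hB
        _ = C0 ^ (2 * δ) / (D ^ (-2 * δ) * m0) * (|S.cc (w'' ++ [c])| ^ (-2 * δ) * (D ^ (-2 * δ) * m0)) := by
            field_simp
        _ ≤ C * (|S.cc (w'' ++ [c])| ^ (-2 * δ) * ∫ x in S.A b, |x - S.pp (w'' ++ [c])| ^ (-2 * δ) ∂m) := by
            refine mul_le_mul hC2 ?_ (by positivity) hCpos.le
            exact mul_le_mul_of_nonneg_left hlb hp'.le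

end Sch

end Pool.Agent.DimDrop
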