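import Pool.Agent.Lib_MP_644907.ZnA

/-!
# Piece CONFA: the transfer operator
-/

set_option autoImplicit false

namespace Pool.Agent.DimDrop

open Finset MeasureTheory Filter Topology

/-- words of length `n + 1` by the first letter -/
theorem sum_words_cons {N : ℕ} (n : ℕ) (F : List (Lt N) → ℝ) [DecidablePred fun w : List (Lt N) => Red w] :
    ∑ u ∈ words N (n + 1), F u = ∑ w ∈ words N n, ∑ a : Lt N, if Red (a :: w) then F (a :: w) else 0 := by
  classical
  rw [← Finset.sum_product', ← Finset.sum_filter]
  symm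
  apply Finset.sum_bij (fun (p : List (Lt N) × Lt N) _ => p.2 :: p.1)
  · rintro ⟨w, a⟩ hp
    rw [Finset.mem_filter, Finset.mem_product, mem_words] at hp
    rw [mem_words]
    exact ⟨hp.2, by simp [hp.1.1.2]⟩
  · rintro ⟨w, a⟩ _ ⟨w', a'⟩ _ h
    simp only [List.cons.injEq] at h
    rw [h.1, h.2]
  · intro u hu
    rw [mem_words] at hu
    obtain ⟨hu1, hu2⟩ := hu
    cases u with
    | nil => simp at hu2
    | cons a w =>
      refine ⟨(w, a), ?_, rfl⟩
      rw [Finset.mem_filter, Finset.mem_product, mem_words]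
      refine ⟨⟨⟨?_, by simpa using hu2⟩, Finset.mem_univ a⟩, hu1⟩
      exact Red.append_right (w := [a]) (v := w) hu1
  · rintro ⟨w, a⟩ _
    rfl

namespace Sch

variable {N : ℕ} (S : Sch N)

open Classical in
/-- the transfer operator -/
noncomputable def Lop (δ : ℝ) (h : ℝ → ℝ) (x : ℝ) : ℝ :=
  ∑ a : Lt N, ∑ b ∈ univ.filter (fun b => b ≠ bar a),
    (S.A b).indicator (fun x => |den (S.M a) x| ^ (-2 * δ) * h (mob (S.M a) x)) x

/-- `J n h = ∑_{|w| = n} |c_w|^{-2δ} h (q_w)` -/
noncomputable def J (δ : ℝ) (n : ℕ) (h : ℝ → ℝ) : ℝ := ∑ w ∈ words N n, |S.cc w| ^ (-2 * δ) * h (S.qq w)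

/-- `J (n+1) h = J n (L h)`: `words (n+1)` are the `a :: w` with `w ∈ words n`, `head w ≠ bar a`, `q_{aw} = f_a (q_w)`, `c_{aw} = den_a (q_w) c_w` (`qq_cons`)
and `q_w ∈ A b` exactly for `b = head w` (`qq_mem`) -/
theorem J_succ (δ : ℝ) (n : ℕ) (hn : 1 ≤ n) (h : ℝ → ℝ) : S.J δ (n + 1) h = S.J δ n (S.Lop δ h) := by
  classical
  unfold J
  rw [sum_words_cons]
  apply Finset.sum_congr rfl
  intro w hw
  rw [mem_words] at hw
  obtain ⟨hw1, hw2⟩ := hw
  cases w with
  | nil => simp at hw2; omega
  | cons b w =>
    have hq : S.qq (b :: w) ∈ S.A b := S.qq_mem b w hw1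
    unfold Lop
    rw [Finset.mul_sum]
    apply Finset.sum_congr rfl
    intro a _
    by_cases hab : b = bar a
    · have h1 : ¬ Red (a :: b :: w) := by
        rw [red_cons_cons]
        exact fun hh => hh.1 hab
      rw [if_neg h1]
      have h2 : ∑ b' ∈ univ.filter (fun b' => b' ≠ bar a),
          (S.A b').indicator (fun x => |den (S.M a) x| ^ (-2 * δ) * h (mob (S.M a) x)) (S.qq (b :: w)) = 0 := by
        apply Finset.sum_eq_zero
        intro b' hb'
        rw [Finset.mem_filter] at hb'
        rw [Set.indicator_of_notMem]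
        intro hmem
        exact hb'.2 ((S.A_inj hmem hq).trans hab)
      rw [h2, mul_zero]
    · have h1 : Red (a :: b :: w) := by
        rw [red_cons_cons]
        exact ⟨hab, hw1⟩
      rw [if_pos h1]
      obtain ⟨e1, e2⟩ := S.qq_cons a (b :: w) (List.cons_ne_nil _ _) h1
      have h2 : ∑ b' ∈ univ.filter (fun b' => b' ≠ bar a),
          (S.A b').indicator (fun x => |den (S.M a) x| ^ (-2 * δ) * h (mob (S.M a) x)) (S.qq (b :: w)) =
          |den (S.M a) (S.qq (b :: w))| ^ (-2 * δ) * h (mob (S.M a) (S.qq (b :: w))) := by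
        rw [Finset.sum_eq_single b]
        · rw [Set.indicator_of_mem hq]
        · intro b' _ hb'
          rw [Set.indicator_of_notMem]
          intro hmem
          exact hb' (S.A_inj hmem hq)
        · intro hb
          exact absurd (Finset.mem_filter.2 ⟨Finset.mem_univ b, hab⟩) hb
      rw [h2, e1, e2, abs_mul, Real.mul_rpow (abs_nonneg _) (abs_nonneg _)]
      ring

/-- `L h` is continuous on `K0` if `h` is (the intervals are disjoint and closed, `den` does not vanish, `mob` continuous) -/
theorem Lop_cont (δ : ℝ) (h : ℝ → ℝ) (hh : ContinuousOn h S.K0) : ContinuousOn (S.Lop δ h) S.K0 := by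
  classical
  unfold Lop
  apply continuousOn_finsetSum
  intro a _
  apply continuousOn_finsetSum
  intro b hb
  rw [Finset.mem_filter] at hb
  unfold K0
  apply LocallyFinite.continuousOn_iUnion (locallyFinite_of_finite _) (fun c => isClosed_Icc)
  intro c
  by_cases hcb : c = b
  · subst hcb
    have hden : ∀ x ∈ S.A c, den (S.M a) x ≠ 0 := by
      intro x hx
      apply S.den_M_ne
      intro hx'
      exact hb.2 (S.A_inj hx hx')
    have hdc : Continuous (fun x => den (S.M a) x) := by
      unfold den
      fun_prop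
    have hmc : ContinuousOn (fun x => mob (S.M a) x) (S.A c) := by
      unfold mob
      apply ContinuousOn.div
      · fun_prop
      · fun_prop
      · exact hden
    have hg : ContinuousOn (fun x => |den (S.M a) x| ^ (-2 * δ) * h (mob (S.M a) x)) (S.A c) := by
      apply ContinuousOn.mul
      · apply ContinuousOn.rpow_const
        · exact hdc.abs.continuousOn
        · intro x hx
          left
          exact abs_ne_zero.2 (hden x hx)
      · apply hh.comp hmc
        intro x hx
        exact S.A_subset_K0 a (S.maps a c hb.2 x hx)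
    apply hg.congr
    intro x hx
    rw [Set.indicator_of_mem hx]
  · apply (continuousOn_const (c := (0 : ℝ))).congr
    intro x hx
    rw [Set.indicator_of_notMem]
    intro hx'
    exact hcb (S.A_inj hx hx')

end Sch

end Pool.Agent.DimDrop
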