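import Pool.Agent.Lib_MP_644907.ConfA

/-!
# Piece CONFB: averaged measures
-/

set_option autoImplicit false

namespace Pool.Agent.DimDrop

open Finset MeasureTheory Filter Topology

namespace Sch

variable {N : ℕ} (S : Sch N)

/-- the averaged measures `μ_n = (∑_{k=1}^n ∑_{|w|=k} |c_w|^{-2δ} δ_{q_w}) / (∑_{k=1}^n Z k δ)`: probability measures on `K0`
with `∫ h dμ_n = (∑_{k=1}^n J k h) / ∑_{k=1}^n Z k δ` -/
theorem exists_avg (hN : 2 ≤ N) (δ : ℝ) (n : ℕ) (hn : 1 ≤ n) : ∃ μ : ProbabilityMeasure ℝ,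
    (μ : Measure ℝ) S.K0ᶜ = 0 ∧ ∀ h : ℝ → ℝ, ∫ x, h x ∂(μ : Measure ℝ) =
      (∑ k ∈ Finset.Icc 1 n, S.J δ k h) / ∑ k ∈ Finset.Icc 1 n, S.Z k δ := by
  classical
  set Zt : ℝ := ∑ k ∈ Finset.Icc 1 n, S.Z k δ with hZt
  have hZpos : 0 < Zt := by
    apply Finset.sum_pos
    · intro k hk
      exact S.Z_pos hN k (Finset.mem_Icc.1 hk).1 δ
    · exact ⟨1, Finset.mem_Icc.2 ⟨le_rfl, hn⟩⟩
  set I : Finset (Σ _ : ℕ, List (Lt N)) := (Finset.Icc 1 n).sigma (fun k => words N k) with hI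
  set c : (Σ _ : ℕ, List (Lt N)) → ℝ := fun p => |S.cc p.2| ^ (-2 * δ) / Zt with hc
  have hc0 : ∀ p, 0 ≤ c p := fun p => div_nonneg (Real.rpow_nonneg (abs_nonneg _) _) hZpos.le
  set μ : Measure ℝ := ∑ p ∈ I, ENNReal.ofReal (c p) • Measure.dirac (S.qq p.2) with hμ
  have hsum : ∀ g : List (Lt N) → ℝ, ∑ p ∈ I, c p * g p.2 =
      (∑ k ∈ Finset.Icc 1 n, ∑ w ∈ words N k, |S.cc w| ^ (-2 * δ) * g w) / Zt := by
    intro g
    rw [hI, Finset.sum_sigma, Finset.sum_div]
    apply Finset.sum_congr rfl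
    intro k _
    rw [Finset.sum_div]
    apply Finset.sum_congr rfl
    intro w _
    rw [hc]
    ring
  have hmass : ∑ p ∈ I, c p = 1 := by
    have := hsum (fun _ => 1)
    simp only [mul_one] at this
    rw [this]
    exact div_self hZpos.ne'
  have huniv : μ Set.univ = 1 := by
    rw [hμ, Measure.finsetSum_apply]
    simp only [Measure.smul_apply, measure_univ, smul_eq_mul, mul_one]
    rw [← ENNReal.ofReal_sum_of_nonneg (fun p _ => hc0 p), hmass, ENNReal.ofReal_one]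
  have hprob : IsProbabilityMeasure μ := ⟨huniv⟩
  refine ⟨⟨μ, hprob⟩, ?_, ?_⟩
  · show μ S.K0ᶜ = 0
    rw [hμ, Measure.finsetSum_apply]
    apply Finset.sum_eq_zero
    rintro ⟨k, w⟩ hp
    rw [hI, Finset.mem_sigma, Finset.mem_Icc, mem_words] at hp
    obtain ⟨⟨hk1, _⟩, hw1, hw2⟩ := hp
    simp only at hk1 hw1 hw2
    have hmem : S.qq w ∈ S.K0 := by
      cases w with
      | nil => simp at hw2; omega
      | cons a w => exact S.A_subset_K0 a (S.qq_mem a w hw1)
    rw [Measure.smul_apply, Measure.dirac_apply' _ S.isCompact_K0.isClosed.measurableSet.compl,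
      Set.indicator_of_notMem (by simpa using hmem)]
    simp
  · intro h
    show ∫ x, h x ∂μ = _
    rw [hμ, integral_finsetSum_measure]
    · have e : ∀ p ∈ I, ∫ x, h x ∂(ENNReal.ofReal (c p) • Measure.dirac (S.qq p.2)) =
          c p * h (S.qq p.2) := by
        intro p _
        rw [integral_smul_measure, integral_dirac, ENNReal.toReal_ofReal (hc0 p), smul_eq_mul]
      rw [Finset.sum_congr rfl e]
      exact hsum (fun w => h (S.qq w))
    · intro p _
      apply Integrable.smul_measure _ ENNReal.ofReal_ne_top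
      exact integrable_dirac (by finiteness)

end Sch

end Pool.Agent.DimDrop
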