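import Pool.Agent.Lib_MP_644907.ConfB

/-!
# Piece CONFC: a limit measure invariant under the dual transfer operator
-/

set_option autoImplicit false

namespace Pool.Agent.DimDrop

open Finset MeasureTheory Filter Topology

namespace Sch

variable {N : ℕ} (S : Sch N)

private theorem ConfC_J_bound (δ B : ℝ) (h : ℝ → ℝ) (hB : ∀ x ∈ S.K0, |h x| ≤ B) (k : ℕ)
    (hk : 1 ≤ k) : |S.J δ k h| ≤ B * S.Z k δ := by
  unfold J Z
  rw [Finset.mul_sum]
  refine (Finset.abs_sum_le_sum_abs _ _).trans (Finset.sum_le_sum ?_)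
  intro w hw
  obtain ⟨hr, hl⟩ := mem_words.mp hw
  obtain ⟨a, v, rfl⟩ : ∃ a v, w = a :: v := by
    cases w with
    | nil => simp at hl; omega
    | cons a v => exact ⟨a, v, rfl⟩
  have hq := S.A_subset_K0 a (S.qq_mem a v hr)
  rw [abs_mul, abs_of_nonneg (Real.rpow_nonneg (abs_nonneg _) _), mul_comm]
  exact mul_le_mul_of_nonneg_right (hB _ hq) (Real.rpow_nonneg (abs_nonneg _) _)

private theorem ConfC_tele (f : ℕ → ℝ) (n : ℕ) :
    ∑ k ∈ Finset.Icc 1 (n + 1), (f k - f (k + 1)) = f 1 - f (n + 2) := by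
  induction n with
  | zero => simp
  | succ n ih =>
    rw [Finset.sum_Icc_succ_top (by omega), ih]
    ring

private theorem ConfC_ext {K : Set ℝ} (hK : IsCompact K) (h : ℝ → ℝ) (hh : ContinuousOn h K) :
    ∃ g : BoundedContinuousFunction ℝ ℝ, ∀ x ∈ K, g x = h x := by
  have : CompactSpace K := isCompact_iff_compactSpace.mp hK
  let f0 : BoundedContinuousFunction K ℝ := BoundedContinuousFunction.mkOfCompact
    ⟨fun x : K => h x, hh.comp_continuous continuous_subtype_val (fun x => x.2)⟩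
  obtain ⟨g, -, hg⟩ := BoundedContinuousFunction.exists_norm_eq_domRestrict_eq_of_closed f0
    hK.isClosed
  refine ⟨g, fun x hx => ?_⟩
  have := DFunLike.congr_fun hg ⟨x, hx⟩
  simpa [f0] using this

/-- a limit point: the finite measures of mass `≤ 1` on the compact set `K0` are a compact set
(`isCompact_setOfPred_finiteMeasure_le_of_isCompact` in `Mathlib/MeasureTheory/Measure/Prokhorov.lean`), take the limit of the measures of `exists_avg` along an
ultrafilter `≤ atTop` (`IsCompact.ultrafilter_le_nhds`). For `h` continuous on `K0`, extended to a bounded continuous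
function (Tietze), `∫ h dm = lim ∫ h dμ_n`, and the same for `L h`, with
`|∫ h dμ_n - ∫ L h dμ_n| = |J 1 h - J (n+1) h| / ∑_{k ≤ n} Z k δ ≤ 2 C sup |h| / (n / C) → 0`. -/
theorem exists_conf (hN : 2 ≤ N) (δ C : ℝ) (hC : 0 < C)
    (hZ : ∀ n, 1 ≤ n → C⁻¹ ≤ S.Z n δ ∧ S.Z n δ ≤ C) : ∃ m : Measure ℝ, IsProbabilityMeasure m ∧
    m S.K0ᶜ = 0 ∧ ∀ h : ℝ → ℝ, ContinuousOn h S.K0 → ∫ x, h x ∂m = ∫ x, S.Lop δ h x ∂m := by
  have hex := fun n : ℕ => S.exists_avg hN δ (n + 1) (by omega)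
  choose μ hμ0 hμ using hex
  have hKc := isCompact_setOfPred_probabilityMeasure_mass_eq_compl_isCompact_le (E := ℝ)
    (u := fun _ => 0) (K := fun _ => S.K0) tendsto_const_nhds (fun _ => S.isCompact_K0)
    (Or.inr monotone_const)
  let U : Ultrafilter ℕ := Filter.hyperfilter ℕ
  have hU : (U : Filter ℕ) ≤ atTop := Nat.hyperfilter_le_atTop
  obtain ⟨m, hm, hlim⟩ := hKc.ultrafilter_le_nhds (U.map μ) (by
    rw [le_principal_iff]
    apply Filter.mem_map.mpr
    apply Filter.univ_mem'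
    intro n k
    have := (ProbabilityMeasure.null_iff_toMeasure_null (μ n) S.K0ᶜ).mpr (hμ0 n)
    exact this.le)
  have htend : Tendsto μ U (𝓝 m) := hlim
  have hm0 : (m : Measure ℝ) S.K0ᶜ = 0 := by
    apply (ProbabilityMeasure.null_iff_toMeasure_null m S.K0ᶜ).mp
    exact nonpos_iff_eq_zero.mp (hm 0)
  rw [ProbabilityMeasure.tendsto_iff_forall_integral_tendsto] at htend
  have hconv : ∀ h : ℝ → ℝ, ContinuousOn h S.K0 →
      Tendsto (fun n => ∫ x, h x ∂(μ n : Measure ℝ)) U (𝓝 (∫ x, h x ∂(m : Measure ℝ))) := by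
    intro h hh
    obtain ⟨g, hg⟩ := ConfC_ext S.isCompact_K0 h hh
    have e : ∀ ν : Measure ℝ, ν S.K0ᶜ = 0 → ∫ x, h x ∂ν = ∫ x, g x ∂ν := by
      intro ν hν
      apply integral_congr_ae
      have h1 : ∀ᵐ x ∂ν, x ∈ S.K0 := by
        rw [ae_iff]; exact hν
      filter_upwards [h1] with x hx
      exact (hg x hx).symm
    have h2 := htend g
    rw [e _ hm0]
    refine h2.congr (fun n => ?_)
    exact (e _ (hμ0 n)).symm
  refine ⟨(m : Measure ℝ), inferInstance, hm0, ?_⟩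
  intro h hh
  obtain ⟨B, hB⟩ := S.isCompact_K0.exists_bound_of_continuousOn hh
  have hB0 : 0 ≤ |B| := abs_nonneg B
  have hBb : ∀ x ∈ S.K0, |h x| ≤ |B| := fun x hx => (hB x hx).trans (le_abs_self B)
  have hsum : ∀ n : ℕ, ((n : ℝ) + 1) * C⁻¹ ≤ ∑ k ∈ Finset.Icc 1 (n + 1), S.Z k δ := by
    intro n
    calc ((n : ℝ) + 1) * C⁻¹ = ∑ k ∈ Finset.Icc 1 (n + 1), C⁻¹ := by
          rw [Finset.sum_const, Nat.card_Icc, nsmul_eq_mul]; push_cast; ring
      _ ≤ _ := Finset.sum_le_sum fun k hk => (hZ k (Finset.mem_Icc.mp hk).1).1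
  have hdiff : ∀ n : ℕ, |(∫ x, h x ∂(μ n : Measure ℝ)) - ∫ x, S.Lop δ h x ∂(μ n : Measure ℝ)| ≤
      2 * |B| * C * C * (1 / ((n : ℝ) + 1)) := by
    intro n
    have hpos : 0 < ((n : ℝ) + 1) * C⁻¹ := by positivity
    have hs := hsum n
    have hspos : 0 < ∑ k ∈ Finset.Icc 1 (n + 1), S.Z k δ := lt_of_lt_of_le hpos hs
    rw [hμ n h, hμ n (S.Lop δ h), ← sub_div, ← Finset.sum_sub_distrib]
    have e1 : ∑ k ∈ Finset.Icc 1 (n + 1), (S.J δ k h - S.J δ k (S.Lop δ h)) =
        S.J δ 1 h - S.J δ (n + 2) h := by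
      rw [← ConfC_tele (fun k => S.J δ k h) n]
      apply Finset.sum_congr rfl
      intro k hk
      rw [S.J_succ δ k (Finset.mem_Icc.mp hk).1 h]
    rw [e1, abs_div, abs_of_pos hspos, div_le_iff₀ hspos]
    have h1 : |S.J δ 1 h| ≤ |B| * C :=
      (S.ConfC_J_bound δ |B| h hBb 1 le_rfl).trans
        (mul_le_mul_of_nonneg_left (hZ 1 le_rfl).2 hB0)
    have h2 : |S.J δ (n + 2) h| ≤ |B| * C :=
      (S.ConfC_J_bound δ |B| h hBb (n + 2) (by omega)).trans
        (mul_le_mul_of_nonneg_left (hZ (n + 2) (by omega)).2 hB0)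
    have h3 : |S.J δ 1 h - S.J δ (n + 2) h| ≤ 2 * |B| * C := by
      refine (abs_sub _ _).trans ?_
      linarith
    refine h3.trans ?_
    have h4 : 2 * |B| * C * C * (1 / ((n : ℝ) + 1)) * (((n : ℝ) + 1) * C⁻¹) = 2 * |B| * C := by
      have : (n : ℝ) + 1 ≠ 0 := by positivity
      field_simp
    refine h4.symm.le.trans (mul_le_mul_of_nonneg_left hs ?_)
    positivity
  have hz : Tendsto (fun n : ℕ => (∫ x, h x ∂(μ n : Measure ℝ)) -
      ∫ x, S.Lop δ h x ∂(μ n : Measure ℝ)) atTop (𝓝 0) := by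
    apply squeeze_zero_norm (a := fun n : ℕ => 2 * |B| * C * C * (1 / ((n : ℝ) + 1)))
    · intro n
      exact hdiff n
    · have := tendsto_one_div_add_atTop_nhds_zero_nat.const_mul (2 * |B| * C * C)
      rwa [mul_zero] at this
  have hz' := hz.mono_left hU
  have hz2 := (hconv h hh).sub (hconv _ (S.Lop_cont δ h hh))
  have := tendsto_nhds_unique hz' hz2
  linarith

end Sch

end Pool.Agent.DimDrop
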