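import Pool.Agent.Lib_MP_644907.ConfA

/-!
# Piece CONFD: conformal measures
-/

set_option autoImplicit false

namespace Pool.Agent.DimDrop

open Finset MeasureTheory Filter Topology

theorem mob_measurable (P : Matrix (Fin 2) (Fin 2) ℝ) : Measurable (mob P) := by
  unfold mob
  fun_prop

theorem den_measurable (P : Matrix (Fin 2) (Fin 2) ℝ) : Measurable (den P) := by
  unfold den
  fun_prop

namespace Sch

variable {N : ℕ} (S : Sch N)

/-- conformal measures -/
structure IsConf (δ : ℝ) (m : Measure ℝ) : Prop where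
  prob : IsProbabilityMeasure m
  supp : m S.K0ᶜ = 0
  full : m (⋃ w ∈ words N 2, S.I w)ᶜ = 0
  conf : ∀ a b : Lt N, b ≠ bar a → ∀ E : Set ℝ, E ⊆ S.A b → MeasurableSet E →
    ∀ h : ℝ → ENNReal, Measurable h → ∫⁻ x in mob (S.M a) '' E, h x ∂m =
      ∫⁻ x in E, h (mob (S.M a) x) * ENNReal.ofReal (|den (S.M a) x| ^ (-2 * δ)) ∂m

theorem den_M_ne' (a b : Lt N) (hb : b ≠ bar a) (x : ℝ) (hx : x ∈ S.A b) : den (S.M a) x ≠ 0 :=
  S.den_M_ne a x (fun h => hb (S.A_inj hx h))

theorem mob_cont_A (a b : Lt N) (hb : b ≠ bar a) : ContinuousOn (mob (S.M a)) (S.A b) := by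
  have h : ∀ x ∈ S.A b, S.M a 1 0 * x + S.M a 1 1 ≠ 0 := fun x hx => S.den_M_ne' a b hb x hx
  unfold mob
  exact ContinuousOn.div (by fun_prop) (by fun_prop) h

theorem dens_cont_A (δ : ℝ) (a b : Lt N) (hb : b ≠ bar a) :
    ContinuousOn (fun x => |den (S.M a) x| ^ (-2 * δ)) (S.A b) := by
  have h : ∀ x ∈ S.A b, |den (S.M a) x| ≠ 0 ∨ 0 ≤ -2 * δ :=
    fun x hx => Or.inl (abs_ne_zero.2 (S.den_M_ne' a b hb x hx))
  have h2 : ContinuousOn (fun x => |den (S.M a) x|) (S.A b) := by
    unfold den
    fun_prop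
  exact h2.rpow_const (fun x hx => by
    rcases h x hx with h | h
    · exact Or.inl h
    · exact Or.inl (abs_ne_zero.2 (S.den_M_ne' a b hb x hx)))

theorem mob_inj_A (a b b' : Lt N) (hb : b ≠ bar a) (hb' : b' ≠ bar a) (x y : ℝ) (hx : x ∈ S.A b)
    (hy : y ∈ S.A b') (h : mob (S.M a) x = mob (S.M a) y) : x = y := by
  have h1 := mob_sub (S.M a) x y (S.den_M_ne' a b hb x hx) (S.den_M_ne' a b' hb' y hy)
  rw [h, sub_self] at h1
  have h2 : (S.M a).det ≠ 0 := by
    have := S.det a
    intro h0
    rw [h0, abs_zero] at this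
    exact zero_ne_one this
  have h3 : den (S.M a) x * den (S.M a) y ≠ 0 :=
    mul_ne_zero (S.den_M_ne' a b hb x hx) (S.den_M_ne' a b' hb' y hy)
  have h4 := h1.symm
  rw [div_eq_zero_iff] at h4
  rcases h4 with h4 | h4
  · rcases mul_eq_zero.1 h4 with h5 | h5
    · exact absurd h5 h2
    · linarith
  · exact absurd h4 h3

theorem mob_maps_A (a b : Lt N) (hb : b ≠ bar a) (x : ℝ) (hx : x ∈ S.A b) : mob (S.M a) x ∈ S.A a :=
  S.maps a b hb x hx

/-- the piece of the dual operator for the letters `a`, `b` -/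
noncomputable def nuab (δ : ℝ) (m : Measure ℝ) (a b : Lt N) : Measure ℝ :=
  ((m.restrict (S.A b)).withDensity
    (fun x => ENNReal.ofReal (|den (S.M a) x| ^ (-2 * δ)))).map (mob (S.M a))

theorem dens_measurable (δ : ℝ) (a : Lt N) : Measurable (fun x => |den (S.M a) x| ^ (-2 * δ)) := by
  have h : Measurable (fun x => |den (S.M a) x|) := (den_measurable (S.M a)).abs
  exact h.pow_const _

theorem nuab_fin (δ : ℝ) (m : Measure ℝ) [IsProbabilityMeasure m] (a b : Lt N) (hb : b ≠ bar a) :
    IsFiniteMeasure (S.nuab δ m a b) := by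
  have h1 : IntegrableOn (fun x => |den (S.M a) x| ^ (-2 * δ)) (S.A b) m :=
    (S.dens_cont_A δ a b hb).integrableOn_compact isCompact_Icc
  have h2 : IsFiniteMeasure ((m.restrict (S.A b)).withDensity
      (fun x => ENNReal.ofReal (|den (S.M a) x| ^ (-2 * δ)))) :=
    isFiniteMeasure_withDensity_ofReal h1.2
  unfold nuab
  exact Measure.isFiniteMeasure_map _ _

theorem nuab_integral (δ : ℝ) (m : Measure ℝ) [IsProbabilityMeasure m] (a b : Lt N) (hb : b ≠ bar a)
    (h : ℝ → ℝ) (hh : Continuous h) :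
    ∫ x, h x ∂(S.nuab δ m a b) = ∫ x, (S.A b).indicator
      (fun x => |den (S.M a) x| ^ (-2 * δ) * h (mob (S.M a) x)) x ∂m := by
  have hm := S.dens_measurable δ a
  unfold nuab
  rw [integral_map (mob_measurable _).aemeasurable hh.aestronglyMeasurable]
  have hA : MeasurableSet (S.A b) := measurableSet_Icc
  rw [integral_indicator hA]
  rw [integral_withDensity_eq_integral_toReal_smul]
  · refine integral_congr_ae (Filter.Eventually.of_forall fun x => ?_)
    simp only [smul_eq_mul]
    rw [ENNReal.toReal_ofReal (Real.rpow_nonneg (abs_nonneg _) _)]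
  · exact hm.ennreal_ofReal
  · exact Filter.Eventually.of_forall fun x => ENNReal.ofReal_lt_top

theorem nuab_lintegral (δ : ℝ) (m : Measure ℝ) (a b : Lt N) (h : ℝ → ENNReal) (hh : Measurable h) (F : Set ℝ)
    (hF : MeasurableSet F) : ∫⁻ x in F, h x ∂(S.nuab δ m a b) =
      ∫⁻ x in (mob (S.M a) ⁻¹' F) ∩ S.A b, h (mob (S.M a) x) * ENNReal.ofReal (|den (S.M a) x| ^ (-2 * δ)) ∂m := by
  have hm := (S.dens_measurable δ a).ennreal_ofReal
  unfold nuab
  rw [setLIntegral_map hF hh (mob_measurable _)]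
  have h1 := setLIntegral_withDensity_eq_setLIntegral_mul (m.restrict (S.A b)) hm (hh.comp (mob_measurable (S.M a)))
    (mob_measurable (S.M a) hF)
  simp only [Function.comp_def] at h1
  rw [h1, Measure.restrict_restrict (mob_measurable _ hF)]
  refine lintegral_congr fun x => ?_
  simp only [Pi.mul_apply]
  rw [mul_comm]

open Classical in
/-- the dual operator applied to `m` -/
noncomputable def nuu (δ : ℝ) (m : Measure ℝ) : Measure ℝ :=
  ∑ a : Lt N, ∑ b ∈ univ.filter (fun b => b ≠ bar a), S.nuab δ m a b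

theorem nuu_lintegral (δ : ℝ) (m : Measure ℝ) (h : ℝ → ENNReal) (hh : Measurable h) (F : Set ℝ)
    (hF : MeasurableSet F) : ∫⁻ x in F, h x ∂(S.nuu δ m) = ∑ a : Lt N, ∑ b ∈ univ.filter (fun b => b ≠ bar a),
      ∫⁻ x in (mob (S.M a) ⁻¹' F) ∩ S.A b, h (mob (S.M a) x) * ENNReal.ofReal (|den (S.M a) x| ^ (-2 * δ)) ∂m := by
  classical
  have key : ∀ (s : Finset (Lt N)) (μ : Lt N → Measure ℝ), ∫⁻ x in F, h x ∂(∑ i ∈ s, μ i) =
      ∑ i ∈ s, ∫⁻ x in F, h x ∂(μ i) := by
    intro s μ
    induction s using Finset.induction_on with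
    | empty => simp
    | insert i s hi ih =>
      rw [Finset.sum_insert hi, Finset.sum_insert hi, Measure.restrict_add, lintegral_add_measure, ih]
  unfold nuu
  rw [key]
  refine Finset.sum_congr rfl fun a _ => ?_
  rw [key]
  refine Finset.sum_congr (by congr) fun b _ => ?_
  exact S.nuab_lintegral δ m a b h hh F hF

theorem eq_nuu (δ : ℝ) (m : Measure ℝ) (hm : IsProbabilityMeasure m)
    (h : ∀ h : ℝ → ℝ, ContinuousOn h S.K0 → ∫ x, h x ∂m = ∫ x, S.Lop δ h x ∂m) : m = S.nuu δ m := by
  classical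
  have hfin : ∀ a : Lt N, ∀ b ∈ univ.filter (fun b => b ≠ bar a), IsFiniteMeasure (S.nuab δ m a b) :=
    fun a b hb => S.nuab_fin δ m a b (Finset.mem_filter.1 hb).2
  have hfin1 : ∀ a : Lt N, IsFiniteMeasure (∑ b ∈ univ.filter (fun b => b ≠ bar a), S.nuab δ m a b) := by
    intro a
    constructor
    rw [Measure.finsetSum_apply]
    exact ENNReal.sum_lt_top.2 fun b hb => by
      have := hfin a b hb
      exact measure_lt_top _ _
  have hfin2 : IsFiniteMeasure (S.nuu δ m) := by
    constructor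
    unfold nuu
    rw [Measure.finsetSum_apply]
    exact ENNReal.sum_lt_top.2 fun b hb => by
      have := hfin1 b
      exact measure_lt_top _ _
  refine ext_of_forall_integral_eq_of_IsFiniteMeasure fun g => ?_
  rw [h g g.continuous.continuousOn]
  unfold nuu Lop
  rw [integral_finsetSum_measure]
  · have hint : ∀ a : Lt N, ∀ b ∈ univ.filter (fun b => b ≠ bar a), Integrable (fun x => (S.A b).indicator
        (fun x => |den (S.M a) x| ^ (-2 * δ) * g (mob (S.M a) x)) x) m := by
      intro a b hb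
      have hb' := (Finset.mem_filter.1 hb).2
      have h1 : IntegrableOn (fun x => |den (S.M a) x| ^ (-2 * δ) * g (mob (S.M a) x)) (S.A b) m := by
        exact ((S.dens_cont_A δ a b hb').mul (g.continuous.comp_continuousOn (S.mob_cont_A a b hb'))).integrableOn_compact
          isCompact_Icc
      exact h1.integrable_indicator measurableSet_Icc
    rw [integral_finsetSum]
    · refine Finset.sum_congr rfl fun a _ => ?_
      rw [integral_finsetSum_measure]
      · rw [integral_finsetSum]
        · refine Finset.sum_congr (by congr) fun b hb => ?_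
          exact (S.nuab_integral δ m a b (Finset.mem_filter.1 hb).2 g g.continuous).symm
        · intro b hb
          exact hint a b (by simpa using hb)
      · intro b hb
        have := hfin a b (by simpa using hb)
        exact BoundedContinuousFunction.integrable _ g
    · intro a _
      refine integrable_finsetSum _ fun b hb => ?_
      exact hint a b (by simpa using hb)
  · intro a _
    have := hfin1 a
    have h3 : IsFiniteMeasure (∑ b ∈ univ.filter (fun b => b ≠ bar a), S.nuab δ m a b) := this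
    convert BoundedContinuousFunction.integrable (∑ b ∈ univ.filter (fun b => b ≠ bar a), S.nuab δ m a b) g

/-- By `ext_of_forall_integral_eq_of_IsFiniteMeasure` the measure `m` equals the sum over `a` and `b ≠ bar a` of the images under `mob (M a)` of
`|den (M a)|^(-2δ) m` restricted to `A b` (both have the same integral for bounded continuous `h`). For `E ⊆ A b`, `b ≠ bar a`, only the term `(a, b)` contributes
to `mob (M a) '' E` (`mob (M a') (A b') ⊆ A a'` is disjoint from `A a` for `a' ≠ a`, and `mob (M a)` is injective outside `A (bar a)`). `full`: all these images are carried by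
the cylinders `I [a, b]`. -/
theorem conf_of_integral (δ : ℝ) (m : Measure ℝ) (hm : IsProbabilityMeasure m) (h0 : m S.K0ᶜ = 0)
    (h : ∀ h : ℝ → ℝ, ContinuousOn h S.K0 → ∫ x, h x ∂m = ∫ x, S.Lop δ h x ∂m) : S.IsConf δ m := by
  have heq := S.eq_nuu δ m hm h
  have hlin : ∀ (g : ℝ → ENNReal), Measurable g → ∀ F : Set ℝ, MeasurableSet F → ∫⁻ x in F, g x ∂m =
      ∑ a : Lt N, ∑ b ∈ univ.filter (fun b => b ≠ bar a), ∫⁻ x in (mob (S.M a) ⁻¹' F) ∩ S.A b,
        g (mob (S.M a) x) * ENNReal.ofReal (|den (S.M a) x| ^ (-2 * δ)) ∂m := by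
    intro g hg F hF
    rw [← S.nuu_lintegral δ m g hg F hF, ← heq]
  have hmeasI : ∀ a b : Lt N, b ≠ bar a → ∀ E : Set ℝ, E ⊆ S.A b → MeasurableSet E → MeasurableSet (mob (S.M a) '' E) := by
    intro a b hb E hE hE'
    refine hE'.image_of_continuousOn_injOn ((S.mob_cont_A a b hb).mono hE) ?_
    intro x hx y hy hxy
    exact S.mob_inj_A a b b hb hb x y (hE hx) (hE hy) hxy
  refine ⟨hm, h0, ?_, ?_⟩
  · have hM : MeasurableSet (⋃ w ∈ words N 2, S.I w)ᶜ := by
      refine (Finset.measurableSet_biUnion _ fun w hw => ?_).compl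
      obtain ⟨hr, hl⟩ := mem_words.1 hw
      match w, hr, hl with
      | [a, b], hr, _ =>
        have hb : b ≠ bar a := ((red_cons_cons a b []).1 hr).1
        rw [S.I_cons a [b] (by simp)]
        exact hmeasI a b hb _ (by rw [S.I_one]) measurableSet_Icc
    have h1 := hlin (fun _ => 1) measurable_const _ hM
    rw [lintegral_const, one_mul, Measure.restrict_apply_univ] at h1
    rw [h1]
    refine Finset.sum_eq_zero fun a _ => Finset.sum_eq_zero fun b hb => ?_
    have hb' : b ≠ bar a := by simpa using hb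
    have h2 : (mob (S.M a) ⁻¹' (⋃ w ∈ words N 2, S.I w)ᶜ) ∩ S.A b = ∅ := by
      rw [Set.eq_empty_iff_forall_notMem]
      rintro x ⟨hx1, hx2⟩
      apply hx1
      rw [Set.mem_iUnion₂]
      refine ⟨[a, b], mem_words.2 ⟨(red_cons_cons a b []).2 ⟨hb', red_one b⟩, rfl⟩, ?_⟩
      rw [S.I_cons a [b] (by simp), S.I_one]
      exact ⟨x, hx2, rfl⟩
    rw [h2]
    simp
  · intro a b hb E hE hE' g hg
    rw [hlin g hg _ (hmeasI a b hb E hE hE')]
    rw [Finset.sum_eq_single a]
    · rw [Finset.sum_eq_single b]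
      · have h2 : (mob (S.M a) ⁻¹' (mob (S.M a) '' E)) ∩ S.A b = E := by
          ext x
          constructor
          · rintro ⟨⟨y, hy, hxy⟩, hx⟩
            have := S.mob_inj_A a b b hb hb y x (hE hy) hx hxy
            rwa [← this]
          · intro hx
            exact ⟨⟨x, hx, rfl⟩, hE hx⟩
        rw [h2]
      · intro b' hb' hne
        have hb'' : b' ≠ bar a := by simpa using hb'
        have h2 : (mob (S.M a) ⁻¹' (mob (S.M a) '' E)) ∩ S.A b' = ∅ := by
          rw [Set.eq_empty_iff_forall_notMem]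
          rintro x ⟨⟨y, hy, hxy⟩, hx⟩
          have := S.mob_inj_A a b b' hb hb'' y x (hE hy) hx hxy
          rw [← this] at hx
          exact hne (S.A_inj hx (hE hy))
        rw [h2]
        simp
      · intro hb'
        exact absurd (by simpa using hb) hb'
    · intro a' _ hne
      refine Finset.sum_eq_zero fun b' hb' => ?_
      have hb'' : b' ≠ bar a' := by simpa using hb'
      have h2 : (mob (S.M a') ⁻¹' (mob (S.M a) '' E)) ∩ S.A b' = ∅ := by
        rw [Set.eq_empty_iff_forall_notMem]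
        rintro x ⟨⟨y, hy, hxy⟩, hx⟩
        have h3 := S.mob_maps_A a b hb y (hE hy)
        have h4 := S.mob_maps_A a' b' hb'' x hx
        rw [hxy] at h3
        exact hne (S.A_inj h4 h3)
      rw [h2]
      simp
    · intro h'
      exact absurd (Finset.mem_univ _) h'

end Sch

end Pool.Agent.DimDrop
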