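import Pool.Agent.Lib_MP_644907.ZnB

/-!
# Piece DELTA: the critical exponent
-/

set_option autoImplicit false

namespace Pool.Agent.DimDrop

/-- upper powers -/
private theorem crit_up (z : ℕ → ℝ) (C : ℝ) (hC : 0 < C) (hp : ∀ n, 1 ≤ n → 0 < z n)
    (h1 : ∀ n m : ℕ, 1 ≤ n → 1 ≤ m → z (n + m) ≤ C * (z n * z m)) (n : ℕ) (hn : 1 ≤ n) :
    ∀ k : ℕ, 1 ≤ k → C * z (k * n) ≤ (C * z n) ^ k := by
  intro k hk
  induction k, hk using Nat.le_induction with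
  | base => simp
  | succ k hk ih =>
    have h2 := h1 (k * n) n (Nat.mul_pos hk hn) hn
    have h3 : (k + 1) * n = k * n + n := by ring
    rw [h3, pow_succ]
    calc C * z (k * n + n) ≤ C * (C * (z (k * n) * z n)) := mul_le_mul_of_nonneg_left h2 hC.le
      _ = (C * z (k * n)) * (C * z n) := by ring
      _ ≤ (C * z n) ^ k * (C * z n) :=
        mul_le_mul_of_nonneg_right ih (mul_pos hC (hp n hn)).le

/-- lower powers -/
private theorem crit_lo (z : ℕ → ℝ) (C : ℝ) (hC : 0 < C) (hp : ∀ n, 1 ≤ n → 0 < z n)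
    (h1 : ∀ n m : ℕ, 1 ≤ n → 1 ≤ m → z n * z m ≤ C * z (n + m)) (n : ℕ) (hn : 1 ≤ n) :
    ∀ k : ℕ, 1 ≤ k → (z n / C) ^ k ≤ z (k * n) / C := by
  intro k hk
  induction k, hk using Nat.le_induction with
  | base => simp
  | succ k hk ih =>
    have h2 := h1 (k * n) n (Nat.mul_pos hk hn) hn
    have h3 : (k + 1) * n = k * n + n := by ring
    rw [h3, pow_succ]
    calc (z n / C) ^ k * (z n / C) ≤ (z (k * n) / C) * (z n / C) :=
          mul_le_mul_of_nonneg_right ih (div_pos (hp n hn) hC).le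
      _ = (z (k * n) * z n) / C / C := by ring
      _ ≤ (C * z (k * n + n)) / C / C := by
          apply div_le_div_of_nonneg_right _ hC.le
          exact div_le_div_of_nonneg_right h2 hC.le
      _ = z (k * n + n) / C := by field_simp

private theorem crit_A (z : ℕ → ℝ) (C : ℝ) (hC : 0 < C) (hp : ∀ n, 1 ≤ n → 0 < z n)
    (h1 : ∀ n m : ℕ, 1 ≤ n → 1 ≤ m → z (n + m) ≤ C * (z n * z m) ∧ z n * z m ≤ C * z (n + m))
    (n : ℕ) (hn : 1 ≤ n) (hz : z n < C⁻¹) : ∀ m, 1 ≤ m → z m ≤ C := by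
  intro m hm
  by_contra hcon
  push Not at hcon
  have hx : C * z n < 1 := by
    have := mul_lt_mul_of_pos_left hz hC
    rwa [mul_inv_cancel₀ hC.ne'] at this
  have hx0 : 0 ≤ C * z n := (mul_pos hC (hp n hn)).le
  have hy : 1 ≤ z m / C := by
    rw [le_div_iff₀ hC]
    linarith
  have key : ∀ j : ℕ, 1 ≤ j → C ^ 2 ≤ (C * z n) ^ j := by
    intro j hj
    have h2 := crit_up z C hC hp (fun a b ha hb => (h1 a b ha hb).1) n hn (j * m) (Nat.mul_pos hj hm)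
    have h3 := crit_lo z C hC hp (fun a b ha hb => (h1 a b ha hb).2) m hm (j * n) (Nat.mul_pos hj hn)
    have h4 : (1:ℝ) ≤ (z m / C) ^ (j * n) := one_le_pow₀ hy
    have h5 : C ≤ z (j * n * m) := by
      have := h4.trans h3
      rw [le_div_iff₀ hC] at this
      linarith
    have h6 : j * n * m = j * m * n := by ring
    rw [h6] at h5
    calc C ^ 2 = C * C := by ring
      _ ≤ C * z (j * m * n) := mul_le_mul_of_nonneg_left h5 hC.le
      _ ≤ (C * z n) ^ (j * m) := h2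
      _ ≤ (C * z n) ^ j := pow_le_pow_of_le_one hx0 hx.le (Nat.le_mul_of_pos_right j hm)
  obtain ⟨j, hj⟩ := exists_pow_lt_of_lt_one (pow_pos hC 2) hx
  have h7 := key (j + 1) (by omega)
  have h8 : (C * z n) ^ (j + 1) ≤ (C * z n) ^ j := pow_le_pow_of_le_one hx0 hx.le (by omega)
  linarith

/-- Let `s = {t ∈ [0, T] : Z n t ≤ C for all n ≥ 1}`, closed. `T ∈ s`: if `C < Z m T` for some `m ≥ 1`, then by
`Z n Z m ≤ C Z (n+m)` the numbers `Z (k m) T / C` grow exponentially (`Z (k m) T ≥ C (Z m T / C)^k`), but `Z (k n) T ≤ C^(k-1) (Z n T)^k → 0` for `n` with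
`C Z n T < 1`; compare at `k = m j`, resp. `n j`: contradiction at the common index `n m j`. `0 ∉ s`. Let `δ = inf s = min s > 0`. Then `Z n δ ≤ C`. If `Z n δ < 1 / C` for some `n ≥ 1`, then
by continuity `Z n t < 1 / C` for some `t < δ`, `t ≥ 0`, so as for `T` one gets `t ∈ s`, a contradiction. -/
theorem crit (Z : ℕ → ℝ → ℝ) (T C : ℝ) (hT : 0 < T) (hC : 0 < C) (hc : ∀ n, 1 ≤ n → Continuous (Z n))
    (hp : ∀ n, 1 ≤ n → ∀ t, 0 < Z n t)
    (h1 : ∀ t ∈ Set.Icc 0 T, ∀ n m : ℕ, 1 ≤ n → 1 ≤ m → Z (n + m) t ≤ C * (Z n t * Z m t) ∧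
      Z n t * Z m t ≤ C * Z (n + m) t)
    (h2 : ∀ B : ℝ, ∃ n : ℕ, 1 ≤ n ∧ B < Z n 0) (h3 : ∀ ε : ℝ, 0 < ε → ∃ n : ℕ, 1 ≤ n ∧ Z n T < ε) :
    ∃ δ : ℝ, 0 < δ ∧ ∀ n, 1 ≤ n → C⁻¹ ≤ Z n δ ∧ Z n δ ≤ C := by
  set s : Set ℝ := Set.Icc 0 T ∩ ⋂ n : ℕ, ⋂ _ : 1 ≤ n, {t | Z n t ≤ C} with hs
  have hmem : ∀ t, t ∈ s ↔ t ∈ Set.Icc 0 T ∧ ∀ n, 1 ≤ n → Z n t ≤ C := by
    intro t
    simp [hs]
  have hclosed : IsClosed s := by
    apply IsClosed.inter isClosed_Icc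
    apply isClosed_iInter
    intro n
    apply isClosed_iInter
    intro hn
    exact isClosed_le (hc n hn) continuous_const
  have hA : ∀ t ∈ Set.Icc 0 T, ∀ n, 1 ≤ n → Z n t < C⁻¹ → t ∈ s := by
    intro t ht n hn hz
    rw [hmem]
    exact ⟨ht, crit_A (fun n => Z n t) C hC (fun n hn => hp n hn t) (h1 t ht) n hn hz⟩
  have hTs : T ∈ s := by
    obtain ⟨n, hn, hz⟩ := h3 C⁻¹ (inv_pos.mpr hC)
    exact hA T ⟨hT.le, le_rfl⟩ n hn hz
  have h0s : (0:ℝ) ∉ s := by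
    intro h
    obtain ⟨n, hn, hz⟩ := h2 C
    exact absurd (((hmem 0).mp h).2 n hn) (not_le.mpr hz)
  have hbdd : BddBelow s := ⟨0, fun t ht => ((hmem t).mp ht).1.1⟩
  have hδ : sInf s ∈ s := hclosed.csInf_mem ⟨T, hTs⟩ hbdd
  have hδ2 := (hmem _).mp hδ
  have hpos : 0 < sInf s := by
    rcases hδ2.1.1.lt_or_eq with h | h
    · exact h
    · exfalso
      apply h0s
      rw [h]
      exact hδ
  refine ⟨sInf s, hpos, fun n hn => ⟨?_, hδ2.2 n hn⟩⟩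
  by_contra hcon
  push Not at hcon
  have hev : ∀ᶠ t in nhds (sInf s), Z n t < C⁻¹ :=
    (hc n hn).continuousAt.eventually_lt continuousAt_const hcon
  rw [Metric.eventually_nhds_iff] at hev
  obtain ⟨ε, hε, hev⟩ := hev
  set t := sInf s - min (ε / 2) (sInf s / 2) with ht
  have hm1 : 0 < min (ε / 2) (sInf s / 2) := lt_min (by linarith) (by linarith)
  have hm2 : min (ε / 2) (sInf s / 2) ≤ ε / 2 := min_le_left _ _
  have hm3 : min (ε / 2) (sInf s / 2) ≤ sInf s / 2 := min_le_right _ _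
  have hts : t ∈ s := by
    apply hA t ⟨by linarith, by linarith [hδ2.1.2]⟩ n hn
    apply hev
    rw [Real.dist_eq, abs_lt]
    constructor <;> linarith
  have := csInf_le hbdd hts
  linarith

namespace Sch

variable {N : ℕ} (S : Sch N)

theorem exists_delta (hN : 2 ≤ N) : ∃ δ C : ℝ, 0 < δ ∧ 0 < C ∧ ∀ n, 1 ≤ n → C⁻¹ ≤ S.Z n δ ∧ S.Z n δ ≤ C := by
  obtain ⟨T, hT, h3⟩ := S.Z_big hN
  obtain ⟨C, hC, h1⟩ := S.Z_mul hN T hT.le
  obtain ⟨δ, hδ, h⟩ := crit S.Z T C hT hC S.Z_cont (S.Z_pos hN) h1 (S.Z_zero hN) h3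
  exact ⟨δ, C, hδ, hC, h⟩

end Sch

end Pool.Agent.DimDrop
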