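import Pool.Agent.Lib_MP_644907.CWb
import Pool.Agent.Lib_MP_644907.CWc

/-!
# Piece DIMLOW: the dimension of the limit set is at least `δ`
-/

set_option autoImplicit false

namespace Pool.Agent.DimDrop

open Finset MeasureTheory Filter Topology

namespace Sch

variable {N : ℕ} {S : Sch N} {δ : ℝ} {m : Measure ℝ}

private theorem dimlow_rpow (c δ : ℝ) : |c| ^ (-2 * δ) = ((c ^ 2)⁻¹) ^ δ := by
  rw [Real.rpow_mul (abs_nonneg c)]
  congr 1
  rw [Real.rpow_neg (abs_nonneg c), Real.rpow_two, sq_abs]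

/-- the limit set has full measure -/
private theorem dimlow_full (hm : S.IsConf δ m) : m S.KKᶜ = 0 := by
  have hsub : S.KKᶜ ⊆ ⋃ n : ℕ, (⋃ w ∈ words N (n + 1), S.I w)ᶜ := by
    intro x hx
    by_contra h
    apply hx
    intro n hn
    rw [Set.mem_iUnion] at h
    push Not at h
    have h2 := h (n - 1)
    rw [Set.notMem_compl_iff, Set.mem_iUnion₂] at h2
    obtain ⟨w, hw, hxw⟩ := h2
    have h1 := mem_words.1 hw
    exact ⟨w, h1.1, by omega, hxw⟩
  refine measure_mono_null hsub ?_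
  rw [measure_iUnion_null_iff]
  intro n
  exact supp_words hm (n + 1) (by omega)

/-- the parent of a word containing a point -/
private theorem dimlow_parent (n : ℕ) (hn : 1 ≤ n) (w v : List (Lt N)) (hw : Red w) (hv : Red v)
    (hwl : w.length = n) (hvl : v.length = n + 1) (y : ℝ) (hyw : y ∈ S.I w) (hyv : y ∈ S.I v) :
    ∃ b : Lt N, v = w ++ [b] := by
  have hne : v ≠ [] := by
    intro h
    rw [h] at hvl
    simp at hvl
  refine ⟨v.getLast hne, ?_⟩
  have hdec : v.dropLast ++ [v.getLast hne] = v := List.dropLast_append_getLast hne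
  have hred : Red (v.dropLast ++ [v.getLast hne]) := by rw [hdec]; exact hv
  have hlen : v.dropLast.length = n := by
    rw [List.length_dropLast, hvl]
    omega
  have hne2 : v.dropLast ≠ [] := by
    intro h
    rw [h] at hlen
    simp at hlen
    omega
  have hsub := S.I_append_subset v.dropLast [v.getLast hne] hne2 hred
  rw [hdec] at hsub
  have hy2 : y ∈ S.I v.dropLast := hsub hyv
  have heq : v.dropLast = w := by
    by_contra hneq
    have hd := S.I_disjoint v.dropLast w hred.append_left hw (by rw [hlen, hwl]) hneq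
    exact Set.disjoint_left.1 hd hy2 hyw
  rw [← heq]
  exact hdec.symm

/-- the mass distribution bound -/
private theorem dimlow_mass (hN : 2 ≤ N) (hδ : 0 < δ) (hm : S.IsConf δ m) :
    ∃ g C : ℝ, 0 < g ∧ 0 < C ∧ ∀ T : Set ℝ, Metric.ediam T ≤ ENNReal.ofReal g →
      m T ≤ ENNReal.ofReal C * Metric.ediam T ^ δ := by
  have := hm.prob
  obtain ⟨g, D, hg, hD, hgap, -, -, -, -⟩ := S.consts
  obtain ⟨c, hc, hsep⟩ := S.sep
  obtain ⟨C1, hC1, hmass⟩ := mass_bound hN hδ hm
  obtain ⟨C2, κ, hC2, hκ0, hκ1, hcontr⟩ := S.contr hN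
  refine ⟨g / 2, C1 * (c⁻¹) ^ δ, by positivity, by positivity, ?_⟩
  intro T hT
  have hle : m T ≤ m (T ∩ S.KK) := by
    calc m T ≤ m (T ∩ S.KK) + m (T \ S.KK) := measure_le_inter_add_sdiff m T S.KK
      _ ≤ m (T ∩ S.KK) + m S.KKᶜ := by
          gcongr
          intro x hx
          exact hx.2
      _ = m (T ∩ S.KK) := by rw [dimlow_full hm, add_zero]
  have hdist : ∀ x ∈ T, ∀ y ∈ T, ENNReal.ofReal |x - y| ≤ Metric.ediam T := by
    intro x hx y hy
    have h := Metric.edist_le_ediam_of_mem hx hy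
    rwa [edist_dist, Real.dist_eq] at h
  have hdist2 : ∀ x ∈ T, ∀ y ∈ T, |x - y| < g := by
    intro x hx y hy
    have h := (hdist x hx y hy).trans hT
    rw [ENNReal.ofReal_le_ofReal_iff (by positivity)] at h
    linarith
  have hI : ∀ w : List (Lt N), w ≠ [] → Red w →
      m (S.I w) ≤ ENNReal.ofReal (C1 * ((S.cc w ^ 2)⁻¹) ^ δ) := by
    intro w hw hr
    have h := (hmass w hw hr).1
    rw [dimlow_rpow] at h
    rw [measureReal_def] at h
    rw [ENNReal.le_ofReal_iff_toReal_le (measure_ne_top m _) (by positivity)]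
    exact h
  rcases Set.eq_empty_or_nonempty (T ∩ S.KK) with he | ⟨x, hxT, hxK⟩
  · refine hle.trans ?_
    rw [he]
    simp
  have hx := hxK
  rw [KK, Set.mem_ofPred_eq] at hx
  choose! W hW using hx
  by_cases hall : ∀ n : ℕ, 1 ≤ n → ∀ y ∈ T ∩ S.KK, y ∈ S.I (W n)
  · -- measure zero
    have hb : ∀ n : ℕ, m (T ∩ S.KK) ≤ ENNReal.ofReal (C1 * (C2 * κ ^ (n + 1)) ^ δ) := by
      intro n
      have h1 := hW (n + 1) (by omega)
      have hne : W (n + 1) ≠ [] := by
        intro h
        have h2 := h1.2.1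
        rw [h] at h2
        simp at h2
      calc m (T ∩ S.KK) ≤ m (S.I (W (n + 1))) := measure_mono (hall (n + 1) (by omega))
        _ ≤ ENNReal.ofReal (C1 * ((S.cc (W (n + 1)) ^ 2)⁻¹) ^ δ) := hI _ hne h1.1
        _ ≤ ENNReal.ofReal (C1 * (C2 * κ ^ (n + 1)) ^ δ) := by
            apply ENNReal.ofReal_le_ofReal
            apply mul_le_mul_of_nonneg_left _ hC1.le
            apply Real.rpow_le_rpow (by positivity) _ hδ.le
            have h3 := hcontr (W (n + 1)) hne h1.1
            rwa [h1.2.1] at h3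
    have hlim : Tendsto (fun n : ℕ => ENNReal.ofReal (C1 * (C2 * κ ^ (n + 1)) ^ δ)) atTop (𝓝 0) := by
      rw [← ENNReal.ofReal_zero]
      apply ENNReal.tendsto_ofReal
      have h1 : Tendsto (fun n : ℕ => C2 * κ ^ (n + 1)) atTop (𝓝 (C2 * 0)) :=
        ((tendsto_pow_atTop_nhds_zero_of_lt_one hκ0.le hκ1).comp (tendsto_add_atTop_nat 1)).const_mul C2
      rw [mul_zero] at h1
      have h2 := (h1.rpow_const (Or.inr hδ.le : (0 : ℝ) ≠ 0 ∨ 0 ≤ δ)).const_mul C1
      rw [Real.zero_rpow hδ.ne', mul_zero] at h2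
      exact h2
    have hz : m (T ∩ S.KK) ≤ 0 := ge_of_tendsto' hlim hb
    exact (hle.trans hz).trans zero_le
  · push Not at hall
    classical
    have hex : ∃ n : ℕ, 1 ≤ n ∧ ∃ y ∈ T ∩ S.KK, y ∉ S.I (W n) := by
      obtain ⟨n, hn, y, hy, hyn⟩ := hall
      exact ⟨n, hn, y, hy, hyn⟩
    obtain ⟨hn1, y, hy, hyn⟩ := Nat.find_spec hex
    have hmin := fun k (hk : k < Nat.find hex) => Nat.find_min hex hk
    set n := Nat.find hex with hndef
    have hn2 : 2 ≤ n := by
      by_contra hlt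
      have hn : n = 1 := by omega
      rw [hn] at hyn
      apply hyn
      have h1 := hW 1 le_rfl
      obtain ⟨v, hv, hvl, hyv⟩ := hy.2 1 le_rfl
      obtain ⟨a, ha⟩ := List.length_eq_one_iff.1 h1.2.1
      obtain ⟨b, hb⟩ := List.length_eq_one_iff.1 hvl
      have hxa : x ∈ S.A a := by
        have := h1.2.2
        rwa [ha, I_one] at this
      have hyb : y ∈ S.A b := by rwa [hb, I_one] at hyv
      have hab : a = b := by
        by_contra hne
        have h3 := hgap a b hne x hxa y hyb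
        have h4 := hdist2 x hxT y hy.1
        linarith
      rw [ha, hab, I_one]
      exact hyb
    obtain ⟨k, hk⟩ : ∃ k, n = k + 1 := ⟨n - 1, by omega⟩
    have hk1 : 1 ≤ k := by omega
    have hPk : ∀ z ∈ T ∩ S.KK, z ∈ S.I (W k) := by
      have h1 := hmin k (by omega)
      push Not at h1
      exact h1 hk1
    have hWk := hW k hk1
    have hWk1 := hW (k + 1) (by omega)
    have hne : W k ≠ [] := by
      intro h
      have h2 := hWk.2.1
      rw [h] at h2
      simp at h2
      omega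
    rw [hk] at hyn
    obtain ⟨v, hv, hvl, hyv⟩ := hy.2 (k + 1) (by omega)
    obtain ⟨a, ha⟩ := dimlow_parent k hk1 (W k) (W (k + 1)) hWk.1 hWk1.1 hWk.2.1 hWk1.2.1 x hWk.2.2 hWk1.2.2
    obtain ⟨b, hb⟩ := dimlow_parent k hk1 (W k) v hWk.1 hv hWk.2.1 hvl y (hPk y hy) hyv
    have hab : a ≠ b := by
      intro h
      apply hyn
      rw [ha, h, ← hb]
      exact hyv
    have hra : Red (W k ++ [a]) := by rw [← ha]; exact hWk1.1
    have hrb : Red (W k ++ [b]) := by rw [← hb]; exact hv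
    have hs := hsep (W k) a b hne hra hrb hab x (by rw [← ha]; exact hWk1.2.2) y (by rw [← hb]; exact hyv)
    have hs2 : (S.cc (W k) ^ 2)⁻¹ ≤ c⁻¹ * |x - y| := by
      rw [← div_eq_inv_mul, le_div_iff₀ hc]
      linarith
    calc m T ≤ m (T ∩ S.KK) := hle
      _ ≤ m (S.I (W k)) := measure_mono hPk
      _ ≤ ENNReal.ofReal (C1 * ((S.cc (W k) ^ 2)⁻¹) ^ δ) := hI _ hne hWk.1
      _ ≤ ENNReal.ofReal (C1 * (c⁻¹ * |x - y|) ^ δ) := by
          apply ENNReal.ofReal_le_ofReal
          apply mul_le_mul_of_nonneg_left _ hC1.le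
          exact Real.rpow_le_rpow (by positivity) hs2 hδ.le
      _ = ENNReal.ofReal (C1 * (c⁻¹) ^ δ) * ENNReal.ofReal |x - y| ^ δ := by
          rw [Real.mul_rpow (by positivity) (abs_nonneg _), ← mul_assoc,
            ENNReal.ofReal_mul (by positivity), ENNReal.ofReal_rpow_of_nonneg (abs_nonneg _) hδ.le]
      _ ≤ ENNReal.ofReal (C1 * (c⁻¹) ^ δ) * Metric.ediam T ^ δ := by
          gcongr
          exact hdist x hxT y hy.1

/-- `m KK^c = 0` by `supp_words`. For every set `T`: `m T ≤ C (diam T)^δ`. If `T ∩ KK` meets at most one cylinder of each length, then `m T ≤ m (I w)` with `|w| = n` for all `n`, and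
`m (I w) → 0` (`mass_bound`, `contr`). Otherwise let `n + 1` be the least length such that `T ∩ KK` meets two cylinders of length `n + 1`; if `n = 0` then `diam T ≥ g` (`consts`); if `n ≥ 1` then
`T ∩ KK ⊆ I w` with `|w| = n` and `diam T ≥ c / c_w^2` (`sep`), `m T ≤ m (I w) ≤ C |c_w|^(-2δ)`.
Then `m ≤ C μH[δ]` (`MeasureTheory.Measure.le_hausdorffMeasure` for the measure `C⁻¹ • m`), so `μH[δ] KK ≥ 1 / C > 0` and `le_dimH_of_hausdorffMeasure_ne_zero`. -/
theorem dim_low (hN : 2 ≤ N) (hδ : 0 < δ) (hm : S.IsConf δ m) : ENNReal.ofReal δ ≤ dimH S.KK := by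
  have := hm.prob
  obtain ⟨g, C, hg, hC, hmass⟩ := dimlow_mass hN hδ hm
  have hC0 : ENNReal.ofReal C ≠ 0 := by simpa using hC
  have hCt : ENNReal.ofReal C ≠ ⊤ := ENNReal.ofReal_ne_top
  have hle : (ENNReal.ofReal C)⁻¹ • m ≤ Measure.hausdorffMeasure δ := by
    refine Measure.le_hausdorffMeasure δ _ (ENNReal.ofReal g) (by simpa using hg) ?_
    intro s hs
    rw [Measure.smul_apply, smul_eq_mul]
    calc (ENNReal.ofReal C)⁻¹ * m s ≤ (ENNReal.ofReal C)⁻¹ * (ENNReal.ofReal C * Metric.ediam s ^ δ) := by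
          gcongr
          exact hmass s hs
      _ = Metric.ediam s ^ δ := by
          rw [← mul_assoc, ENNReal.inv_mul_cancel hC0 hCt, one_mul]
  have hKK : m S.KK ≠ 0 := by
    intro h
    have h1 : m Set.univ ≤ m S.KK + m S.KKᶜ := by
      calc m Set.univ = m (S.KK ∪ S.KKᶜ) := by rw [Set.union_compl_self]
        _ ≤ m S.KK + m S.KKᶜ := measure_union_le _ _
    rw [h, dimlow_full hm, measure_univ] at h1
    simp at h1
  have hd : ((δ.toNNReal : NNReal) : ℝ) = δ := Real.coe_toNNReal δ hδ.le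
  have hne : Measure.hausdorffMeasure ((δ.toNNReal : NNReal) : ℝ) S.KK ≠ 0 := by
    rw [hd]
    intro h
    have h1 := hle S.KK
    rw [h, Measure.smul_apply, smul_eq_mul] at h1
    have h2 : (ENNReal.ofReal C)⁻¹ * m S.KK = 0 := le_antisymm h1 zero_le
    rcases mul_eq_zero.1 h2 with h3 | h3
    · exact hCt (ENNReal.inv_eq_zero.1 h3)
    · exact hKK h3
  exact le_dimH_of_hausdorffMeasure_ne_zero hne

end Sch

end Pool.Agent.DimDrop
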