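import Pool.Agent.Lib_MP_644907.DimUpC
import Pool.Agent.Lib_MP_644907.DimLow
import Pool.Agent.Lib_MP_644907.Delta
import Pool.Agent.Lib_MP_644907.ConfC

/-!
# The core theorem in the line model
-/

set_option autoImplicit false

namespace Pool.Agent.DimDrop

open Finset MeasureTheory Filter Topology

theorem core {N : ℕ} (hN : 2 ≤ N) (S : Sch N) (ν : Measure ℝ) (hν : IsStat S ν) :
    ∃ E : Set ℝ, MeasurableSet E ∧ ν Eᶜ = 0 ∧ dimH E < dimH S.KK := by
  obtain ⟨δ, C, hδ, hC, hZ⟩ := S.exists_delta hN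
  obtain ⟨m, hm1, hm2, hm3⟩ := S.exists_conf hN δ C hC hZ
  have hm := S.conf_of_integral δ m hm1 hm2 hm3
  obtain ⟨ρ, h0, h1, hae⟩ := Sch.ae_good hN hδ hm hν
  obtain ⟨s, hs, hsδ, hd⟩ := Sch.dim_good hN hδ hm hν ρ h0 h1
  refine ⟨_, ?_, hae, hd.trans_lt (lt_of_lt_of_le ?_ (Sch.dim_low hN hδ hm))⟩
  · refine MeasurableSet.iUnion fun n0 => MeasurableSet.biInter (Set.to_countable _) fun n _ => ?_
    refine Finset.measurableSet_biUnion _ fun w hw => ?_
    exact S.meas_I w (mem_words.1 (Finset.mem_filter.1 hw).1).1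
  · exact (ENNReal.ofReal_lt_ofReal_iff hδ).2 hsδ

end Pool.Agent.DimDrop
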