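import Mathlib

/-!
# MP_644907_pr: dimension drop for Fuchsian Schottky groups. Definitions

Reduced words, cylinders, Schottky data in the line model (the circle minus a point outside all
arcs is identified with the real line).
-/

set_option autoImplicit false

namespace Pool.Agent.DimDrop

/-- the letters `h_i`, `h_i⁻¹` -/
abbrev Lt (N : ℕ) := Fin N × Bool

/-- the inverse letter -/
def bar {N : ℕ} (a : Lt N) : Lt N := (a.1, !a.2)

/-- reduced words -/
def Red {N : ℕ} (w : List (Lt N)) : Prop := w.IsChain (fun a b => b ≠ bar a)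

/-- cylinders of the system of maps `f` and sets `A` -/
def cyl {N : ℕ} {X : Type*} (f : Lt N → X → X) (A : Lt N → Set X) : List (Lt N) → Set X
  | [] => Set.univ
  | [a] => A a
  | a :: b :: w => f a '' cyl f A (b :: w)

/-- the Moebius map of a matrix -/
noncomputable def mob (M : Matrix (Fin 2) (Fin 2) ℝ) (x : ℝ) : ℝ :=
  (M 0 0 * x + M 0 1) / (M 1 0 * x + M 1 1)

/-- its denominator -/
def den (M : Matrix (Fin 2) (Fin 2) ℝ) (x : ℝ) : ℝ := M 1 0 * x + M 1 1

/-- Schottky data in the line model -/
structure Sch (N : ℕ) where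
  M : Lt N → Matrix (Fin 2) (Fin 2) ℝ
  l : Lt N → ℝ
  r : Lt N → ℝ
  lt : ∀ a, l a < r a
  disj : ∀ a b, a ≠ b → Disjoint (Set.Icc (l a) (r a)) (Set.Icc (l b) (r b))
  det : ∀ a, |(M a).det| = 1
  inv : ∀ a, M (bar a) * M a = 1
  low : ∀ a, M a 1 0 ≠ 0
  pole : ∀ a, -(M a 1 1) / M a 1 0 ∈ Set.Icc (l (bar a)) (r (bar a))
  maps : ∀ a b, b ≠ bar a → ∀ x ∈ Set.Icc (l b) (r b), mob (M a) x ∈ Set.Icc (l a) (r a)

variable {N : ℕ}

namespace Sch

variable (S : Sch N)

/-- the interval of a letter -/
def A (a : Lt N) : Set ℝ := Set.Icc (S.l a) (S.r a)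

/-- the map of a letter -/
noncomputable def f (a : Lt N) : ℝ → ℝ := mob (S.M a)

/-- the cylinder of a word -/
noncomputable def I (w : List (Lt N)) : Set ℝ := cyl S.f S.A w

/-- the matrix of a word -/
noncomputable def mat (w : List (Lt N)) : Matrix (Fin 2) (Fin 2) ℝ := (w.map S.M).prod

/-- the lower left entry of the matrix of a word -/
noncomputable def cc (w : List (Lt N)) : ℝ := S.mat w 1 0

/-- the pole of a word, the preimage of infinity -/
noncomputable def pp (w : List (Lt N)) : ℝ := -(S.mat w 1 1) / S.mat w 1 0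

/-- the image of infinity -/
noncomputable def qq (w : List (Lt N)) : ℝ := S.mat w 0 0 / S.mat w 1 0

/-- the union of the intervals -/
def K0 : Set ℝ := ⋃ a, S.A a

/-- the limit set -/
def KK : Set ℝ := {x | ∀ n : ℕ, 1 ≤ n → ∃ w : List (Lt N), Red w ∧ w.length = n ∧ x ∈ S.I w}

end Sch

open Classical in
/-- the reduced words of length `n` -/
noncomputable def words (N n : ℕ) : Finset (List (Lt N)) :=
  ((Finset.univ : Finset (Fin n → Lt N)).image List.ofFn).filter Red

/-- last letter of `w` is `t` -/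
def EndsW (w : List (Lt N)) (t : Lt N) : Prop := w.getLast? = some t

end Pool.Agent.DimDrop
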