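import Pool.Agent.Lib_MP_644907.UnifC

/-!
# Piece DIMUPA: exponential decay of the affinities
-/

set_option autoImplicit false

namespace Pool.Agent.DimDrop

open Finset MeasureTheory Filter Topology

namespace Sch

variable {N : ℕ} {S : Sch N} {δ : ℝ} {m ν : Measure ℝ}

/-- the cylinders of length `n` are disjoint -/
theorem sum_real_le_one (S : Sch N) (μ : Measure ℝ) [IsProbabilityMeasure μ] (n : ℕ) :
    ∑ w ∈ words N n, μ.real (S.I w) ≤ 1 := by
  rw [← measureReal_biUnion_finset]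
  · exact measureReal_le_one
  · intro w hw v hv hne
    have hw' := mem_words.1 (Finset.mem_coe.1 hw)
    have hv' := mem_words.1 (Finset.mem_coe.1 hv)
    exact S.I_disjoint w v hw'.1 hv'.1 (hw'.2.trans hv'.2.symm) hne
  · intro w hw
    exact meas_I S w (mem_words.1 hw).1

/-- `A_n = ∑_{|w| = n} √(ν (I w) m (I w))`; by `sum_words_add` and `unif` `A_{n + L} ≤ (1 - ε) A_n` for `n ≥ 1`, `A_n ≤ 1` (`hell_le`). So `A_n ≤ C ρ^n`. -/
theorem decay (hN : 2 ≤ N) (hδ : 0 < δ) (hm : S.IsConf δ m) (hν : IsStat S ν) : ∃ C ρ : ℝ, 0 < C ∧ 0 < ρ ∧ ρ < 1 ∧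
    ∀ n : ℕ, 1 ≤ n → ∑ w ∈ words N n, √(ν.real (S.I w) * m.real (S.I w)) ≤ C * ρ ^ n := by
  classical
  obtain ⟨L, ε, hL, he0, he1, hu⟩ := unif hN hδ hm hν
  have hp1 : IsProbabilityMeasure m := hm.prob
  have hp2 : IsProbabilityMeasure ν := hν.prob
  set A : ℕ → ℝ := fun n => ∑ w ∈ words N n, √(ν.real (S.I w) * m.real (S.I w)) with hA
  have hA1 : ∀ n, A n ≤ 1 := by
    intro n
    have h1 := hell_le (words N n) (fun w => ν.real (S.I w)) (fun w => m.real (S.I w))
      (fun _ _ => measureReal_nonneg) (fun _ _ => measureReal_nonneg)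
    refine h1.trans ?_
    rw [Real.sqrt_le_one]
    have h2 := sum_real_le_one S ν n
    have h3 := sum_real_le_one S m n
    have h4 : 0 ≤ ∑ w ∈ words N n, ν.real (S.I w) := Finset.sum_nonneg fun _ _ => measureReal_nonneg
    have h5 : 0 ≤ ∑ w ∈ words N n, m.real (S.I w) := Finset.sum_nonneg fun _ _ => measureReal_nonneg
    nlinarith
  have hstep : ∀ n, 1 ≤ n → A (n + L) ≤ (1 - ε) * A n := by
    intro n hn
    have h1 : A (n + L) = ∑ w ∈ words N n, S.aff ν m L w := by
      simp only [hA]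
      rw [sum_words_add n L]
      apply Finset.sum_congr rfl
      intro w _
      unfold aff
      apply Finset.sum_congr _ (fun _ _ => rfl)
      ext v
      simp
    rw [h1, hA]
    simp only
    rw [Finset.mul_sum]
    apply Finset.sum_le_sum
    intro w hw
    have hw' := mem_words.1 hw
    apply hu w _ hw'.1
    intro h
    rw [h] at hw'
    simp at hw'
    omega
  have hL0 : (0 : ℝ) < L := by exact_mod_cast hL
  set ρ : ℝ := 1 - ε / L with hρ
  have hεL : ε / L < 1 := by
    rw [div_lt_one hL0]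
    have : (1 : ℝ) ≤ L := by exact_mod_cast hL
    linarith
  have hεL0 : 0 < ε / L := div_pos he0 hL0
  have hρ0 : 0 < ρ := by rw [hρ]; linarith
  have hρ1 : ρ < 1 := by rw [hρ]; linarith
  have hρL : 1 - ε ≤ ρ ^ L := by
    have h := one_add_mul_le_pow (a := -(ε / L)) (by linarith) L
    have h2 : (1 : ℝ) + L * -(ε / L) = 1 - ε := by
      field_simp
      ring
    rw [h2] at h
    rw [hρ]
    simpa [sub_eq_add_neg] using h
  refine ⟨(ρ ^ L)⁻¹, ρ, by positivity, hρ0, hρ1, ?_⟩
  intro n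
  induction n using Nat.strong_induction_on with
  | _ n ih =>
    intro hn
    change A n ≤ (ρ ^ L)⁻¹ * ρ ^ n
    rcases le_or_gt n L with h | h
    · refine (hA1 n).trans ?_
      rw [← div_eq_inv_mul, le_div_iff₀ (by positivity), one_mul]
      exact pow_le_pow_of_le_one hρ0.le hρ1.le h
    · have h1 := hstep (n - L) (by omega)
      have h2 := ih (n - L) (by omega) (by omega)
      change A (n - L) ≤ (ρ ^ L)⁻¹ * ρ ^ (n - L) at h2
      have h3 : n - L + L = n := by omega
      rw [h3] at h1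
      refine h1.trans ?_
      have h4 : (ρ ^ L)⁻¹ * ρ ^ n = ρ ^ L * ((ρ ^ L)⁻¹ * ρ ^ (n - L)) := by
        conv_lhs => rw [← h3, pow_add]
        ring
      rw [h4]
      have h5 : 0 ≤ A (n - L) := Finset.sum_nonneg fun _ _ => Real.sqrt_nonneg _
      exact mul_le_mul hρL h2 h5 (by positivity)

end Sch

end Pool.Agent.DimDrop
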