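import Pool.Agent.Lib_MP_644907.DimUpA

/-!
# Piece DIMUPB: almost every point lies in good cylinders
-/

set_option autoImplicit false

namespace Pool.Agent.DimDrop

open Finset MeasureTheory Filter Topology

namespace Sch

variable {N : ℕ} {S : Sch N} {δ : ℝ} {m ν : Measure ℝ}

open Classical in
/-- the good words: `m (I w) < ρ^n ν (I w)` -/
noncomputable def good (S : Sch N) (ν m : Measure ℝ) (ρ : ℝ) (n : ℕ) : Finset (List (Lt N)) :=
  (words N n).filter (fun w => m.real (S.I w) < ρ ^ n * ν.real (S.I w))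

/-- The words of length `n` which are not good have total mass `∑ ν (I w) ≤ ∑ √(ν m) ρ^(-n/2) ≤ C ρ^(n/2)`, summable (`decay`; take the same `ρ`), so by Borel-Cantelli
(`measure_limsup_cofinite_eq_zero` or `measure_limsup_atTop_eq_zero`) and `hν.supp`, almost every point is in `⋃_{w good} I w` for all large `n`. -/
theorem ae_good (hN : 2 ≤ N) (hδ : 0 < δ) (hm : S.IsConf δ m) (hν : IsStat S ν) : ∃ ρ : ℝ, 0 < ρ ∧ ρ < 1 ∧
    ν (⋃ n0 : ℕ, ⋂ n ∈ Set.Ici n0, ⋃ w ∈ good S ν m ρ n, S.I w)ᶜ = 0 := by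
  classical
  obtain ⟨C, ρ, hC, h0, h1, hd⟩ := decay hN hδ hm hν
  have hp1 : IsProbabilityMeasure m := hm.prob
  have hp2 : IsProbabilityMeasure ν := hν.prob
  obtain ⟨σ, hσ⟩ : ∃ σ : ℝ, σ = (1 + ρ) / 2 := ⟨_, rfl⟩
  have hσ0 : 0 < σ := by rw [hσ]; linarith
  have hσ1 : σ < 1 := by rw [hσ]; linarith
  have hρσ : ρ < σ := by rw [hσ]; linarith
  refine ⟨σ ^ 2, by positivity, by nlinarith, ?_⟩
  set G : ℕ → Set ℝ := fun n => ⋃ w ∈ good S ν m (σ ^ 2) n, S.I w with hG
  have hq : ρ / σ < 1 := (div_lt_one hσ0).2 hρσ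
  have hq0 : 0 ≤ ρ / σ := by positivity
  -- the mass of the bad set
  have hbad : ∀ n, 1 ≤ n → ν (G n)ᶜ ≤ ENNReal.ofReal (C * (ρ / σ) ^ n) := by
    intro n hn
    have hsub : (G n)ᶜ ⊆ (⋃ w ∈ words N n, S.I w)ᶜ ∪
        ⋃ w ∈ (words N n).filter (fun w => ¬ (m.real (S.I w) < (σ ^ 2) ^ n * ν.real (S.I w))), S.I w := by
      intro x hx
      by_cases hx' : x ∈ ⋃ w ∈ words N n, S.I w
      · right
        simp only [Set.mem_iUnion] at hx' ⊢
        obtain ⟨w, hw, hxw⟩ := hx'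
        refine ⟨w, ?_, hxw⟩
        rw [Finset.mem_filter]
        refine ⟨hw, fun hlt => hx ?_⟩
        simp only [hG, Set.mem_iUnion]
        exact ⟨w, Finset.mem_filter.2 ⟨hw, hlt⟩, hxw⟩
      · left; exact hx'
    have hs := hν.supp n hn
    refine (measure_mono hsub).trans ?_
    refine (measure_union_le _ _).trans ?_
    rw [hs, zero_add]
    refine (measure_biUnion_finset_le _ _).trans ?_
    have h2 : ∀ w ∈ (words N n).filter (fun w => ¬ (m.real (S.I w) < (σ ^ 2) ^ n * ν.real (S.I w))),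
        ν (S.I w) ≤ ENNReal.ofReal ((σ ^ n)⁻¹ * √(ν.real (S.I w) * m.real (S.I w))) := by
      intro w hw
      have hw' := (Finset.mem_filter.1 hw).2
      rw [not_lt] at hw'
      have h3 : ν (S.I w) = ENNReal.ofReal (ν.real (S.I w)) := (ofReal_measureReal).symm
      rw [h3]
      apply ENNReal.ofReal_le_ofReal
      rw [← div_eq_inv_mul, le_div_iff₀ (by positivity)]
      apply Real.le_sqrt_of_sq_le
      have h4 : 0 ≤ ν.real (S.I w) := measureReal_nonneg
      calc (ν.real (S.I w) * σ ^ n) ^ 2 = ν.real (S.I w) * ((σ ^ 2) ^ n * ν.real (S.I w)) := by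
            rw [mul_pow, ← pow_mul, ← pow_mul, mul_comm n 2]; ring
        _ ≤ _ := mul_le_mul_of_nonneg_left hw' h4
    refine (Finset.sum_le_sum h2).trans ?_
    rw [← ENNReal.ofReal_sum_of_nonneg (fun w _ => by positivity)]
    apply ENNReal.ofReal_le_ofReal
    rw [← Finset.mul_sum]
    have h5 : ∑ w ∈ (words N n).filter (fun w => ¬ (m.real (S.I w) < (σ ^ 2) ^ n * ν.real (S.I w))),
        √(ν.real (S.I w) * m.real (S.I w)) ≤ ∑ w ∈ words N n, √(ν.real (S.I w) * m.real (S.I w)) :=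
      Finset.sum_le_sum_of_subset_of_nonneg (Finset.filter_subset _ _) (fun _ _ _ => Real.sqrt_nonneg _)
    calc (σ ^ n)⁻¹ * _ ≤ (σ ^ n)⁻¹ * (C * ρ ^ n) :=
          mul_le_mul_of_nonneg_left (h5.trans (hd n hn)) (by positivity)
      _ = C * (ρ / σ) ^ n := by rw [div_pow, div_eq_mul_inv]; ring
  have hsum : ∑' n : ℕ, ν (G (n + 1))ᶜ ≠ ⊤ := by
    have h2 : ∑' n : ℕ, ν (G (n + 1))ᶜ ≤ ∑' n : ℕ, ENNReal.ofReal (C * (ρ / σ) ^ (n + 1)) :=
      ENNReal.tsum_le_tsum fun n => hbad (n + 1) (by omega)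
    have h3 : Summable (fun n : ℕ => C * (ρ / σ) ^ (n + 1)) := by
      have := (summable_geometric_of_lt_one hq0 hq).mul_left (C * (ρ / σ))
      refine this.congr fun n => ?_
      rw [pow_succ]; ring
    have h4 : ∑' n : ℕ, ENNReal.ofReal (C * (ρ / σ) ^ (n + 1)) ≠ ⊤ := by
      rw [← ENNReal.ofReal_tsum_of_nonneg (fun n => by positivity) h3]
      exact ENNReal.ofReal_ne_top
    exact ne_top_of_le_ne_top h4 h2
  have hlim : ν (Filter.limsup (fun n => (G (n + 1))ᶜ) atTop) = 0 := measure_limsup_atTop_eq_zero hsum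
  refine measure_mono_null ?_ hlim
  intro x hx
  rw [Filter.limsup_eq_iInf_iSup_of_nat]
  simp only [Set.iInf_eq_iInter, Set.iSup_eq_iUnion, Set.mem_iInter, Set.mem_iUnion]
  intro n
  by_contra hcon
  push Not at hcon
  apply hx
  simp only [Set.mem_iUnion]
  refine ⟨n + 1, ?_⟩
  rw [Set.mem_iInter₂]
  intro k hk
  have hk' : n + 1 ≤ k := hk
  have h5 := hcon (k - 1) (by omega)
  rw [Set.mem_compl_iff, not_not] at h5
  have h6 : k - 1 + 1 = k := by omega
  rw [h6] at h5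
  exact h5

end Sch

end Pool.Agent.DimDrop
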