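import Pool.Agent.Lib_MP_644907.DimUpB

/-!
# Piece DIMUPC: the dimension of the set of good points
-/

set_option autoImplicit false

namespace Pool.Agent.DimDrop

open Finset MeasureTheory Filter Topology

namespace Sch

variable {N : ℕ} {S : Sch N} {δ : ℝ} {m ν : Measure ℝ}

/-- choice of the exponent -/
private theorem DimUpC_exp (δ ρ κ : ℝ) (hδ : 0 < δ) (h1 : ρ < 1) (hκ : 0 < κ) :
    ∃ t : ℝ, 0 < t ∧ t < δ ∧ ρ < κ ^ t := by
  have hc : Tendsto (fun t : ℝ => κ ^ t) (𝓝 0) (𝓝 (κ ^ (0 : ℝ))) :=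
    (Real.continuous_const_rpow hκ.ne').tendsto 0
  rw [Real.rpow_zero] at hc
  have h2 : ∀ᶠ t : ℝ in 𝓝 0, ρ < κ ^ t := hc.eventually (lt_mem_nhds h1)
  have h3 : ∀ᶠ t : ℝ in 𝓝[>] 0, ρ < κ ^ t := nhdsWithin_le_nhds h2
  have h4 : ∀ᶠ t : ℝ in 𝓝[>] 0, t ∈ Set.Ioo 0 δ := Ioo_mem_nhdsGT hδ
  obtain ⟨t, ht1, ht2⟩ := (h3.and h4).exists
  exact ⟨t, ht2.1, ht2.2, ht1⟩

/-- For `s < δ` close to `δ`: `∑_{w good} diam (I w)^s ≤ C ∑_{w good} (c_w^(-2))^(δ - (δ - s)) ≤ C' ∑_{w good} m (I w) (c κ^n)^(-(δ - s)) ≤ C'' (ρ κ^(-(δ-s)))^n ∑ ν (I w)` (`diam_bound`, `mass_bound`, `lower`), which tends to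
`0` if `κ^(δ - s) > ρ`. So `μH[s] (⋂_{n ≥ n0} ⋃_{w good} I w) = 0` for all `n0` (`MeasureTheory.Measure.hausdorffMeasure_le_liminf_sum`, `contr` for the diameters), `dimH ≤ s` (`dimH_le_of_hausdorffMeasure_ne_top`), and
`dimH (⋃ n0) ≤ s` (`dimH_iUnion`). -/
theorem dim_good (hN : 2 ≤ N) (hδ : 0 < δ) (hm : S.IsConf δ m) (hν : IsStat S ν) (ρ : ℝ) (h0 : 0 < ρ) (h1 : ρ < 1) :
    ∃ s : ℝ, 0 < s ∧ s < δ ∧ dimH (⋃ n0 : ℕ, ⋂ n ∈ Set.Ici n0, ⋃ w ∈ good S ν m ρ n, S.I w) ≤ ENNReal.ofReal s := by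
  classical
  have hp1 : IsProbabilityMeasure m := hm.prob
  have hp2 : IsProbabilityMeasure ν := hν.prob
  obtain ⟨Cd, hCd, hd⟩ := S.diam_bound
  obtain ⟨Cc, κc, hCc, hκc0, hκc1, hc⟩ := S.contr hN
  obtain ⟨cl, κ, hcl, hκ0, hκ1, hl⟩ := S.lower
  obtain ⟨Cm, hCm, hmb⟩ := mass_bound hN hδ hm
  obtain ⟨t, ht0, htδ, htρ⟩ := DimUpC_exp δ ρ κ hδ h1 hκ0
  obtain ⟨s, hs⟩ : ∃ s : ℝ, s = δ - t := ⟨_, rfl⟩
  have hs0 : 0 < s := by rw [hs]; linarith
  refine ⟨s, hs0, by rw [hs]; linarith, ?_⟩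
  -- bound for one word
  have hword : ∀ n, 1 ≤ n → ∀ w ∈ good S ν m ρ n,
      Metric.diam (S.I w) ^ s ≤ Cd ^ s * (cl ^ t)⁻¹ * Cm * (ρ / κ ^ t) ^ n * ν.real (S.I w) := by
    intro n hn w hw
    have hw' := Finset.mem_filter.1 hw
    have hwr := mem_words.1 hw'.1
    have hne : w ≠ [] := by
      intro h
      rw [h] at hwr
      simp at hwr
      omega
    obtain ⟨u, hu⟩ : ∃ u : ℝ, u = (S.cc w ^ 2)⁻¹ := ⟨_, rfl⟩
    have h2 : Metric.diam (S.I w) ≤ Cd * u := by rw [hu]; exact (hd w hne hwr.1).1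
    have h3 : cl * κ ^ n ≤ u := by rw [hu, ← hwr.2]; exact hl w hne hwr.1
    have hclk : 0 < cl * κ ^ n := by positivity
    have hu0 : 0 < u := lt_of_lt_of_le hclk h3
    have h4 : u ^ δ ≤ Cm * m.real (S.I w) := by
      have h5 := (hmb w hne hwr.1).2
      have h6 : |S.cc w| ^ (-2 * δ) = u ^ δ := by
        have hcc : S.cc w ^ 2 = |S.cc w| ^ 2 := (sq_abs _).symm
        rw [hu, hcc, ← Real.rpow_natCast, ← Real.rpow_neg (abs_nonneg _), ← Real.rpow_mul (abs_nonneg _)]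
        congr 1
      rwa [h6] at h5
    have h5 : m.real (S.I w) ≤ ρ ^ n * ν.real (S.I w) := hw'.2.le
    have h6 : Metric.diam (S.I w) ^ s ≤ Cd ^ s * u ^ s := by
      rw [← Real.mul_rpow hCd.le hu0.le]
      exact Real.rpow_le_rpow Metric.diam_nonneg h2 hs0.le
    have h7 : u ^ s = u ^ δ * (u ^ t)⁻¹ := by
      rw [hs, Real.rpow_sub hu0, div_eq_mul_inv]
    have h8 : (u ^ t)⁻¹ ≤ ((cl * κ ^ n) ^ t)⁻¹ := by
      apply inv_anti₀
      · positivity
      · exact Real.rpow_le_rpow hclk.le h3 ht0.le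
    have h9 : (cl * κ ^ n) ^ t = cl ^ t * (κ ^ t) ^ n := by
      rw [Real.mul_rpow hcl.le (by positivity), ← Real.rpow_natCast, ← Real.rpow_natCast,
        ← Real.rpow_mul hκ0.le, ← Real.rpow_mul hκ0.le, mul_comm t]
    calc Metric.diam (S.I w) ^ s ≤ Cd ^ s * u ^ s := h6
      _ = Cd ^ s * (u ^ δ * (u ^ t)⁻¹) := by rw [h7]
      _ ≤ Cd ^ s * ((Cm * (ρ ^ n * ν.real (S.I w))) * ((cl * κ ^ n) ^ t)⁻¹) := by
          apply mul_le_mul_of_nonneg_left _ (by positivity)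
          apply mul_le_mul _ h8 (by positivity) (by positivity)
          exact h4.trans (mul_le_mul_of_nonneg_left h5 hCm.le)
      _ = _ := by
          rw [h9, div_pow, mul_inv, div_eq_mul_inv]
          ring
  -- the sums
  obtain ⟨K, hK⟩ : ∃ K : ℝ, K = Cd ^ s * (cl ^ t)⁻¹ * Cm := ⟨_, rfl⟩
  have hK0 : 0 ≤ K := by rw [hK]; positivity
  have hκt : 0 < κ ^ t := Real.rpow_pos_of_pos hκ0 t
  obtain ⟨q, hq⟩ : ∃ q : ℝ, q = ρ / κ ^ t := ⟨_, rfl⟩
  have hq0 : 0 ≤ q := by rw [hq]; positivity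
  have hq1 : q < 1 := by rw [hq]; exact (div_lt_one hκt).2 htρ
  have hsum : ∀ n, 1 ≤ n → ∑ w : {w // w ∈ good S ν m ρ n}, Metric.ediam (S.I w.1) ^ s ≤ ENNReal.ofReal (K * q ^ n) := by
    intro n hn
    have h2 : ∑ w : {w // w ∈ good S ν m ρ n}, Metric.ediam (S.I w.1) ^ s =
        ∑ w ∈ good S ν m ρ n, Metric.ediam (S.I w) ^ s :=
      Finset.sum_coe_sort (good S ν m ρ n) (fun w => Metric.ediam (S.I w) ^ s)
    rw [h2]
    have h3 : ∀ w ∈ good S ν m ρ n, Metric.ediam (S.I w) ^ s ≤ ENNReal.ofReal (K * q ^ n * ν.real (S.I w)) := by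
      intro w hw
      have hw' := Finset.mem_filter.1 hw
      have hwr := mem_words.1 hw'.1
      have hne : w ≠ [] := by
        intro h
        rw [h] at hwr
        simp at hwr
        omega
      obtain ⟨a, b, hab, hI⟩ := S.I_Icc w hne hwr.1
      have h4 : Metric.ediam (S.I w) = ENNReal.ofReal (Metric.diam (S.I w)) := by
        rw [Metric.diam, ENNReal.ofReal_toReal]
        rw [hI]
        exact (Metric.isBounded_Icc a b).ediam_ne_top
      rw [h4, ENNReal.ofReal_rpow_of_nonneg Metric.diam_nonneg hs0.le]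
      apply ENNReal.ofReal_le_ofReal
      have := hword n hn w hw
      rw [hK, hq]
      exact this
    refine (Finset.sum_le_sum h3).trans ?_
    rw [← ENNReal.ofReal_sum_of_nonneg (fun w _ => by positivity)]
    apply ENNReal.ofReal_le_ofReal
    rw [← Finset.mul_sum]
    have h5 : ∑ w ∈ good S ν m ρ n, ν.real (S.I w) ≤ 1 :=
      (Finset.sum_le_sum_of_subset_of_nonneg (Finset.filter_subset _ _) (fun _ _ _ => measureReal_nonneg)).trans
        (sum_real_le_one S ν n)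
    have h6 : 0 ≤ K * q ^ n := by positivity
    nlinarith
  -- Hausdorff measure zero
  have hH : ∀ n0 : ℕ, Measure.hausdorffMeasure s (⋂ n ∈ Set.Ici n0, ⋃ w ∈ good S ν m ρ n, S.I w) = 0 := by
    intro n0
    have h2 := Measure.hausdorffMeasure_le_liminf_sum (X := ℝ) (β := ℕ)
      (ι := fun n => {w // w ∈ good S ν m ρ n}) s
      (⋂ n ∈ Set.Ici n0, ⋃ w ∈ good S ν m ρ n, S.I w) (l := atTop)
      (fun n => ENNReal.ofReal (Cd * (Cc * κc ^ n))) ?_ (fun n w => S.I w.1) ?_ ?_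
    · have h3 : liminf (fun n => ∑ w : {w // w ∈ good S ν m ρ n}, Metric.ediam (S.I w.1) ^ s) atTop = 0 := by
        apply Tendsto.liminf_eq
        have h4 : Tendsto (fun n => ENNReal.ofReal (K * q ^ n)) atTop (𝓝 0) := by
          have h5 : Tendsto (fun n : ℕ => K * q ^ n) atTop (𝓝 (K * 0)) :=
            (tendsto_pow_atTop_nhds_zero_of_lt_one hq0 hq1).const_mul K
          rw [mul_zero] at h5
          have h6 := ENNReal.tendsto_ofReal h5
          rwa [ENNReal.ofReal_zero] at h6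
        apply tendsto_of_tendsto_of_tendsto_of_le_of_le' tendsto_const_nhds h4
        · exact Eventually.of_forall fun n => zero_le
        · filter_upwards [eventually_ge_atTop 1] with n hn
          exact hsum n hn
      rw [h3] at h2
      exact le_antisymm h2 (zero_le)
    · have h5 : Tendsto (fun n : ℕ => Cd * (Cc * κc ^ n)) atTop (𝓝 (Cd * (Cc * 0))) :=
        ((tendsto_pow_atTop_nhds_zero_of_lt_one hκc0.le hκc1).const_mul Cc).const_mul Cd
      rw [mul_zero, mul_zero] at h5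
      have h6 := ENNReal.tendsto_ofReal h5
      rwa [ENNReal.ofReal_zero] at h6
    · filter_upwards [eventually_ge_atTop 1] with n hn
      rintro ⟨w, hw⟩
      have hw' := Finset.mem_filter.1 hw
      have hwr := mem_words.1 hw'.1
      have hne : w ≠ [] := by
        intro h
        rw [h] at hwr
        simp at hwr
        omega
      obtain ⟨a, b, hab, hI⟩ := S.I_Icc w hne hwr.1
      have h4 : Metric.ediam (S.I w) = ENNReal.ofReal (Metric.diam (S.I w)) := by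
        rw [Metric.diam, ENNReal.ofReal_toReal]
        rw [hI]
        exact (Metric.isBounded_Icc a b).ediam_ne_top
      change Metric.ediam (S.I w) ≤ _
      rw [h4]
      apply ENNReal.ofReal_le_ofReal
      refine ((hd w hne hwr.1).1).trans ?_
      apply mul_le_mul_of_nonneg_left _ hCd.le
      rw [← hwr.2]
      exact hc w hne hwr.1
    · filter_upwards [eventually_ge_atTop n0] with n hn
      intro x hx
      rw [Set.mem_iInter₂] at hx
      have := hx n hn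
      simp only [Set.mem_iUnion] at this ⊢
      obtain ⟨w, hw, hxw⟩ := this
      exact ⟨⟨w, hw⟩, hxw⟩
  rw [dimH_iUnion]
  apply iSup_le
  intro n0
  have h2 : dimH (⋂ n ∈ Set.Ici n0, ⋃ w ∈ good S ν m ρ n, S.I w) ≤ (s.toNNReal : ENNReal) := by
    apply dimH_le_of_hausdorffMeasure_ne_top
    rw [Real.coe_toNNReal _ hs0.le, hH n0]
    exact ENNReal.zero_ne_top
  exact h2

end Sch

end Pool.Agent.DimDrop
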