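import Pool.Agent.Lib_MP_644907.CWa

/-!
# Piece EIGEN: eigenvectors of a letter
-/

set_option autoImplicit false

namespace Pool.Agent.DimDrop

open Finset MeasureTheory Filter Topology

namespace Sch

variable {N : ℕ}

/-- a fixed point of a letter in its interval -/
theorem eigen_fix (S : Sch N) (s : Lt N) : ∃ x : ℝ, x ∈ S.A s ∧ den (S.M s) x ≠ 0 ∧
    S.M s 0 0 * x + S.M s 0 1 = den (S.M s) x * x := by
  have hd : ∀ x ∈ S.A s, den (S.M s) x ≠ 0 := by
    intro x hx
    apply S.den_M_ne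
    intro hx'
    exact bar_ne s (S.A_inj hx' hx)
  have hmaps : Set.MapsTo (mob (S.M s)) (Set.Icc (S.l s) (S.r s)) (Set.Icc (S.l s) (S.r s)) := by
    intro x hx
    exact S.maps s s (bar_ne s).symm x hx
  have hcont : ContinuousOn (mob (S.M s)) (Set.Icc (S.l s) (S.r s)) := by
    unfold mob
    apply ContinuousOn.div
    · fun_prop
    · fun_prop
    · intro x hx
      exact hd x hx
  obtain ⟨x, hx, hfix⟩ := exists_mem_Icc_isFixedPt_of_mapsTo hcont (S.lt s).le hmaps
  refine ⟨x, hx, hd x hx, ?_⟩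
  have h1 : mob (S.M s) x = x := hfix
  unfold mob at h1
  have h2 := hd x hx
  unfold den at h2 ⊢
  rw [div_eq_iff h2] at h1
  rw [h1]; ring

/-- powers of a matrix with two eigenvectors `(xp, 1)`, `(xm, 1)` -/
theorem eigen_pow (S : Sch N) (s : Lt N) (xp xm lp lm : ℝ) (hne : xp ≠ xm)
    (hp0 : S.M s 0 0 * xp + S.M s 0 1 = lp * xp) (hp1 : S.M s 1 0 * xp + S.M s 1 1 = lp)
    (hm0 : S.M s 0 0 * xm + S.M s 0 1 = lm * xm) (hm1 : S.M s 1 0 * xm + S.M s 1 1 = lm)
    (k : ℕ) : ∀ c d x : ℝ,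
      c * (S.mat (List.replicate k s) 0 0 * x + S.mat (List.replicate k s) 0 1) +
      d * (S.mat (List.replicate k s) 1 0 * x + S.mat (List.replicate k s) 1 1) =
      lp ^ k * (c * xp + d) * ((x - xm) / (xp - xm)) +
        lm ^ k * (c * xm + d) * ((xp - x) / (xp - xm)) := by
  have h0 : xp - xm ≠ 0 := sub_ne_zero.2 hne
  induction k with
  | zero =>
    intro c d x
    simp only [List.replicate_zero, mat_nil, Matrix.one_apply_eq, pow_zero, one_mul]
    rw [Matrix.one_apply_ne (by decide), Matrix.one_apply_ne (by decide)]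
    field_simp
    ring
  | succ k ih =>
    intro c d x
    have h1 := ih (c * S.M s 0 0 + d * S.M s 1 0) (c * S.M s 0 1 + d * S.M s 1 1) x
    rw [List.replicate_succ, mat_cons]
    simp only [Matrix.mul_apply, Fin.sum_univ_two]
    have e1 : (c * S.M s 0 0 + d * S.M s 1 0) * xp + (c * S.M s 0 1 + d * S.M s 1 1) =
        lp * (c * xp + d) := by
      linear_combination c * hp0 + d * hp1
    have e2 : (c * S.M s 0 0 + d * S.M s 1 0) * xm + (c * S.M s 0 1 + d * S.M s 1 1) =
        lm * (c * xm + d) := by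
      linear_combination c * hm0 + d * hm1
    rw [e1, e2] at h1
    rw [pow_succ, pow_succ]
    linear_combination h1

/-- `mob (M s)` maps `A s` into `A s` (`s ≠ bar s`) and is continuous there: fixed point `xp` (intermediate value theorem); same for `bar s` (and `M s * M (bar s) = 1`):
`xm ∈ A (bar s)`. So `(xp, 1)`, `(xm, 1)` are eigenvectors of `M s` with eigenvalues `lp = den (M s) xp`, `lm = den (M s) xm`, `|lp lm| = 1`. `|lm| < |lp|`: let `x ∈ A t'` for a letter
`t' ≠ s, bar s`; in the coordinate `y = (x - xp) / (x - xm)` the map is `y ↦ (lm / lp) y`, and `mob (M s)^k x → xp`, because both `mob (M s)^k x` and `xp` are in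
`I (s^k)` whose diameter tends to `0` (`contr`, `diam_bound`). -/
theorem eigen (S : Sch N) (hN : 2 ≤ N) (s : Lt N) : ∃ xp xm lp lm : ℝ, xp ∈ S.A s ∧ xm ∈ S.A (bar s) ∧ lm ≠ 0 ∧ |lm| < |lp| ∧
    (∀ k : ℕ, ∀ c d x : ℝ, c * (S.mat (List.replicate k s) 0 0 * x + S.mat (List.replicate k s) 0 1) +
      d * (S.mat (List.replicate k s) 1 0 * x + S.mat (List.replicate k s) 1 1) =
      lp ^ k * (c * xp + d) * ((x - xm) / (xp - xm)) + lm ^ k * (c * xm + d) * ((xp - x) / (xp - xm))) := by
  obtain ⟨xp, hxp, hlp, hp0⟩ := eigen_fix S s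
  obtain ⟨xm, hxm, hmu, hm0⟩ := eigen_fix S (bar s)
  set lp := den (S.M s) xp with hlpdef
  set mu := den (S.M (bar s)) xm with hmudef
  have hne : xp ≠ xm := by
    rintro rfl
    exact bar_ne s (S.A_inj hxm hxp)
  have h0 : xp - xm ≠ 0 := sub_ne_zero.2 hne
  have hp1 : S.M s 1 0 * xp + S.M s 1 1 = lp := rfl
  have hm1 : S.M (bar s) 1 0 * xm + S.M (bar s) 1 1 = mu := rfl
  -- `M s * M (bar s) = 1`
  have hinv : S.M s * S.M (bar s) = 1 := by
    have := S.inv (bar s)
    rwa [bar_bar] at this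
  have i00 := congrFun (congrFun hinv 0) 0
  have i01 := congrFun (congrFun hinv 0) 1
  have i10 := congrFun (congrFun hinv 1) 0
  have i11 := congrFun (congrFun hinv 1) 1
  simp only [Matrix.mul_apply, Fin.sum_univ_two] at i00 i01 i10 i11
  rw [Matrix.one_apply_eq] at i00 i11
  rw [Matrix.one_apply_ne (by decide)] at i01 i10
  have hm0' : S.M s 0 0 * xm + S.M s 0 1 = mu⁻¹ * xm := by
    have : mu * (S.M s 0 0 * xm + S.M s 0 1) = xm := by
      linear_combination (-(S.M s 0 0)) * hm0 - (S.M s 0 1) * hm1 + xm * i00 + i01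
    field_simp
    linear_combination this
  have hm1' : S.M s 1 0 * xm + S.M s 1 1 = mu⁻¹ := by
    have : mu * (S.M s 1 0 * xm + S.M s 1 1) = 1 := by
      linear_combination (-(S.M s 1 0)) * hm0 - (S.M s 1 1) * hm1 + xm * i10 + i11
    field_simp
    linear_combination this
  have hpow := eigen_pow S s xp xm lp mu⁻¹ hne hp0 hp1 hm0' hm1'
  refine ⟨xp, xm, lp, mu⁻¹, hxp, hxm, inv_ne_zero hmu, ?_, fun k c d x => hpow k c d x⟩
  -- the determinant
  have hdet : |lp * mu⁻¹| = 1 := by
    have h1 : lp * mu⁻¹ = (S.M s).det := by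
      rw [Matrix.det_fin_two]
      apply mul_right_cancel₀ h0
      linear_combination (-(S.M s 1 0 * xm + S.M s 1 1)) * hp0 - lp * xp * hm1' +
        (S.M s 0 0 * xm + S.M s 0 1) * hp1 + lp * hm0'
    rw [h1]
    exact S.det s
  -- `|lp| > 1`
  have hred : ∀ k : ℕ, Red (List.replicate (k + 1) s ++ [s]) := fun k =>
    red_replicate s [s] ((red_cons_cons s s []).2 ⟨(bar_ne s).symm, red_one s⟩) k
  have hred' : ∀ k : ℕ, Red (List.replicate (k + 1) s) := fun k => (hred k).append_left
  have hnil : ∀ k : ℕ, List.replicate (k + 1) s ≠ [] := fun k => by simp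
  obtain ⟨C, hC, hCb⟩ := S.den_bound
  obtain ⟨C', κ, hC', hκ0, hκ1, hκb⟩ := S.contr hN
  have hden : ∀ k : ℕ, den (S.mat (List.replicate k s)) xp = lp ^ k := by
    intro k
    have := hpow k 0 1 xp
    rw [div_self h0] at this
    unfold den
    linear_combination this
  have hlp1 : 1 < |lp| := by
    by_contra hcon
    push Not at hcon
    have hcc : ∀ k : ℕ, (C ^ 2)⁻¹ ≤ C' * κ ^ (k + 1) := by
      intro k
      have h1 := (hCb (List.replicate (k + 1) s) s (hnil k) (hred k) xp hxp).2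
      rw [hden, abs_pow] at h1
      have h2 : |S.cc (List.replicate (k + 1) s)| ≤ C := by
        calc _ ≤ C * |lp| ^ (k + 1) := h1
          _ ≤ C * 1 := by
            apply mul_le_mul_of_nonneg_left _ hC.le
            exact pow_le_one₀ (abs_nonneg _) hcon
          _ = C := mul_one C
      have h3 := hκb _ (hnil k) (hred' k)
      rw [List.length_replicate] at h3
      have h4 : S.cc (List.replicate (k + 1) s) ≠ 0 := S.cc_ne _ (hnil k) (hred' k)
      refine le_trans ?_ h3
      apply inv_anti₀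
      · positivity
      · rw [← sq_abs (S.cc _)]
        exact pow_le_pow_left₀ (abs_nonneg _) h2 2
    have hlim : Filter.Tendsto (fun k : ℕ => C' * κ ^ (k + 1)) Filter.atTop (nhds 0) := by
      have h1 : Filter.Tendsto (fun k : ℕ => κ ^ (k + 1)) Filter.atTop (nhds 0) :=
        (tendsto_pow_atTop_nhds_zero_of_lt_one hκ0.le hκ1).comp (Filter.tendsto_add_atTop_nat 1)
      simpa using h1.const_mul C'
    have h5 : (C ^ 2)⁻¹ ≤ 0 := ge_of_tendsto' hlim hcc
    have h6 : 0 < (C ^ 2)⁻¹ := by positivity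
    linarith
  rw [abs_mul] at hdet
  have hlm1 : |mu⁻¹| < 1 := by
    by_contra hcon
    push Not at hcon
    have : 1 < |lp| * |mu⁻¹| := by nlinarith
    linarith
  linarith

end Sch

end Pool.Agent.DimDrop
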