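import Pool.Agent.Lib_MP_644907.Words

/-!
# MP_644907_pr: random walk and ping pong, definitions
-/

set_option autoImplicit false

namespace Pool.Agent.DimDrop

open MeasureTheory

/-- a finitely supported random walk on the group `Γ` acting on `X`, whose steps generate `Γ` as a semigroup, and a stationary
probability measure on `X` -/
structure RW (Γ X : Type*) [Group Γ] [MulAction Γ X] [MeasurableSpace X] (n : ℕ) where
  p : Fin n → ℝ
  γ : Fin n → Γ
  ν : Measure X
  pos : ∀ i, 0 < p i
  sum : ∑ i, p i = 1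
  meas : ∀ g : Γ, Measurable (fun x : X => g • x)
  prob : IsProbabilityMeasure ν
  stat : ∀ A : Set X, MeasurableSet A → ν.real A = ∑ i, p i * ν.real {x | γ i • x ∈ A}
  gen : ∀ g : Γ, ∃ l : List (Fin n), l ≠ [] ∧ (l.map γ).prod = g

/-- a ping pong action of the free group of rank `N`, of finite index in `Γ` -/
structure PP (N : ℕ) (Γ X : Type*) [Group Γ] [MulAction Γ X] [MeasurableSpace X] where
  e : Lt N → Γ
  A : Lt N → Set X
  einv : ∀ a, e (bar a) = (e a)⁻¹
  mA : ∀ a, MeasurableSet (A a)
  disj : ∀ a b, a ≠ b → Disjoint (A a) (A b)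
  ping : ∀ a x, x ∉ A (bar a) → e a • x ∈ A a
  C : Finset Γ
  cov : ∀ g : Γ, ∃ w : List (Lt N), ∃ c ∈ C, g = (w.map e).prod * c

variable {N n : ℕ} {Γ X : Type*} [Group Γ] [MulAction Γ X] [MeasurableSpace X]

namespace PP

variable (P : PP N Γ X)

/-- the group element of a word -/
def el (w : List (Lt N)) : Γ := (w.map P.e).prod

/-- the cylinder of a word -/
def cy (w : List (Lt N)) : Set X := cyl (fun a x => P.e a • x) P.A w

theorem el_nil : P.el [] = 1 := rfl

theorem el_cons (a : Lt N) (w : List (Lt N)) : P.el (a :: w) = P.e a * P.el w := by simp [el]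

theorem el_append (w v : List (Lt N)) : P.el (w ++ v) = P.el w * P.el v := by simp [el]

theorem cy_one (a : Lt N) : P.cy [a] = P.A a := rfl

theorem cy_cons (a : Lt N) (w : List (Lt N)) (hw : w ≠ []) : P.cy (a :: w) = (fun x => P.e a • x) '' P.cy w := by
  cases w with
  | nil => exact absurd rfl hw
  | cons b w => rfl

end PP

/-- `u_v (g) = ν (g⁻¹ cyl v)` -/
noncomputable def uu (R : RW Γ X n) (P : PP N Γ X) (v : List (Lt N)) (g : Γ) : ℝ := R.ν.real {x | g • x ∈ P.cy v}

end Pool.Agent.DimDrop
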