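import Pool.Agent.Lib_MP_644907.ArcsC
import Pool.Agent.Lib_MP_644907.RW

/-!
# Piece GROUP: the group of the random walk acting on the circle
-/

set_option autoImplicit false

namespace Pool.Agent.DimDrop

open MeasureTheory

/-- composition of a list of functions at a point -/
theorem foldr_comp_cons {α : Type*} (l : List (α → α)) (f : α → α) (z : α) :
    (f :: l).foldr (fun f g => f ∘ g) id z = f (l.foldr (fun f g => f ∘ g) id z) := rfl

theorem foldr_comp_append {α : Type*} (l m : List (α → α)) :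
    (l ++ m).foldr (fun f g => f ∘ g) id =
      (l.foldr (fun f g => f ∘ g) id) ∘ (m.foldr (fun f g => f ∘ g) id) := by
  induction l with
  | nil => rfl
  | cons f l ih =>
    show f ∘ ((l ++ m).foldr (fun f g => f ∘ g) id) = _
    rw [ih]
    rfl

/-- The group: all permutations `σ` of the circle which are the restriction of some `f ∈ S` (a subgroup: `S` is closed under composition,
every `f ∈ S` has a left inverse in `S` on the closed disk, and `S` is nonempty as `∑ p = 1`). Every `f ∈ S` gives such a permutation: it maps the circle to itself (`IsoD.norm_eq`), and so does its left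
inverse `f' ∈ S`, which has itself a left inverse `f'' ∈ S`, so `f'' = f'' f' f = f` on the circle and `f f' = 1`. Induction over `S` (`hS`, the intersection of all composition closed sets containing the `g i`): every `f ∈ S` is an `IsoD`, is measurable, and is a
composition of some `g i`'s. `ν` is carried by the circle; its restriction to the subtype is `ν.comap Subtype.val`. -/
theorem exists_rw {n N : ℕ} (p : Fin n → ℝ) (g : Fin n → ℂ → ℂ) (hp : ∀ i, 0 < p i) (hp1 : ∑ i, p i = 1)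
    (hg : ∀ i, ∃ u a : ℂ, ‖u‖ = 1 ∧ ‖a‖ < 1 ∧
      (g i = (fun z : ℂ => u * (z - a) / (1 - starRingEnd ℂ a * z)) ∨
       g i = (fun z : ℂ => u * (starRingEnd ℂ z - a) / (1 - starRingEnd ℂ a * starRingEnd ℂ z))))
    (S : Set (ℂ → ℂ)) (hS : S = ⋂₀ {T : Set (ℂ → ℂ) | Set.range g ⊆ T ∧ ∀ f ∈ T, ∀ h ∈ T, f ∘ h ∈ T})
    (hinv : ∀ f ∈ S, ∃ h ∈ S, ∀ z : ℂ, ‖z‖ ≤ 1 → h (f z) = z)
    (ν : Measure ℂ) [IsProbabilityMeasure ν] (hν : ν (Metric.sphere (0:ℂ) 1)ᶜ = 0)
    (hstat : ∀ A : Set ℂ, MeasurableSet A → ν A = ∑ i, ENNReal.ofReal (p i) * ν (g i ⁻¹' A))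
    (T : ArcSch N) (hT : ∀ a, T.h a ∈ S)
    (hfin : ∃ C : Set (ℂ → ℂ), C.Finite ∧ C ⊆ S ∧ ∀ f ∈ S, ∃ c ∈ C, ∃ w : List (Lt N),
      ∀ z : ℂ, ‖z‖ ≤ 1 → f z = T.wd w (c z)) :
    ∃ (Γ : Subgroup (Equiv.Perm (Metric.sphere (0:ℂ) 1))) (R : RW Γ (Metric.sphere (0:ℂ) 1) n)
      (P : PP N Γ (Metric.sphere (0:ℂ) 1)),
      R.ν = ν.comap Subtype.val ∧ (∀ a, P.A a = Subtype.val ⁻¹' T.A a) ∧
      (∀ a (z : Metric.sphere (0:ℂ) 1), ((P.e a • z : Metric.sphere (0:ℂ) 1) : ℂ) = T.h a z) := by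
  classical
  -- induction over S
  have hind : ∀ Q : (ℂ → ℂ) → Prop, (∀ i, Q (g i)) → (∀ f h, Q f → Q h → Q (f ∘ h)) →
      ∀ f ∈ S, Q f := by
    intro Q h1 h2 f hf
    rw [hS] at hf
    exact hf {f | Q f} ⟨by rintro _ ⟨i, rfl⟩; exact h1 i, fun f hf h hh => h2 f h hf hh⟩
  have hgS : ∀ i, g i ∈ S := by
    intro i
    rw [hS]
    rintro T ⟨h1, _⟩
    exact h1 ⟨i, rfl⟩
  have hcomp : ∀ f ∈ S, ∀ h ∈ S, f ∘ h ∈ S := by
    intro f hf h hh
    rw [hS] at hf hh ⊢
    intro T hT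
    exact hT.2 f (hf T hT) h (hh T hT)
  have hiso : ∀ f ∈ S, IsoD f :=
    hind IsoD (fun i => isoD_of_form (g i) (hg i)) (fun f h hf hh => hf.comp hh)
  have hmeas : ∀ f ∈ S, Measurable f := by
    refine hind Measurable (fun i => ?_) (fun f h hf hh => hf.comp hh)
    obtain ⟨u, a, _, _, h | h⟩ := hg i
    · rw [h]; fun_prop
    · rw [h]
      have : Measurable (fun z : ℂ => starRingEnd ℂ z) := Complex.continuous_conj.measurable
      fun_prop
  have hlist : ∀ f ∈ S, ∃ l : List (Fin n), l ≠ [] ∧ f = (l.map g).foldr (fun f g => f ∘ g) id := by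
    refine hind _ (fun i => ⟨[i], by simp, rfl⟩) ?_
    rintro f h ⟨l, hl, rfl⟩ ⟨m, hm, rfl⟩
    refine ⟨l ++ m, by simp [hl], ?_⟩
    rw [List.map_append, foldr_comp_append]
  have hnorm : ∀ f ∈ S, ∀ z : Metric.sphere (0:ℂ) 1, f z ∈ Metric.sphere (0:ℂ) 1 := by
    intro f hf z
    have hz : ‖(z : ℂ)‖ = 1 := by simp
    have := (hiso f hf).norm_eq z hz
    simpa using this
  have hle : ∀ z : Metric.sphere (0:ℂ) 1, ‖(z : ℂ)‖ ≤ 1 := by
    intro z
    have hz : ‖(z : ℂ)‖ = 1 := by simp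
    exact hz.le
  -- two sided inverses
  have hinv2 : ∀ f ∈ S, ∃ h ∈ S, (∀ z : Metric.sphere (0:ℂ) 1, h (f z) = z) ∧
      (∀ z : Metric.sphere (0:ℂ) 1, f (h z) = z) := by
    intro f hf
    obtain ⟨h, hh, hfh⟩ := hinv f hf
    obtain ⟨k, hk, hhk⟩ := hinv h hh
    refine ⟨h, hh, fun z => hfh z (hle z), fun z => ?_⟩
    have e1 : k (h z) = z := hhk z (hle z)
    have e2 : k (h (f (h z))) = f (h z) :=
      hhk (f (h z)) (hle ⟨f (h z), hnorm f hf ⟨h z, hnorm h hh z⟩⟩)
    have e3 : h (f (h z)) = h z := hfh (h z) (hle ⟨h z, hnorm h hh z⟩)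
    rw [← e2, e3, e1]
  have hne : ∃ f, f ∈ S := by
    have : Nonempty (Fin n) := by
      by_contra hno
      rw [not_nonempty_iff] at hno
      rw [Finset.univ_eq_empty, Finset.sum_empty] at hp1
      exact zero_ne_one hp1
    obtain ⟨i⟩ := this
    exact ⟨g i, hgS i⟩
  let Γ : Subgroup (Equiv.Perm (Metric.sphere (0:ℂ) 1)) :=
    { carrier := {σ | ∃ f ∈ S, ∀ z : Metric.sphere (0:ℂ) 1, ((σ z : Metric.sphere (0:ℂ) 1) : ℂ) = f z}
      mul_mem' := by
        rintro σ τ ⟨f, hf, hσ⟩ ⟨h, hh, hτ⟩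
        refine ⟨f ∘ h, hcomp f hf h hh, fun z => ?_⟩
        rw [Equiv.Perm.mul_apply, hσ, hτ]
        rfl
      one_mem' := by
        obtain ⟨f, hf⟩ := hne
        obtain ⟨h, hh, h1, _⟩ := hinv2 f hf
        refine ⟨h ∘ f, hcomp h hh f hf, fun z => ?_⟩
        rw [Equiv.Perm.one_apply]
        exact (h1 z).symm
      inv_mem' := by
        rintro σ ⟨f, hf, hσ⟩
        obtain ⟨h, hh, h1, _⟩ := hinv2 f hf
        refine ⟨h, hh, fun z => ?_⟩
        have e1 := hσ (σ⁻¹ z)
        have e0 : σ (σ⁻¹ z) = z := σ.apply_symm_apply z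
        rw [e0] at e1
        rw [e1, h1] }
  have hΓ : ∀ γ : Γ, ∃ f ∈ S, ∀ z : Metric.sphere (0:ℂ) 1,
      ((γ • z : Metric.sphere (0:ℂ) 1) : ℂ) = f z := fun γ => γ.2
  have hext : ∀ γ γ' : Γ, (∀ z : Metric.sphere (0:ℂ) 1,
      ((γ • z : Metric.sphere (0:ℂ) 1) : ℂ) = ((γ' • z : Metric.sphere (0:ℂ) 1) : ℂ)) → γ = γ' := by
    intro γ γ' h
    exact Subtype.ext (Equiv.ext fun z => Subtype.ext (h z))
  have key : ∀ f : S, ∃ γ : Γ, ∀ z : Metric.sphere (0:ℂ) 1,
      ((γ • z : Metric.sphere (0:ℂ) 1) : ℂ) = f.1 z := by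
    rintro ⟨f, hf⟩
    obtain ⟨h, hh, h1, h2⟩ := hinv2 f hf
    let σ : Equiv.Perm (Metric.sphere (0:ℂ) 1) :=
      { toFun := fun z => ⟨f z, hnorm f hf z⟩
        invFun := fun z => ⟨h z, hnorm h hh z⟩
        left_inv := fun z => Subtype.ext (h1 z)
        right_inv := fun z => Subtype.ext (h2 z) }
    exact ⟨⟨σ, f, hf, fun z => rfl⟩, fun z => rfl⟩
  choose el hel using key
  have hms : MeasurableSet (Metric.sphere (0:ℂ) 1) := Metric.isClosed_sphere.measurableSet
  have hemb : MeasurableEmbedding (Subtype.val : Metric.sphere (0:ℂ) 1 → ℂ) :=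
    MeasurableEmbedding.subtype_coe hms
  have hcomap : ∀ A : Set (Metric.sphere (0:ℂ) 1), ν.comap Subtype.val A = ν (Subtype.val '' A) :=
    fun A => hemb.comap_apply ν A
  have hprob : IsProbabilityMeasure (ν.comap (Subtype.val : Metric.sphere (0:ℂ) 1 → ℂ)) := by
    constructor
    rw [hcomap, Set.image_univ, Subtype.range_coe]
    have := prob_compl_eq_zero_iff (μ := ν) hms
    exact this.1 hν
  have hγ : ∀ (i : Fin n) (A : Set (Metric.sphere (0:ℂ) 1)),
      ν (g i ⁻¹' (Subtype.val '' A)) = ν.comap Subtype.val {x | el ⟨g i, hgS i⟩ • x ∈ A} := by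
    intro i A
    rw [hcomap]
    have e1 : (Subtype.val '' {x | el ⟨g i, hgS i⟩ • x ∈ A} : Set ℂ) =
        g i ⁻¹' (Subtype.val '' A) ∩ Metric.sphere (0:ℂ) 1 := by
      ext z
      constructor
      · rintro ⟨x, hx, rfl⟩
        exact ⟨⟨_, hx, hel ⟨g i, hgS i⟩ x⟩, x.2⟩
      · rintro ⟨⟨y, hy, hyz⟩, hz⟩
        refine ⟨⟨z, hz⟩, ?_, rfl⟩
        have : el ⟨g i, hgS i⟩ • (⟨z, hz⟩ : Metric.sphere (0:ℂ) 1) = y := by
          apply Subtype.ext
          rw [hel, hyz]
        show el ⟨g i, hgS i⟩ • (⟨z, hz⟩ : Metric.sphere (0:ℂ) 1) ∈ A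
        rw [this]; exact hy
    rw [e1]
    apply le_antisymm
    · calc ν (g i ⁻¹' (Subtype.val '' A))
          ≤ ν ((g i ⁻¹' (Subtype.val '' A) ∩ Metric.sphere (0:ℂ) 1) ∪ (Metric.sphere (0:ℂ) 1)ᶜ) := by
            apply measure_mono
            intro z hz
            by_cases h : z ∈ Metric.sphere (0:ℂ) 1
            · exact Or.inl ⟨hz, h⟩
            · exact Or.inr h
        _ ≤ ν (g i ⁻¹' (Subtype.val '' A) ∩ Metric.sphere (0:ℂ) 1) + ν (Metric.sphere (0:ℂ) 1)ᶜ :=
            measure_union_le _ _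
        _ = ν (g i ⁻¹' (Subtype.val '' A) ∩ Metric.sphere (0:ℂ) 1) := by rw [hν, add_zero]
    · exact measure_mono Set.inter_subset_left
  have hprodR : ∀ (l : List (Fin n)) (z : Metric.sphere (0:ℂ) 1),
      (((l.map (fun i => el ⟨g i, hgS i⟩)).prod • z : Metric.sphere (0:ℂ) 1) : ℂ) =
        (l.map g).foldr (fun f g => f ∘ g) id z := by
    intro l z
    induction l with
    | nil => simp
    | cons i l ih =>
      rw [List.map_cons, List.prod_cons, mul_smul, hel, ih]
      rfl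
  let R : RW Γ (Metric.sphere (0:ℂ) 1) n :=
    { p := p
      γ := fun i => el ⟨g i, hgS i⟩
      ν := ν.comap Subtype.val
      pos := hp
      sum := hp1
      meas := by
        intro γ
        obtain ⟨f, hf, h⟩ := hΓ γ
        have : (fun x : Metric.sphere (0:ℂ) 1 => γ • x) = fun x => ⟨f x, hnorm f hf x⟩ := by
          funext x
          exact Subtype.ext (h x)
        rw [this]
        exact ((hmeas f hf).comp measurable_subtype_coe).subtype_mk
      prob := hprob
      stat := by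
        intro A hA
        have h1 := hstat (Subtype.val '' A) (hemb.measurableSet_image.2 hA)
        rw [Measure.real, hcomap, h1, ENNReal.toReal_sum]
        · apply Finset.sum_congr rfl
          intro i _
          rw [ENNReal.toReal_mul, ENNReal.toReal_ofReal (hp i).le, hγ i A]
          rfl
        · intro i _
          exact ENNReal.mul_ne_top ENNReal.ofReal_ne_top (measure_ne_top _ _)
      gen := by
        intro γ
        obtain ⟨f, hf, h⟩ := hΓ γ
        obtain ⟨l, hl, hfl⟩ := hlist f hf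
        refine ⟨l, hl, ?_⟩
        apply hext
        intro z
        rw [hprodR, h, hfl] }
  obtain ⟨C, hC, hCS, hcov⟩ := hfin
  have hprodP : ∀ (w : List (Lt N)) (z : Metric.sphere (0:ℂ) 1),
      (((w.map (fun a => el ⟨T.h a, hT a⟩)).prod • z : Metric.sphere (0:ℂ) 1) : ℂ) = T.wd w z := by
    intro w z
    induction w with
    | nil => simp [ArcSch.wd]
    | cons a w ih =>
      rw [List.map_cons, List.prod_cons, mul_smul, hel, ih]
      rfl
  let P : PP N Γ (Metric.sphere (0:ℂ) 1) :=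
    { e := fun a => el ⟨T.h a, hT a⟩
      A := fun a => Subtype.val ⁻¹' T.A a
      einv := by
        intro a
        apply eq_inv_of_mul_eq_one_left
        apply hext
        intro z
        rw [mul_smul, hel, hel, one_smul]
        exact T.inv a z (hle z)
      mA := fun a => measurable_subtype_coe (T.closed a).measurableSet
      disj := fun a b h => (T.disj a b h).preimage _
      ping := by
        intro a x hx
        show ((el ⟨T.h a, hT a⟩ • x : Metric.sphere (0:ℂ) 1) : ℂ) ∈ T.A a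
        rw [hel]
        exact T.ping a x (by simp) hx
      C := hC.toFinset.attach.image (fun c => el ⟨c.1, hCS (hC.mem_toFinset.1 c.2)⟩)
      cov := by
        intro γ
        obtain ⟨f, hf, h⟩ := hΓ γ
        obtain ⟨c, hcC, w, hw⟩ := hcov f hf
        refine ⟨w, el ⟨c, hCS hcC⟩, ?_, ?_⟩
        · rw [Finset.mem_image]
          exact ⟨⟨c, hC.mem_toFinset.2 hcC⟩, Finset.mem_attach _ _, rfl⟩
        · apply hext
          intro z
          rw [mul_smul, hprodP, hel, h, hw z (hle z)] }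
  exact ⟨Γ, R, P, rfl, fun a => rfl, fun a z => hel ⟨T.h a, hT a⟩ z⟩

end Pool.Agent.DimDrop
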