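import Pool.Agent.Lib_MP_644907.PNb

/-!
# Piece PNC: the stationary measure is carried by the cylinders
-/

set_option autoImplicit false

namespace Pool.Agent.DimDrop

open MeasureTheory

variable {N n : ℕ} {Γ X : Type*} [Group Γ] [MulAction Γ X] [MeasurableSpace X]

/-- Induction on `k`. `Z_k = X \ ⋃_{|w| = k} cy w`. `Z_1 ⊆ D` (if `x` is in no `A a`, then `x ∉ A (bar (bar a))`, `e (bar a) x ∈ A (bar a)` for all `a`). `Z_{k+1} ⊆ D ∪ ⋃_a e a Z_k`: if `x ∉ D` there is `a` with `e (bar a) x ∉ A (bar a)`,
`y = e (bar a) x`, `x = e a y`. If `y ∈ cy w` with `|w| = k` then `w` does not start with `bar a` (`cy_subset_head`), so `a :: w` is reduced and `x ∈ cy (a :: w)`, a contradiction. So `y ∈ Z_k`. -/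
theorem null_Z (R : RW Γ X n) (P : PP N Γ X) (hN : 2 ≤ N) (k : ℕ) (hk : 1 ≤ k) (g : Γ) :
    R.ν.real {x | g • x ∉ ⋃ w ∈ words N k, P.cy w} = 0 := by
  haveI := R.prob
  have hD : ∀ g : Γ, R.ν {x | g • x ∈ P.DD} = 0 := fun g =>
    (measureReal_eq_zero_iff (measure_ne_top _ _)).1 (null_D R P hN g)
  suffices H : ∀ g : Γ, R.ν {x | g • x ∉ ⋃ w ∈ words N k, P.cy w} = 0 from
    (measureReal_eq_zero_iff (measure_ne_top _ _)).2 (H g)
  induction k, hk using Nat.le_induction with
  | base =>
    intro g
    refine measure_mono_null ?_ (hD g)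
    intro x hx a
    have hx' : g • x ∉ P.A (bar a) := by
      intro h
      apply hx
      simp only [Set.mem_iUnion]
      exact ⟨[bar a], mem_words.2 ⟨red_one _, rfl⟩, h⟩
    exact P.ping a _ hx'
  | succ k hk ih =>
    intro g
    have hsub : {x | g • x ∉ ⋃ w ∈ words N (k + 1), P.cy w} ⊆
        {x | g • x ∈ P.DD} ∪ ⋃ a : Lt N, {x | (P.e a * g) • x ∉ ⋃ w ∈ words N k, P.cy w} := by
      intro x hx
      by_cases hd : g • x ∈ P.DD
      · exact Or.inl hd
      · right
        have hd' : ∃ a, P.e a • (g • x) ∉ P.A a := by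
          by_contra hcon
          push Not at hcon
          exact hd hcon
        obtain ⟨a, ha⟩ := hd'
        refine Set.mem_iUnion.2 ⟨a, ?_⟩
        intro hmem
        rw [mul_smul] at hmem
        simp only [Set.mem_iUnion] at hmem
        obtain ⟨w, hw, hyw⟩ := hmem
        obtain ⟨hwr, hwl⟩ := mem_words.1 hw
        apply hx
        simp only [Set.mem_iUnion]
        cases w with
        | nil => simp at hwl; omega
        | cons b w' =>
          have hyb : P.e a • (g • x) ∈ P.A b := P.cy_subset_head b w' hwr hyw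
          have hba : b ≠ bar (bar a) := by
            rw [bar_bar]
            rintro rfl
            exact ha hyb
          refine ⟨bar a :: b :: w', mem_words.2 ⟨(red_cons_cons _ _ _).2 ⟨hba, hwr⟩, by simpa using hwl⟩, ?_⟩
          rw [P.cy_cons (bar a) (b :: w') (by simp)]
          refine ⟨P.e a • (g • x), hyw, ?_⟩
          simp only [P.einv, inv_smul_smul]
    refine measure_mono_null hsub (measure_union_null (hD g) (measure_iUnion_null fun a => ih (P.e a * g)))

end Pool.Agent.DimDrop
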