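import Pool.Agent.Lib_MP_644907.RPa

/-!
# Piece RPB: linear recurrences
-/

set_option autoImplicit false

namespace Pool.Agent.DimDrop

open MeasureTheory

variable {N n : ℕ} {Γ X : Type*} [Group Γ] [MulAction Γ X] [MeasurableSpace X]

private theorem rpb_red (s t : Lt N) (hts' : t ≠ bar s) (w : List (Lt N)) (hw : Red (w ++ [s])) (j : ℕ) :
    Red (w ++ (List.replicate (j + 1) s ++ [t])) := by
  have h1 : Red ([] ++ [s] ++ (List.replicate j s ++ [t])) := by
    have := red_replicate s [t] (by rw [red_cons_cons]; exact ⟨hts', red_one t⟩) j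
    simpa [List.replicate_succ] using this
  have h2 := red_append_of [] w (List.replicate j s ++ [t]) s hw h1
  simpa [List.replicate_succ] using h2

private theorem rpb_rep (s : Lt N) (w : List (Lt N)) (hw : Red (w ++ [s])) (k : ℕ) :
    Red ((w ++ List.replicate k s) ++ [s]) := by
  have hs : s ≠ bar s := fun h => bar_ne s h.symm
  have h0 : ∀ k : ℕ, Red (List.replicate k s ++ [s]) := by
    intro k
    cases k with
    | zero => simp
    | succ k => exact red_replicate s [s] (by rw [red_cons_cons]; exact ⟨hs, red_one s⟩) k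
  have h1 : Red ([] ++ [s] ++ List.replicate k s) := by
    have := h0 k
    rw [← List.replicate_succ'] at this
    simpa [List.replicate_succ] using this
  have h2 := red_append_of [] w (List.replicate k s) s hw h1
  have h3 : (w ++ List.replicate k s) ++ [s] = w ++ [s] ++ List.replicate k s := by
    rw [List.append_assoc, List.append_assoc]
    congr 1
    rw [← List.replicate_succ', List.replicate_succ]
    rfl
  rw [h3]
  exact h2

/-- Let `B` be the finite set of pairs `(w, c)`, `w` reduced, `|w| ≤ r`, `c ∈ C`. The vectors `H_i = (u_{s^(i+1) t} (el w c))_{(w, c) ∈ B}`, `i = 0, ..., |B|` are linearly dependent: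
`∑ q_i H_i = 0`, `q ≠ 0`. By `rp` and induction on the word `w` in front (all the words `w' s^(i+1) t` have the same first letter), `∑ q_i u_{w s^(i+1) t} = 0` on `B`, in particular at `1`; apply this to `w ++ s^k`. -/
theorem lin_rec (R : RW Γ X n) (P : PP N Γ X) (hS : SmallC R P) (s t : Lt N) (hts : t ≠ s) (hts' : t ≠ bar s) :
    ∃ (d : ℕ) (q : ℕ → ℝ), (∃ i ∈ Finset.range (d + 1), q i ≠ 0) ∧ ∀ w : List (Lt N), Red (w ++ [s]) → ∀ k : ℕ,
      ∑ i ∈ Finset.range (d + 1), q i * R.ν.real (P.cy (w ++ (List.replicate (k + i + 1) s ++ [t]))) = 0 := by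
  classical
  obtain ⟨r, ⟨w0, hw0, hl0, c0, hc0, h1⟩, hrp⟩ := rp R P hS
  let WW : Finset (List (Lt N)) := (Finset.range (r + 1)).biUnion (fun m => words N m)
  let B : Finset (List (Lt N) × Γ) := WW ×ˢ P.C
  have hWW : ∀ w : List (Lt N), Red w → w.length ≤ r → w ∈ WW := by
    intro w hw hl
    simp only [WW, Finset.mem_biUnion, Finset.mem_range]
    exact ⟨w.length, by omega, mem_words.mpr ⟨hw, rfl⟩⟩
  let H : Fin (B.card + 1) → (B → ℝ) := fun i b =>
    uu R P (List.replicate ((i : ℕ) + 1) s ++ [t]) (P.el b.1.1 * b.1.2)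
  have hdep : ¬ LinearIndependent ℝ H := by
    intro hli
    have := hli.fintype_card_le_finrank
    simp at this
  rw [Fintype.not_linearIndependent_iff] at hdep
  obtain ⟨g, hg, i0, hi0⟩ := hdep
  let q : ℕ → ℝ := fun i => if h : i < B.card + 1 then g ⟨i, h⟩ else 0
  have hq : ∀ i : Fin (B.card + 1), q i = g i := by
    intro i
    have := i.2
    simp only [q]
    rw [dif_pos this]
  refine ⟨B.card, q, ⟨i0, Finset.mem_range.mpr i0.2, by rw [hq]; exact hi0⟩, ?_⟩
  have key : ∀ u : List (Lt N), Red (u ++ [s]) → ∀ w, Red w → w.length ≤ r → ∀ c ∈ P.C,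
      ∑ j : Fin (B.card + 1), g j * uu R P (u ++ (List.replicate ((j : ℕ) + 1) s ++ [t])) (P.el w * c) = 0 := by
    intro u
    induction u with
    | nil =>
      intro _ w hw hl c hc
      have hmem : (w, c) ∈ B := by
        simp only [B, Finset.mem_product]
        exact ⟨hWW w hw hl, hc⟩
      have := congrFun hg ⟨(w, c), hmem⟩
      simpa [H, Finset.sum_apply] using this
    | cons a u ih =>
      intro hu
      have hu' : Red (u ++ [s]) := by
        have : Red ([a] ++ (u ++ [s])) := by simpa using hu
        exact this.append_right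
      have := hrp a (B.card + 1) (fun j => u ++ (List.replicate ((j : ℕ) + 1) s ++ [t])) g
        (fun j => ⟨by simp, by
          have := rpb_red s t hts' (a :: u) (by simpa using hu) (j : ℕ)
          simpa using this⟩) (ih hu')
      intro w hw hl c hc
      have h2 := this w hw hl c hc
      simpa using h2
  intro w hw k
  have h2 := key (w ++ List.replicate k s) (rpb_rep s w hw k) w0 hw0 hl0 c0 hc0
  rw [h1] at h2
  rw [Finset.sum_range]
  rw [← h2]
  refine Finset.sum_congr rfl fun j _ => ?_
  rw [hq]
  congr 1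
  unfold uu
  congr 1
  have h3 : w ++ (List.replicate (k + (j : ℕ) + 1) s ++ [t]) =
      w ++ List.replicate k s ++ (List.replicate ((j : ℕ) + 1) s ++ [t]) := by
    rw [List.append_assoc, ← List.append_assoc (List.replicate k s), List.replicate_append_replicate, add_assoc]
  rw [h3]
  ext x
  simp

end Pool.Agent.DimDrop
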