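import Pool.Agent.Lib_MP_644907.PWords

/-!
# Piece PND: no atoms
-/

set_option autoImplicit false

namespace Pool.Agent.DimDrop

open MeasureTheory

variable {N n : ℕ} {Γ X : Type*} [Group Γ] [MulAction Γ X] [MeasurableSpace X]

private theorem pow_mem_aux (P : PP N Γ X) (a : Lt N) (x : X) (hx : x ∉ P.A (bar a)) (k : ℕ) :
    (P.e a) ^ (k + 1) • x ∈ P.A a := by
  have hne : a ≠ bar a := by
    intro h
    have := congrArg Prod.snd h
    simp [bar] at this
  induction k with
  | zero => simpa using P.ping a x hx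
  | succ k ih =>
    rw [pow_succ', mul_smul]
    apply P.ping
    intro h
    exact Set.disjoint_left.1 (P.disj a (bar a) hne) ih h

/-- a finite invariant set lies in `A a ∪ A (bar a)` -/
private theorem inv_subset (P : PP N Γ X) (T : Set X) (hT : T.Finite) (hinv : ∀ g : Γ, ∀ y ∈ T, g • y ∈ T)
    (a : Lt N) (y : X) (hy : y ∈ T) : y ∈ P.A a ∨ y ∈ P.A (bar a) := by
  by_contra hcon
  push Not at hcon
  obtain ⟨h1, h2⟩ := hcon
  have hnotinj : ¬ Function.Injective (fun k : ℕ => (⟨(P.e a) ^ k • y, hinv _ _ hy⟩ : T)) := by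
    intro hinj
    have : Finite T := hT
    exact not_injective_infinite_finite _ hinj
  apply hnotinj
  have key : ∀ k l : ℕ, k < l → (P.e a) ^ k • y ≠ (P.e a) ^ l • y := by
    intro k l hkl h
    obtain ⟨j, rfl⟩ : ∃ j, l = k + (j + 1) := ⟨l - k - 1, by omega⟩
    rw [pow_add, mul_smul] at h
    have h3 := MulAction.injective ((P.e a) ^ k) h
    apply h1
    rw [h3]
    exact pow_mem_aux P a y h2 j
  intro k l hkl
  simp only [Subtype.mk.injEq] at hkl
  rcases lt_trichotomy k l with h | h | h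
  · exact absurd hkl (key k l h)
  · exact h
  · exact absurd hkl.symm (key l k h)

/-- If there are atoms let `M > 0` be the maximal mass of an atom and `T` the finite nonempty set of the atoms of mass `M`. For `x ∈ T`: `M = ν {x} = ∑ p_i ν (γ_i⁻¹ x)`, so `γ_i⁻¹ x ∈ T`.
So `γ_i⁻¹ T ⊆ T`, `γ_i T = T` for all `i`, `g T = T` for all `g` (`gen`). `e a` maps `T \ A (bar a)` injectively into `T ∩ A a`, so `|T| ≤ |T ∩ A a| + |T ∩ A (bar a)|`, i.e. `T ⊆ A a ∪ A (bar a)` for all `a`; take two letters: `T = ∅`. -/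
theorem no_atom [MeasurableSingletonClass X] (R : RW Γ X n) (P : PP N Γ X) (hN : 2 ≤ N) (x : X) : R.ν {x} = 0 := by
  classical
  by_contra hx
  have := R.prob
  have hfin : Set.Finite {y : X | R.ν {x} ≤ R.ν {y}} := by
    apply Measure.finite_const_le_meas_of_disjoint_iUnion R.ν (pos_iff_ne_zero.2 hx)
      (fun y => measurableSet_singleton y)
    · intro y z hyz
      simpa [Function.onFun] using hyz
    · exact measure_ne_top _ _
  obtain ⟨y0, hy0, hmax⟩ := Set.exists_max_image {y : X | R.ν {x} ≤ R.ν {y}} (fun y => R.ν {y}) hfin ⟨x, le_refl (R.ν {x})⟩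
  have hmax' : ∀ y, R.ν {y} ≤ R.ν {y0} := by
    intro y
    by_cases h : R.ν {x} ≤ R.ν {y}
    · exact hmax y h
    · exact (le_of_lt (not_le.1 h)).trans hy0
  have hmaxr : ∀ y, R.ν.real {y} ≤ R.ν.real {y0} := fun y =>
    ENNReal.toReal_mono (measure_ne_top _ _) (hmax' y)
  set T : Set X := {y | R.ν.real {y} = R.ν.real {y0}} with hTdef
  have hTfin : T.Finite := by
    apply hfin.subset
    intro y hy
    have h1 : R.ν {y} = R.ν {y0} := by
      have h2 : (R.ν {y}).toReal = (R.ν {y0}).toReal := hy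
      exact (ENNReal.toReal_eq_toReal_iff' (measure_ne_top _ _) (measure_ne_top _ _)).1 h2
    show R.ν {x} ≤ R.ν {y}
    rw [h1]
    exact hy0
  have hpre : ∀ (g : Γ) (y : X), {z : X | g • z ∈ ({y} : Set X)} = {g⁻¹ • y} := by
    intro g y
    ext z
    simp only [Set.mem_setOf_eq, Set.mem_singleton_iff]
    exact ⟨fun h => by rw [← h, inv_smul_smul], fun h => by rw [h, smul_inv_smul]⟩
  have hstep : ∀ (i : Fin n) (y : X), y ∈ T → (R.γ i)⁻¹ • y ∈ T := by
    intro i y hy
    have h1 := R.stat {y} (measurableSet_singleton y)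
    simp only [hpre] at h1
    by_contra hne
    have hlt : R.ν.real {(R.γ i)⁻¹ • y} < R.ν.real {y0} := lt_of_le_of_ne (hmaxr _) hne
    have h2 : ∑ j, R.p j * R.ν.real {(R.γ j)⁻¹ • y} < ∑ j, R.p j * R.ν.real {y0} := by
      apply Finset.sum_lt_sum
      · intro j _
        exact mul_le_mul_of_nonneg_left (hmaxr _) (R.pos j).le
      · exact ⟨i, Finset.mem_univ _, mul_lt_mul_of_pos_left hlt (R.pos i)⟩
    rw [← Finset.sum_mul, R.sum, one_mul, ← h1] at h2
    have h3 : R.ν.real {y} = R.ν.real {y0} := hy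
    linarith
  have hstep' : ∀ (i : Fin n) (y : X), y ∈ T → R.γ i • y ∈ T := by
    intro i y hy
    have himg : hTfin.toFinset.image (fun z => (R.γ i)⁻¹ • z) = hTfin.toFinset := by
      apply Finset.eq_of_subset_of_card_le
      · intro z hz
        rw [Finset.mem_image] at hz
        obtain ⟨w, hw, rfl⟩ := hz
        exact hTfin.mem_toFinset.2 (hstep i w (hTfin.mem_toFinset.1 hw))
      · rw [Finset.card_image_of_injective _ (MulAction.injective _)]
    have hy' : y ∈ hTfin.toFinset.image (fun z => (R.γ i)⁻¹ • z) := by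
      rw [himg]
      exact hTfin.mem_toFinset.2 hy
    rw [Finset.mem_image] at hy'
    obtain ⟨w, hw, hwy⟩ := hy'
    rw [← hwy, smul_inv_smul]
    exact hTfin.mem_toFinset.1 hw
  have hinv : ∀ g : Γ, ∀ y ∈ T, g • y ∈ T := by
    intro g
    obtain ⟨l, -, rfl⟩ := R.gen g
    induction l with
    | nil => intro y hy; simpa using hy
    | cons i l ih =>
      intro y hy
      rw [List.map_cons, List.prod_cons, mul_smul]
      exact hstep' i _ (ih y hy)
  have hy0T : y0 ∈ T := rfl
  set a : Lt N := (⟨0, by omega⟩, true) with ha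
  set b : Lt N := (⟨1, by omega⟩, true) with hb
  rcases inv_subset P T hTfin hinv a y0 hy0T with h1 | h1 <;>
  rcases inv_subset P T hTfin hinv b y0 hy0T with h2 | h2
  · exact Set.disjoint_left.1 (P.disj a b (by simp [ha, hb])) h1 h2
  · exact Set.disjoint_left.1 (P.disj a (bar b) (by simp [ha, hb, bar])) h1 h2
  · exact Set.disjoint_left.1 (P.disj (bar a) b (by simp [ha, hb, bar])) h1 h2
  · exact Set.disjoint_left.1 (P.disj (bar a) (bar b) (by simp [ha, hb, bar])) h1 h2

end Pool.Agent.DimDrop
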