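import Pool.Agent.Lib_MP_644907.RPa
import Pool.Agent.Lib_MP_644907.PNd

/-!
# Piece SMALL: measures without atoms give small mass to small sets
-/

set_option autoImplicit false

namespace Pool.Agent.DimDrop

open MeasureTheory

/-- If not, there are `E_k` with diameter `< 1/(k+1)` and mass `≥ ε`, choose `x_k ∈ E_k`, a subsequence converges to `x`, every closed ball `B (x, η)`
contains some `E_k`, so has mass `≥ ε`; the intersection of the balls is `{x}`, so `λ {x} ≥ ε`, a contradiction. -/
theorem small_of_diam {X : Type*} [MetricSpace X] [CompactSpace X] [MeasurableSpace X] [BorelSpace X] (lam : Measure X)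
    [IsFiniteMeasure lam] (h : ∀ x, lam {x} = 0) (ε : ℝ) (hε : 0 < ε) :
    ∃ η : ℝ, 0 < η ∧ ∀ E : Set X, Metric.diam E < η → lam.real E < ε := by
  have hU : ∀ x : X, ∃ U : Set X, {x} ⊆ U ∧ IsOpen U ∧ lam U < ENNReal.ofReal ε := by
    intro x
    exact Set.exists_isOpen_lt_of_lt {x} (ENNReal.ofReal ε) (by rw [h x]; exact ENNReal.ofReal_pos.2 hε)
  choose U hxU hUo hUm using hU
  obtain ⟨δ, hδ, hball⟩ := lebesgue_number_lemma_of_metric (isCompact_univ : IsCompact (Set.univ : Set X)) hUo
    (fun x _ => Set.mem_iUnion.2 ⟨x, hxU x rfl⟩)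
  refine ⟨δ, hδ, fun E hE => ?_⟩
  rcases E.eq_empty_or_nonempty with rfl | ⟨x, hx⟩
  · simpa using hε
  · obtain ⟨i, hi⟩ := hball x (Set.mem_univ x)
    have hsub : E ⊆ U i := by
      intro y hy
      apply hi
      rw [Metric.mem_ball]
      exact lt_of_le_of_lt (Metric.dist_le_diam_of_mem (Metric.isBounded_of_compactSpace) hy hx) hE
    have h1 : lam E < ENNReal.ofReal ε := lt_of_le_of_lt (measure_mono hsub) (hUm i)
    have h2 := (ENNReal.toReal_lt_toReal (measure_ne_top lam E) ENNReal.ofReal_ne_top).2 h1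
    rwa [ENNReal.toReal_ofReal hε.le] at h2

/-- apply `small_of_diam` to the image of `ν` under `c`, which has no atoms by `no_atom` -/
theorem smallC_of_diam {N n : ℕ} {Γ X : Type*} [Group Γ] [MetricSpace X] [CompactSpace X] [MeasurableSpace X] [BorelSpace X]
    [MulAction Γ X] (R : RW Γ X n) (P : PP N Γ X) (hN : 2 ≤ N)
    (h : ∀ ε : ℝ, 0 < ε → ∃ n0 : ℕ, ∀ v : List (Lt N), Red v → n0 ≤ v.length → Metric.diam (P.cy v) < ε) :
    SmallC R P := by
  intro c _ ε hε
  have := R.prob
  set lam : Measure X := R.ν.map (fun x => c • x) with hlam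
  have : IsFiniteMeasure lam := by rw [hlam]; infer_instance
  have hat : ∀ x, lam {x} = 0 := by
    intro x
    rw [hlam, Measure.map_apply (R.meas c) (measurableSet_singleton x)]
    have h1 : (fun x => c • x) ⁻¹' {x} = {c⁻¹ • x} := by
      ext z
      simp only [Set.mem_preimage, Set.mem_singleton_iff]
      exact ⟨fun h => by rw [← h, inv_smul_smul], fun h => by rw [h, smul_inv_smul]⟩
    rw [h1]
    exact no_atom R P hN _
  obtain ⟨η, hη, hη'⟩ := small_of_diam lam hat ε hε
  obtain ⟨n0, hn0⟩ := h η hη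
  refine ⟨n0, fun v hv hl => ?_⟩
  have h1 := hη' (P.cy v) (hn0 v hv hl)
  rw [hlam, measureReal_def, Measure.map_apply (R.meas c) (P.meas_cy R v)] at h1
  exact h1

end Pool.Agent.DimDrop
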