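import Pool.Agent.Lib_MP_644907.UnifC
import Pool.Agent.Lib_MP_644907.Group
import Pool.Agent.Lib_MP_644907.Small
import Pool.Agent.Lib_MP_644907.RPb
import Pool.Agent.Lib_MP_644907.PNc

/-!
# Piece FINA: the stationary measure in the line model
-/

set_option autoImplicit false

namespace Pool.Agent.DimDrop

open MeasureTheory

namespace FinA

theorem meas_co (κ : ℂ) : Measurable (co κ) := by
  unfold co
  fun_prop

theorem pt_image (κ : ℂ) (hκ : ‖κ‖ = 1) (E : Set ℝ) :
    (fun x => pt κ x 1) '' E = (co κ ⁻¹' E ∩ Metric.sphere (0:ℂ) 1) \ {κ ^ 2} := by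
  ext z
  constructor
  · rintro ⟨x, hx, rfl⟩
    refine ⟨⟨?_, ?_⟩, ?_⟩
    · show co κ (pt κ x 1) ∈ E
      rw [co_pt κ hκ]
      exact hx
    · simpa using norm_pt κ hκ x 1 (Or.inr one_ne_zero)
    · exact pt_ne κ hκ x
  · rintro ⟨⟨ha, hb⟩, hc⟩
    exact ⟨co κ z, ha, pt_co κ hκ z (by simpa using hb) hc⟩

/-- the restriction to the circle -/
theorem comap_preimage (ν : Measure ℂ) (hν : ν (Metric.sphere (0:ℂ) 1)ᶜ = 0) (E : Set ℂ) :
    ν.comap (Subtype.val : Metric.sphere (0:ℂ) 1 → ℂ) (Subtype.val ⁻¹' E) = ν E := by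
  have hme : MeasurableEmbedding (Subtype.val : Metric.sphere (0:ℂ) 1 → ℂ) :=
    MeasurableEmbedding.subtype_coe Metric.isClosed_sphere.measurableSet
  rw [hme.comap_apply, Subtype.image_preimage_coe, Set.inter_comm]
  exact measure_inter_conull hν

theorem pt_image_eq (κ : ℂ) (hκ : ‖κ‖ = 1) (ν : Measure ℂ) (hν : ν (Metric.sphere (0:ℂ) 1)ᶜ = 0) (h0 : ν {κ ^ 2} = 0)
    (E : Set ℝ) (hE : MeasurableSet E) : ν.map (co κ) E = ν ((fun x => pt κ x 1) '' E) := by
  rw [Measure.map_apply (meas_co κ) hE, pt_image κ hκ, measure_sdiff_null h0, measure_inter_conull hν]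

theorem dist_pt_le (κ : ℂ) (hκ : ‖κ‖ = 1) (x y : ℝ) : ‖pt κ x 1 - pt κ y 1‖ ≤ 2 * |x - y| := by
  rw [dist_pt κ hκ]
  have h1 : 1 ≤ √(1 + x ^ 2) := Real.one_le_sqrt.2 (by nlinarith [sq_nonneg x])
  have h2 : 1 ≤ √(1 + y ^ 2) := Real.one_le_sqrt.2 (by nlinarith [sq_nonneg y])
  have h3 : 1 ≤ √(1 + x ^ 2) * √(1 + y ^ 2) := by nlinarith
  exact div_le_self (by positivity) h3

end FinA

/-- the properties of the image `ν.map (co κ)` of the stationary measure in the line model. `supp`: `null_Z` for `g = 1`; `cy w = Subtype.val ⁻¹' (pt '' I w)` (`cyl_eq`), `lrec`: `lin_rec`. `smallC_of_diam`: the diameters of the cylinders tend to `0` uniformly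
(`diam (pt '' I w) ≤ 2 diam (I w)`, `diam_bound`, `contr`). -/
theorem isStat_map {n N : ℕ} (hN : 2 ≤ N) (κ : ℂ) (hκ : ‖κ‖ = 1) (T : ArcSch N) (S : Sch N) (hS : ∀ a, Rep κ (T.h a) (S.M a))
    (hA : ∀ a, T.A a = (fun x => pt κ x 1) '' S.A a)
    (ν : Measure ℂ) [IsProbabilityMeasure ν] (hν : ν (Metric.sphere (0:ℂ) 1)ᶜ = 0)
    (Γ : Subgroup (Equiv.Perm (Metric.sphere (0:ℂ) 1))) (R : RW Γ (Metric.sphere (0:ℂ) 1) n)
    (P : PP N Γ (Metric.sphere (0:ℂ) 1)) (h1 : R.ν = ν.comap Subtype.val) (h2 : ∀ a, P.A a = Subtype.val ⁻¹' T.A a)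
    (h3 : ∀ a (z : Metric.sphere (0:ℂ) 1), ((P.e a • z : Metric.sphere (0:ℂ) 1) : ℂ) = T.h a z) :
    IsStat S (ν.map (co κ)) ∧ ν {κ ^ 2} = 0 := by
  have hptS : ∀ E : Set ℝ, (fun x => pt κ x 1) '' E ⊆ Metric.sphere (0:ℂ) 1 := by
    rintro E _ ⟨x, _, rfl⟩
    simpa using norm_pt κ hκ x 1 (Or.inr one_ne_zero)
  -- cylinders
  have hcy : ∀ w : List (Lt N), w ≠ [] → Red w → P.cy w = Subtype.val ⁻¹' ((fun x => pt κ x 1) '' S.I w) := by
    intro w
    induction w with
    | nil => intro h; exact absurd rfl h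
    | cons a w ih =>
      intro _ hr
      by_cases hw : w = []
      · subst hw
        rw [P.cy_one, h2, hA]
        rfl
      · have hrw : Red w := Red.append_right (w := [a]) hr
        rw [← T.cyl_eq κ hκ S hS hA (a :: w) (by simp) hr]
        have h4 : cyl T.h T.A (a :: w) = T.h a '' cyl T.h T.A w := by
          cases w with
          | nil => exact absurd rfl hw
          | cons b w => rfl
        rw [h4, T.cyl_eq κ hκ S hS hA w hw hrw, P.cy_cons a w hw, ih hw hrw]
        ext z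
        constructor
        · rintro ⟨y, hy, rfl⟩
          exact ⟨y, hy, (h3 a y).symm⟩
        · rintro ⟨y, hy, hyz⟩
          refine ⟨⟨y, hptS _ hy⟩, hy, ?_⟩
          apply Subtype.ext
          rw [h3]
          exact hyz
  -- no atoms
  have hκs : κ ^ 2 ∈ Metric.sphere (0:ℂ) 1 := by simp [hκ]
  have hatom : ν {κ ^ 2} = 0 := by
    have h4 := no_atom R P hN ⟨κ ^ 2, hκs⟩
    rw [h1] at h4
    rw [← FinA.comap_preimage ν hν {κ ^ 2}]
    convert h4 using 2
    ext z
    simp [Subtype.ext_iff]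
  -- masses
  have hmI : ∀ w : List (Lt N), Red w → MeasurableSet (S.I w) := fun w hr => S.meas_I w hr
  have hmass : ∀ w : List (Lt N), w ≠ [] → Red w → (ν.map (co κ)) (S.I w) = R.ν (P.cy w) := by
    intro w hw hr
    rw [FinA.pt_image_eq κ hκ ν hν hatom _ (hmI w hr), hcy w hw hr, h1, FinA.comap_preimage ν hν]
  -- small diameters
  have hsmall : SmallC R P := by
    refine smallC_of_diam R P hN ?_
    obtain ⟨C, hC, hdb⟩ := S.diam_bound
    obtain ⟨C', c, hC', hc, hc1, hct⟩ := S.contr hN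
    intro ε hε
    obtain ⟨n0, hn0⟩ := exists_pow_lt_of_lt_one (show 0 < ε / (2 * (C * C')) by positivity) hc1
    refine ⟨n0 + 1, fun v hr hv => ?_⟩
    have hv0 : v ≠ [] := by
      rintro rfl
      simp at hv
    have hle : Metric.diam (P.cy v) ≤ 2 * Metric.diam (S.I v) := by
      refine Metric.diam_le_of_forall_dist_le (by positivity) ?_
      intro x hx y hy
      rw [hcy v hv0 hr] at hx hy
      obtain ⟨x', hx', hxx⟩ := hx
      obtain ⟨y', hy', hyy⟩ := hy
      have hb : Bornology.IsBounded (S.I v) := by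
        obtain ⟨a, b, _, hI⟩ := S.I_Icc v hv0 hr
        rw [hI]
        exact Metric.isBounded_Icc a b
      rw [Subtype.dist_eq, dist_eq_norm, ← hxx, ← hyy]
      refine (FinA.dist_pt_le κ hκ x' y').trans ?_
      have := Metric.dist_le_diam_of_mem hb hx' hy'
      rw [Real.dist_eq] at this
      linarith
    have h4 := (hdb v hv0 hr).1
    have h5 := hct v hv0 hr
    have h6 : c ^ v.length ≤ c ^ n0 := pow_le_pow_of_le_one hc.le hc1.le (by omega)
    have h7 : 2 * Metric.diam (S.I v) ≤ 2 * (C * C') * c ^ n0 := by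
      calc 2 * Metric.diam (S.I v) ≤ 2 * (C * (C' * c ^ v.length)) := by
            have := mul_le_mul_of_nonneg_left h5 hC.le
            linarith
        _ ≤ 2 * (C * (C' * c ^ n0)) := by gcongr
        _ = _ := by ring
    refine lt_of_le_of_lt (hle.trans h7) ?_
    rw [lt_div_iff₀ (by positivity)] at hn0
    linarith
  refine ⟨⟨?_, ?_, ?_⟩, hatom⟩
  · exact Measure.isProbabilityMeasure_map (FinA.meas_co κ).aemeasurable
  · intro k hk
    have h4 := null_Z R P hN k hk 1
    have hms : MeasurableSet (⋃ w ∈ words N k, S.I w) :=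
      Finset.measurableSet_biUnion _ fun w hw => hmI w (mem_words.1 hw).1
    rw [FinA.pt_image_eq κ hκ ν hν hatom _ hms.compl]
    have hp := R.prob
    have h5 : R.ν {x | (1 : Γ) • x ∉ ⋃ w ∈ words N k, P.cy w} = 0 := by
      rwa [measureReal_eq_zero_iff] at h4
    rw [← FinA.comap_preimage ν hν, ← h1]
    refine measure_mono_null ?_ h5
    intro z hz
    obtain ⟨x, hx, hxz⟩ := hz
    simp only [Set.mem_ofPred_eq, one_smul]
    intro hz
    apply hx
    rw [Set.mem_iUnion₂] at hz ⊢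
    obtain ⟨w, hw, hzw⟩ := hz
    have hw0 : w ≠ [] := by
      rintro rfl
      have := (mem_words.1 hw).2
      simp at this
      omega
    rw [hcy w hw0 (mem_words.1 hw).1] at hzw
    obtain ⟨x', hx', hxz'⟩ := hzw
    refine ⟨w, hw, ?_⟩
    have : x = x' := by
      rw [← co_pt κ hκ x, ← co_pt κ hκ x']
      have h6 : pt κ x 1 = pt κ x' 1 := by
        have h7 : (fun x => pt κ x 1) x = (fun x => pt κ x 1) x' := by rw [hxz, hxz']
        exact h7
      rw [h6]
    rw [this]
    exact hx'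
  · intro s t hts hts'
    obtain ⟨d, q, hq, h⟩ := lin_rec R P hsmall s t hts hts'
    refine ⟨d, q, hq, fun w hw k => ?_⟩
    rw [← h w hw k]
    refine Finset.sum_congr rfl fun i _ => ?_
    have hr : Red (w ++ (List.replicate (k + i + 1) s ++ [t])) := by
      have h4 : Red ([s] ++ (List.replicate (k + i) s ++ [t])) := by
        have := red_replicate s [t] ((red_cons_cons s t []).2 ⟨hts', red_one _⟩) (k + i)
        rw [List.replicate_succ] at this
        exact this
      have h5 := red_append_of [] w (List.replicate (k + i) s ++ [t]) s hw (by simpa using h4)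
      rw [List.replicate_succ]
      simpa using h5
    unfold Measure.real
    rw [hmass _ (by simp) hr]

end Pool.Agent.DimDrop
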