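import Pool.Agent.Lib_MP_644907.GeoA2

/-!
# Piece GEOB1: bounded distortion
-/

set_option autoImplicit false

namespace Pool.Agent.DimDrop

open Set

private theorem GB_small {ι : Type*} [Finite ι] (P : ι → ℝ → Prop)
    (h : ∀ i, ∃ g : ℝ, 0 < g ∧ ∀ g', 0 < g' → g' ≤ g → P i g') :
    ∀ᶠ g in nhdsWithin (0:ℝ) (Ioi 0), ∀ i, P i g := by
  rw [Filter.eventually_all]
  intro i
  obtain ⟨g, hg, h2⟩ := h i
  have : Ioc (0:ℝ) g ∈ nhdsWithin (0:ℝ) (Ioi 0) := Ioc_mem_nhdsGT hg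
  filter_upwards [this] with x hx
  exact h2 x hx.1 hx.2

namespace Sch

variable {N : ℕ} (S : Sch N)

theorem isCompact_K0 : IsCompact S.K0 := by
  unfold K0
  exact isCompact_iUnion fun a => isCompact_Icc

theorem A_subset_K0 (a : Lt N) : S.A a ⊆ S.K0 := subset_iUnion S.A a

private theorem gap (a b : Lt N) (hab : a ≠ b) : ∃ g : ℝ, 0 < g ∧ ∀ x ∈ S.A a, ∀ y ∈ S.A b, g ≤ |x - y| := by
  have hd := S.disj a b hab
  have ha := S.lt a
  have hb := S.lt b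
  rcases lt_or_ge (S.r a) (S.l b) with h | h
  · refine ⟨S.l b - S.r a, by linarith, fun x hx y hy => ?_⟩
    have h1 := hx.2
    have h2 := hy.1
    rw [abs_sub_comm]
    exact le_trans (by linarith) (le_abs_self _)
  · rcases lt_or_ge (S.r b) (S.l a) with h' | h'
    · refine ⟨S.l a - S.r b, by linarith, fun x hx y hy => ?_⟩
      have h1 := hx.1
      have h2 := hy.2
      exact le_trans (by linarith) (le_abs_self _)
    · exfalso
      have m1 : max (S.l a) (S.l b) ∈ Icc (S.l a) (S.r a) := ⟨le_max_left _ _, max_le ha.le h⟩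
      have m2 : max (S.l a) (S.l b) ∈ Icc (S.l b) (S.r b) := ⟨le_max_right _ _, max_le h' hb.le⟩
      exact Set.disjoint_left.1 hd m1 m2

/-- the geometric constants: the gap between different intervals, the diameter of their union, the minimal length
and the size of the lower left entries -/
theorem consts : ∃ g D : ℝ, 0 < g ∧ 0 < D ∧ (∀ a b, a ≠ b → ∀ x ∈ S.A a, ∀ y ∈ S.A b, g ≤ |x - y|) ∧
    (∀ x ∈ S.K0, ∀ y ∈ S.K0, |x - y| ≤ D) ∧ (∀ a, g ≤ S.r a - S.l a) ∧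
    (∀ a, g ≤ |S.cc [a]|) ∧ (∀ a, |S.cc [a]| ≤ D) := by
  have h1 : ∀ᶠ g in nhdsWithin (0:ℝ) (Ioi 0), ∀ ab : Lt N × Lt N, ab.1 ≠ ab.2 → ∀ x ∈ S.A ab.1,
      ∀ y ∈ S.A ab.2, g ≤ |x - y| := by
    apply GB_small
    rintro ⟨a, b⟩
    by_cases hab : a = b
    · exact ⟨1, one_pos, fun g' _ _ h => absurd hab h⟩
    · obtain ⟨g, hg, h⟩ := S.gap a b hab
      exact ⟨g, hg, fun g' _ hg' _ x hx y hy => hg'.trans (h x hx y hy)⟩
  have h2 : ∀ᶠ g in nhdsWithin (0:ℝ) (Ioi 0), ∀ a : Lt N, g ≤ S.r a - S.l a := by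
    apply GB_small
    intro a
    exact ⟨S.r a - S.l a, sub_pos.2 (S.lt a), fun g' _ h => h⟩
  have h3 : ∀ᶠ g in nhdsWithin (0:ℝ) (Ioi 0), ∀ a : Lt N, g ≤ |S.cc [a]| := by
    apply GB_small
    intro a
    refine ⟨|S.cc [a]|, ?_, fun g' _ h => h⟩
    rw [abs_pos, cc_one]
    exact S.low a
  have h4 : ∀ᶠ g in nhdsWithin (0:ℝ) (Ioi 0), 0 < g := eventually_mem_nhdsWithin
  obtain ⟨g, ⟨⟨hg1, hg2⟩, hg3⟩, hg4⟩ := (((h1.and h2).and h3).and h4).exists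
  obtain ⟨D1, hD1⟩ := Metric.isBounded_iff.1 S.isCompact_K0.isBounded
  obtain ⟨D2, hD2⟩ := (Set.finite_range (fun a : Lt N => |S.cc [a]|)).bddAbove
  refine ⟨g, max 1 (max D1 D2), hg4, lt_of_lt_of_le one_pos (le_max_left _ _), fun a b => hg1 (a, b), ?_, hg2, hg3, ?_⟩
  · intro x hx y hy
    rw [← Real.dist_eq]
    exact (hD1 hx hy).trans ((le_max_left _ _).trans (le_max_right _ _))
  · intro a
    exact (hD2 ⟨a, rfl⟩).trans ((le_max_right _ _).trans (le_max_right _ _))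

private theorem GB_joint {w : List (Lt N)} {b : Lt N} (hw : w ≠ []) (h : Red (w ++ [b])) :
    ∃ t : Lt N, b ≠ bar t ∧ S.pp w ∈ S.A (bar t) := by
  rcases List.eq_nil_or_concat w with h' | ⟨w', t, rfl⟩
  · exact absurd h' hw
  · rw [List.concat_eq_append] at h ⊢
    have h2 : Red (w' ++ [t] ++ (b :: [])) := h
    rw [red_append_iff] at h2
    exact ⟨t, h2.2.1, (S.pole_mem w' t h2.1).2⟩

/-- For `w ≠ []`, `w ++ [b]` reduced: `|c_{wb}| = |c_w| |c_b| |q_b - p_w|` is comparable to `|c_w|`. -/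
theorem cc_ratio : ∃ C : ℝ, 0 < C ∧ ∀ (w : List (Lt N)) (b : Lt N), w ≠ [] → Red (w ++ [b]) →
    |S.cc (w ++ [b])| ≤ C * |S.cc w| ∧ |S.cc w| ≤ C * |S.cc (w ++ [b])| := by
  obtain ⟨g, D, hg, hD, h1, h2, h3, h4, h5⟩ := S.consts
  refine ⟨max (D * D) (g⁻¹ * g⁻¹), lt_of_lt_of_le (mul_pos hD hD) (le_max_left _ _), ?_⟩
  intro w b hw h
  obtain ⟨t, hbt, hp⟩ := S.GB_joint hw h
  have hq : S.qq [b] ∈ S.A b := S.qq_mem b [] (red_one b)
  have hgap : g ≤ |S.qq [b] - S.pp w| := h1 b (bar t) hbt _ hq _ hp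
  have hdia : |S.qq [b] - S.pp w| ≤ D := h2 _ (S.A_subset_K0 b hq) _ (S.A_subset_K0 _ hp)
  rw [S.cc_append w [b] hw (by simp) h, abs_mul, abs_mul]
  have hc1 := h4 b
  have hc2 := h5 b
  have hw0 := abs_nonneg (S.cc w)
  constructor
  · calc |S.cc w| * |S.cc [b]| * |S.qq [b] - S.pp w| ≤ |S.cc w| * D * D := by
          gcongr
      _ = (D * D) * |S.cc w| := by ring
      _ ≤ max (D * D) (g⁻¹ * g⁻¹) * |S.cc w| := by
          gcongr
          exact le_max_left _ _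
  · calc |S.cc w| = (g⁻¹ * g⁻¹) * (|S.cc w| * g * g) := by
          field_simp
      _ ≤ (g⁻¹ * g⁻¹) * (|S.cc w| * |S.cc [b]| * |S.qq [b] - S.pp w|) := by
          gcongr
      _ ≤ max (D * D) (g⁻¹ * g⁻¹) * (|S.cc w| * |S.cc [b]| * |S.qq [b] - S.pp w|) := by
          gcongr
          exact le_max_right _ _

/-- `|den_w (x)| = |c_w| |x - p_w|` is comparable to `|c_w|` on the intervals `A b`, `b ≠ bar (last w)` -/
theorem den_bound : ∃ C : ℝ, 0 < C ∧ ∀ (w : List (Lt N)) (b : Lt N), w ≠ [] → Red (w ++ [b]) → ∀ x ∈ S.A b,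
    |den (S.mat w) x| ≤ C * |S.cc w| ∧ |S.cc w| ≤ C * |den (S.mat w) x| := by
  obtain ⟨g, D, hg, hD, h1, h2, h3, h4, h5⟩ := S.consts
  refine ⟨max D g⁻¹, lt_of_lt_of_le hD (le_max_left _ _), ?_⟩
  intro w b hw h x hx
  obtain ⟨t, hbt, hp⟩ := S.GB_joint hw h
  have hgap : g ≤ |x - S.pp w| := h1 b (bar t) hbt _ hx _ hp
  have hdia : |x - S.pp w| ≤ D := h2 _ (S.A_subset_K0 b hx) _ (S.A_subset_K0 _ hp)
  rw [S.den_mat w hw h.append_left x, abs_mul]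
  have hw0 := abs_nonneg (S.cc w)
  constructor
  · calc |S.cc w| * |x - S.pp w| ≤ |S.cc w| * D := by gcongr
      _ = D * |S.cc w| := by ring
      _ ≤ max D g⁻¹ * |S.cc w| := by
          gcongr
          exact le_max_left _ _
  · calc |S.cc w| = g⁻¹ * (|S.cc w| * g) := by field_simp
      _ ≤ g⁻¹ * (|S.cc w| * |x - S.pp w|) := by gcongr
      _ ≤ max D g⁻¹ * (|S.cc w| * |x - S.pp w|) := by
          gcongr
          exact le_max_right _ _

/-- two point bounds on the intervals -/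
private theorem GB_two : ∃ C : ℝ, 0 < C ∧ ∀ (w : List (Lt N)) (a b : Lt N), w ≠ [] → Red (w ++ [a]) → Red (w ++ [b]) →
    ∀ x ∈ S.A a, ∀ y ∈ S.A b, |mob (S.mat w) x - mob (S.mat w) y| ≤ C * |x - y| * (S.cc w ^ 2)⁻¹ ∧
      |x - y| * (S.cc w ^ 2)⁻¹ ≤ C * |mob (S.mat w) x - mob (S.mat w) y| := by
  obtain ⟨C, hC, h⟩ := S.den_bound
  refine ⟨C * C, mul_pos hC hC, ?_⟩
  intro w a b hw ha hb x hx y hy
  obtain ⟨h1, h2⟩ := h w a hw ha x hx
  obtain ⟨h3, h4⟩ := h w b hw hb y hy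
  have hc : S.cc w ≠ 0 := S.cc_ne w hw ha.append_left
  have hc' : 0 < |S.cc w| := abs_pos.2 hc
  have hdx : den (S.mat w) x ≠ 0 := S.den_mat_ne w a ha x hx
  have hdy : den (S.mat w) y ≠ 0 := S.den_mat_ne w b hb y hy
  have hdx' : 0 < |den (S.mat w) x| := abs_pos.2 hdx
  have hdy' : 0 < |den (S.mat w) y| := abs_pos.2 hdy
  rw [mob_sub _ x y hdx hdy, abs_div, abs_mul, abs_mul, S.det_mat w, one_mul]
  have hsq : S.cc w ^ 2 = |S.cc w| * |S.cc w| := by rw [← sq, sq_abs]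
  rw [hsq]
  constructor
  · rw [div_le_iff₀ (mul_pos hdx' hdy')]
    have : |S.cc w| * |S.cc w| ≤ (C * |den (S.mat w) x|) * (C * |den (S.mat w) y|) := by gcongr
    calc |x - y| = |x - y| * ((|S.cc w| * |S.cc w|) * (|S.cc w| * |S.cc w|)⁻¹) := by
          rw [mul_inv_cancel₀ (mul_pos hc' hc').ne', mul_one]
      _ ≤ |x - y| * (((C * |den (S.mat w) x|) * (C * |den (S.mat w) y|)) * (|S.cc w| * |S.cc w|)⁻¹) := by gcongr
      _ = _ := by ring
  · have : |den (S.mat w) x| * |den (S.mat w) y| ≤ (C * |S.cc w|) * (C * |S.cc w|) := by gcongr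
    rw [← div_eq_mul_inv, mul_div_assoc', div_le_div_iff₀ (mul_pos hc' hc') (mul_pos hdx' hdy')]
    calc |x - y| * (|den (S.mat w) x| * |den (S.mat w) y|) ≤ |x - y| * ((C * |S.cc w|) * (C * |S.cc w|)) := by gcongr
      _ = _ := by ring

/-- the diameter of `I w` is comparable to `1 / c_w ^ 2`. Length one: constants. Otherwise `w = w' ++ [b]`, `I w` is the image of
`A b` by `mob (mat w')`, so `diam = (r b - l b) / |den_{w'} (l b) den_{w'} (r b)|` (`mob_sub`), use `den_bound`, `cc_ratio`. -/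
theorem diam_bound : ∃ C : ℝ, 0 < C ∧ ∀ (w : List (Lt N)), w ≠ [] → Red w →
    Metric.diam (S.I w) ≤ C * (S.cc w ^ 2)⁻¹ ∧ (S.cc w ^ 2)⁻¹ ≤ C * Metric.diam (S.I w) := by
  obtain ⟨g, D, hg, hD, h1, h2, h3, h4, h5⟩ := S.consts
  obtain ⟨C1, hC1, hr⟩ := S.cc_ratio
  obtain ⟨C2, hC2, ht⟩ := S.GB_two
  have hp1 : (0:ℝ) < D * D * D := by positivity
  have hp2 : (0:ℝ) < g⁻¹ * g⁻¹ * g⁻¹ := by positivity
  have hp3 : (0:ℝ) < C2 * D * (C1 * C1) := by positivity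
  have hp4 : (0:ℝ) < C2 * g⁻¹ * (C1 * C1) := by positivity
  refine ⟨D * D * D + g⁻¹ * g⁻¹ * g⁻¹ + C2 * D * (C1 * C1) + C2 * g⁻¹ * (C1 * C1), by positivity, ?_⟩
  intro w hw h
  have hc : S.cc w ≠ 0 := S.cc_ne w hw h
  have hc' : 0 < |S.cc w| := abs_pos.2 hc
  have hsq : ∀ v : List (Lt N), S.cc v ^ 2 = |S.cc v| * |S.cc v| := fun v => by rw [← sq, sq_abs]
  have hdiam0 : 0 ≤ Metric.diam (S.I w) := Metric.diam_nonneg
  have hinv0 : 0 ≤ (S.cc w ^ 2)⁻¹ := by positivity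
  rcases List.eq_nil_or_concat w with h' | ⟨w', b, rfl⟩
  · exact absurd h' hw
  rw [List.concat_eq_append] at *
  have hAb : ∀ x ∈ S.A b, ∀ y ∈ S.A b, |x - y| ≤ D := fun x hx y hy =>
    h2 x (S.A_subset_K0 b hx) y (S.A_subset_K0 b hy)
  have hl : S.l b ∈ S.A b := ⟨le_refl _, (S.lt b).le⟩
  have hrr : S.r b ∈ S.A b := ⟨(S.lt b).le, le_refl _⟩
  have hlen : g ≤ |S.r b - S.l b| := (h3 b).trans (le_abs_self _)
  by_cases hw' : w' = []
  · subst hw'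
    rw [List.nil_append] at *
    have hI : S.I [b] = S.A b := S.I_one b
    rw [hI] at hdiam0 ⊢
    have hb1 : Metric.diam (S.A b) ≤ D := Metric.diam_le_of_forall_dist_le hD.le fun x hx y hy => by
      rw [Real.dist_eq]; exact hAb x hx y hy
    have hb2 : g ≤ Metric.diam (S.A b) := by
      have : dist (S.r b) (S.l b) ≤ Metric.diam (S.A b) :=
        Metric.dist_le_diam_of_mem (isCompact_Icc.isBounded) hrr hl
      rw [Real.dist_eq] at this
      exact hlen.trans this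
    have hcD := h5 b
    have hcg := h4 b
    constructor
    · have e1 : D ≤ (D * D * D) * (S.cc [b] ^ 2)⁻¹ := by
        rw [hsq, ← div_eq_mul_inv, le_div_iff₀ (mul_pos hc' hc')]
        calc D * (|S.cc [b]| * |S.cc [b]|) ≤ D * (D * D) := by gcongr
          _ = D * D * D := by ring
      refine (hb1.trans e1).trans ?_
      gcongr
      linarith
    · have e1 : (S.cc [b] ^ 2)⁻¹ ≤ (g⁻¹ * g⁻¹ * g⁻¹) * g := by
        rw [hsq, inv_eq_one_div, div_le_iff₀ (mul_pos hc' hc')]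
        calc (1:ℝ) = g⁻¹ * g⁻¹ * g⁻¹ * g * (g * g) := by field_simp
          _ ≤ g⁻¹ * g⁻¹ * g⁻¹ * g * (|S.cc [b]| * |S.cc [b]|) := by gcongr
      refine e1.trans ?_
      calc (g⁻¹ * g⁻¹ * g⁻¹) * g ≤ (g⁻¹ * g⁻¹ * g⁻¹) * Metric.diam (S.A b) := by gcongr
        _ ≤ _ := by
          gcongr
          linarith
  · have hI : S.I (w' ++ [b]) = mob (S.mat w') '' S.A b := by
      rw [S.I_append w' [b] (by simp) h, S.I_one]
    obtain ⟨hr1, hr2⟩ := hr w' b hw' h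
    have hcw' : 0 < |S.cc w'| := abs_pos.2 (S.cc_ne w' hw' h.append_left)
    have k1 : (S.cc w' ^ 2)⁻¹ ≤ (C1 * C1) * (S.cc (w' ++ [b]) ^ 2)⁻¹ := by
      rw [hsq, hsq, ← div_eq_mul_inv, inv_eq_one_div, div_le_div_iff₀ (mul_pos hcw' hcw') (mul_pos hc' hc'), one_mul]
      calc |S.cc (w' ++ [b])| * |S.cc (w' ++ [b])| ≤ (C1 * |S.cc w'|) * (C1 * |S.cc w'|) := by gcongr
        _ = _ := by ring
    have k2 : (S.cc (w' ++ [b]) ^ 2)⁻¹ ≤ (C1 * C1) * (S.cc w' ^ 2)⁻¹ := by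
      rw [hsq, hsq, ← div_eq_mul_inv, inv_eq_one_div, div_le_div_iff₀ (mul_pos hc' hc') (mul_pos hcw' hcw'), one_mul]
      calc |S.cc w'| * |S.cc w'| ≤ (C1 * |S.cc (w' ++ [b])|) * (C1 * |S.cc (w' ++ [b])|) := by gcongr
        _ = _ := by ring
    have hin : 0 ≤ (S.cc w' ^ 2)⁻¹ := by positivity
    constructor
    · have e1 : Metric.diam (S.I (w' ++ [b])) ≤ C2 * D * (S.cc w' ^ 2)⁻¹ := by
        apply Metric.diam_le_of_forall_dist_le (by positivity)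
        rw [hI]
        rintro _ ⟨x, hx, rfl⟩ _ ⟨y, hy, rfl⟩
        rw [Real.dist_eq]
        refine (ht w' b b hw' h h x hx y hy).1.trans ?_
        have := hAb x hx y hy
        gcongr
      calc Metric.diam (S.I (w' ++ [b])) ≤ C2 * D * (S.cc w' ^ 2)⁻¹ := e1
        _ ≤ C2 * D * ((C1 * C1) * (S.cc (w' ++ [b]) ^ 2)⁻¹) := by gcongr
        _ = (C2 * D * (C1 * C1)) * (S.cc (w' ++ [b]) ^ 2)⁻¹ := by ring
        _ ≤ _ := by
          gcongr
          linarith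
    · have hbd : Bornology.IsBounded (S.I (w' ++ [b])) := by
        obtain ⟨u, v, -, huv⟩ := S.I_Icc _ hw h
        rw [huv]
        exact isCompact_Icc.isBounded
      have e1 : |mob (S.mat w') (S.r b) - mob (S.mat w') (S.l b)| ≤ Metric.diam (S.I (w' ++ [b])) := by
        rw [← Real.dist_eq]
        apply Metric.dist_le_diam_of_mem hbd
        · rw [hI]; exact ⟨_, hrr, rfl⟩
        · rw [hI]; exact ⟨_, hl, rfl⟩
      have e2 := (ht w' b b hw' h h _ hrr _ hl).2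
      have e3 : g * (S.cc w' ^ 2)⁻¹ ≤ C2 * Metric.diam (S.I (w' ++ [b])) := by
        calc g * (S.cc w' ^ 2)⁻¹ ≤ |S.r b - S.l b| * (S.cc w' ^ 2)⁻¹ := by gcongr
          _ ≤ _ := e2
          _ ≤ _ := by gcongr
      calc (S.cc (w' ++ [b]) ^ 2)⁻¹ ≤ (C1 * C1) * (S.cc w' ^ 2)⁻¹ := k2
        _ = (C1 * C1 * g⁻¹) * (g * (S.cc w' ^ 2)⁻¹) := by field_simp
        _ ≤ (C1 * C1 * g⁻¹) * (C2 * Metric.diam (S.I (w' ++ [b]))) := by gcongr
        _ = (C2 * g⁻¹ * (C1 * C1)) * Metric.diam (S.I (w' ++ [b])) := by ring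
        _ ≤ _ := by
          gcongr
          linarith

/-- separation of the children (`mob_sub`, the gap `g`, `den_bound`) -/
theorem sep : ∃ c : ℝ, 0 < c ∧ ∀ (w : List (Lt N)) (a b : Lt N), w ≠ [] → Red (w ++ [a]) → Red (w ++ [b]) → a ≠ b →
    ∀ x ∈ S.I (w ++ [a]), ∀ y ∈ S.I (w ++ [b]), c * (S.cc w ^ 2)⁻¹ ≤ |x - y| := by
  obtain ⟨g, D, hg, hD, h1, h2, h3, h4, h5⟩ := S.consts
  obtain ⟨C2, hC2, ht⟩ := S.GB_two
  refine ⟨C2⁻¹ * g, by positivity, ?_⟩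
  intro w a b hw ha hb hab x hx y hy
  rw [S.I_append w [a] (by simp) ha, S.I_one] at hx
  rw [S.I_append w [b] (by simp) hb, S.I_one] at hy
  obtain ⟨x', hx', rfl⟩ := hx
  obtain ⟨y', hy', rfl⟩ := hy
  have e1 := (ht w a b hw ha hb x' hx' y' hy').2
  have e2 := h1 a b hab x' hx' y' hy'
  have hin : 0 ≤ (S.cc w ^ 2)⁻¹ := by positivity
  calc C2⁻¹ * g * (S.cc w ^ 2)⁻¹ = C2⁻¹ * (g * (S.cc w ^ 2)⁻¹) := by ring
    _ ≤ C2⁻¹ * (|x' - y'| * (S.cc w ^ 2)⁻¹) := by gcongr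
    _ ≤ C2⁻¹ * (C2 * |mob (S.mat w) x' - mob (S.mat w) y'|) := by gcongr
    _ = _ := by field_simp

end Sch

end Pool.Agent.DimDrop
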