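import Pool.Agent.Lib_MP_644907.IsoB
import Pool.Agent.Lib_MP_644907.GeoB1

/-!
# Piece FINB: comparison of dimensions
-/

set_option autoImplicit false

namespace Pool.Agent.DimDrop

open MeasureTheory

/-- Lipschitz comparison of dimensions: `co κ` is Lipschitz on `pt '' K0` (`K0` bounded, `dist_pt`), `x ↦ pt κ x 1` is `2`-Lipschitz -/
theorem dim_transfer {N : ℕ} (κ : ℂ) (hκ : ‖κ‖ = 1) (S : Sch N) (E : Set ℝ) :
    dimH S.KK ≤ dimH ((fun x => pt κ x 1) '' S.KK) ∧ dimH ((fun x => pt κ x 1) '' E) ≤ dimH E := by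
  constructor
  · have hK : S.KK ⊆ S.K0 := by
      intro x hx
      obtain ⟨w, hw, hl, hxw⟩ := hx 1 le_rfl
      obtain ⟨a, rfl⟩ := List.length_eq_one_iff.mp hl
      exact S.A_subset_K0 a hxw
    obtain ⟨M, hM⟩ := S.isCompact_K0.isBounded.exists_norm_le
    have hM0 : ∀ x ∈ S.K0, |x| ≤ M := fun x hx => by simpa using hM x hx
    have hlip : LipschitzOnWith (Real.toNNReal ((1 + M ^ 2) / 2)) (co κ) ((fun x => pt κ x 1) '' S.KK) := by
      apply LipschitzOnWith.of_dist_le_mul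
      rintro _ ⟨x, hx, rfl⟩ _ ⟨y, hy, rfl⟩
      have hx1 := hM0 x (hK hx)
      have hy1 := hM0 y (hK hy)
      have hMn : (0 : ℝ) ≤ (1 + M ^ 2) / 2 := by positivity
      simp only [co_pt κ hκ, dist_eq_norm, Real.coe_toNNReal _ hMn]
      rw [dist_pt κ hκ, Real.norm_eq_abs]
      have hsx : √(1 + x ^ 2) ^ 2 = 1 + x ^ 2 := Real.sq_sqrt (by positivity)
      have hsy : √(1 + y ^ 2) ^ 2 = 1 + y ^ 2 := Real.sq_sqrt (by positivity)
      have hx2 : x ^ 2 ≤ M ^ 2 := sq_le_sq' (by linarith [neg_abs_le x]) (by linarith [le_abs_self x])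
      have hy2 : y ^ 2 ≤ M ^ 2 := sq_le_sq' (by linarith [neg_abs_le y]) (by linarith [le_abs_self y])
      have hpx : 0 < √(1 + x ^ 2) := Real.sqrt_pos.mpr (by positivity)
      have hpy : 0 < √(1 + y ^ 2) := Real.sqrt_pos.mpr (by positivity)
      have hprod : √(1 + x ^ 2) * √(1 + y ^ 2) ≤ 1 + M ^ 2 := by
        nlinarith [sq_nonneg (√(1 + x ^ 2) - √(1 + y ^ 2))]
      have hpp : 0 < √(1 + x ^ 2) * √(1 + y ^ 2) := mul_pos hpx hpy
      have h0 : 0 ≤ |x - y| := abs_nonneg _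
      have h1 : (1 + M ^ 2) / 2 * (2 * |x - y| / (√(1 + x ^ 2) * √(1 + y ^ 2))) =
          |x - y| * ((1 + M ^ 2) / (√(1 + x ^ 2) * √(1 + y ^ 2))) := by
        field_simp
      rw [h1]
      have h2 : 1 ≤ (1 + M ^ 2) / (√(1 + x ^ 2) * √(1 + y ^ 2)) := by
        rw [le_div_iff₀ hpp]
        linarith
      exact le_mul_of_one_le_right h0 h2
    have himg : co κ '' ((fun x => pt κ x 1) '' S.KK) = S.KK := by
      ext x
      constructor
      · rintro ⟨_, ⟨y, hy, rfl⟩, rfl⟩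
        simpa [co_pt κ hκ] using hy
      · intro hx
        exact ⟨pt κ x 1, ⟨x, hx, rfl⟩, co_pt κ hκ x⟩
    calc dimH S.KK = dimH (co κ '' ((fun x => pt κ x 1) '' S.KK)) := by rw [himg]
      _ ≤ dimH ((fun x => pt κ x 1) '' S.KK) := hlip.dimH_image_le
  · have hlip : LipschitzWith 2 (fun x : ℝ => pt κ x 1) := by
      apply LipschitzWith.of_dist_le_mul
      intro x y
      rw [dist_eq_norm, dist_pt κ hκ, Real.dist_eq]
      have hsx : 1 ≤ √(1 + x ^ 2) := by
        rw [Real.one_le_sqrt]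
        nlinarith [sq_nonneg x]
      have hsy : 1 ≤ √(1 + y ^ 2) := by
        rw [Real.one_le_sqrt]
        nlinarith [sq_nonneg y]
      have hpp : 1 ≤ √(1 + x ^ 2) * √(1 + y ^ 2) := by nlinarith
      have h0 : 0 ≤ |x - y| := abs_nonneg _
      rw [div_le_iff₀ (by linarith)]
      have : ((2 : NNReal) : ℝ) = 2 := by norm_num
      rw [this]
      have h2 : 0 ≤ 2 * |x - y| := by positivity
      exact le_mul_of_one_le_right h2 hpp
    exact hlip.dimH_image_le E

end Pool.Agent.DimDrop
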