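import Pool.Agent.Lib_MP_644907.Core
import Pool.Agent.Lib_MP_644907.FinA
import Pool.Agent.Lib_MP_644907.FinB
import Pool.Agent.Lib_MP_644907.ArcsB

/-!
# Assembly
-/

set_option autoImplicit false

namespace Pool.Agent.DimDrop

open MeasureTheory

theorem main :
    ∀ (n : ℕ) (p : Fin n → ℝ) (g : Fin n → ℂ → ℂ),
    (∀ i, 0 < p i) → ∑ i, p i = 1 →
    (∀ i, ∃ u a : ℂ, ‖u‖ = 1 ∧ ‖a‖ < 1 ∧
      (g i = (fun z : ℂ => u * (z - a) / (1 - starRingEnd ℂ a * z)) ∨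
       g i = (fun z : ℂ => u * (starRingEnd ℂ z - a) / (1 - starRingEnd ℂ a * starRingEnd ℂ z)))) →
    ∀ S : Set (ℂ → ℂ),
      S = ⋂₀ {T : Set (ℂ → ℂ) | Set.range g ⊆ T ∧ ∀ f ∈ T, ∀ h ∈ T, f ∘ h ∈ T} →
      (∀ f ∈ S, ∃ h ∈ S, ∀ z : ℂ, ‖z‖ ≤ 1 → h (f z) = z) →
      -- a Schottky group of rank `N ≥ 2`, `h (i, false)` is the inverse of `h (i, true)`
      ∀ (N : ℕ) (h : Fin N × Bool → ℂ → ℂ) (A : Fin N × Bool → Set ℂ), 2 ≤ N →
      (∀ a, h a ∈ S) →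
      (∀ a z, ‖z‖ ≤ 1 → h (a.1, !a.2) (h a z) = z) →
      (∀ a, IsClosed (A a)) → (∀ a, IsPreconnected (A a)) → (∀ a, A a ⊆ Metric.sphere (0:ℂ) 1) →
      (∀ a b, a ≠ b → Disjoint (A a) (A b)) →
      (∀ a z, ‖z‖ = 1 → z ∉ A (a.1, !a.2) → h a z ∈ A a) →
      -- it has finite index in `S`
      (∃ C : Set (ℂ → ℂ), C.Finite ∧ C ⊆ S ∧ ∀ f ∈ S, ∃ c ∈ C, ∃ w : List (Fin N × Bool),
        ∀ z : ℂ, ‖z‖ ≤ 1 → f z = (w.map h).foldr (fun f g => f ∘ g) id (c z)) →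
      ∀ ν : MeasureTheory.Measure ℂ, MeasureTheory.IsProbabilityMeasure ν →
        ν (Metric.sphere (0:ℂ) 1)ᶜ = 0 →
        (∀ A : Set ℂ, MeasurableSet A →
          ν A = ∑ i, ENNReal.ofReal (p i) * ν (g i ⁻¹' A)) →
        ∃ E : Set ℂ, MeasurableSet E ∧ ν Eᶜ = 0 ∧
          dimH E < dimH (closure ((fun f : ℂ → ℂ => f 0) '' S) ∩ Metric.sphere (0:ℂ) 1) := by
  intro n p g hp hp1 hg S hS hinv N h A hN hhS hhi hcl hcn hsub hdj hping hfin ν hν1 hν hstat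
  have hIso : ∀ f ∈ S, IsoD f := by
    intro f hf
    rw [hS] at hf
    exact Set.mem_sInter.1 hf {f | IsoD f} ⟨fun f ⟨i, hi⟩ => hi ▸ isoD_of_form _ (hg i), fun f hf h hh => hf.comp hh⟩
  have hcomp : ∀ f ∈ S, ∀ h ∈ S, f ∘ h ∈ S := by
    intro f hf k hk
    rw [hS] at hf hk ⊢
    intro T hT
    exact hT.2 f (hf T hT) k (hk T hT)
  let T : ArcSch N := ⟨h, A, fun a => hIso _ (hhS a), hhi, hcl, hcn, hsub, hdj, hping⟩
  obtain ⟨κ, hκ, hbase⟩ := T.exists_base hN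
  obtain ⟨Sc, hRep, hA⟩ := T.exists_sch hN κ hκ hbase
  obtain ⟨Γ, R, P, h1, h2, h3⟩ := exists_rw p g hp hp1 hg S hS hinv ν hν hstat T hhS hfin
  obtain ⟨hst, hatom⟩ := isStat_map hN κ hκ T Sc hRep hA ν hν Γ R P h1 h2 h3
  obtain ⟨E, hE, hνE, hdim⟩ := core hN Sc _ hst
  have hmco : Measurable (co κ) := by
    unfold co
    fun_prop
  have hwd : ∀ w : List (Lt N), w ≠ [] → T.wd w ∈ S := by
    intro w
    induction w with
    | nil => intro h; exact absurd rfl h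
    | cons a w ih =>
      intro _
      by_cases hw : w = []
      · subst hw
        exact hhS a
      · exact hcomp _ (hhS a) _ (ih hw)
  refine ⟨(co κ ⁻¹' E ∩ Metric.sphere 0 1) \ {κ ^ 2}, ?_, ?_, ?_⟩
  · exact ((hmco hE).inter Metric.isClosed_sphere.measurableSet).diff (measurableSet_singleton _)
  · have h4 : ((co κ ⁻¹' E ∩ Metric.sphere (0:ℂ) 1) \ {κ ^ 2})ᶜ ⊆
        co κ ⁻¹' Eᶜ ∪ (Metric.sphere (0:ℂ) 1)ᶜ ∪ {κ ^ 2} := by
      intro z hz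
      by_cases ha : z ∈ co κ ⁻¹' E
      · by_cases hb : z ∈ Metric.sphere (0:ℂ) 1
        · by_cases hc : z = κ ^ 2
          · exact Or.inr hc
          · exact absurd ⟨⟨ha, hb⟩, hc⟩ hz
        · exact Or.inl (Or.inr hb)
      · exact Or.inl (Or.inl ha)
    refine measure_mono_null h4 (measure_union_null (measure_union_null ?_ hν) hatom)
    rw [← Measure.map_apply hmco hE.compl]
    exact hνE
  · have h5 : (co κ ⁻¹' E ∩ Metric.sphere (0:ℂ) 1) \ {κ ^ 2} ⊆ (fun x => pt κ x 1) '' E := by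
      rintro z ⟨⟨ha, hb⟩, hc⟩
      exact ⟨co κ z, ha, pt_co κ hκ z (by simpa using hb) hc⟩
    refine (dimH_mono h5).trans_lt (((dim_transfer κ hκ Sc E).2.trans_lt hdim).trans_le
      ((dim_transfer κ hκ Sc E).1.trans (dimH_mono ?_)))
    rintro _ ⟨x, hx, rfl⟩
    refine ⟨closure_mono ?_ (T.mem_closure hN κ hκ Sc hRep hA x hx), ?_⟩
    · rintro z ⟨w, hw, rfl⟩
      exact ⟨_, hwd w hw, rfl⟩
    · simpa using norm_pt κ hκ x 1 (Or.inr one_ne_zero)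

end Pool.Agent.DimDrop
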