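import Pool.Agent.Lib_MP_644907.Words

/-!
# Piece GEOA1: matrices, poles, images of infinity
-/

set_option autoImplicit false

namespace Pool.Agent.DimDrop

open Set

theorem den_mul (P Q : Matrix (Fin 2) (Fin 2) ℝ) (x : ℝ) (h : den Q x ≠ 0) :
    den (P * Q) x = den P (mob Q x) * den Q x := by
  unfold den mob at *
  rw [Matrix.mul_apply, Matrix.mul_apply, Fin.sum_univ_two, Fin.sum_univ_two]
  field_simp
  ring

/-- (valid also if `den P (mob Q x) = 0`: both sides are a division by zero) -/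
theorem mob_mul (P Q : Matrix (Fin 2) (Fin 2) ℝ) (x : ℝ) (h : den Q x ≠ 0) :
    mob (P * Q) x = mob P (mob Q x) := by
  unfold mob
  unfold den at h
  obtain ⟨D, hD⟩ : ∃ D, D = Q 1 0 * x + Q 1 1 := ⟨_, rfl⟩
  rw [← hD] at h ⊢
  rw [← mul_div_mul_right (P 0 0 * ((Q 0 0 * x + Q 0 1) / D) + P 0 1) _ h]
  rw [Matrix.mul_apply, Matrix.mul_apply, Matrix.mul_apply, Matrix.mul_apply,
    Fin.sum_univ_two, Fin.sum_univ_two, Fin.sum_univ_two, Fin.sum_univ_two]
  congr 1
  · have e : (P 0 0 * ((Q 0 0 * x + Q 0 1) / D) + P 0 1) * D =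
        P 0 0 * (Q 0 0 * x + Q 0 1) + P 0 1 * D := by
      field_simp
    rw [e, hD]
    ring
  · have e : (P 1 0 * ((Q 0 0 * x + Q 0 1) / D) + P 1 1) * D =
        P 1 0 * (Q 0 0 * x + Q 0 1) + P 1 1 * D := by
      field_simp
    rw [e, hD]
    ring

/-- `mob P x - mob P y = det P (x - y) / (den P x den P y)` -/
theorem mob_sub (P : Matrix (Fin 2) (Fin 2) ℝ) (x y : ℝ) (hx : den P x ≠ 0) (hy : den P y ≠ 0) :
    mob P x - mob P y = P.det * (x - y) / (den P x * den P y) := by
  have hx' : P 1 0 * x + P 1 1 ≠ 0 := hx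
  have hy' : P 1 0 * y + P 1 1 ≠ 0 := hy
  unfold mob den
  rw [Matrix.det_fin_two, div_sub_div _ _ hx' hy']
  congr 1
  ring

@[simp] theorem mob_one (x : ℝ) : mob 1 x = x := by simp [mob]

@[simp] theorem den_one (x : ℝ) : den 1 x = 1 := by simp [den]

namespace Sch

variable {N : ℕ} (S : Sch N)

theorem mat_append (w v : List (Lt N)) : S.mat (w ++ v) = S.mat w * S.mat v := by
  simp [mat]

theorem mat_cons (a : Lt N) (w : List (Lt N)) : S.mat (a :: w) = S.M a * S.mat w := by
  simp [mat]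

@[simp] theorem mat_nil : S.mat [] = 1 := by simp [mat]

@[simp] theorem mat_one (a : Lt N) : S.mat [a] = S.M a := by simp [mat]

theorem det_mat (w : List (Lt N)) : |(S.mat w).det| = 1 := by
  induction w with
  | nil => simp
  | cons a w ih => rw [mat_cons, Matrix.det_mul, abs_mul, S.det, ih, one_mul]

theorem mem_A {a : Lt N} {x : ℝ} : x ∈ S.A a ↔ S.l a ≤ x ∧ x ≤ S.r a := Iff.rfl

theorem A_inj {a b : Lt N} {x : ℝ} (ha : x ∈ S.A a) (hb : x ∈ S.A b) : a = b := by
  by_contra h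
  exact (Set.disjoint_left.1 (S.disj a b h)) ha hb

/-- `den (M a)` does not vanish outside `A (bar a)`, because its zero is the pole -/
theorem den_M_ne (a : Lt N) (x : ℝ) (hx : x ∉ S.A (bar a)) : den (S.M a) x ≠ 0 := by
  intro h
  apply hx
  have h1 : x = -(S.M a 1 1) / S.M a 1 0 := by
    rw [eq_div_iff (S.low a)]
    unfold den at h
    linarith
  rw [h1]
  exact S.pole a

theorem detM_ne (a : Lt N) : (S.M a).det ≠ 0 := by
  intro h
  have := S.det a
  rw [h, abs_zero] at this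
  exact one_ne_zero this.symm

/-- the lower row of the matrix of the inverse letter -/
theorem bar_low (a : Lt N) : S.M (bar a) 1 0 * (S.M a).det = -(S.M a 1 0) ∧
    S.M (bar a) 1 1 * (S.M a).det = S.M a 0 0 ∧ S.M (bar a) 0 0 * (S.M a).det = S.M a 1 1 ∧
    S.M (bar a) 0 1 * (S.M a).det = -(S.M a 0 1) := by
  have h := S.inv a
  have h00 := congrFun (congrFun h 0) 0
  have h01 := congrFun (congrFun h 0) 1
  have h10 := congrFun (congrFun h 1) 0
  have h11 := congrFun (congrFun h 1) 1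
  rw [Matrix.mul_apply, Fin.sum_univ_two] at h00 h01 h10 h11
  have e00 : (1 : Matrix (Fin 2) (Fin 2) ℝ) 0 0 = 1 := rfl
  have e01 : (1 : Matrix (Fin 2) (Fin 2) ℝ) 0 1 = 0 := rfl
  have e10 : (1 : Matrix (Fin 2) (Fin 2) ℝ) 1 0 = 0 := rfl
  have e11 : (1 : Matrix (Fin 2) (Fin 2) ℝ) 1 1 = 1 := rfl
  rw [e00] at h00
  rw [e01] at h01
  rw [e10] at h10
  rw [e11] at h11
  rw [Matrix.det_fin_two]
  refine ⟨?_, ?_, ?_, ?_⟩
  · linear_combination (S.M a 1 1) * h10 - (S.M a 1 0) * h11
  · linear_combination (S.M a 0 0) * h11 - (S.M a 0 1) * h10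
  · linear_combination (S.M a 1 1) * h00 - (S.M a 1 0) * h01
  · linear_combination (S.M a 0 0) * h01 - (S.M a 0 1) * h00

theorem cc_one (a : Lt N) : S.cc [a] = S.M a 1 0 := by simp [cc]

/-- For a nonempty reduced word `w ++ [t]`: `c ≠ 0` and the pole lies in `A (bar t)`.
Induction on `w` from the right (`List.reverseRecOn`): for `w' = w ++ [a]`, with bottom row `(c, d) = c (1, -p)` of `mat w`
(`p = pp w ∈ A (bar (last w))`, and `bar (last w) ≠ a` as the word is reduced): the bottom row of `mat w * M a` is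
`c (α - p γ, β - p κ)`, `M a = ![α, β; γ, κ]`. As `M (bar a) * M a = 1` (so also `M a * M (bar a) = 1`), `M (bar a) = det * ![κ, -β; -γ, α]` (`det = ±1`),
so `α - p γ = ± den (M (bar a)) p ≠ 0` (`den_M_ne`, `p ∉ A a`) and the new pole is `mob (M (bar a)) p ∈ A (bar a)` by `maps`. -/
theorem pole_mem (w : List (Lt N)) (t : Lt N) (h : Red (w ++ [t])) :
    S.cc (w ++ [t]) ≠ 0 ∧ S.pp (w ++ [t]) ∈ S.A (bar t) := by
  induction w using List.reverseRecOn generalizing t with
  | nil =>
    rw [List.nil_append, cc_one]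
    refine ⟨S.low t, ?_⟩
    unfold pp
    rw [mat_one]
    exact S.pole t
  | append_singleton w a ih =>
    have h1 : Red (w ++ [a]) := Red.append_left h
    have h2 : t ≠ bar a := by
      have := (red_append_iff w [] a t).1 (by simpa using h)
      exact this.2.1
    obtain ⟨hc, hp⟩ := ih a h1
    have hcc : S.cc (w ++ [a] ++ [t]) = S.cc (w ++ [a]) * (S.M t 0 0 - S.pp (w ++ [a]) * S.M t 1 0) := by
      unfold pp
      have hc' : S.mat (w ++ [a]) 1 0 ≠ 0 := hc
      unfold cc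
      rw [mat_append, mat_one, Matrix.mul_apply, Fin.sum_univ_two]
      field_simp
      ring
    have hdd : S.mat (w ++ [a] ++ [t]) 1 1 =
        S.cc (w ++ [a]) * (S.M t 0 1 - S.pp (w ++ [a]) * S.M t 1 1) := by
      unfold pp
      have hc' : S.mat (w ++ [a]) 1 0 ≠ 0 := hc
      unfold cc
      rw [mat_append, mat_one, Matrix.mul_apply, Fin.sum_univ_two]
      field_simp
      ring
    obtain ⟨p, hpe⟩ : ∃ p, p = S.pp (w ++ [a]) := ⟨_, rfl⟩
    rw [← hpe] at hp hcc hdd
    obtain ⟨b1, b2, b3, b4⟩ := S.bar_low t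
    have hD := S.detM_ne t
    have hpn : p ∉ S.A (bar (bar t)) := by
      intro hp'
      have := S.A_inj hp hp'
      rw [bar_bar] at this
      exact h2 this.symm
    have hden := S.den_M_ne (bar t) p hpn
    have hdeneq : S.M t 0 0 - p * S.M t 1 0 = (S.M t).det * den (S.M (bar t)) p := by
      unfold den
      linear_combination -b2 - p * b1
    have hnum : -(S.M t 0 1 - p * S.M t 1 1) =
        (S.M t).det * (S.M (bar t) 0 0 * p + S.M (bar t) 0 1) := by
      linear_combination -p * b3 - b4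
    have hne : S.M t 0 0 - p * S.M t 1 0 ≠ 0 := by
      rw [hdeneq]
      exact mul_ne_zero hD hden
    refine ⟨?_, ?_⟩
    · rw [hcc]
      exact mul_ne_zero hc hne
    · have hpp : S.pp (w ++ [a] ++ [t]) = mob (S.M (bar t)) p := by
        unfold pp
        have h3 : S.mat (w ++ [a] ++ [t]) 1 0 = S.cc (w ++ [a] ++ [t]) := rfl
        rw [h3, hcc, hdd, ← mul_neg, mul_div_mul_left _ _ hc, hnum, hdeneq,
          mul_div_mul_left _ _ hD]
        rfl
      rw [hpp]
      apply S.maps (bar t) (bar a) ?_ p hp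
      rw [bar_bar]
      exact fun h3 => h2 h3.symm

theorem cc_ne (w : List (Lt N)) (hw : w ≠ []) (h : Red w) : S.cc w ≠ 0 := by
  rw [← List.dropLast_append_getLast hw] at h ⊢
  exact (S.pole_mem _ _ h).1

/-- first column of the matrix of a word -/
theorem mat_zero (w : List (Lt N)) (hc : S.cc w ≠ 0) : S.mat w 0 0 = S.qq w * S.cc w := by
  have hc' : S.mat w 1 0 ≠ 0 := hc
  unfold qq cc
  field_simp

/-- lower right entry of the matrix of a word -/
theorem mat_low (w : List (Lt N)) (hc : S.cc w ≠ 0) : S.mat w 1 1 = -(S.pp w * S.cc w) := by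
  have hc' : S.mat w 1 0 ≠ 0 := hc
  unfold pp cc
  field_simp

theorem qq_cons_aux (a : Lt N) (w : List (Lt N)) (hc : S.cc w ≠ 0) :
    S.qq (a :: w) = mob (S.M a) (S.qq w) ∧ S.cc (a :: w) = den (S.M a) (S.qq w) * S.cc w := by
  have h1 : S.mat (a :: w) 0 0 = (S.M a 0 0 * S.qq w + S.M a 0 1) * S.cc w := by
    rw [mat_cons, Matrix.mul_apply, Fin.sum_univ_two, S.mat_zero w hc]
    unfold cc
    ring
  have h2 : S.cc (a :: w) = den (S.M a) (S.qq w) * S.cc w := by
    have : S.cc (a :: w) = S.mat (a :: w) 1 0 := rfl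
    rw [this, mat_cons, Matrix.mul_apply, Fin.sum_univ_two, S.mat_zero w hc]
    unfold cc den
    ring
  refine ⟨?_, h2⟩
  have h3 : S.qq (a :: w) = S.mat (a :: w) 0 0 / S.cc (a :: w) := rfl
  rw [h3, h1, h2, mul_div_mul_right _ _ hc]
  rfl

/-- Induction on `w`. For one letter: `M a` has pole in `A (bar a)` and `M (bar a)` has pole `mob (M a) ∞ = M a 0 0 / M a 1 0 ∈ A a`
(the inverse matrix). For `a :: b :: w`: `qq = mob (M a) (qq (b :: w))`, `qq (b :: w) ∈ A b`, `b ≠ bar a`, `maps`. -/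
theorem qq_mem (a : Lt N) (w : List (Lt N)) (h : Red (a :: w)) : S.qq (a :: w) ∈ S.A a := by
  induction w generalizing a with
  | nil =>
    have h1 := S.pole (bar a)
    obtain ⟨b1, b2, -, -⟩ := S.bar_low a
    have hD := S.detM_ne a
    have h2 : S.qq [a] = -(S.M (bar a) 1 1) / S.M (bar a) 1 0 := by
      unfold qq
      rw [mat_one, ← mul_div_mul_right (-(S.M (bar a) 1 1)) _ hD, b1, neg_mul, b2,
        neg_div_neg_eq]
    rw [h2]
    rw [bar_bar] at h1
    exact h1
  | cons b w ih =>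
    rw [red_cons_cons] at h
    rw [(S.qq_cons_aux a (b :: w) (S.cc_ne _ (by simp) h.2)).1]
    exact S.maps a b h.1 _ (ih b h.2)

/-- `den (mat w) x = c_w (x - p_w)` -/
theorem den_mat (w : List (Lt N)) (hw : w ≠ []) (h : Red w) (x : ℝ) :
    den (S.mat w) x = S.cc w * (x - S.pp w) := by
  have h1 := S.mat_low w (S.cc_ne w hw h)
  unfold den
  rw [h1]
  unfold cc
  ring

/-- `c_{wv} = c_w c_v (q_v - p_w)` -/
theorem cc_append (w v : List (Lt N)) (hw : w ≠ []) (hv : v ≠ []) (h : Red (w ++ v)) :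
    S.cc (w ++ v) = S.cc w * S.cc v * (S.qq v - S.pp w) := by
  have h1 := S.mat_low w (S.cc_ne w hw h.append_left)
  have h2 := S.mat_zero v (S.cc_ne v hv h.append_right)
  have h3 : S.cc (w ++ v) = S.mat (w ++ v) 1 0 := rfl
  rw [h3, mat_append, Matrix.mul_apply, Fin.sum_univ_two, h1, h2]
  unfold cc
  ring

/-- `q_{aw} = f_a (q_w)`, `c_{aw} = den_a (q_w) c_w` -/
theorem qq_cons (a : Lt N) (w : List (Lt N)) (hw : w ≠ []) (h : Red (a :: w)) :
    S.qq (a :: w) = mob (S.M a) (S.qq w) ∧ S.cc (a :: w) = den (S.M a) (S.qq w) * S.cc w := by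
  apply S.qq_cons_aux
  apply S.cc_ne w hw
  have h' : Red ([a] ++ w) := h
  exact h'.append_right

theorem den_mat_ne (w : List (Lt N)) (b : Lt N) (h : Red (w ++ [b])) (x : ℝ) (hx : x ∈ S.A b) :
    den (S.mat w) x ≠ 0 := by
  induction w using List.reverseRecOn with
  | nil => simp
  | append_singleton w a _ =>
    have h1 : Red (w ++ [a]) := Red.append_left h
    have h2 : b ≠ bar a := by
      have := (red_append_iff w [] a b).1 (by simpa using h)
      exact this.2.1
    obtain ⟨hc, hp⟩ := S.pole_mem w a h1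
    rw [S.den_mat (w ++ [a]) (by simp) h1]
    apply mul_ne_zero hc
    intro h3
    have h4 : x = S.pp (w ++ [a]) := sub_eq_zero.1 h3
    rw [h4] at hx
    exact h2 (S.A_inj hx hp)

end Sch

end Pool.Agent.DimDrop
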