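import Pool.Agent.Lib_MP_644907.GeoA1

/-!
# Piece GEOA2: cylinders
-/

set_option autoImplicit false

namespace Pool.Agent.DimDrop

open Set

namespace Sch

variable {N : ℕ} (S : Sch N)

@[simp] theorem I_one (a : Lt N) : S.I [a] = S.A a := rfl

theorem I_cons (a : Lt N) (w : List (Lt N)) (hw : w ≠ []) : S.I (a :: w) = mob (S.M a) '' S.I w := by
  cases w with
  | nil => exact absurd rfl hw
  | cons b w => rfl

/-- the cylinder of a reduced word is contained in the interval of the first letter -/
theorem I_subset_head (a : Lt N) (w : List (Lt N)) (h : Red (a :: w)) : S.I (a :: w) ⊆ S.A a := by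
  induction w generalizing a with
  | nil => exact subset_rfl
  | cons b w ih =>
    rw [red_cons_cons] at h
    rw [I_cons S a (b :: w) (by simp)]
    rintro _ ⟨x, hx, rfl⟩
    exact S.maps a b h.1 x (ih b h.2 hx)

theorem red_tail {a : Lt N} {w : List (Lt N)} (h : Red (a :: w)) : Red w := by
  have h' : Red ([a] ++ w) := h
  exact h'.append_right

/-- injectivity of the map of a letter outside the interval of the inverse letter -/
theorem mob_inj (a : Lt N) {x y : ℝ} (hx : x ∉ S.A (bar a)) (hy : y ∉ S.A (bar a))
    (h : mob (S.M a) x = mob (S.M a) y) : x = y := by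
  have h1 := mob_sub (S.M a) x y (S.den_M_ne a x hx) (S.den_M_ne a y hy)
  rw [h, sub_self] at h1
  have h2 : (S.M a).det * (x - y) = 0 := by
    rcases div_eq_zero_iff.1 h1.symm with h3 | h3
    · exact h3
    · exact absurd h3 (mul_ne_zero (S.den_M_ne a x hx) (S.den_M_ne a y hy))
  rcases mul_eq_zero.1 h2 with h3 | h3
  · exact absurd h3 (S.detM_ne a)
  · exact sub_eq_zero.1 h3

theorem not_mem_bar (a : Lt N) (w : List (Lt N)) (hw : w ≠ []) (h : Red (a :: w)) {x : ℝ}
    (hx : x ∈ S.I w) : x ∉ S.A (bar a) := by
  cases w with
  | nil => exact absurd rfl hw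
  | cons b w =>
    rw [red_cons_cons] at h
    intro hx'
    exact h.1 (S.A_inj (S.I_subset_head b w h.2 hx) hx')

/-- `I (w v) = mat w (I v)` -/
theorem I_append (w v : List (Lt N)) (hv : v ≠ []) (h : Red (w ++ v)) :
    S.I (w ++ v) = mob (S.mat w) '' S.I v := by
  induction w with
  | nil =>
    rw [List.nil_append, mat_nil]
    have : mob (1 : Matrix (Fin 2) (Fin 2) ℝ) = id := by
      funext x
      exact mob_one x
    rw [this, Set.image_id]
  | cons a w ih =>
    have h1 : Red (w ++ v) := red_tail h
    rw [List.cons_append, I_cons S a (w ++ v) (by simp [hv]), ih h1, Set.image_image]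
    apply Set.image_congr
    intro x hx
    rw [mat_cons]
    symm
    apply mob_mul
    cases v with
    | nil => exact absurd rfl hv
    | cons b v =>
      apply S.den_mat_ne w b
      · have h2 : Red (w ++ [b] ++ v) := by simpa using h1
        exact h2.append_left
      · exact S.I_subset_head b v h1.append_right hx

theorem I_append_subset (w v : List (Lt N)) (hw : w ≠ []) (h : Red (w ++ v)) : S.I (w ++ v) ⊆ S.I w := by
  induction w with
  | nil => exact absurd rfl hw
  | cons a w ih =>
    cases w with
    | nil => exact S.I_subset_head a v h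
    | cons b w =>
      rw [List.cons_append, I_cons S a (b :: w ++ v) (by simp), I_cons S a (b :: w) (by simp)]
      exact Set.image_mono (ih (by simp) (red_tail h))

/-- different reduced words of the same length have disjoint cylinders -/
theorem I_disjoint (w v : List (Lt N)) (hw : Red w) (hv : Red v) (hl : w.length = v.length) (hne : w ≠ v) :
    Disjoint (S.I w) (S.I v) := by
  induction w generalizing v with
  | nil =>
    exfalso
    apply hne
    rw [List.length_nil] at hl
    exact (List.length_eq_zero_iff.1 hl.symm).symm
  | cons a w ih =>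
    cases v with
    | nil => simp at hl
    | cons b v =>
      by_cases hab : a = b
      · subst hab
        have hne' : w ≠ v := fun h => hne (by rw [h])
        have hl' : w.length = v.length := by simpa using hl
        have hd := ih v (red_tail hw) (red_tail hv) hl' hne'
        have hw0 : w ≠ [] := by
          rintro rfl
          apply hne'
          exact (List.length_eq_zero_iff.1 hl'.symm).symm
        have hv0 : v ≠ [] := by
          rintro rfl
          exact hw0 (List.length_eq_zero_iff.1 hl')
        rw [I_cons S a w hw0, I_cons S a v hv0, Set.disjoint_left]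
        rintro _ ⟨x, hx, rfl⟩ ⟨y, hy, hxy⟩
        have := S.mob_inj a (S.not_mem_bar a v hv0 hv hy) (S.not_mem_bar a w hw0 hw hx) hxy
        rw [this] at hy
        exact Set.disjoint_left.1 hd hx hy
      · exact (S.disj a b hab).mono (S.I_subset_head a w hw) (S.I_subset_head b v hv)

theorem qq_mem_I (w : List (Lt N)) (hw : w ≠ []) (h : Red w) : S.qq w ∈ S.I w := by
  induction w with
  | nil => exact absurd rfl hw
  | cons a w ih =>
    cases w with
    | nil => exact S.qq_mem a [] h
    | cons b w =>
      rw [I_cons S a (b :: w) (by simp), (S.qq_cons a (b :: w) (by simp) h).1]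
      exact ⟨_, ih (by simp) (red_tail h), rfl⟩

/-- the cylinder of a nonempty reduced word is a nondegenerate compact interval -/
theorem I_Icc (w : List (Lt N)) (hw : w ≠ []) (h : Red w) : ∃ a b : ℝ, a < b ∧ S.I w = Icc a b := by
  induction w with
  | nil => exact absurd rfl hw
  | cons a w ih =>
    cases w with
    | nil => exact ⟨S.l a, S.r a, S.lt a, rfl⟩
    | cons b w =>
      obtain ⟨p, q, hpq, hI⟩ := ih (by simp) (red_tail h)
      have hnot : ∀ x ∈ Icc p q, x ∉ S.A (bar a) := by
        intro x hx
        rw [← hI] at hx
        exact S.not_mem_bar a (b :: w) (by simp) h hx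
      have hcont : ContinuousOn (mob (S.M a)) (Icc p q) := by
        unfold mob
        apply ContinuousOn.div
        · fun_prop
        · fun_prop
        · intro x hx
          exact S.den_M_ne a x (hnot x hx)
      have him := hcont.image_Icc hpq.le
      rw [I_cons S a (b :: w) (by simp), hI]
      refine ⟨_, _, ?_, him⟩
      have h1 : mob (S.M a) p ∈ mob (S.M a) '' Icc p q := ⟨p, left_mem_Icc.2 hpq.le, rfl⟩
      have h2 : mob (S.M a) q ∈ mob (S.M a) '' Icc p q := ⟨q, right_mem_Icc.2 hpq.le, rfl⟩
      have h3 : mob (S.M a) p ≠ mob (S.M a) q := by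
        intro h4
        exact hpq.ne (S.mob_inj a (hnot p (left_mem_Icc.2 hpq.le))
          (hnot q (right_mem_Icc.2 hpq.le)) h4)
      rw [him] at h1 h2
      by_contra hcon
      push Not at hcon
      apply h3
      apply le_antisymm
      · exact h1.2.trans (hcon.trans h2.1)
      · exact h2.2.trans (hcon.trans h1.1)

end Sch

end Pool.Agent.DimDrop
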