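import Mathlib

/-!
# Piece HELL: Hellinger affinity and ultrafilter limits
-/

set_option autoImplicit false

namespace Pool.Agent.DimDrop

open Finset Filter Topology

/-- `∑ (√x - √y)^2 = 2 - 2 ∑ √(x y) ≤ 0` -/
theorem hell {ι : Type*} (s : Finset ι) (x y : ι → ℝ) (hx : ∀ i ∈ s, 0 ≤ x i) (hy : ∀ i ∈ s, 0 ≤ y i)
    (h1 : ∑ i ∈ s, x i = 1) (h2 : ∑ i ∈ s, y i = 1) (h3 : 1 ≤ ∑ i ∈ s, √(x i * y i)) : ∀ i ∈ s, x i = y i := by
  have h4 : ∑ i ∈ s, (√(x i) - √(y i)) ^ 2 = 2 - 2 * ∑ i ∈ s, √(x i * y i) := by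
    have h5 : ∀ i ∈ s, (√(x i) - √(y i)) ^ 2 = x i + y i - 2 * √(x i * y i) := by
      intro i hi
      rw [Real.sqrt_mul (hx i hi), sub_sq, Real.sq_sqrt (hx i hi), Real.sq_sqrt (hy i hi)]
      ring
    rw [sum_congr rfl h5, sum_sub_distrib, sum_add_distrib, h1, h2, ← mul_sum]
    norm_num
  have h6 : ∑ i ∈ s, (√(x i) - √(y i)) ^ 2 = 0 := by
    apply le_antisymm
    · rw [h4]; linarith
    · exact sum_nonneg fun i _ => sq_nonneg _
  rw [sum_eq_zero_iff_of_nonneg (fun i _ => sq_nonneg _)] at h6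
  intro i hi
  have h7 := h6 i hi
  have h8 : √(x i) = √(y i) := by
    have := pow_eq_zero_iff (two_ne_zero) |>.mp h7
    linarith
  rw [← Real.sq_sqrt (hx i hi), ← Real.sq_sqrt (hy i hi), h8]

/-- Cauchy-Schwarz -/
theorem hell_le {ι : Type*} (s : Finset ι) (x y : ι → ℝ) (hx : ∀ i ∈ s, 0 ≤ x i) (hy : ∀ i ∈ s, 0 ≤ y i) :
    ∑ i ∈ s, √(x i * y i) ≤ √((∑ i ∈ s, x i) * ∑ i ∈ s, y i) := by
  apply Real.le_sqrt_of_sq_le
  have h := sum_mul_sq_le_sq_mul_sq s (fun i => √(x i)) (fun i => √(y i))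
  have e1 : ∑ i ∈ s, √(x i * y i) = ∑ i ∈ s, √(x i) * √(y i) :=
    sum_congr rfl fun i hi => Real.sqrt_mul (hx i hi) _
  have e2 : ∑ i ∈ s, √(x i) ^ 2 = ∑ i ∈ s, x i := sum_congr rfl fun i hi => Real.sq_sqrt (hx i hi)
  have e3 : ∑ i ∈ s, √(y i) ^ 2 = ∑ i ∈ s, y i := sum_congr rfl fun i hi => Real.sq_sqrt (hy i hi)
  rw [e1]
  rw [e2, e3] at h
  exact h

/-- limits of bounded sequences along an ultrafilter -/
theorem ultra_lim (U : Ultrafilter ℕ) (x : ℕ → ℝ) (a b : ℝ) (h : ∀ n, x n ∈ Set.Icc a b) :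
    ∃ L ∈ Set.Icc a b, Tendsto x U (𝓝 L) := by
  have hc : IsCompact (Set.Icc a b) := isCompact_Icc
  obtain ⟨L, hL, h2⟩ := hc.ultrafilter_le_nhds (U.map x)
    (by
      rw [le_principal_iff]
      exact Filter.mem_map.mpr (Filter.Eventually.of_forall h))
  exact ⟨L, hL, h2⟩

/-- pigeonhole for a finite type -/
theorem ultra_const {T : Type*} [Finite T] (U : Ultrafilter ℕ) (x : ℕ → T) : ∃ t : T, ∀ᶠ n in (U : Filter ℕ), x n = t := by
  obtain ⟨t, ht⟩ := Ultrafilter.eq_pure_of_finite (U.map x)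
  refine ⟨t, ?_⟩
  have h : {t} ∈ U.map x := by
    rw [ht]
    exact Ultrafilter.mem_pure.mpr rfl
  exact Ultrafilter.mem_map.mp h

end Pool.Agent.DimDrop
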