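import Pool.Agent.Lib_MP_644907.Words

/-!
# Piece ISOA: isometries of the disk
-/

set_option autoImplicit false

namespace Pool.Agent.DimDrop

open Complex

/-- an isometry of the disk model, as a function on the closed disk -/
def IsoD (f : ℂ → ℂ) : Prop := ∃ α β : ℂ, ‖α‖ ^ 2 - ‖β‖ ^ 2 = 1 ∧
  ((∀ z : ℂ, ‖z‖ ≤ 1 → f z = (α * z + β) / (starRingEnd ℂ β * z + starRingEnd ℂ α)) ∨
   (∀ z : ℂ, ‖z‖ ≤ 1 → f z = (α * starRingEnd ℂ z + β) / (starRingEnd ℂ β * starRingEnd ℂ z + starRingEnd ℂ α)))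

namespace IsoDAux

noncomputable def phi (α β w : ℂ) : ℂ := (α * w + β) / (starRingEnd ℂ β * w + starRingEnd ℂ α)

theorem key (α β w : ℂ) : ‖starRingEnd ℂ β * w + starRingEnd ℂ α‖ ^ 2 - ‖α * w + β‖ ^ 2 =
    (‖α‖ ^ 2 - ‖β‖ ^ 2) * (1 - ‖w‖ ^ 2) := by
  simp only [← Complex.normSq_eq_norm_sq, Complex.normSq_apply]
  simp
  ring

theorem den_ne {α β : ℂ} (h : ‖α‖ ^ 2 - ‖β‖ ^ 2 = 1) {w : ℂ} (hw : ‖w‖ ≤ 1) :
    starRingEnd ℂ β * w + starRingEnd ℂ α ≠ 0 := by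
  intro h0
  have h1 : ‖starRingEnd ℂ α‖ = ‖starRingEnd ℂ β * w‖ := by
    have : starRingEnd ℂ α = -(starRingEnd ℂ β * w) := by linear_combination h0
    rw [this, norm_neg]
  rw [norm_mul, Complex.norm_conj, Complex.norm_conj] at h1
  have h2 : ‖α‖ ≤ ‖β‖ := by
    rw [h1]
    exact mul_le_of_le_one_right (norm_nonneg _) hw
  nlinarith [norm_nonneg α, norm_nonneg β]

theorem norm_phi_le {α β : ℂ} (h : ‖α‖ ^ 2 - ‖β‖ ^ 2 = 1) {w : ℂ} (hw : ‖w‖ ≤ 1) :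
    ‖phi α β w‖ ≤ 1 := by
  unfold phi
  rw [norm_div]
  apply div_le_one_of_le₀ _ (norm_nonneg _)
  have h1 := key α β w
  rw [h] at h1
  have h2 : ‖w‖ ^ 2 ≤ 1 := by nlinarith [norm_nonneg w]
  apply le_of_sq_le_sq _ (norm_nonneg _)
  linarith

theorem norm_phi_eq {α β : ℂ} (h : ‖α‖ ^ 2 - ‖β‖ ^ 2 = 1) {w : ℂ} (hw : ‖w‖ = 1) :
    ‖phi α β w‖ = 1 := by
  unfold phi
  rw [norm_div]
  have h1 := key α β w
  rw [h, hw] at h1
  have h3 : ‖α * w + β‖ = ‖starRingEnd ℂ β * w + starRingEnd ℂ α‖ := by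
    have : ‖α * w + β‖ ^ 2 = ‖starRingEnd ℂ β * w + starRingEnd ℂ α‖ ^ 2 := by linarith
    exact (pow_left_inj₀ (norm_nonneg _) (norm_nonneg _) two_ne_zero).1 this
  rw [h3]
  exact div_self (norm_ne_zero_iff.2 (den_ne h hw.le))

theorem conj_phi (α β w : ℂ) : starRingEnd ℂ (phi α β w) =
    phi (starRingEnd ℂ α) (starRingEnd ℂ β) (starRingEnd ℂ w) := by
  unfold phi
  simp

theorem phi_comp {α β α' β' : ℂ} (h : ‖α‖ ^ 2 - ‖β‖ ^ 2 = 1) (h' : ‖α'‖ ^ 2 - ‖β'‖ ^ 2 = 1)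
    {w : ℂ} (hw : ‖w‖ ≤ 1) :
    phi α β (phi α' β' w) = phi (α * α' + β * starRingEnd ℂ β') (α * β' + β * starRingEnd ℂ α') w := by
  have hd := den_ne h' hw
  have hp : ‖phi α' β' w‖ ≤ 1 := norm_phi_le h' hw
  have hd2 := den_ne h hp
  have e : phi α' β' w = (α' * w + β') / (starRingEnd ℂ β' * w + starRingEnd ℂ α') := rfl
  have e2 : phi α β (phi α' β' w) = (α * phi α' β' w + β) / (starRingEnd ℂ β * phi α' β' w + starRingEnd ℂ α) := rfl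
  have e3 : phi (α * α' + β * starRingEnd ℂ β') (α * β' + β * starRingEnd ℂ α') w =
      ((α * α' + β * starRingEnd ℂ β') * w + (α * β' + β * starRingEnd ℂ α')) /
      (starRingEnd ℂ (α * β' + β * starRingEnd ℂ α') * w + starRingEnd ℂ (α * α' + β * starRingEnd ℂ β')) := rfl
  rw [e2, e3]
  have hc : phi α' β' w * (starRingEnd ℂ β' * w + starRingEnd ℂ α') = α' * w + β' := by
    rw [e]
    exact div_mul_cancel₀ _ hd
  have n1 : α * phi α' β' w + β = ((α * α' + β * starRingEnd ℂ β') * w + (α * β' + β * starRingEnd ℂ α')) /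
      (starRingEnd ℂ β' * w + starRingEnd ℂ α') := by
    rw [eq_div_iff hd]
    linear_combination α * hc
  have n2 : starRingEnd ℂ β * phi α' β' w + starRingEnd ℂ α =
      (starRingEnd ℂ (α * β' + β * starRingEnd ℂ α') * w + starRingEnd ℂ (α * α' + β * starRingEnd ℂ β')) /
      (starRingEnd ℂ β' * w + starRingEnd ℂ α') := by
    rw [eq_div_iff hd]
    simp only [map_add, map_mul, Complex.conj_conj]
    linear_combination (starRingEnd ℂ β) * hc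
  rw [n1, n2, div_div_div_cancel_right₀ hd]

theorem norm_comp {α β α' β' : ℂ} (h : ‖α‖ ^ 2 - ‖β‖ ^ 2 = 1) (h' : ‖α'‖ ^ 2 - ‖β'‖ ^ 2 = 1) :
    ‖α * α' + β * starRingEnd ℂ β'‖ ^ 2 - ‖α * β' + β * starRingEnd ℂ α'‖ ^ 2 = 1 := by
  have : ‖α * α' + β * starRingEnd ℂ β'‖ ^ 2 - ‖α * β' + β * starRingEnd ℂ α'‖ ^ 2 =
      (‖α‖ ^ 2 - ‖β‖ ^ 2) * (‖α'‖ ^ 2 - ‖β'‖ ^ 2) := by
    simp only [← Complex.normSq_eq_norm_sq, Complex.normSq_apply]
    simp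
    ring
  rw [this, h, h', one_mul]

theorem two_point_phi {α β : ℂ} (h : ‖α‖ ^ 2 - ‖β‖ ^ 2 = 1) (z w : ℂ) (hz : ‖z‖ = 1) (hw : ‖w‖ = 1) :
    ‖phi α β z - phi α β 0‖ * ‖z - w‖ ≤ 2 * ‖phi α β z - phi α β w‖ := by
  have hdz := den_ne h hz.le
  have hdw := den_ne h hw.le
  have hα : 0 < ‖α‖ := by
    rcases (norm_nonneg α).lt_or_eq with h1 | h1
    · exact h1
    · exfalso
      rw [← h1] at h
      nlinarith [sq_nonneg ‖β‖]
  have hα0 : α ≠ 0 := norm_pos_iff.1 hα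
  have hα1 : starRingEnd ℂ α ≠ 0 := (map_ne_zero _).2 hα0
  have hab : α * starRingEnd ℂ α - β * starRingEnd ℂ β = 1 := by
    rw [Complex.mul_conj, Complex.mul_conj, Complex.normSq_eq_norm_sq, Complex.normSq_eq_norm_sq]
    exact_mod_cast h
  have e1 : phi α β z - phi α β 0 = z / (starRingEnd ℂ α * (starRingEnd ℂ β * z + starRingEnd ℂ α)) := by
    unfold phi
    rw [mul_zero, mul_zero, zero_add, zero_add]
    rw [div_sub_div _ _ hdz hα1, div_eq_div_iff (mul_ne_zero hdz hα1) (mul_ne_zero hα1 hdz)]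
    linear_combination (z * (starRingEnd ℂ α * (starRingEnd ℂ β * z + starRingEnd ℂ α))) * hab
  have e2 : phi α β z - phi α β w = (z - w) / ((starRingEnd ℂ β * z + starRingEnd ℂ α) *
      (starRingEnd ℂ β * w + starRingEnd ℂ α)) := by
    unfold phi
    rw [div_sub_div _ _ hdz hdw]
    congr 1
    linear_combination (z - w) * hab
  have hβα : ‖β‖ ≤ ‖α‖ := by
    apply le_of_sq_le_sq _ (norm_nonneg _)
    linarith
  have hdw2 : ‖starRingEnd ℂ β * w + starRingEnd ℂ α‖ ≤ 2 * ‖α‖ := by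
    refine (norm_add_le _ _).trans ?_
    rw [norm_mul, Complex.norm_conj, Complex.norm_conj, hw, mul_one]
    linarith
  have hdz0 : 0 < ‖starRingEnd ℂ β * z + starRingEnd ℂ α‖ := norm_pos_iff.2 hdz
  have hdw0 : 0 < ‖starRingEnd ℂ β * w + starRingEnd ℂ α‖ := norm_pos_iff.2 hdw
  rw [e1, e2, norm_div, norm_div, norm_mul, norm_mul, Complex.norm_conj, hz]
  have h5 : 1 / (‖α‖ * ‖starRingEnd ℂ β * z + starRingEnd ℂ α‖) * ‖z - w‖ =
      ‖z - w‖ / ‖starRingEnd ℂ β * z + starRingEnd ℂ α‖ * (1 / ‖α‖) := by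
    field_simp
  have h6 : 2 * (‖z - w‖ / (‖starRingEnd ℂ β * z + starRingEnd ℂ α‖ * ‖starRingEnd ℂ β * w + starRingEnd ℂ α‖)) =
      ‖z - w‖ / ‖starRingEnd ℂ β * z + starRingEnd ℂ α‖ * (2 / ‖starRingEnd ℂ β * w + starRingEnd ℂ α‖) := by
    field_simp
  rw [h5, h6]
  apply mul_le_mul_of_nonneg_left _ (by positivity)
  rw [div_le_div_iff₀ hα hdw0]
  linarith

end IsoDAux

open IsoDAux

/-- `u = η^2`, `k = 1 / √(1 - |a|^2)`, `α = k η`, `β = -k η a` -/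
theorem isoD_of_form (g : ℂ → ℂ) (h : ∃ u a : ℂ, ‖u‖ = 1 ∧ ‖a‖ < 1 ∧
      (g = (fun z : ℂ => u * (z - a) / (1 - starRingEnd ℂ a * z)) ∨
       g = (fun z : ℂ => u * (starRingEnd ℂ z - a) / (1 - starRingEnd ℂ a * starRingEnd ℂ z)))) : IsoD g := by
  obtain ⟨u, a, hu, ha, hg⟩ := h
  obtain ⟨η, hη⟩ := IsAlgClosed.exists_pow_nat_eq u (n := 2) (by norm_num)
  have hη1 : ‖η‖ = 1 := by
    have : ‖η‖ ^ 2 = 1 := by rw [← norm_pow, hη, hu]
    nlinarith [norm_nonneg η]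
  have hηc : η * starRingEnd ℂ η = 1 := by
    rw [Complex.mul_conj, Complex.normSq_eq_norm_sq, hη1]
    simp
  have hη0 : η ≠ 0 := by
    intro h0
    rw [h0] at hη1
    simp at hη1
  have hηc0 : starRingEnd ℂ η ≠ 0 := (map_ne_zero _).2 hη0
  have hp : 0 < 1 - ‖a‖ ^ 2 := by nlinarith [norm_nonneg a]
  have hs : 0 < √(1 - ‖a‖ ^ 2) := Real.sqrt_pos.2 hp
  have hk0 : (((√(1 - ‖a‖ ^ 2))⁻¹ : ℝ) : ℂ) ≠ 0 := by
    exact_mod_cast (inv_pos.2 hs).ne'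
  have key2 : ∀ w : ℂ, u * (w - a) / (1 - starRingEnd ℂ a * w) =
      phi ((((√(1 - ‖a‖ ^ 2))⁻¹ : ℝ) : ℂ) * η) (-((((√(1 - ‖a‖ ^ 2))⁻¹ : ℝ) : ℂ) * η * a)) w := by
    intro w
    unfold phi
    rw [map_neg, map_mul, map_mul, Complex.conj_ofReal]
    rw [show (((√(1 - ‖a‖ ^ 2))⁻¹ : ℝ) : ℂ) * η * w + -((((√(1 - ‖a‖ ^ 2))⁻¹ : ℝ) : ℂ) * η * a) =
      (((√(1 - ‖a‖ ^ 2))⁻¹ : ℝ) : ℂ) * (η * (w - a)) by ring,
      show -((((√(1 - ‖a‖ ^ 2))⁻¹ : ℝ) : ℂ) * starRingEnd ℂ η * starRingEnd ℂ a) * w +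
        (((√(1 - ‖a‖ ^ 2))⁻¹ : ℝ) : ℂ) * starRingEnd ℂ η =
      (((√(1 - ‖a‖ ^ 2))⁻¹ : ℝ) : ℂ) * (starRingEnd ℂ η * (1 - starRingEnd ℂ a * w)) by ring,
      mul_div_mul_left _ _ hk0]
    rw [← hη, show η ^ 2 * (w - a) = η * (η * (w - a)) by ring]
    rw [← mul_div_mul_left (η * (η * (w - a))) _ hηc0]
    rw [show starRingEnd ℂ η * (η * (η * (w - a))) = (η * starRingEnd ℂ η) * (η * (w - a)) by ring, hηc, one_mul]
  refine ⟨(((√(1 - ‖a‖ ^ 2))⁻¹ : ℝ) : ℂ) * η, -((((√(1 - ‖a‖ ^ 2))⁻¹ : ℝ) : ℂ) * η * a), ?_, ?_⟩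
  · rw [norm_neg, norm_mul, norm_mul, norm_mul, hη1, Complex.norm_real, Real.norm_of_nonneg (inv_pos.2 hs).le]
    rw [mul_one, mul_pow, inv_pow, Real.sq_sqrt hp.le]
    field_simp
  · rcases hg with hg | hg
    · left
      intro z _
      rw [hg]
      exact key2 z
    · right
      intro z _
      rw [hg]
      exact key2 (starRingEnd ℂ z)

theorem IsoD.norm_le {f : ℂ → ℂ} (h : IsoD f) (z : ℂ) (hz : ‖z‖ ≤ 1) : ‖f z‖ ≤ 1 := by
  obtain ⟨α, β, hn, h1 | h1⟩ := h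
  · rw [h1 z hz]
    exact norm_phi_le hn hz
  · rw [h1 z hz]
    exact norm_phi_le hn (by rwa [Complex.norm_conj])

theorem IsoD.norm_eq {f : ℂ → ℂ} (h : IsoD f) (z : ℂ) (hz : ‖z‖ = 1) : ‖f z‖ = 1 := by
  obtain ⟨α, β, hn, h1 | h1⟩ := h
  · rw [h1 z hz.le]
    exact norm_phi_eq hn hz
  · rw [h1 z hz.le]
    exact norm_phi_eq hn (by rwa [Complex.norm_conj])

/-- four cases; the denominators do not vanish on the closed disk because `|β| < |α|` -/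
theorem IsoD.comp {f g : ℂ → ℂ} (hf : IsoD f) (hg : IsoD g) : IsoD (f ∘ g) := by
  have hgn := hg.norm_le
  obtain ⟨α, β, hn, h1⟩ := hf
  obtain ⟨α', β', hn', h1'⟩ := hg
  have hnc : ‖starRingEnd ℂ α'‖ ^ 2 - ‖starRingEnd ℂ β'‖ ^ 2 = 1 := by
    rw [Complex.norm_conj, Complex.norm_conj, hn']
  rcases h1 with h1 | h1
  · refine ⟨_, _, norm_comp hn hn', ?_⟩
    rcases h1' with h1' | h1'
    · left
      intro z hz
      have e : (f ∘ g) z = phi α β (phi α' β' z) := by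
        rw [Function.comp_apply, h1 (g z) (hgn z hz), h1' z hz]
        rfl
      rw [e, phi_comp hn hn' hz]
      rfl
    · right
      intro z hz
      have hz' : ‖starRingEnd ℂ z‖ ≤ 1 := by rwa [Complex.norm_conj]
      have e : (f ∘ g) z = phi α β (phi α' β' (starRingEnd ℂ z)) := by
        rw [Function.comp_apply, h1 (g z) (hgn z hz), h1' z hz]
        rfl
      rw [e, phi_comp hn hn' hz']
      rfl
  · refine ⟨_, _, norm_comp hn hnc, ?_⟩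
    rcases h1' with h1' | h1'
    · right
      intro z hz
      have hz' : ‖starRingEnd ℂ z‖ ≤ 1 := by rwa [Complex.norm_conj]
      have e : (f ∘ g) z = phi α β (starRingEnd ℂ (phi α' β' z)) := by
        rw [Function.comp_apply, h1 (g z) (hgn z hz), h1' z hz]
        rfl
      rw [e, conj_phi, phi_comp hn hnc hz']
      rfl
    · left
      intro z hz
      have e : (f ∘ g) z = phi α β (starRingEnd ℂ (phi α' β' (starRingEnd ℂ z))) := by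
        rw [Function.comp_apply, h1 (g z) (hgn z hz), h1' z hz]
        rfl
      rw [e, conj_phi, Complex.conj_conj, phi_comp hn hnc hz]
      rfl

/-- `f ζ - f 0 = ζ / (conj α (conj β ζ + conj α))`, `|f ζ₁ - f ζ₂| = |ζ₁ - ζ₂| / (|conj β ζ₁ + conj α| |conj β ζ₂ + conj α|)`, `|conj β ζ + conj α| ≤ 2 |α|` -/
theorem IsoD.two_point {f : ℂ → ℂ} (h : IsoD f) (z w : ℂ) (hz : ‖z‖ = 1) (hw : ‖w‖ = 1) :
    ‖f z - f 0‖ * ‖z - w‖ ≤ 2 * ‖f z - f w‖ := by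
  have h00 : ‖(0 : ℂ)‖ ≤ 1 := by simp
  obtain ⟨α, β, hn, h1 | h1⟩ := h
  · rw [h1 z hz.le, h1 w hw.le, h1 0 h00]
    exact two_point_phi hn z w hz hw
  · rw [h1 z hz.le, h1 w hw.le, h1 0 h00, map_zero]
    have hz' : ‖starRingEnd ℂ z‖ = 1 := by rwa [Complex.norm_conj]
    have hw' : ‖starRingEnd ℂ w‖ = 1 := by rwa [Complex.norm_conj]
    have := two_point_phi hn _ _ hz' hw'
    rw [← map_sub, Complex.norm_conj] at this
    exact this

end Pool.Agent.DimDrop
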