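import Pool.Agent.Lib_MP_644907.Words

/-!
# Piece ISOB: coordinates on the circle
-/

set_option autoImplicit false

namespace Pool.Agent.DimDrop

open Complex

/-- the point of the circle with real homogeneous coordinates `(x : y)` with respect to the base point `κ^2` -/
noncomputable def pt (κ : ℂ) (x y : ℝ) : ℂ :=
  (κ * (x + y * I)) / (starRingEnd ℂ (κ * (x + y * I)))

namespace PtAux

theorem unit_conj {κ : ℂ} (hκ : ‖κ‖ = 1) : κ * starRingEnd ℂ κ = 1 := by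
  rw [Complex.mul_conj, Complex.normSq_eq_norm_sq, hκ]
  simp

theorem unit_ne {κ : ℂ} (hκ : ‖κ‖ = 1) : κ ≠ 0 := by
  intro h0
  rw [h0] at hκ
  simp at hκ

theorem lin_ne (x y : ℝ) (h : x ≠ 0 ∨ y ≠ 0) : (x : ℂ) + y * I ≠ 0 := by
  intro h0
  have h1 := congrArg Complex.re h0
  have h2 := congrArg Complex.im h0
  simp at h1 h2
  rcases h with h | h
  · exact h h1
  · exact h h2

theorem add_ne (x : ℝ) : (x : ℂ) + I ≠ 0 := by
  intro h0
  have h2 := congrArg Complex.im h0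
  simp at h2

theorem sub_ne (x : ℝ) : (x : ℂ) - I ≠ 0 := by
  intro h0
  have h2 := congrArg Complex.im h0
  simp at h2

theorem pt_eq {κ : ℂ} (hκ : ‖κ‖ = 1) (x y : ℝ) : pt κ x y = κ ^ 2 * (((x : ℂ) + y * I) / ((x : ℂ) - y * I)) := by
  have h1 := unit_conj hκ
  have h0 : starRingEnd ℂ κ ≠ 0 := (map_ne_zero _).2 (unit_ne hκ)
  have h2 : κ ^ 2 = κ / starRingEnd ℂ κ := by
    rw [eq_div_iff h0]
    linear_combination κ * h1
  unfold pt
  rw [map_mul, map_add, map_mul, Complex.conj_ofReal, Complex.conj_ofReal, Complex.conj_I, h2,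
    mul_div_mul_comm, mul_neg, ← sub_eq_add_neg]

theorem pt_eq1 {κ : ℂ} (hκ : ‖κ‖ = 1) (x : ℝ) : pt κ x 1 = κ ^ 2 * (((x : ℂ) + I) / ((x : ℂ) - I)) := by
  rw [pt_eq hκ, Complex.ofReal_one, one_mul]

theorem norm_add_I (x : ℝ) : ‖(x : ℂ) + I‖ = √(1 + x ^ 2) := by
  rw [Complex.norm_eq_sqrt_sq_add_sq]
  congr 1
  simp
  ring

theorem norm_sub_I (x : ℝ) : ‖(x : ℂ) - I‖ = √(1 + x ^ 2) := by
  rw [Complex.norm_eq_sqrt_sq_add_sq]
  congr 1
  simp
  ring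

end PtAux

open PtAux

theorem pt_smul (κ : ℂ) (hκ : ‖κ‖ = 1) (c x y : ℝ) (hc : c ≠ 0) : pt κ (c * x) (c * y) = pt κ x y := by
  have hc' : (c : ℂ) ≠ 0 := by exact_mod_cast hc
  rw [pt_eq hκ, pt_eq hκ]
  congr 1
  push_cast
  rw [show (c : ℂ) * x + c * y * I = c * (x + y * I) by ring,
    show (c : ℂ) * x - c * y * I = c * (x - y * I) by ring, mul_div_mul_left _ _ hc']

theorem norm_pt (κ : ℂ) (hκ : ‖κ‖ = 1) (x y : ℝ) (h : x ≠ 0 ∨ y ≠ 0) : ‖pt κ x y‖ = 1 := by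
  unfold pt
  rw [norm_div, Complex.norm_conj]
  exact div_self (norm_ne_zero_iff.2 (mul_ne_zero (unit_ne hκ) (lin_ne x y h)))

theorem pt_one_zero (κ : ℂ) (hκ : ‖κ‖ = 1) : pt κ 1 0 = κ ^ 2 := by
  rw [pt_eq hκ]
  simp

/-- the points `pt κ x 1`, `x` real, are the points of the circle different from `κ^2`: the inverse map is
`z ↦ Re (I (z / κ^2 + 1) / (z / κ^2 - 1))` -/
noncomputable def co (κ : ℂ) (z : ℂ) : ℝ := (I * (z / κ ^ 2 + 1) / (z / κ ^ 2 - 1)).re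

theorem co_pt (κ : ℂ) (hκ : ‖κ‖ = 1) (x : ℝ) : co κ (pt κ x 1) = x := by
  have hk : κ ^ 2 ≠ 0 := pow_ne_zero _ (unit_ne hκ)
  have hs := sub_ne x
  unfold co
  rw [pt_eq1 hκ, mul_div_cancel_left₀ _ hk]
  have e1 : I * (((x : ℂ) + I) / ((x : ℂ) - I) + 1) / (((x : ℂ) + I) / ((x : ℂ) - I) - 1) = x := by
    have a1 : ((x : ℂ) + I) / ((x : ℂ) - I) - 1 = 2 * I / ((x : ℂ) - I) := by
      rw [div_sub_one hs]
      congr 1
      ring
    have a2 : ((x : ℂ) + I) / ((x : ℂ) - I) + 1 = 2 * x / ((x : ℂ) - I) := by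
      rw [div_add_one hs]
      congr 1
      ring
    rw [a1, a2, ← mul_div_assoc, div_div_div_cancel_right₀ hs,
      show I * (2 * (x : ℂ)) = 2 * I * x by ring,
      mul_div_cancel_left₀ _ (mul_ne_zero two_ne_zero I_ne_zero)]
  rw [e1, Complex.ofReal_re]

theorem pt_co (κ : ℂ) (hκ : ‖κ‖ = 1) (z : ℂ) (hz : ‖z‖ = 1) (h : z ≠ κ ^ 2) : pt κ (co κ z) 1 = z := by
  have hk : κ ^ 2 ≠ 0 := pow_ne_zero _ (unit_ne hκ)
  have hw : ‖z / κ ^ 2‖ = 1 := by rw [norm_div, norm_pow, hκ, hz]; norm_num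
  have hzw : z = κ ^ 2 * (z / κ ^ 2) := by rw [mul_div_cancel₀ _ hk]
  have hw1 : z / κ ^ 2 ≠ 1 := by
    intro h1
    rw [h1, mul_one] at hzw
    exact h hzw
  unfold co
  generalize z / κ ^ 2 = w at *
  have hwc := unit_conj hw
  have hw0 := unit_ne hw
  have hs : w - 1 ≠ 0 := sub_ne_zero.2 hw1
  have hs' : starRingEnd ℂ w - 1 ≠ 0 := by
    intro h1
    apply hs
    have := congrArg (starRingEnd ℂ) h1
    simpa using this
  have hreal : (((I * (w + 1) / (w - 1)).re : ℝ) : ℂ) = I * (w + 1) / (w - 1) := by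
    rw [← Complex.conj_eq_iff_re]
    rw [map_div₀, map_mul, map_add, map_sub, map_one, Complex.conj_I, div_eq_div_iff hs' hs]
    linear_combination (-2 * I) * hwc
  rw [pt_eq1 hκ, hreal]
  have a1 : I * (w + 1) / (w - 1) + I = 2 * I * w / (w - 1) := by
    rw [div_add' _ _ _ hs]
    congr 1
    ring
  have a2 : I * (w + 1) / (w - 1) - I = 2 * I / (w - 1) := by
    rw [div_sub' hs]
    congr 1
    ring
  rw [a1, a2, div_div_div_cancel_right₀ hs, mul_div_cancel_left₀ _ (mul_ne_zero two_ne_zero I_ne_zero)]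
  exact hzw.symm

theorem pt_ne (κ : ℂ) (hκ : ‖κ‖ = 1) (x : ℝ) : pt κ x 1 ≠ κ ^ 2 := by
  have hk : κ ^ 2 ≠ 0 := pow_ne_zero _ (unit_ne hκ)
  have hs := sub_ne x
  rw [pt_eq1 hκ]
  intro h
  have h1 : ((x : ℂ) + I) / ((x : ℂ) - I) = 1 := by
    apply mul_left_cancel₀ hk
    rw [h, mul_one]
  rw [div_eq_one_iff_eq hs] at h1
  have h2 := congrArg Complex.im h1
  simp at h2
  norm_num at h2

/-- `|pt x - pt y| = 2 |x - y| / (√(1 + x²) √(1 + y²))` -/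
theorem dist_pt (κ : ℂ) (hκ : ‖κ‖ = 1) (x y : ℝ) :
    ‖pt κ x 1 - pt κ y 1‖ = 2 * |x - y| / (√(1 + x ^ 2) * √(1 + y ^ 2)) := by
  have hsx := sub_ne x
  have hsy := sub_ne y
  rw [pt_eq1 hκ, pt_eq1 hκ, ← mul_sub, norm_mul, norm_pow, hκ, one_pow, one_mul, div_sub_div _ _ hsx hsy,
    norm_div, norm_mul, norm_sub_I, norm_sub_I]
  congr 1
  rw [show ((x : ℂ) + I) * ((y : ℂ) - I) - ((x : ℂ) - I) * ((y : ℂ) + I) = (-2 * I) * ((x - y : ℝ) : ℂ) by
    push_cast; ring]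
  rw [norm_mul, norm_mul, Complex.norm_I, Complex.norm_real, Real.norm_eq_abs]
  norm_num

end Pool.Agent.DimDrop
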