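import Pool.Agent.Lib_MP_644907.IsoA
import Pool.Agent.Lib_MP_644907.IsoB

/-!
# Piece ISOC: real matrices of isometries
-/

set_option autoImplicit false

namespace Pool.Agent.DimDrop

open Complex

/-- the map `f` of the circle is given by the real matrix `M` -/
def Rep (κ : ℂ) (f : ℂ → ℂ) (M : Matrix (Fin 2) (Fin 2) ℝ) : Prop :=
  ∀ x y : ℝ, (x ≠ 0 ∨ y ≠ 0) → f (pt κ x y) = pt κ (M 0 0 * x + M 0 1 * y) (M 1 0 * x + M 1 1 * y)

namespace RepAux

open PtAux IsoDAux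

/-- the real matrix of `v ↦ A v + B conj v` in the coordinates `v = κ (x + I y)` -/
noncomputable def mat (κ A B : ℂ) : Matrix (Fin 2) (Fin 2) ℝ :=
  !![(A + B * (starRingEnd ℂ κ) ^ 2).re, -(A - B * (starRingEnd ℂ κ) ^ 2).im;
    (A + B * (starRingEnd ℂ κ) ^ 2).im, (A - B * (starRingEnd ℂ κ) ^ 2).re]

theorem det_mat {κ : ℂ} (hκ : ‖κ‖ = 1) (A B : ℂ) : (mat κ A B).det = ‖A‖ ^ 2 - ‖B‖ ^ 2 := by
  have h1 : ‖B‖ ^ 2 = ‖B * (starRingEnd ℂ κ) ^ 2‖ ^ 2 := by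
    rw [norm_mul, norm_pow, Complex.norm_conj, hκ]
    norm_num
  rw [h1, mat, Matrix.det_fin_two_of]
  generalize B * (starRingEnd ℂ κ) ^ 2 = B'
  rw [← Complex.normSq_eq_norm_sq, ← Complex.normSq_eq_norm_sq, Complex.normSq_apply, Complex.normSq_apply,
    Complex.add_re, Complex.sub_re, Complex.add_im, Complex.sub_im]
  ring

theorem mat_apply {κ : ℂ} (hκ : ‖κ‖ = 1) (A B : ℂ) (x y : ℝ) :
    κ * (((mat κ A B 0 0 * x + mat κ A B 0 1 * y : ℝ) : ℂ) + ((mat κ A B 1 0 * x + mat κ A B 1 1 * y : ℝ) : ℂ) * I) =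
    A * (κ * (x + y * I)) + B * starRingEnd ℂ (κ * (x + y * I)) := by
  have hc := unit_conj hκ
  have e : ((mat κ A B 0 0 * x + mat κ A B 0 1 * y : ℝ) : ℂ) + ((mat κ A B 1 0 * x + mat κ A B 1 1 * y : ℝ) : ℂ) * I =
      (A + B * (starRingEnd ℂ κ) ^ 2) * x + I * (A - B * (starRingEnd ℂ κ) ^ 2) * y := by
    unfold mat
    apply Complex.ext
    · simp
    · simp
  rw [e, map_mul, map_add, map_mul, Complex.conj_ofReal, Complex.conj_ofReal, Complex.conj_I]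
  linear_combination (B * starRingEnd ℂ κ * (x - I * y)) * hc

theorem pt_mat {κ : ℂ} (hκ : ‖κ‖ = 1) (A B : ℂ) (x y : ℝ) :
    pt κ (mat κ A B 0 0 * x + mat κ A B 0 1 * y) (mat κ A B 1 0 * x + mat κ A B 1 1 * y) =
    (A * (κ * (x + y * I)) + B * starRingEnd ℂ (κ * (x + y * I))) /
      (starRingEnd ℂ A * starRingEnd ℂ (κ * (x + y * I)) + starRingEnd ℂ B * (κ * (x + y * I))) := by
  unfold pt
  rw [mat_apply hκ]
  generalize κ * ((x : ℂ) + y * I) = v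
  rw [map_add, map_mul, map_mul, Complex.conj_conj]

theorem rep_one {κ : ℂ} (hκ : ‖κ‖ = 1) (α β : ℂ) {f : ℂ → ℂ}
    (hf : ∀ z : ℂ, ‖z‖ ≤ 1 → f z = (α * z + β) / (starRingEnd ℂ β * z + starRingEnd ℂ α)) :
    Rep κ f (mat κ α β) := by
  intro x y h
  rw [hf _ (norm_pt κ hκ x y h).le, pt_mat hκ]
  unfold pt
  have hv : κ * ((x : ℂ) + y * I) ≠ 0 := mul_ne_zero (unit_ne hκ) (lin_ne x y h)
  generalize κ * ((x : ℂ) + y * I) = v at *
  have hv' : starRingEnd ℂ v ≠ 0 := (map_ne_zero _).2 hv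
  have e1 : α * (v / starRingEnd ℂ v) + β = (α * v + β * starRingEnd ℂ v) / starRingEnd ℂ v := by
    rw [← mul_div_assoc, div_add' _ _ _ hv']
  have e2 : starRingEnd ℂ β * (v / starRingEnd ℂ v) + starRingEnd ℂ α =
      (starRingEnd ℂ α * starRingEnd ℂ v + starRingEnd ℂ β * v) / starRingEnd ℂ v := by
    rw [← mul_div_assoc, div_add' _ _ _ hv']
    congr 1
    ring
  rw [e1, e2, div_div_div_cancel_right₀ hv']

theorem rep_two {κ : ℂ} (hκ : ‖κ‖ = 1) (α β : ℂ) {f : ℂ → ℂ}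
    (hf : ∀ z : ℂ, ‖z‖ ≤ 1 → f z = (α * starRingEnd ℂ z + β) / (starRingEnd ℂ β * starRingEnd ℂ z + starRingEnd ℂ α)) :
    Rep κ f (mat κ β α) := by
  intro x y h
  rw [hf _ (norm_pt κ hκ x y h).le, pt_mat hκ]
  unfold pt
  have hv : κ * ((x : ℂ) + y * I) ≠ 0 := mul_ne_zero (unit_ne hκ) (lin_ne x y h)
  generalize κ * ((x : ℂ) + y * I) = v at *
  rw [map_div₀, Complex.conj_conj]
  have e1 : α * (starRingEnd ℂ v / v) + β = (β * v + α * starRingEnd ℂ v) / v := by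
    rw [← mul_div_assoc, div_add' _ _ _ hv]
    congr 1
    ring
  have e2 : starRingEnd ℂ β * (starRingEnd ℂ v / v) + starRingEnd ℂ α =
      (starRingEnd ℂ β * starRingEnd ℂ v + starRingEnd ℂ α * v) / v := by
    rw [← mul_div_assoc, div_add' _ _ _ hv]
  rw [e1, e2, div_div_div_cancel_right₀ hv]

end RepAux

open RepAux

/-- With `v = κ (x + I y)`, `pt κ x y = v / conj v`: if `f z = (α z + β) / (conj β z + conj α)` then
`f (v / conj v) = T v / conj (T v)`, `T v = α v + β conj v`; in the other case `T v = β v + α conj v`. With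
`T v = A v + B conj v`, `B' = B conj κ / κ`: `T (κ (x + I y)) = κ ((A + B') x + I (A - B') y)`, so
`M = ![Re (A + B'), -Im (A - B'); Im (A + B'), Re (A - B')]`, `det M = |A|^2 - |B|^2`. -/
theorem exists_rep (κ : ℂ) (hκ : ‖κ‖ = 1) (f : ℂ → ℂ) (hf : IsoD f) :
    ∃ M : Matrix (Fin 2) (Fin 2) ℝ, |M.det| = 1 ∧ Rep κ f M := by
  obtain ⟨α, β, hn, h1 | h1⟩ := hf
  · refine ⟨mat κ α β, ?_, rep_one hκ α β h1⟩
    rw [det_mat hκ, hn, abs_one]
  · refine ⟨mat κ β α, ?_, rep_two hκ α β h1⟩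
    rw [det_mat hκ, show ‖β‖ ^ 2 - ‖α‖ ^ 2 = -(‖α‖ ^ 2 - ‖β‖ ^ 2) by ring, hn, abs_neg, abs_one]

/-- a left inverse on the circle is represented by the inverse matrix -/
theorem Rep.inv {κ : ℂ} {f f' : ℂ → ℂ} {M M' : Matrix (Fin 2) (Fin 2) ℝ} (h : Rep κ f M) (hM : M' * M = 1)
    (hff : ∀ z : ℂ, ‖z‖ = 1 → f' (f z) = z) (hκ : ‖κ‖ = 1) : Rep κ f' M' := by
  intro x y hxy
  have hM' : M * M' = 1 := mul_eq_one_comm.1 hM
  have h00 : M 0 0 * M' 0 0 + M 0 1 * M' 1 0 = 1 := by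
    have := congrFun (congrFun hM' 0) 0
    simpa [Matrix.mul_apply, Fin.sum_univ_two] using this
  have h01 : M 0 0 * M' 0 1 + M 0 1 * M' 1 1 = 0 := by
    have := congrFun (congrFun hM' 0) 1
    simpa [Matrix.mul_apply, Fin.sum_univ_two] using this
  have h10 : M 1 0 * M' 0 0 + M 1 1 * M' 1 0 = 0 := by
    have := congrFun (congrFun hM' 1) 0
    simpa [Matrix.mul_apply, Fin.sum_univ_two] using this
  have h11 : M 1 0 * M' 0 1 + M 1 1 * M' 1 1 = 1 := by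
    have := congrFun (congrFun hM' 1) 1
    simpa [Matrix.mul_apply, Fin.sum_univ_two] using this
  have ex : M 0 0 * (M' 0 0 * x + M' 0 1 * y) + M 0 1 * (M' 1 0 * x + M' 1 1 * y) = x := by
    linear_combination x * h00 + y * h01
  have ey : M 1 0 * (M' 0 0 * x + M' 0 1 * y) + M 1 1 * (M' 1 0 * x + M' 1 1 * y) = y := by
    linear_combination x * h10 + y * h11
  have hne : (M' 0 0 * x + M' 0 1 * y) ≠ 0 ∨ (M' 1 0 * x + M' 1 1 * y) ≠ 0 := by
    by_contra hcon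
    push Not at hcon
    rw [hcon.1, hcon.2] at ex ey
    rcases hxy with hx | hy
    · apply hx
      rw [← ex]
      ring
    · apply hy
      rw [← ey]
      ring
  have h2 := h _ _ hne
  rw [ex, ey] at h2
  rw [← h2]
  exact hff _ (norm_pt κ hκ _ _ hne)

/-- in the affine coordinate -/
theorem Rep.mob {κ : ℂ} (hκ : ‖κ‖ = 1) {f : ℂ → ℂ} {M : Matrix (Fin 2) (Fin 2) ℝ} (h : Rep κ f M) (x : ℝ)
    (hx : den M x ≠ 0) : f (pt κ x 1) = pt κ (mob M x) 1 := by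
  rw [h x 1 (Or.inr one_ne_zero), mul_one, mul_one]
  have e : pt κ (den M x * Pool.Agent.DimDrop.mob M x) (den M x * 1) = pt κ (Pool.Agent.DimDrop.mob M x) 1 :=
    pt_smul κ hκ _ _ _ hx
  rw [← e]
  congr 1
  · unfold Pool.Agent.DimDrop.mob
    unfold den at *
    rw [mul_div_cancel₀ _ hx]
  · unfold den
    rw [mul_one]

/-- `pt κ x y` for `y = 0` is the base point, so a point with `den M x = 0` is mapped to `κ^2` -/
theorem Rep.pole {κ : ℂ} (hκ : ‖κ‖ = 1) {f : ℂ → ℂ} {M : Matrix (Fin 2) (Fin 2) ℝ} (h : Rep κ f M) (hd : |M.det| = 1) (x : ℝ)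
    (hx : den M x = 0) : f (pt κ x 1) = κ ^ 2 := by
  rw [h x 1 (Or.inr one_ne_zero), mul_one, mul_one]
  unfold den at hx
  rw [hx]
  have hc : M 0 0 * x + M 0 1 ≠ 0 := by
    intro h0
    have : M.det = 0 := by
      rw [Matrix.det_fin_two]
      have e1 : M 0 1 = -(M 0 0 * x) := by linarith
      have e2 : M 1 1 = -(M 1 0 * x) := by linarith
      rw [e1, e2]
      ring
    rw [this, abs_zero] at hd
    exact zero_ne_one hd
  have e := pt_smul κ hκ (M 0 0 * x + M 0 1) 1 0 hc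
  rw [mul_one, mul_zero] at e
  rw [e, pt_one_zero κ hκ]

/-- the image of the base point: `pt κ (M 0 0) (M 1 0)` -/
theorem Rep.base {κ : ℂ} (hκ : ‖κ‖ = 1) {f : ℂ → ℂ} {M : Matrix (Fin 2) (Fin 2) ℝ} (h : Rep κ f M) :
    f (κ ^ 2) = pt κ (M 0 0) (M 1 0) := by
  have := h 1 0 (Or.inl one_ne_zero)
  rw [pt_one_zero κ hκ] at this
  rw [this]
  congr 1 <;> ring

end Pool.Agent.DimDrop
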