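import Pool.Agent.Lib_MP_644907.RW

/-!
# Piece MAXP: maximum principles
-/

set_option autoImplicit false

namespace Pool.Agent.DimDrop

open MeasureTheory

variable {N n : ℕ} {Γ X : Type*} [Group Γ] [MulAction Γ X] [MeasurableSpace X]

/-- equality in the mean value property -/
private theorem maxP_step (R : RW Γ X n) (u : Γ → ℝ) (hu : ∀ g, u g = ∑ i, R.p i * u (g * R.γ i))
    (M : ℝ) (g : Γ) (hg : u g = M) (hle : ∀ i, u (g * R.γ i) ≤ M) : ∀ i, u (g * R.γ i) = M := by
  have h1 : ∑ i, R.p i * (M - u (g * R.γ i)) = 0 := by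
    have h2 : ∑ i, R.p i * (M - u (g * R.γ i)) = (∑ i, R.p i) * M - ∑ i, R.p i * u (g * R.γ i) := by
      rw [Finset.sum_mul, ← Finset.sum_sub_distrib]
      apply Finset.sum_congr rfl
      intro i _
      ring
    rw [h2, R.sum, ← hu g, hg]
    ring
  rw [Finset.sum_eq_zero_iff_of_nonneg
    (fun i _ => mul_nonneg (R.pos i).le (sub_nonneg.mpr (hle i)))] at h1
  intro i
  have h3 := h1 i (Finset.mem_univ i)
  have h4 := (mul_eq_zero.mp h3).resolve_left (R.pos i).ne'
  linarith

private theorem maxP_pos (R : RW Γ X n) (u : Γ → ℝ) (hu : ∀ g, u g = ∑ i, R.p i * u (g * R.γ i)) (U G : Set Γ)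
    (hG : G.Nonempty)
    (hUG : ∀ g ∈ U, g ∉ G → ∀ i, g * R.γ i ∈ U ∪ G) (h0 : ∀ g ∈ G, u g = 0)
    (hfin : ∀ ε : ℝ, 0 < ε → {g | g ∈ U ∧ ε ≤ |u g|}.Finite) : ∀ g ∈ U, u g ≤ 0 := by
  intro g hg
  by_contra hcon
  push Not at hcon
  -- the maximum
  have hf : {h | h ∈ U ∧ u g ≤ u h}.Finite := by
    apply (hfin (u g) hcon).subset
    rintro h ⟨h1, h2⟩
    exact ⟨h1, h2.trans (le_abs_self _)⟩
  obtain ⟨g0, ⟨hg0U, hg0⟩, hmax⟩ := hf.exists_maximalFor u _ ⟨g, hg, le_rfl⟩
  have hM : 0 < u g0 := hcon.trans_le hg0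
  have hle : ∀ h ∈ U ∪ G, u h ≤ u g0 := by
    rintro h (hh | hh)
    · by_cases h5 : u g ≤ u h
      · rcases le_total (u h) (u g0) with h6 | h6
        · exact h6
        · exact hmax ⟨hh, h5⟩ h6
      · push Not at h5
        exact h5.le.trans hg0
    · rw [h0 h hh]; exact hM.le
  -- the walk
  have walk : ∀ l : List (Fin n), ∀ h ∈ U, u h = u g0 →
      h * (l.map R.γ).prod ∈ U ∧ u (h * (l.map R.γ).prod) = u g0 := by
    intro l
    induction l with
    | nil => intro h hh hh2; simpa using ⟨hh, hh2⟩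
    | cons i l ih =>
      intro h hh hh2
      have hnG : h ∉ G := by
        intro hc
        rw [h0 h hc] at hh2
        exact hM.ne hh2
      have h7 := hUG h hh hnG
      have h8 := maxP_step R u hu (u g0) h hh2 (fun i => hle _ (h7 i)) i
      have h9 : h * R.γ i ∈ U := by
        rcases h7 i with h10 | h10
        · exact h10
        · exfalso
          rw [h0 _ h10] at h8
          exact hM.ne h8
      have h11 := ih (h * R.γ i) h9 h8
      rw [List.map_cons, List.prod_cons, ← mul_assoc]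
      exact h11
  obtain ⟨g1, hg1⟩ := hG
  obtain ⟨l, _, hl⟩ := R.gen (g0⁻¹ * g1)
  have h12 := (walk l g0 hg0U rfl).2
  rw [hl, mul_inv_cancel_left, h0 g1 hg1] at h12
  exact hM.ne h12

/-- Maximum principle with a gate. If `u ≠ 0` somewhere on `U`, then (replace `u` by `-u`) by `hfin` the supremum of `u` over `U` is attained,
`u g0 = M > 0`; so `M` is also the maximum over `U ∪ G`. Choose `g1 ∈ G` and `l` with `g0 * (l.map γ).prod = g1` (`gen`). Walk along `l`: as long as the point is in `U \ G`, harmonicity and `u ≤ M` on `U ∪ G` give `u = M`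
at the next point, which lies in `U ∪ G`; it is never in `G`, as `u = 0 ≠ M` there. But the last point is `g1 ∈ G`. -/
theorem maxP (R : RW Γ X n) (u : Γ → ℝ) (hu : ∀ g, u g = ∑ i, R.p i * u (g * R.γ i)) (U G : Set Γ) (hG : G.Nonempty)
    (hUG : ∀ g ∈ U, g ∉ G → ∀ i, g * R.γ i ∈ U ∪ G) (h0 : ∀ g ∈ G, u g = 0)
    (hfin : ∀ ε : ℝ, 0 < ε → {g | g ∈ U ∧ ε ≤ |u g|}.Finite) : ∀ g ∈ U, u g = 0 := by
  intro g hg
  apply le_antisymm
  · exact maxP_pos R u hu U G hG hUG h0 hfin g hg
  · have h1 := maxP_pos R (fun g => - u g)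
      (by
        intro g
        rw [hu g, ← Finset.sum_neg_distrib]
        apply Finset.sum_congr rfl
        intro i _
        ring) U G hG hUG
      (by intro g hg; rw [h0 g hg, neg_zero])
      (by intro ε hε; simpa only [abs_neg] using hfin ε hε) g hg
    linarith

private theorem maxP'_pos [Infinite Γ] (R : RW Γ X n) (u : Γ → ℝ) (hu : ∀ g, u g = ∑ i, R.p i * u (g * R.γ i))
    (hfin : ∀ ε : ℝ, 0 < ε → {g | ε ≤ |u g|}.Finite) : ∀ g, u g ≤ 0 := by
  intro g
  by_contra hcon
  push Not at hcon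
  have hf : {h | u g ≤ u h}.Finite := by
    apply (hfin (u g) hcon).subset
    intro h h2
    have h3 : u g ≤ u h := h2
    exact le_trans h3 (le_abs_self _)
  have hgg : g ∈ {h | u g ≤ u h} := by
    change u g ≤ u g
    exact le_rfl
  obtain ⟨g0, hg0, hmax⟩ := hf.exists_maximalFor u _ ⟨g, hgg⟩
  have hM : 0 < u g0 := lt_of_lt_of_le hcon hg0
  have hle : ∀ h, u h ≤ u g0 := by
    intro h
    by_cases h5 : u g ≤ u h
    · rcases le_total (u h) (u g0) with h6 | h6
      · exact h6
      · exact hmax h5 h6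
    · push Not at h5
      exact h5.le.trans hg0
  have walk : ∀ l : List (Fin n), ∀ h, u h = u g0 → u (h * (l.map R.γ).prod) = u g0 := by
    intro l
    induction l with
    | nil => intro h hh2; simpa using hh2
    | cons i l ih =>
      intro h hh2
      have h8 := maxP_step R u hu (u g0) h hh2 (fun i => hle _) i
      have h11 := ih (h * R.γ i) h8
      rw [List.map_cons, List.prod_cons, ← mul_assoc]
      exact h11
  have hall : ∀ g1, u g1 = u g0 := by
    intro g1
    obtain ⟨l, _, hl⟩ := R.gen (g0⁻¹ * g1)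
    have h12 := walk l g0 rfl
    rwa [hl, mul_inv_cancel_left] at h12
  have hinf : (Set.univ : Set Γ).Finite := by
    apply (hfin (u g0) hM).subset
    intro g1 _
    change u g0 ≤ |u g1|
    rw [hall g1]
    exact le_abs_self _
  exact Set.infinite_univ hinf

/-- Maximum principle on an infinite group: a harmonic function tending to zero vanishes. -/
theorem maxP' [Infinite Γ] (R : RW Γ X n) (u : Γ → ℝ) (hu : ∀ g, u g = ∑ i, R.p i * u (g * R.γ i))
    (hfin : ∀ ε : ℝ, 0 < ε → {g | ε ≤ |u g|}.Finite) : ∀ g, u g = 0 := by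
  intro g
  apply le_antisymm
  · exact maxP'_pos R u hu hfin g
  · have h1 := maxP'_pos R (fun g => - u g)
      (by
        intro g
        rw [hu g, ← Finset.sum_neg_distrib]
        apply Finset.sum_congr rfl
        intro i _
        ring)
      (by intro ε hε; simpa only [abs_neg] using hfin ε hε) g
    linarith

end Pool.Agent.DimDrop
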