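import Mathlib

/-!
# Piece RECAN: a power series with nonzero coefficients does not satisfy a linear recurrence
-/

set_option autoImplicit false

namespace Pool.Agent.DimDrop

open Finset Filter Topology

/-- a power series with bounded exponential growth vanishing at `θ^k` for all large `k` is zero -/
private theorem recan_zero (c : ℕ → ℝ) (B R : ℝ) (hR : 0 < R) (hB : ∀ j, |c j| ≤ B * R ^ j)
    (θ : ℝ) (hθ : θ ≠ 0) (hθ1 : |θ| < 1) (k0 : ℕ)
    (h : ∀ k, k0 ≤ k → ∑' j, c j * (θ ^ k) ^ j = 0) : ∀ j, c j = 0 := by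
  have hr0 : ((Real.toNNReal R⁻¹ : NNReal) : ℝ) = R⁻¹ := Real.coe_toNNReal _ (inv_pos.mpr hR).le
  have hrad : ((Real.toNNReal R⁻¹ : NNReal) : ENNReal) ≤
      (FormalMultilinearSeries.ofScalars ℝ c).radius := by
    apply FormalMultilinearSeries.le_radius_of_bound _ B
    intro n
    rw [FormalMultilinearSeries.ofScalars_norm, Real.norm_eq_abs]
    rw [hr0, inv_pow]
    have h2 : 0 < R ^ n := pow_pos hR n
    calc |c n| * (R ^ n)⁻¹ ≤ (B * R ^ n) * (R ^ n)⁻¹ :=
          mul_le_mul_of_nonneg_right (hB n) (inv_pos.mpr h2).le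
      _ = B := by field_simp
  have hpos : 0 < (FormalMultilinearSeries.ofScalars ℝ c).radius := by
    refine lt_of_lt_of_le ?_ hrad
    rw [ENNReal.coe_pos]
    exact Real.toNNReal_pos.mpr (inv_pos.mpr hR)
  have hf := (FormalMultilinearSeries.ofScalars ℝ c).hasFPowerSeriesOnBall hpos
  have hf0 := hf.hasFPowerSeriesAt
  have han : AnalyticAt ℝ (FormalMultilinearSeries.ofScalars ℝ c).sum 0 := hf0.analyticAt
  have hval : ∀ x : ℝ, (FormalMultilinearSeries.ofScalars ℝ c).sum x = ∑' j, c j * x ^ j := by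
    intro x
    have := FormalMultilinearSeries.ofScalars_sum_eq (E := ℝ) c x
    simpa [FormalMultilinearSeries.ofScalarsSum, smul_eq_mul] using this
  have hfr : ∃ᶠ z in 𝓝[≠] (0:ℝ), (FormalMultilinearSeries.ofScalars ℝ c).sum z = 0 := by
    have ht : Tendsto (fun k : ℕ => θ ^ k) atTop (𝓝[≠] (0:ℝ)) := by
      rw [tendsto_nhdsWithin_iff]
      exact ⟨tendsto_pow_atTop_nhds_zero_of_abs_lt_one hθ1,
        Filter.Eventually.of_forall fun k => pow_ne_zero k hθ⟩
    apply ht.frequently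
    apply Filter.Eventually.frequently
    filter_upwards [eventually_ge_atTop k0] with k hk
    rw [hval]
    exact h k hk
  have hev := han.frequently_zero_iff_eventually_zero.mp hfr
  have hz : HasFPowerSeriesAt (0 : ℝ → ℝ) (FormalMultilinearSeries.ofScalars ℝ c) 0 :=
    hf0.congr hev
  have hp := hz.eq_zero
  intro j
  have h9 : FormalMultilinearSeries.ofScalars ℝ c j = 0 := by rw [hp]; rfl
  exact (FormalMultilinearSeries.ofScalars_eq_zero ℝ j).mp h9

/-- Let `G x = ∑ a_j x^j` converge for `|x| < r` (`|a_j| ≤ B R^j`), all `a_j ≠ 0`, `0 < |θ| < 1`, `ρ ≠ 0`. If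
`∑_{i ≤ d} q_i ρ^i G (θ^(k+i)) = 0` for all large `k` then all `q_i = 0`. Proof: `H x = ∑_i q_i ρ^i G (θ^i x) = ∑_j a_j (∑_i q_i (ρ θ^j)^i) x^j` converges near `0`
and vanishes at the points `θ^k → 0`, `θ^k ≠ 0`, so all its coefficients vanish (analytic functions, isolated zeros: e.g. `HasFPowerSeriesAt.eq_zero`, `AnalyticAt.frequently_zero_iff_eventually_zero`; or
directly: the first nonzero coefficient gives the asymptotics). So the polynomial `∑_i q_i z^i` vanishes at the infinitely many different points `ρ θ^j`. -/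
theorem rec_an (a : ℕ → ℝ) (B R : ℝ) (hR : 0 < R) (hB : ∀ j, |a j| ≤ B * R ^ j) (ha : ∀ j, a j ≠ 0)
    (θ ρ : ℝ) (hθ : θ ≠ 0) (hθ1 : |θ| < 1) (hρ : ρ ≠ 0) (d : ℕ) (q : ℕ → ℝ) (k0 : ℕ)
    (h : ∀ k, k0 ≤ k → ∑ i ∈ range (d + 1), q i * (ρ ^ i * ∑' j, a j * (θ ^ (k + i)) ^ j) = 0) :
    ∀ i ∈ range (d + 1), q i = 0 := by
  have hB0 : 0 ≤ B := by
    have := (abs_nonneg _).trans (hB 0)
    simpa using this
  -- summability
  have hsm : ∀ x : ℝ, |x| < R⁻¹ → Summable (fun j => a j * x ^ j) := by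
    intro x hx
    apply Summable.of_norm_bounded (g := fun j => B * (R * |x|) ^ j)
    · apply Summable.mul_left
      apply summable_geometric_of_lt_one (by positivity)
      have := mul_lt_mul_of_pos_left hx hR
      rwa [mul_inv_cancel₀ hR.ne'] at this
    · intro j
      rw [Real.norm_eq_abs, abs_mul, abs_pow, mul_pow, ← mul_assoc]
      exact mul_le_mul_of_nonneg_right (hB j) (by positivity)
  -- large k
  obtain ⟨k1, hk1⟩ : ∃ k1 : ℕ, ∀ k, k1 ≤ k → |θ ^ k| < R⁻¹ := by
    have ht := (tendsto_pow_atTop_nhds_zero_of_abs_lt_one hθ1).abs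
    rw [abs_zero] at ht
    have := ht.eventually_lt_const (inv_pos.mpr hR)
    obtain ⟨k1, hk1⟩ := eventually_atTop.mp this
    exact ⟨k1, hk1⟩
  set c : ℕ → ℝ := fun j => a j * ∑ i ∈ range (d + 1), q i * (ρ * θ ^ j) ^ i with hc
  have hcb : ∀ j, |c j| ≤ (B * ∑ i ∈ range (d + 1), |q i| * |ρ| ^ i) * R ^ j := by
    intro j
    rw [hc]
    simp only
    rw [abs_mul]
    have h1 : |∑ i ∈ range (d + 1), q i * (ρ * θ ^ j) ^ i| ≤ ∑ i ∈ range (d + 1), |q i| * |ρ| ^ i := by
      refine (abs_sum_le_sum_abs _ _).trans (sum_le_sum fun i _ => ?_)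
      rw [abs_mul, abs_pow, abs_mul, abs_pow]
      apply mul_le_mul_of_nonneg_left _ (abs_nonneg _)
      apply pow_le_pow_left₀ (by positivity)
      calc |ρ| * |θ| ^ j ≤ |ρ| * 1 :=
            mul_le_mul_of_nonneg_left (pow_le_one₀ (abs_nonneg _) hθ1.le) (abs_nonneg _)
        _ = |ρ| := mul_one _
    calc |a j| * |∑ i ∈ range (d + 1), q i * (ρ * θ ^ j) ^ i|
        ≤ (B * R ^ j) * ∑ i ∈ range (d + 1), |q i| * |ρ| ^ i :=
          mul_le_mul (hB j) h1 (abs_nonneg _) ((abs_nonneg _).trans (hB j))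
      _ = _ := by ring
  have hzero : ∀ k, max k0 k1 ≤ k → ∑' j, c j * (θ ^ k) ^ j = 0 := by
    intro k hk
    have h1 := h k (le_trans (le_max_left _ _) hk)
    rw [← h1]
    have h2 : ∀ i ∈ range (d + 1), q i * (ρ ^ i * ∑' j, a j * (θ ^ (k + i)) ^ j) =
        ∑' j, q i * (ρ ^ i * (a j * (θ ^ (k + i)) ^ j)) := by
      intro i _
      rw [tsum_mul_left, tsum_mul_left]
    rw [sum_congr rfl h2, ← Summable.tsum_finsetSum]
    · apply tsum_congr
      intro j
      rw [hc]
      simp only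
      rw [mul_sum, sum_mul]
      apply sum_congr rfl
      intro i _
      rw [mul_pow, pow_add, mul_pow, ← pow_mul, ← pow_mul θ i j, mul_comm i j, pow_mul θ j i]
      ring
    · intro i _
      apply Summable.mul_left
      apply Summable.mul_left
      exact hsm _ (hk1 _ (le_trans (le_trans (le_max_right _ _) hk) (Nat.le_add_right _ _)))
  have hc0 := recan_zero c _ R hR hcb θ hθ hθ1 _ hzero
  -- the polynomial
  set p : Polynomial ℝ := ∑ i ∈ range (d + 1), Polynomial.C (q i) * Polynomial.X ^ i with hp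
  have hroot : ∀ j : ℕ, p.eval (ρ * θ ^ j) = 0 := by
    intro j
    have h1 := hc0 j
    rw [hc] at h1
    simp only at h1
    rw [mul_eq_zero] at h1
    rcases h1 with h1 | h1
    · exact absurd h1 (ha j)
    · rw [hp, Polynomial.eval_finsetSum]
      rw [← h1]
      apply sum_congr rfl
      intro i _
      simp
  have hinj : Function.Injective (fun j : ℕ => ρ * θ ^ j) := by
    intro i j hij
    have h1 : θ ^ i = θ ^ j := mul_left_cancel₀ hρ hij
    have h2 : |θ| ^ i = |θ| ^ j := by rw [← abs_pow, ← abs_pow, h1]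
    exact (pow_right_strictAnti₀ (abs_pos.mpr hθ) hθ1).injective h2
  have hp0 : p = 0 := by
    apply Polynomial.eq_zero_of_infinite_isRoot
    apply Set.Infinite.mono _ (Set.infinite_range_of_injective hinj)
    rintro _ ⟨j, rfl⟩
    exact hroot j
  intro i hi
  have h3 : p.coeff i = q i := by
    rw [hp, Polynomial.finsetSum_coeff]
    simp only [Polynomial.coeff_C_mul, Polynomial.coeff_X_pow, mul_ite, mul_one, mul_zero]
    rw [sum_ite_eq, if_pos hi]
  rw [← h3, hp0, Polynomial.coeff_zero]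

end Pool.Agent.DimDrop
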