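import Pool.Agent.Lib_MP_644907.Eigen
import Pool.Agent.Lib_MP_644907.CWc
import Pool.Agent.Lib_MP_644907.RecAn
import Pool.Agent.Lib_MP_644907.Binom

/-!
# Piece NOREC: the conformal measure is not given by a linear recurrence along powers
-/

set_option autoImplicit false

namespace Pool.Agent.DimDrop

open Finset MeasureTheory Filter Topology

theorem norec_series (μ : Measure ℝ) [IsFiniteMeasure μ] (g y : ℝ → ℝ) (hg : Measurable g) (hy : Measurable y)
    (G0 Y : ℝ) (hG0 : 0 ≤ G0) (hY : 0 ≤ Y) (hgb : ∀ᵐ x ∂μ, |g x| ≤ G0) (hyb : ∀ᵐ x ∂μ, |y x| ≤ Y)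
    (b : ℕ → ℝ) (C R s : ℝ) (hC : 0 < C) (hR : 0 < R) (hb : ∀ j, |b j| ≤ C * R ^ j)
    (hs : ∀ x : ℝ, |x| < 1 / R → HasSum (fun j => b j * x ^ j) ((1 + x) ^ (-s))) (z : ℝ) (hz : |z| * Y * R < 1) :
    ∫ x, g x * (1 + z * y x) ^ (-s) ∂μ = ∑' j, (b j * ∫ x, g x * y x ^ j ∂μ) * z ^ j := by
  have hmeas : ∀ j, Measurable fun x => g x * (b j * (z * y x) ^ j) := by
    intro j
    fun_prop
  have hbound : ∀ j, ∀ᵐ x ∂μ, ‖g x * (b j * (z * y x) ^ j)‖ ≤ G0 * (C * (R * (|z| * Y)) ^ j) := by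
    intro j
    filter_upwards [hgb, hyb] with x h1 h2
    rw [norm_mul, norm_mul, norm_pow, norm_mul, Real.norm_eq_abs, Real.norm_eq_abs, Real.norm_eq_abs, Real.norm_eq_abs]
    have h3 : (|z| * |y x|) ^ j ≤ (|z| * Y) ^ j :=
      pow_le_pow_left₀ (by positivity) (mul_le_mul_of_nonneg_left h2 (abs_nonneg _)) j
    have h4 : |b j| * (|z| * |y x|) ^ j ≤ C * (R * (|z| * Y)) ^ j := by
      rw [mul_pow R, ← mul_assoc]
      exact mul_le_mul (hb j) h3 (by positivity) (by positivity)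
    exact mul_le_mul h1 h4 (by positivity) hG0
  have hint : ∀ j, Integrable (fun x => g x * (b j * (z * y x) ^ j)) μ := fun j =>
    Integrable.of_bound (hmeas j).aestronglyMeasurable _ (hbound j)
  have hgeo : |R * (|z| * Y)| < 1 := by
    rw [abs_of_nonneg (by positivity)]
    calc R * (|z| * Y) = |z| * Y * R := by ring
      _ < 1 := hz
  have hsum : Summable fun j => ∫ x, ‖g x * (b j * (z * y x) ^ j)‖ ∂μ := by
    have h1 : Summable fun j : ℕ => G0 * (C * (R * (|z| * Y)) ^ j) * μ.real Set.univ :=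
      (((summable_geometric_of_abs_lt_one hgeo).mul_left C).mul_left G0).mul_right _
    refine Summable.of_nonneg_of_le (fun j => integral_nonneg fun x => norm_nonneg _) (fun j => ?_) h1
    calc ∫ x, ‖g x * (b j * (z * y x) ^ j)‖ ∂μ ≤ ∫ x, G0 * (C * (R * (|z| * Y)) ^ j) ∂μ :=
          integral_mono_ae (hint j).norm (integrable_const _) (hbound j)
      _ = _ := by rw [integral_const, smul_eq_mul, mul_comm]
  have h1 := hasSum_integral_of_summable_integral_norm hint hsum
  have h2 : ∫ x, ∑' j, g x * (b j * (z * y x) ^ j) ∂μ = ∫ x, g x * (1 + z * y x) ^ (-s) ∂μ := by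
    apply integral_congr_ae
    filter_upwards [hyb] with x hx
    have h3 : |z * y x| < 1 / R := by
      rw [lt_div_iff₀ hR, abs_mul]
      calc |z| * |y x| * R ≤ |z| * Y * R := by gcongr
        _ < 1 := hz
    rw [((hs _ h3).mul_left (g x)).tsum_eq]
  rw [← h2, ← h1.tsum_eq]
  congr 1
  funext j
  have h4 : (fun x => g x * (b j * (z * y x) ^ j)) = fun x => (b j * z ^ j) * (g x * y x ^ j) := by
    funext x
    rw [mul_pow]
    ring
  rw [h4, integral_const_mul]
  ring

namespace Sch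

variable {N : ℕ} {S : Sch N} {δ : ℝ} {m : Measure ℝ}

theorem norec_cyl (hm : S.IsConf δ m) (w : List (Lt N)) (t : Lt N) (hr : Red (w ++ [t])) (p : ℝ) :
    ∫ x in S.I (w ++ [t]), |x - p| ^ (-2 * δ) ∂m =
      ∫ x in S.A t, |1 * (S.mat w 0 0 * x + S.mat w 0 1) + (-p) * (S.mat w 1 0 * x + S.mat w 1 1)| ^ (-2 * δ) ∂m := by
  have hmeasA : MeasurableSet (S.A t) := measurableSet_Icc
  have hI : S.I (w ++ [t]) = mob (S.mat w) '' S.A t := by
    rw [S.I_append w [t] (by simp) hr, S.I_one]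
  have hm1 : Measurable fun x : ℝ => |x - p| ^ (-2 * δ) := by fun_prop
  have hm2 : Measurable fun x : ℝ =>
      |1 * (S.mat w 0 0 * x + S.mat w 0 1) + (-p) * (S.mat w 1 0 * x + S.mat w 1 1)| ^ (-2 * δ) := by fun_prop
  rw [hI, integral_eq_lintegral_of_nonneg_ae (Eventually.of_forall fun x => by positivity)
    hm1.aestronglyMeasurable, integral_eq_lintegral_of_nonneg_ae (Eventually.of_forall fun x => by positivity)
    hm2.aestronglyMeasurable]
  congr 1
  rw [conf_word hm w t hr (S.A t) subset_rfl hmeasA (fun x => ENNReal.ofReal (|x - p| ^ (-2 * δ))) hm1.ennreal_ofReal]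
  refine setLIntegral_congr_fun hmeasA fun x hx => ?_
  have hden := S.den_mat_ne w t hr x hx
  rw [← ENNReal.ofReal_mul (by positivity), ← Real.mul_rpow (abs_nonneg _) (abs_nonneg _), ← abs_mul]
  congr 3
  have h1 : mob (S.mat w) x * den (S.mat w) x = S.mat w 0 0 * x + S.mat w 0 1 := by
    have h2 : mob (S.mat w) x = (S.mat w 0 0 * x + S.mat w 0 1) / den (S.mat w) x := rfl
    rw [h2, div_mul_cancel₀ _ hden]
  calc (mob (S.mat w) x - p) * den (S.mat w) x = mob (S.mat w) x * den (S.mat w) x - p * den (S.mat w) x := by ring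
    _ = _ := by rw [h1]; unfold den; ring

/-- Let `p ∉ A s ∪ A (bar s)`, `t ≠ s, bar s`. By `conf_word` for `w = s^k` and `h x = |x - p|^(-2δ)`: `∫_{I (s^k t)} |x - p|^(-2δ) dm = ∫_{A t} |(mob (mat s^k) x - p) den (mat s^k) x|^(-2δ) dm`, and by
`eigen` with `(c, d) = (1, -p)` the number inside is `lp^k P α(x) + lm^k Q β(x)`, `P = xp - p ≠ 0`, `Q = xm - p ≠ 0`,
`α = (x - xm)/(xp - xm)`, `β = (xp - x)/(xp - xm)`, which do not vanish on `A t`. So it equals `|lp|^(-2δk) G (θ^k)`, `θ = lm / lp`, `G y = ∑_j b_j μ_j y^j`, `μ_j = ∫_{A t} |P α|^(-2δ) (Q β / (P α))^j dm`, for all large `k`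
(`binom` with `s = 2δ`; `Q β / (P α)` is bounded on `A t`; dominated convergence or `hasSum_integral_of_summable_integral_norm`). `μ_j ≠ 0` since `Q β / (P α)` has constant sign on the interval `A t`
and `m (A t) > 0`. Apply `rec_an` with `ρ = |lp|^(-2δ)`. -/
theorem no_rec (hN : 2 ≤ N) (hδ : 0 < δ) (hm : S.IsConf δ m) (s t : Lt N) (hts : t ≠ s) (hts' : t ≠ bar s) (p : ℝ)
    (hp : p ∉ S.A s) (hp' : p ∉ S.A (bar s)) (d : ℕ) (q : ℕ → ℝ)
    (h : ∀ k : ℕ, ∑ i ∈ range (d + 1), q i *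
      ∫ x in S.I (List.replicate (k + i + 1) s ++ [t]), |x - p| ^ (-2 * δ) ∂m = 0) :
    ∀ i ∈ range (d + 1), q i = 0 := by
  have := hm.prob
  obtain ⟨xp, xm, lp, lm, hxp, hxm, hlm, hll, heig⟩ := S.eigen hN s
  obtain ⟨b, C, R, hC, hR, hb0, hb, hbs⟩ := binom (2 * δ) (by positivity)
  have hmeasA : MeasurableSet (S.A t) := measurableSet_Icc
  have hlp : lp ≠ 0 := by
    intro h0
    rw [h0, abs_zero] at hll
    exact absurd (abs_nonneg lm) (not_le.2 hll)
  have hP : xp - p ≠ 0 := by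
    intro h0
    exact hp ((sub_eq_zero.1 h0) ▸ hxp)
  have hQ : xm - p ≠ 0 := by
    intro h0
    exact hp' ((sub_eq_zero.1 h0) ▸ hxm)
  have hpm : xp - xm ≠ 0 := by
    intro h0
    have h1 : s = bar s := S.A_inj hxp ((sub_eq_zero.1 h0) ▸ hxm)
    exact bar_ne s h1.symm
  -- the two factors do not vanish on `A t`
  have hxt : ∀ x ∈ S.A t, x - xm ≠ 0 ∧ xp - x ≠ 0 := by
    intro x hx
    constructor
    · intro h0
      exact hts' (S.A_inj hx ((sub_eq_zero.1 h0).symm ▸ hxm))
    · intro h0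
      exact hts (S.A_inj hx ((sub_eq_zero.1 h0) ▸ hxp))
  set θ : ℝ := lm / lp with hθ_def
  have hθ : θ ≠ 0 := div_ne_zero hlm hlp
  have hθ1 : |θ| < 1 := by
    rw [hθ_def, abs_div, div_lt_one (abs_pos.2 hlp)]
    exact hll
  set g : ℝ → ℝ := fun x => |(xp - p) * ((x - xm) / (xp - xm))| ^ (-2 * δ) with hg_def
  set y : ℝ → ℝ := fun x => ((xm - p) / (xp - p)) * ((xp - x) / (x - xm)) with hy_def
  have hgm : Measurable g := by
    rw [hg_def]
    fun_prop
  have hym : Measurable y := by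
    rw [hy_def]
    fun_prop
  have hgpos : ∀ x ∈ S.A t, 0 < g x := by
    intro x hx
    have h1 := (hxt x hx).1
    simp only [hg_def]
    exact Real.rpow_pos_of_pos (abs_pos.2 (mul_ne_zero hP (div_ne_zero h1 hpm))) _
  have hgc : ContinuousOn g (S.A t) := by
    intro x hx
    apply ContinuousAt.continuousWithinAt
    simp only [hg_def]
    apply ContinuousAt.rpow_const
    · fun_prop
    · left
      exact (abs_pos.2 (mul_ne_zero hP (div_ne_zero (hxt x hx).1 hpm))).ne'
  have hyc : ContinuousOn y (S.A t) := by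
    intro x hx
    apply ContinuousAt.continuousWithinAt
    simp only [hy_def]
    apply ContinuousAt.mul continuousAt_const
    exact ContinuousAt.div (f := fun x : ℝ => xp - x) (g := fun x : ℝ => x - xm) (by fun_prop) (by fun_prop) (hxt x hx).1
  have hcomp : IsCompact (S.A t) := isCompact_Icc
  obtain ⟨G0, hG0⟩ := hcomp.exists_bound_of_continuousOn hgc
  obtain ⟨Y, hY⟩ := hcomp.exists_bound_of_continuousOn hyc
  set G1 := max G0 0 with hG1
  set Y1 := max Y 1 with hY1
  have hY1pos : 0 < Y1 := lt_of_lt_of_le one_pos (le_max_right _ _)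
  have hgb : ∀ᵐ x ∂(m.restrict (S.A t)), |g x| ≤ G1 := by
    filter_upwards [ae_restrict_mem hmeasA] with x hx
    exact (hG0 x hx).trans (le_max_left _ _)
  have hyb : ∀ᵐ x ∂(m.restrict (S.A t)), |y x| ≤ Y1 := by
    filter_upwards [ae_restrict_mem hmeasA] with x hx
    exact (hY x hx).trans (le_max_left _ _)
  -- the moments
  set μ : ℕ → ℝ := fun j => ∫ x in S.A t, g x * y x ^ j ∂m with hμ_def
  have hmA : 0 < m.real (S.A t) := by
    have := mass_pos hN hm [t] (by simp)
    rwa [S.I_one] at this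
  have hintj : ∀ j, Integrable (fun x => g x * y x ^ j) (m.restrict (S.A t)) := by
    intro j
    refine Integrable.of_bound (by fun_prop) (G1 * Y1 ^ j) ?_
    filter_upwards [hgb, hyb] with x h1 h2
    rw [norm_mul, norm_pow, Real.norm_eq_abs, Real.norm_eq_abs]
    exact mul_le_mul h1 (pow_le_pow_left₀ (abs_nonneg _) h2 _) (by positivity) (le_max_right _ _)
  have hμb : ∀ j, |μ j| ≤ G1 * Y1 ^ j * m.real (S.A t) := by
    intro j
    have h1 := norm_setIntegral_le_of_norm_le_const_ae (μ := m) (s := S.A t) (f := fun x => g x * y x ^ j)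
      (C := G1 * Y1 ^ j) (measure_lt_top _ _) ?_
    · exact h1
    · filter_upwards [hgb, hyb] with x h1 h2
      rw [norm_mul, norm_pow, Real.norm_eq_abs, Real.norm_eq_abs]
      exact mul_le_mul h1 (pow_le_pow_left₀ (abs_nonneg _) h2 _) (by positivity) (le_max_right _ _)
  -- the sign of `y`
  have hy0 : ∀ x ∈ S.A t, y x ≠ 0 := by
    intro x hx
    simp only [hy_def]
    exact mul_ne_zero (div_ne_zero hQ hP) (div_ne_zero (hxt x hx).2 (hxt x hx).1)
  obtain ⟨σ, hσ, hσy⟩ : ∃ σ : ℝ, (σ = 1 ∨ σ = -1) ∧ ∀ x ∈ S.A t, 0 < σ * y x := by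
    by_cases hpos : ∀ x ∈ S.A t, 0 < y x
    · exact ⟨1, Or.inl rfl, fun x hx => by simpa using hpos x hx⟩
    · push Not at hpos
      obtain ⟨x2, hx2, hx2'⟩ := hpos
      refine ⟨-1, Or.inr rfl, fun x hx => ?_⟩
      by_contra hcon
      have h1 : 0 ≤ y x := by linarith
      have hpre : IsPreconnected (S.A t) := isPreconnected_Icc
      obtain ⟨z, hz, hz0⟩ := hpre.intermediate_value hx2 hx hyc ⟨hx2', h1⟩
      exact hy0 z hz hz0
  have hσ0 : σ ≠ 0 := by
    rcases hσ with h0 | h0 <;> rw [h0] <;> norm_num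
  have hσ2 : σ * σ = 1 := by
    rcases hσ with h0 | h0 <;> rw [h0] <;> norm_num
  have hμ0 : ∀ j, μ j ≠ 0 := by
    intro j
    have h1 : μ j = σ ^ j * ∫ x in S.A t, g x * (σ * y x) ^ j ∂m := by
      simp only [hμ_def]
      rw [← integral_const_mul]
      congr 1
      funext x
      have h2 : y x = σ * (σ * y x) := by rw [← mul_assoc, hσ2, one_mul]
      calc g x * y x ^ j = g x * (σ * (σ * y x)) ^ j := by rw [← h2]
        _ = _ := by rw [mul_pow σ (σ * y x)]; ring
    rw [h1]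
    refine mul_ne_zero (pow_ne_zero _ hσ0) (ne_of_gt ?_)
    have hint' : IntegrableOn (fun x => g x * (σ * y x) ^ j) (S.A t) m := by
      have h3 : (fun x => g x * (σ * y x) ^ j) = fun x => σ ^ j * (g x * y x ^ j) := by
        funext x
        rw [mul_pow]
        ring
      rw [h3]
      exact (hintj j).const_mul _
    rw [setIntegral_pos_iff_support_of_nonneg_ae _ hint']
    · have h4 : Function.support (fun x => g x * (σ * y x) ^ j) ∩ S.A t = S.A t := by
        apply Set.inter_eq_right.2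
        intro x hx
        exact (mul_pos (hgpos x hx) (pow_pos (hσy x hx) j)).ne'
      rw [h4]
      exact (ENNReal.toReal_pos_iff.1 hmA).1
    · filter_upwards [ae_restrict_mem hmeasA] with x hx
      exact (mul_pos (hgpos x hx) (pow_pos (hσy x hx) j)).le
  -- smallness of `θ ^ k`
  have hε : 0 < 1 / (Y1 * (R + 1)) := by positivity
  obtain ⟨k0, hk0⟩ := exists_pow_lt_of_lt_one hε hθ1
  have hsmall : ∀ K, k0 ≤ K → |θ ^ K| * Y1 * R < 1 ∧ |θ ^ K| * Y1 < 1 := by
    intro K hK
    have h1 : |θ ^ K| < 1 / (Y1 * (R + 1)) := by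
      rw [abs_pow]
      exact (pow_le_pow_of_le_one (abs_nonneg _) hθ1.le hK).trans_lt hk0
    rw [lt_div_iff₀ (by positivity)] at h1
    have h2 : 0 ≤ |θ ^ K| * Y1 := by positivity
    constructor <;> nlinarith
  set ρ : ℝ := |lp| ^ (-2 * δ) with hρ_def
  have hρ : 0 < ρ := Real.rpow_pos_of_pos (abs_pos.2 hlp) _
  -- the formula for the integrals
  have hform : ∀ K, 1 ≤ K → k0 ≤ K → ∫ x in S.I (List.replicate K s ++ [t]), |x - p| ^ (-2 * δ) ∂m =
      ρ ^ K * ∑' j, (b j * μ j) * (θ ^ K) ^ j := by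
    intro K hK1 hK
    have hr : Red (List.replicate K s ++ [t]) := by
      obtain ⟨K', rfl⟩ : ∃ K', K = K' + 1 := ⟨K - 1, by omega⟩
      exact red_replicate s [t] (by rw [red_cons_cons]; exact ⟨hts', red_one t⟩) K'
    rw [norec_cyl hm _ t hr p]
    have hser := norec_series (m.restrict (S.A t)) g y hgm hym G1 Y1 (le_max_right _ _) hY1pos.le hgb hyb b C R
      (2 * δ) hC hR hb hbs (θ ^ K) (hsmall K hK).1
    rw [← hser, ← integral_const_mul]
    refine setIntegral_congr_fun hmeasA fun x hx => ?_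
    have hxm' := (hxt x hx).1
    have hyx : |y x| ≤ Y1 := (hY x hx).trans (le_max_left _ _)
    have hone : 0 < 1 + θ ^ K * y x := by
      have h1 : |θ ^ K * y x| < 1 := by
        rw [abs_mul]
        exact (mul_le_mul_of_nonneg_left hyx (abs_nonneg _)).trans_lt (hsmall K hK).2
      have := (abs_lt.1 h1).1
      linarith
    have halg : 1 * (S.mat (List.replicate K s) 0 0 * x + S.mat (List.replicate K s) 0 1) +
        (-p) * (S.mat (List.replicate K s) 1 0 * x + S.mat (List.replicate K s) 1 1) =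
        lp ^ K * ((xp - p) * ((x - xm) / (xp - xm))) * (1 + θ ^ K * y x) := by
      rw [heig K 1 (-p) x]
      simp only [hy_def, hθ_def, div_pow]
      field_simp
      ring
    rw [halg, abs_mul, abs_mul, abs_of_pos hone, Real.mul_rpow (by positivity) hone.le,
      Real.mul_rpow (abs_nonneg _) (abs_nonneg _), abs_pow, ← Real.rpow_pow_comm (abs_nonneg _)]
    have h5 : -(2 * δ) = -2 * δ := by ring
    rw [h5]
    simp only [hg_def, hρ_def]
    ring
  -- conclusion
  refine rec_an (fun j => b j * μ j) (C * (G1 * m.real (S.A t))) (R * Y1) (by positivity) ?_ ?_ θ ρ hθ hθ1 hρ.ne' d q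
    (k0 + 1) ?_
  · intro j
    rw [abs_mul, mul_pow]
    have h1 : 0 ≤ G1 * Y1 ^ j * m.real (S.A t) := (abs_nonneg _).trans (hμb j)
    calc |b j| * |μ j| ≤ (C * R ^ j) * (G1 * Y1 ^ j * m.real (S.A t)) :=
          mul_le_mul (hb j) (hμb j) (abs_nonneg _) (by positivity)
      _ = _ := by ring
  · intro j
    exact mul_ne_zero (hb0 j) (hμ0 j)
  · intro k hk
    obtain ⟨k', rfl⟩ : ∃ k', k = k' + 1 := ⟨k - 1, by omega⟩
    have h1 := h k'
    have h2 : ∑ i ∈ range (d + 1), q i * ∫ x in S.I (List.replicate (k' + i + 1) s ++ [t]), |x - p| ^ (-2 * δ) ∂m =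
        ρ ^ (k' + 1) * ∑ i ∈ range (d + 1), q i * (ρ ^ i * ∑' j, (b j * μ j) * (θ ^ (k' + 1 + i)) ^ j) := by
      rw [Finset.mul_sum]
      refine Finset.sum_congr rfl fun i _ => ?_
      rw [hform (k' + i + 1) (by omega) (by omega)]
      have h3 : k' + i + 1 = k' + 1 + i := by omega
      rw [h3, pow_add ρ (k' + 1) i]
      ring
    rw [h2] at h1
    exact (mul_eq_zero.1 h1).resolve_left (pow_ne_zero _ hρ.ne')

end Sch

end Pool.Agent.DimDrop
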