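import Pool.Agent.Lib_MP_644907.PWords

/-!
# Piece PNA: the group is infinite
-/

set_option autoImplicit false

namespace Pool.Agent.DimDrop

open MeasureTheory

variable {N n : ℕ} {Γ X : Type*} [Group Γ] [MulAction Γ X] [MeasurableSpace X]

/-- powers of a letter -/
theorem PP.pow_mem (P : PP N Γ X) (a : Lt N) (x : X) (hx : x ∉ P.A (bar a)) (k : ℕ) :
    (P.e a) ^ (k + 1) • x ∈ P.A a := by
  have hne : a ≠ bar a := by
    intro h
    have := congrArg Prod.snd h
    simp [bar] at this
  induction k with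
  | zero => simpa using P.ping a x hx
  | succ k ih =>
    rw [pow_succ', mul_smul]
    apply P.ping
    intro h
    exact Set.disjoint_left.1 (P.disj a (bar a) hne) ih h

/-- `Γ` is infinite: if `X ≠ ∅` and `N ≥ 1`, the elements `(e a)^k` are different: for `x ∉ A (bar a)` (exists) one has `(e a)^k x ∈ A a` for `k ≥ 1`, and if `(e a)^k = 1` for some `k ≥ 1` then
`x = (e a)^k x ∈ A a` for all `x ∉ A (bar a)`, so `X = A a ∪ A (bar a)`, impossible for `N ≥ 2` (another letter `b`: `x ∉ A (bar b)`, `e b x ∈ A b`). -/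
theorem infinite_group (P : PP N Γ X) (hN : 2 ≤ N) [Nonempty X] : Infinite Γ := by
  obtain ⟨x0⟩ := (inferInstance : Nonempty X)
  set a : Lt N := (⟨0, by omega⟩, true) with ha
  set b : Lt N := (⟨1, by omega⟩, true) with hb
  have hx : ∃ x : X, x ∉ P.A a ∧ x ∉ P.A (bar a) := by
    by_cases h : x0 ∈ P.A (bar b)
    · refine ⟨x0, fun h' => ?_, fun h' => ?_⟩
      · exact Set.disjoint_left.1 (P.disj (bar b) a (by simp [ha, hb, bar])) h h'
      · exact Set.disjoint_left.1 (P.disj (bar b) (bar a) (by simp [ha, hb, bar])) h h'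
    · have h1 := P.ping b x0 h
      refine ⟨P.e b • x0, fun h' => ?_, fun h' => ?_⟩
      · exact Set.disjoint_left.1 (P.disj b a (by simp [ha, hb])) h1 h'
      · exact Set.disjoint_left.1 (P.disj b (bar a) (by simp [ha, hb, bar])) h1 h'
  obtain ⟨x, hx1, hx2⟩ := hx
  have hinf : ¬ IsOfFinOrder (P.e a) := by
    intro h
    obtain ⟨k, hk, hk1⟩ := isOfFinOrder_iff_pow_eq_one.1 h
    obtain ⟨j, rfl⟩ : ∃ j, k = j + 1 := ⟨k - 1, by omega⟩
    have := P.pow_mem a x hx2 j
    rw [hk1, one_smul] at this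
    exact hx1 this
  exact Infinite.of_injective (fun k : ℕ => P.e a ^ k) (injective_pow_iff_not_isOfFinOrder.2 hinf)

end Pool.Agent.DimDrop
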