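import Pool.Agent.Lib_MP_644907.PNa
import Pool.Agent.Lib_MP_644907.MaxP

/-!
# Piece PNB: the complement of the limit set is a null set, first level
-/

set_option autoImplicit false

namespace Pool.Agent.DimDrop

open MeasureTheory

variable {N n : ℕ} {Γ X : Type*} [Group Γ] [MulAction Γ X] [MeasurableSpace X]

/-- the complement of the union of the `e a (X \ A (bar a))`, `a` a letter -/
def PP.DD (P : PP N Γ X) : Set X := {x | ∀ a, P.e a • x ∈ P.A a}

theorem PP.meas_DD (R : RW Γ X n) (P : PP N Γ X) : MeasurableSet P.DD := by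
  have h : P.DD = ⋂ a, {x | P.e a • x ∈ P.A a} := by
    ext x
    simp [PP.DD]
  rw [h]
  exact MeasurableSet.iInter fun a => (R.meas (P.e a)) (P.mA a)

theorem PP.el_DD (P : PP N Γ X) (w : List (Lt N)) (hw : w ≠ []) (z : X) (hz : z ∈ P.DD) : P.el w • z ∈ P.cy w := by
  induction w with
  | nil => exact absurd rfl hw
  | cons a w ih =>
    by_cases h : w = []
    · subst h
      simpa [PP.el, PP.cy_one] using hz a
    · rw [P.cy_cons a w h, P.el_cons, mul_smul]
      exact ⟨_, ih h, rfl⟩

theorem PP.DD_long (P : PP N Γ X) (u : List (Lt N)) (hu : Red u) (hl : 2 ≤ u.length) (z z' : X) (hz : z ∈ P.DD)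
    (hz' : z' ∈ P.DD) (h : z = P.el u • z') : False := by
  match u, hl with
  | a :: b :: u', _ =>
    rw [red_cons_cons] at hu
    have h1 : P.e (bar a) • z = P.el (b :: u') • z' := by
      rw [h, P.el_cons, P.einv, mul_smul, inv_smul_smul]
    have h2 : P.e (bar a) • z ∈ P.A (bar a) := hz (bar a)
    have h3 : P.el (b :: u') • z' ∈ P.A b := P.cy_subset_head b u' hu.2 (P.el_DD _ (by simp) z' hz')
    rw [← h1] at h3
    exact (Set.disjoint_left.1 (P.disj _ _ hu.1)) h3 h2

theorem PP.DD_lt (P : PP N Γ X) (v v' : List (Lt N)) (hv : Red v) (hv' : Red v') (hl : v.length + 2 ≤ v'.length)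
    (z z' : X) (hz : z ∈ P.DD) (hz' : z' ∈ P.DD) (h : P.el v • z = P.el v' • z') : False := by
  obtain ⟨v1, u, hv1, hl1⟩ : ∃ v1 u, v' = v1 ++ u ∧ v1.length = v.length :=
    ⟨v'.take v.length, v'.drop v.length, (List.take_append_drop _ _).symm, by simp; omega⟩
  subst hv1
  have hlu : 2 ≤ u.length := by
    rw [List.length_append] at hl
    omega
  have hv1v : v1 = v := by
    by_cases hv0 : v = []
    · subst hv0
      simpa using hl1
    · by_contra hne
      have hv10 : v1 ≠ [] := by
        intro h0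
        subst h0
        simp only [List.length_nil] at hl1
        exact hv0 (List.length_eq_zero_iff.1 hl1.symm)
      have hd := P.cy_disjoint v1 v hv'.append_left hv hl1 hne
      have h1 : P.el v • z ∈ P.cy v := P.el_DD v hv0 z hz
      have h2 : P.el (v1 ++ u) • z' ∈ P.cy (v1 ++ u) := P.el_DD _ (by simp [hv10]) z' hz'
      rw [← h] at h2
      exact (Set.disjoint_left.1 hd) (P.cy_append_subset v1 u hv10 hv' h2) h1
  subst hv1v
  refine P.DD_long u hv'.append_right hlu z z' hz hz' ?_
  rw [P.el_append, mul_smul] at h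
  exact smul_left_cancel _ h

theorem PP.DD_disj (P : PP N Γ X) (v v' : List (Lt N)) (hv : Red v) (hv' : Red v') (hpar : v.length % 2 = v'.length % 2)
    (hne : v ≠ v') (z z' : X) (hz : z ∈ P.DD) (hz' : z' ∈ P.DD) (h : P.el v • z = P.el v' • z') : False := by
  rcases lt_trichotomy v.length v'.length with hlt | heq | hgt
  · exact P.DD_lt v v' hv hv' (by omega) z z' hz hz' h
  · by_cases h0 : v = []
    · subst h0
      exact hne (List.length_eq_zero_iff.1 heq.symm).symm
    · have h0' : v' ≠ [] := by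
        intro h1
        subst h1
        exact h0 (List.length_eq_zero_iff.1 heq)
      have hd := P.cy_disjoint v v' hv hv' heq hne
      have h1 := P.el_DD v h0 z hz
      have h2 := P.el_DD v' h0' z' hz'
      rw [← h] at h2
      exact (Set.disjoint_left.1 hd) h1 h2
  · exact P.DD_lt v' v hv' hv (by omega) z' z hz' hz h.symm

theorem pnb_winv_winv (w : List (Lt N)) : winv (winv w) = w := by
  unfold winv
  rw [List.map_reverse, List.reverse_reverse, List.map_map]
  have : (bar ∘ bar : Lt N → Lt N) = id := by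
    funext a
    simp
  rw [this, List.map_id]

theorem PP.fin_par (R : RW Γ X n) (P : PP N Γ X) (c : Γ) (t : ℕ) (ε : ℝ) (hε : 0 < ε) :
    {w : List (Lt N) | Red w ∧ w.length % 2 = t ∧ ε ≤ R.ν.real {x | (P.el w * c) • x ∈ P.DD}}.Finite := by
  haveI := R.prob
  let ι := {w : List (Lt N) // Red w ∧ w.length % 2 = t}
  let As : ι → Set X := fun w => {x | (P.el w.1 * c) • x ∈ P.DD}
  have hm : ∀ i, MeasurableSet (As i) := fun i => (R.meas _) (P.meas_DD R)
  have hd : Pairwise (Function.onFun Disjoint As) := by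
    rintro ⟨w, hw, hwt⟩ ⟨w', hw', hwt'⟩ hne
    rw [Function.onFun, Set.disjoint_left]
    intro x hx hx'
    have hne' : winv w ≠ winv w' := by
      intro h
      apply hne
      have h1 := congrArg winv h
      rw [pnb_winv_winv, pnb_winv_winv] at h1
      exact Subtype.ext h1
    refine P.DD_disj (winv w) (winv w') (red_winv hw) (red_winv hw') (by simp [hwt, hwt']) hne' _ _ hx hx' ?_
    rw [P.el_winv, P.el_winv, mul_smul, mul_smul, inv_smul_smul, inv_smul_smul]
  have hfin := Measure.finite_const_le_meas_of_disjoint_iUnion R.ν (ε := ENNReal.ofReal ε) (ENNReal.ofReal_pos.2 hε) hm hd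
    (measure_ne_top _ _)
  refine (hfin.image Subtype.val).subset ?_
  rintro w ⟨hw, hwt, hwe⟩
  refine ⟨⟨w, hw, hwt⟩, ?_, rfl⟩
  rw [Set.mem_setOf_eq]
  rw [ENNReal.ofReal_le_iff_le_toReal (measure_ne_top _ _)]
  exact hwe

/-- For a word `v` with last letter `b`, `el v D ⊆ cy v` (`D = DD`, `e b D ⊆ A b`). If `y ∈ el v D ∩ el v' D` for two reduced words with `|v'| ≥ |v| + 2` then `v' = v ++ u` (`cy_disjoint`, `cy_append_subset`), `|u| ≥ 2`, and
there are `z, z' ∈ D` with `z = el u z'`, `u = a :: b :: u'`, so `e (bar a) z = el (b :: u') z' ∈ A b` and `e (bar a) z ∈ A (bar a)`, `b ≠ bar a`: contradiction. So for words of even (odd) length the sets `el v D` are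
pairwise disjoint. Hence for `c ∈ C`, `ε > 0` only finitely many reduced `w` have `ν {x | el w c x ∈ D} ≥ ε` (`{x | el w c x ∈ D} = c⁻¹ (el (winv w) D)`; `Measure.finite_const_le_meas_of_disjoint_iUnion`), and with `harm`, `maxP'`: `u (g) = ν {x | g x ∈ D} = 0`. -/
theorem null_D (R : RW Γ X n) (P : PP N Γ X) (hN : 2 ≤ N) (g : Γ) : R.ν.real {x | g • x ∈ P.DD} = 0 := by
  haveI := R.prob
  haveI hX : Nonempty X := by
    by_contra hcon
    rw [not_nonempty_iff] at hcon
    have h1 : R.ν Set.univ = 1 := measure_univ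
    rw [Set.univ_eq_empty_iff.2 hcon, measure_empty] at h1
    exact zero_ne_one h1
  haveI := infinite_group P hN
  refine maxP' R (fun g => R.ν.real {x | g • x ∈ P.DD}) (fun g => harm R P.DD (P.meas_DD R) g) ?_ g
  intro ε hε
  have hfin : (⋃ c ∈ P.C, (fun w => P.el w * c) '' ({w : List (Lt N) | Red w ∧ w.length % 2 = 0 ∧
      ε ≤ R.ν.real {x | (P.el w * c) • x ∈ P.DD}} ∪ {w : List (Lt N) | Red w ∧ w.length % 2 = 1 ∧
      ε ≤ R.ν.real {x | (P.el w * c) • x ∈ P.DD}})).Finite := by
    apply Set.Finite.biUnion P.C.finite_toSet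
    intro c _
    exact ((PP.fin_par R P c 0 ε hε).union (PP.fin_par R P c 1 ε hε)).image _
  refine hfin.subset ?_
  intro g hg
  obtain ⟨w, hw, c, hc, rfl⟩ := P.cov_red g
  have hg' : ε ≤ R.ν.real {x | (P.el w * c) • x ∈ P.DD} := by
    have h1 : ε ≤ |R.ν.real {x | (P.el w * c) • x ∈ P.DD}| := hg
    rwa [abs_of_nonneg measureReal_nonneg] at h1
  rw [Set.mem_iUnion₂]
  refine ⟨c, hc, w, ?_, rfl⟩
  rcases Nat.mod_two_eq_zero_or_one w.length with h0 | h0
  · exact Or.inl ⟨hw, h0, hg'⟩
  · exact Or.inr ⟨hw, h0, hg'⟩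

end Pool.Agent.DimDrop
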