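import Pool.Agent.Lib_MP_644907.RW

/-!
# Piece PWORDS: group elements and cylinders of reduced words
-/

set_option autoImplicit false

namespace Pool.Agent.DimDrop

open MeasureTheory

variable {N n : ℕ} {Γ X : Type*} [Group Γ] [MulAction Γ X] [MeasurableSpace X]

theorem winv_cons (a : Lt N) (w : List (Lt N)) : winv (a :: w) = winv w ++ [bar a] := by
  simp [winv]

theorem winv_nil : winv ([] : List (Lt N)) = [] := rfl

namespace PP

variable (P : PP N Γ X)

theorem el_one (a : Lt N) : P.el [a] = P.e a := by simp [el]

theorem el_winv (w : List (Lt N)) : P.el (winv w) = (P.el w)⁻¹ := by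
  induction w with
  | nil => rw [winv_nil, el_nil, inv_one]
  | cons a w ih => rw [winv_cons, el_append, ih, el_one, P.einv, el_cons, mul_inv_rev]

/-- free reduction, by induction on `w` -/
theorem reduce (w : List (Lt N)) : ∃ w' : List (Lt N), Red w' ∧ P.el w' = P.el w := by
  induction w with
  | nil => exact ⟨[], red_nil, rfl⟩
  | cons a w ih =>
    obtain ⟨w', h1, h2⟩ := ih
    cases w' with
    | nil => exact ⟨[a], red_one a, by rw [el_cons, el_cons, h2]⟩
    | cons b v =>
      by_cases hb : b = bar a
      · subst hb
        refine ⟨v, h1.append_right (w := [bar a]), ?_⟩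
        rw [el_cons, ← h2, el_cons, P.einv, mul_inv_cancel_left]
      · exact ⟨a :: b :: v, (red_cons_cons a b v).mpr ⟨hb, h1⟩, by rw [el_cons, h2, ← el_cons]⟩

theorem cov_red (g : Γ) : ∃ w : List (Lt N), Red w ∧ ∃ c ∈ P.C, g = P.el w * c := by
  obtain ⟨w, c, hc, h⟩ := P.cov g
  obtain ⟨w', h1, h2⟩ := P.reduce w
  exact ⟨w', h1, c, hc, by rw [h2, h]; rfl⟩

/-- multiplication of a reduced word by another word: the first letter is kept unless everything cancels.
Induction on `f` (one letter at a time: either append it or delete the last letter). -/
theorem step (w f : List (Lt N)) (hw : Red w) (hf : f.length ≤ w.length) : ∃ w' : List (Lt N), Red w' ∧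
    P.el w' = P.el w * P.el f ∧ (w' = [] ∨ w'.head? = w.head?) ∧ w'.length ≤ w.length + f.length := by
  induction f generalizing w with
  | nil => exact ⟨w, hw, by rw [el_nil, mul_one], Or.inr rfl, by simp⟩
  | cons b f ih =>
    rw [List.length_cons] at hf
    rcases List.eq_nil_or_concat w with h | ⟨w1, a, h⟩
    · subst h
      simp at hf
    · rw [List.concat_eq_append] at h
      subst h
      rw [List.length_append, List.length_singleton] at hf
      by_cases hb : b = bar a
      · obtain ⟨w', h1, h2, h3, h4⟩ := ih w1 hw.append_left (by omega)
        refine ⟨w', h1, ?_, ?_, ?_⟩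
        · rw [h2, el_append, el_one, el_cons, hb, P.einv, mul_assoc, mul_inv_cancel_left]
        · rcases h3 with h3 | h3
          · exact Or.inl h3
          · cases w1 with
            | nil =>
              left
              cases w' with
              | nil => rfl
              | cons c w' => simp at h3
            | cons c w1 =>
              right
              rw [h3]
              simp
        · rw [List.length_append, List.length_singleton, List.length_cons]
          omega
      · obtain ⟨w', h1, h2, h3, h4⟩ := ih (w1 ++ [a] ++ [b])
          ((red_append_iff w1 [] a b).mpr ⟨hw, hb, red_one b⟩)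
          (by rw [List.length_append, List.length_append, List.length_singleton,
            List.length_singleton]; omega)
        refine ⟨w', h1, ?_, ?_, ?_⟩
        · rw [h2, el_append (w := w1 ++ [a]) (v := [b]), el_one, el_cons, mul_assoc]
        · rcases h3 with h3 | h3
          · exact Or.inl h3
          · right
            rw [h3]
            cases w1 <;> simp
        · rw [List.length_append (bs := [b]), List.length_singleton] at h4
          rw [List.length_cons]
          omega

/-- ping pong: `e a` maps `cy (b :: v)` into `A a` if `a :: b :: v` is reduced -/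
theorem cy_subset_head (a : Lt N) (v : List (Lt N)) (h : Red (a :: v)) : P.cy (a :: v) ⊆ P.A a := by
  induction v generalizing a with
  | nil => exact subset_rfl
  | cons b v ih =>
    rw [red_cons_cons] at h
    rw [P.cy_cons a (b :: v) (by simp)]
    rintro _ ⟨x, hx, rfl⟩
    have hb := ih b h.2 hx
    exact P.ping a x (fun hc => Set.disjoint_left.mp (P.disj b (bar a) h.1) hb hc)

theorem cy_append (w v : List (Lt N)) (hv : v ≠ []) : P.cy (w ++ v) = (fun x => P.el w • x) '' P.cy v := by
  induction w with
  | nil =>
    rw [List.nil_append, el_nil]
    simp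
  | cons a w ih =>
    rw [List.cons_append, P.cy_cons a (w ++ v) (by simp [hv]), ih, Set.image_image]
    apply Set.image_congr
    intro x _
    rw [el_cons, mul_smul]

/-- `g x ∈ cy v` for `g = el w * c` iff `c x ∈ cy (w⁻¹ v)` -/
theorem mem_cy_iff (w v : List (Lt N)) (c : Γ) (hv : v ≠ []) (x : X) :
    (P.el w * c) • x ∈ P.cy v ↔ c • x ∈ P.cy (winv w ++ v) := by
  rw [P.cy_append _ _ hv, el_winv]
  constructor
  · intro h
    exact ⟨_, h, by simp [mul_smul]⟩
  · rintro ⟨y, hy, h⟩
    have : (P.el w * c) • x = y := by
      rw [mul_smul, ← h]
      simp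
    rw [this]
    exact hy

theorem cy_disjoint (w v : List (Lt N)) (hw : Red w) (hv : Red v) (hl : w.length = v.length) (hne : w ≠ v) :
    Disjoint (P.cy w) (P.cy v) := by
  induction w generalizing v with
  | nil =>
    exfalso
    apply hne
    rw [List.length_nil] at hl
    exact (List.length_eq_zero_iff.mp hl.symm).symm
  | cons a w ih =>
    cases v with
    | nil => simp at hl
    | cons b v =>
      by_cases hab : a = b
      · subst hab
        have hne' : w ≠ v := fun h => hne (by rw [h])
        rw [List.length_cons, List.length_cons] at hl
        have hw0 : w ≠ [] := by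
          rintro rfl
          apply hne'
          exact (List.length_eq_zero_iff.mp (by simpa using hl.symm)).symm
        have hv0 : v ≠ [] := by
          rintro rfl
          exact hw0 (List.length_eq_zero_iff.mp (by simpa using hl))
        rw [P.cy_cons a w hw0, P.cy_cons a v hv0]
        exact (Set.disjoint_image_iff (MulAction.injective (P.e a))).mpr
          (ih v (hw.append_right (w := [a])) (hv.append_right (w := [a])) (by omega) hne')
      · exact (P.disj a b hab).mono (P.cy_subset_head a w hw) (P.cy_subset_head b v hv)

theorem cy_append_subset (w v : List (Lt N)) (hw : w ≠ []) (h : Red (w ++ v)) : P.cy (w ++ v) ⊆ P.cy w := by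
  induction w with
  | nil => exact absurd rfl hw
  | cons a w ih =>
    cases w with
    | nil => exact P.cy_subset_head a v h
    | cons b w =>
      rw [List.cons_append, P.cy_cons a (b :: w ++ v) (by simp), P.cy_cons a (b :: w) (by simp)]
      exact Set.image_mono (ih (by simp) (h.append_right (w := [a])))

/-- cylinders are measurable: preimages of `A a` under the measurable maps `x ↦ g x` -/
theorem meas_cy (R : RW Γ X n) (v : List (Lt N)) : MeasurableSet (P.cy v) := by
  induction v with
  | nil => exact MeasurableSet.univ
  | cons a v ih =>
    cases v with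
    | nil => exact P.mA a
    | cons b v =>
      rw [P.cy_cons a (b :: v) (by simp)]
      have : (fun x => P.e a • x) '' P.cy (b :: v) = (fun x => (P.e a)⁻¹ • x) ⁻¹' P.cy (b :: v) := by
        ext x
        constructor
        · rintro ⟨y, hy, rfl⟩
          simpa using hy
        · intro hx
          exact ⟨_, hx, by simp⟩
      rw [this]
      exact R.meas _ ih

end PP

/-- `u_E (g) = ν {x | g x ∈ E}` is harmonic -/
theorem harm (R : RW Γ X n) (E : Set X) (hE : MeasurableSet E) (g : Γ) :
    R.ν.real {x | g • x ∈ E} = ∑ i, R.p i * R.ν.real {x | (g * R.γ i) • x ∈ E} := by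
  rw [R.stat {x | g • x ∈ E} (R.meas g hE)]
  apply Finset.sum_congr rfl
  intro i _
  congr 2
  ext x
  simp only [Set.mem_ofPred_eq, mul_smul]

end Pool.Agent.DimDrop
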