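import Pool.Agent.Lib_MP_644907.PWords
import Pool.Agent.Lib_MP_644907.MaxP

/-!
# Piece RPA: preservation of linear relations between cylinders
-/

set_option autoImplicit false

namespace Pool.Agent.DimDrop

open MeasureTheory

variable {N n : ℕ} {Γ X : Type*} [Group Γ] [MulAction Γ X] [MeasurableSpace X]

/-- smallness of long cylinders, seen from the coset representatives -/
def SmallC (R : RW Γ X n) (P : PP N Γ X) : Prop := ∀ c ∈ P.C, ∀ ε : ℝ, 0 < ε → ∃ n0 : ℕ, ∀ v : List (Lt N), Red v →
  n0 ≤ v.length → R.ν.real {x | c • x ∈ P.cy v} < ε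

theorem rpa_uu_el (R : RW Γ X n) (P : PP N Γ X) (w v : List (Lt N)) (hv : v ≠ []) (c : Γ) :
    uu R P v (P.el w * c) = R.ν.real {x | c • x ∈ P.cy (winv w ++ v)} := by
  unfold uu
  congr 1
  ext x
  exact P.mem_cy_iff w v c hv x

theorem rpa_uu_cons (R : RW Γ X n) (P : PP N Γ X) (s : Lt N) (v : List (Lt N)) (hv : v ≠ []) (g : Γ) :
    uu R P (s :: v) g = uu R P v (P.e (bar s) * g) := by
  have h := rpa_uu_el R P [bar s] v hv g
  have h1 : P.el [bar s] = P.e (bar s) := by simp [PP.el]
  have h2 : winv [bar s] = [s] := by simp [winv]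
  rw [h1, h2] at h
  rw [h]
  rfl

theorem rpa_red_winv_append (s : Lt N) (w v : List (Lt N)) (hw : Red w) (hh : w.head? = some (bar s)) (hv : Red (s :: v)) :
    Red (winv w ++ v) := by
  cases w with
  | nil => simp at hh
  | cons a w =>
    have ha : a = bar s := by simpa using hh
    subst ha
    have h1 : winv (bar s :: w) = winv w ++ [s] := by simp [winv]
    rw [h1]
    have h2 : Red (winv w ++ [s]) := by
      rw [← h1]
      exact red_winv hw
    exact red_append_of [] (winv w) v s h2 (by simpa using hv)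

/-- For all `c ∈ C` and `i` write `c γ_i = el f c'` (`cov_red`), let `r` be larger than all the lengths of these `f` and than the length of `w` for `1 = el w c'`.
Let `u = ∑_j c_j u_{v_j}`, it is harmonic (`harm`) and vanishes on `B = {el w c : |w| ≤ r}`. Let `U` = the set of all `el w c`, `w` reduced with first letter `bar s`, and `G = B`.
For `g = el w c ∈ U`, if `|w| ≤ r` then `g ∈ G`; otherwise `g γ_i = el w (c γ_i) = el w el f c' = el w' c'` with `w' = []` or `w'` starting with `bar s` (`step`), so in `U ∪ G`.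
For `g = el w c ∈ U`, `u_{v_j} (g) = ν {x | c x ∈ cy (w⁻¹ v_j)}` (`mem_cy_iff`), `w⁻¹ v_j` is reduced since `w⁻¹` ends with `s` and `s :: v_j` is reduced; its length is `≥ |w|`, so it is small for large `|w|` (`SmallC`), hence
`hfin` of `maxP`. So `u = 0` on `U`. Finally for `b = el w c ∈ B`: `u_{s :: v_j} (b) = u_{v_j} (e(s)⁻¹ b)`, and `e(s)⁻¹ b` is in `B` if `w` starts with `s`, and `e(s)⁻¹ b = el (bar s :: w) c ∈ U` otherwise. -/
theorem rp (R : RW Γ X n) (P : PP N Γ X) (hS : SmallC R P) : ∃ r : ℕ,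
    (∃ w : List (Lt N), Red w ∧ w.length ≤ r ∧ ∃ c ∈ P.C, P.el w * c = 1) ∧
    ∀ (s : Lt N) (k : ℕ) (v : Fin k → List (Lt N)) (q : Fin k → ℝ), (∀ j, v j ≠ [] ∧ Red (s :: v j)) →
      (∀ w, Red w → w.length ≤ r → ∀ c ∈ P.C, ∑ j, q j * uu R P (v j) (P.el w * c) = 0) →
      ∀ w, Red w → w.length ≤ r → ∀ c ∈ P.C, ∑ j, q j * uu R P (s :: v j) (P.el w * c) = 0 := by
  classical
  choose f hf using fun g : Γ => P.cov_red g
  -- the radius
  let r : ℕ := (f 1).length + ∑ c ∈ P.C, ∑ i : Fin n, (f (c * R.γ i)).length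
  have hr1 : (f 1).length ≤ r := Nat.le_add_right _ _
  have hr2 : ∀ c ∈ P.C, ∀ i : Fin n, (f (c * R.γ i)).length ≤ r := by
    intro c hc i
    have h1 : (f (c * R.γ i)).length ≤ ∑ i : Fin n, (f (c * R.γ i)).length :=
      Finset.single_le_sum (f := fun i => (f (c * R.γ i)).length) (fun _ _ => Nat.zero_le _) (Finset.mem_univ i)
    have h2 : ∑ i : Fin n, (f (c * R.γ i)).length ≤ ∑ c ∈ P.C, ∑ i : Fin n, (f (c * R.γ i)).length :=
      Finset.single_le_sum (f := fun c => ∑ i : Fin n, (f (c * R.γ i)).length) (fun _ _ => Nat.zero_le _) hc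
    exact (h1.trans h2).trans (Nat.le_add_left _ _)
  obtain ⟨hf1, c1, hc1, hf1'⟩ := hf 1
  refine ⟨r, ⟨f 1, hf1, hr1, c1, hc1, hf1'.symm⟩, ?_⟩
  intro s k v q hv hB
  have hv1 : ∀ j, v j ≠ [] := fun j => (hv j).1
  set u : Γ → ℝ := fun g => ∑ j, q j * uu R P (v j) g with hu_def
  have hharm : ∀ g, u g = ∑ i, R.p i * u (g * R.γ i) := by
    intro g
    have h1 : ∀ j, uu R P (v j) g = ∑ i, R.p i * uu R P (v j) (g * R.γ i) :=
      fun j => harm R (P.cy (v j)) (P.meas_cy R (v j)) g
    simp only [hu_def, Finset.mul_sum]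
    rw [Finset.sum_comm]
    refine Finset.sum_congr rfl fun j _ => ?_
    rw [h1 j, Finset.mul_sum]
    refine Finset.sum_congr rfl fun i _ => ?_
    ring
  set G : Set Γ := {g | ∃ w, Red w ∧ w.length ≤ r ∧ ∃ c ∈ P.C, g = P.el w * c} with hG_def
  set U : Set Γ := {g | ∃ w, Red w ∧ w.head? = some (bar s) ∧ ∃ c ∈ P.C, g = P.el w * c} with hU_def
  have hU0 : ∀ g ∈ U, u g = 0 := by
    apply maxP R u hharm U G
    · exact ⟨1, f 1, hf1, hr1, c1, hc1, hf1'⟩
    · rintro g ⟨w, hw, hwh, c, hc, rfl⟩ hgG i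
      have hwl : r < w.length := by
        by_contra hcon
        exact hgG ⟨w, hw, not_lt.1 hcon, c, hc, rfl⟩
      obtain ⟨hf2, c', hc', hf2'⟩ := hf (c * R.γ i)
      obtain ⟨w', hw', he, hor, -⟩ := P.step w (f (c * R.γ i)) hw ((hr2 c hc i).trans hwl.le)
      have heq : P.el w * c * R.γ i = P.el w' * c' := by
        rw [he, mul_assoc, mul_assoc, ← hf2']
      rw [heq]
      rcases hor with h0 | h0
      · right
        exact ⟨w', hw', by simp [h0], c', hc', rfl⟩
      · left
        exact ⟨w', hw', by rw [h0, hwh], c', hc', rfl⟩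
    · rintro g ⟨w, hw, hwl, c, hc, rfl⟩
      exact hB w hw hwl c hc
    · intro ε hε
      have hQ : 0 < ∑ j, |q j| + 1 := by
        have : 0 ≤ ∑ j, |q j| := Finset.sum_nonneg fun _ _ => abs_nonneg _
        linarith
      have hε' : 0 < ε / (∑ j, |q j| + 1) := div_pos hε hQ
      choose! n0 hn0 using fun c (hc : c ∈ P.C) => hS c hc _ hε'
      let M : ℕ := ∑ c ∈ P.C, n0 c
      have hM : ∀ c ∈ P.C, n0 c ≤ M := fun c hc =>
        Finset.single_le_sum (f := n0) (fun _ _ => Nat.zero_le _) hc
      have hfin : (Set.image2 (fun (w : List (Lt N)) (c : Γ) => P.el w * c) {w | w.length < M} (P.C : Set Γ)).Finite := by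
        apply Set.Finite.image2
        · exact List.finite_length_lt _ M
        · exact P.C.finite_toSet
      refine hfin.subset ?_
      rintro g ⟨⟨w, hw, hwh, c, hc, rfl⟩, hge⟩
      refine ⟨w, ?_, c, hc, rfl⟩
      by_contra hcon
      have hwM : M ≤ w.length := not_lt.1 hcon
      have hlt : ∀ j, uu R P (v j) (P.el w * c) < ε / (∑ j, |q j| + 1) := by
        intro j
        rw [rpa_uu_el R P w (v j) (hv1 j) c]
        apply hn0 c hc
        · exact rpa_red_winv_append s w (v j) hw hwh (hv j).2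
        · rw [List.length_append, length_winv]
          have := hM c hc
          omega
      have hnn : ∀ j, 0 ≤ uu R P (v j) (P.el w * c) := fun j => measureReal_nonneg
      have h1 : |u (P.el w * c)| ≤ ∑ j, |q j| * (ε / (∑ j, |q j| + 1)) := by
        refine (Finset.abs_sum_le_sum_abs _ _).trans (Finset.sum_le_sum fun j _ => ?_)
        rw [abs_mul, abs_of_nonneg (hnn j)]
        exact mul_le_mul_of_nonneg_left (hlt j).le (abs_nonneg _)
      rw [← Finset.sum_mul] at h1
      have h2 : (∑ j, |q j|) * (ε / (∑ j, |q j| + 1)) < ε := by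
        rw [mul_div_assoc', div_lt_iff₀ hQ]
        nlinarith
      linarith
  intro w hw hwl c hc
  have hgoal : ∑ j, q j * uu R P (s :: v j) (P.el w * c) = u (P.e (bar s) * (P.el w * c)) := by
    simp only [hu_def]
    refine Finset.sum_congr rfl fun j _ => ?_
    rw [rpa_uu_cons R P s (v j) (hv1 j)]
  rw [hgoal]
  by_cases hws : w.head? = some s
  · cases w with
    | nil => simp at hws
    | cons a w =>
      have ha : a = s := by simpa using hws
      subst ha
      have h3 : P.e (bar a) * (P.el (a :: w) * c) = P.el w * c := by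
        rw [PP.el_cons, P.einv]
        group
      rw [h3]
      apply hB w _ _ c hc
      · exact Red.append_right (w := [a]) (by simpa using hw)
      · simp only [List.length_cons] at hwl
        omega
  · apply hU0
    refine ⟨bar s :: w, ?_, rfl, c, hc, ?_⟩
    · cases w with
      | nil => simp
      | cons a w =>
        rw [red_cons_cons]
        refine ⟨?_, hw⟩
        rw [bar_bar]
        intro h
        exact hws (by simp [h])
    · rw [PP.el_cons, mul_assoc]

end Pool.Agent.DimDrop
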