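import Pool.Agent.Lib_MP_644907.CWa
import Pool.Agent.Lib_MP_644907.Hell

/-!
# Piece UNIFA: additivity and monotonicity of the affinities
-/

set_option autoImplicit false

namespace Pool.Agent.DimDrop

open Finset MeasureTheory Filter Topology

namespace Sch

variable {N : ℕ} {S : Sch N} {δ : ℝ} {m ν : Measure ℝ}

open Classical in
/-- additivity for extensions of length `L`, for any finite measure carried by the cylinders -/
theorem add_words (S : Sch N) (ν : Measure ℝ) [IsFiniteMeasure ν] (hs : ∀ n, 1 ≤ n → ν (⋃ w ∈ words N n, S.I w)ᶜ = 0)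
    (w : List (Lt N)) (hw : w ≠ []) (hr : Red w) (L : ℕ) :
    ν.real (S.I w) = ∑ v ∈ (words N L).filter (fun v => Red (w ++ v)), ν.real (S.I (w ++ v)) := by
  have hmem : ∀ v ∈ (words N L).filter (fun v => Red (w ++ v)), Red (w ++ v) ∧ v.length = L := by
    intro v hv
    rw [Finset.mem_filter] at hv
    exact ⟨hv.2, (mem_words.1 hv.1).2⟩
  have hdisj : Set.PairwiseDisjoint (↑((words N L).filter (fun v => Red (w ++ v))) : Set (List (Lt N)))
      (fun v => S.I (w ++ v)) := by
    intro v hv v' hv' hne
    refine S.I_disjoint _ _ (hmem v hv).1 (hmem v' hv').1 ?_ ?_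
    · rw [List.length_append, List.length_append, (hmem v hv).2, (hmem v' hv').2]
    · intro h
      exact hne (List.append_cancel_left h)
  have hU := measureReal_biUnion_finset (μ := ν) hdisj (fun v hv => S.meas_I _ (hmem v hv).1)
  rw [← hU]
  apply measureReal_congr
  have hlen : 1 ≤ w.length + L := by
    have : w.length ≠ 0 := by
      intro h
      exact hw (List.length_eq_zero_iff.1 h)
    omega
  have h1 : S.I w ≤ᵐ[ν] (⋃ v ∈ (words N L).filter (fun v => Red (w ++ v)), S.I (w ++ v) : Set ℝ) := by
    rw [ae_le_set]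
    refine measure_mono_null ?_ (hs _ hlen)
    rintro x ⟨hx, hx'⟩ hx2
    apply hx'
    simp only [Set.mem_iUnion] at hx2 ⊢
    obtain ⟨u, hu, hxu⟩ := hx2
    obtain ⟨hur, hul⟩ := mem_words.1 hu
    have hsplit : u = u.take w.length ++ u.drop w.length := (List.take_append_drop _ _).symm
    have htl : (u.take w.length).length = w.length := by
      rw [List.length_take, hul]; omega
    have hne : u.take w.length ≠ [] := by
      intro h
      rw [h] at htl
      exact hw (List.length_eq_zero_iff.1 htl.symm)
    have hur' : Red (u.take w.length ++ u.drop w.length) := by rw [← hsplit]; exact hur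
    have hxt : x ∈ S.I (u.take w.length) := by
      apply S.I_append_subset _ _ hne hur'
      rw [← hsplit]
      exact hxu
    have heq : u.take w.length = w := by
      by_contra hcon
      exact Set.disjoint_left.1 (S.I_disjoint _ _ hur'.append_left hr htl hcon) hxt hx
    rw [heq] at hsplit
    refine ⟨u.drop w.length, ?_, ?_⟩
    · rw [Finset.mem_filter]
      refine ⟨mem_words.2 ⟨hur'.append_right, ?_⟩, ?_⟩
      · rw [List.length_drop, hul]; omega
      · rw [← hsplit]; exact hur
    · rw [← hsplit]; exact hxu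
  have h2 : (⋃ v ∈ (words N L).filter (fun v => Red (w ++ v)), S.I (w ++ v) : Set ℝ) ≤ᵐ[ν] S.I w := by
    apply HasSubset.Subset.eventuallyLE
    apply Set.iUnion₂_subset
    intro v hv
    exact S.I_append_subset _ _ hw (hmem v hv).1
  exact h1.antisymm h2

open Classical in
/-- the unnormalised affinity at depth `L` -/
noncomputable def aff (S : Sch N) (ν m : Measure ℝ) (L : ℕ) (w : List (Lt N)) : ℝ :=
  ∑ v ∈ (words N L).filter (fun v => Red (w ++ v)), √(ν.real (S.I (w ++ v)) * m.real (S.I (w ++ v)))

/-- `aff` decreases with `L` (`hell_le`, `add_words`) -/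
theorem aff_anti (S : Sch N) (ν m : Measure ℝ) [IsFiniteMeasure ν] [IsFiniteMeasure m]
    (hs : ∀ n, 1 ≤ n → ν (⋃ w ∈ words N n, S.I w)ᶜ = 0) (hm : ∀ n, 1 ≤ n → m (⋃ w ∈ words N n, S.I w)ᶜ = 0)
    (w : List (Lt N)) (hw : w ≠ []) (hr : Red w) (L L' : ℕ) (h : L ≤ L') : S.aff ν m L' w ≤ S.aff ν m L w := by
  classical
  obtain ⟨k, rfl⟩ := Nat.exists_eq_add_of_le h
  unfold aff
  rw [Finset.sum_filter, sum_words_add, Finset.sum_filter]
  apply Finset.sum_le_sum
  intro v hv
  by_cases hwv : Red (w ++ v)
  · rw [if_pos hwv]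
    have e1 : ∑ u ∈ (words N k).filter (fun u => Red (v ++ u)),
        (if Red (w ++ (v ++ u)) then √(ν.real (S.I (w ++ (v ++ u))) * m.real (S.I (w ++ (v ++ u)))) else 0) =
        ∑ u ∈ (words N k).filter (fun u => Red ((w ++ v) ++ u)),
          √(ν.real (S.I ((w ++ v) ++ u)) * m.real (S.I ((w ++ v) ++ u))) := by
      rw [← Finset.sum_filter, Finset.filter_filter]
      refine Finset.sum_congr ?_ ?_
      · ext u
        simp only [Finset.mem_filter, List.append_assoc]
        constructor
        · rintro ⟨h1, h2, h3⟩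
          exact ⟨h1, h3⟩
        · rintro ⟨h1, h2⟩
          exact ⟨h1, h2.append_right, h2⟩
      · intro u hu
        rw [List.append_assoc]
    rw [e1]
    have hne : w ++ v ≠ [] := by
      intro h0
      exact hw (List.append_eq_nil_iff.1 h0).1
    refine (hell_le _ _ _ (fun _ _ => measureReal_nonneg) (fun _ _ => measureReal_nonneg)).trans ?_
    rw [← add_words S ν hs (w ++ v) hne hwv k, ← add_words S m hm (w ++ v) hne hwv k]
  · rw [if_neg hwv]
    apply le_of_eq
    apply Finset.sum_eq_zero
    intro u hu
    rw [if_neg]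
    intro hcon
    apply hwv
    rw [← List.append_assoc] at hcon
    exact hcon.append_left

end Sch

end Pool.Agent.DimDrop
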