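import Pool.Agent.Lib_MP_644907.CWa

/-!
# Piece UNIFB: continuity in the pole
-/

set_option autoImplicit false

namespace Pool.Agent.DimDrop

open Finset MeasureTheory Filter Topology

namespace Sch

variable {N : ℕ} {S : Sch N} {δ : ℝ} {m ν : Measure ℝ}

/-- `m (w v) / m (w) = Y_v (p_w)`, `Y_v (p) = ∫_{I v} |x - p|^{-2δ} dm / ∑_{b ≠ bar t} ∫_{A b} |x - p|^{-2δ} dm`, is a continuous function of the pole `p ∈ A (bar t)` -/
theorem ratio_cont (S : Sch N) (hδ : 0 < δ) (m : Measure ℝ) [IsFiniteMeasure m] (v : List (Lt N)) (t : Lt N)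
    (hv : v ≠ []) (hr : Red (t :: v)) : ContinuousOn (fun p => ∫ x in S.I v, |x - p| ^ (-2 * δ) ∂m) (S.A (bar t)) := by
  obtain ⟨g, D, hg, hD, hsep, -⟩ := S.consts
  obtain ⟨b, v', rfl⟩ := List.exists_cons_of_ne_nil hv
  have hb : b ≠ bar t := ((red_cons_cons t b v').1 hr).1
  have hrv : Red (b :: v') := ((red_cons_cons t b v').1 hr).2
  refine continuousOn_of_dominated (bound := fun _ => g ^ (-2 * δ)) ?_ ?_ ?_ ?_
  · intro p hp
    exact Measurable.aestronglyMeasurable (by fun_prop)
  · intro p hp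
    refine (ae_restrict_mem (S.meas_I _ hrv)).mono fun x hx => ?_
    have hx' := S.I_subset_head b v' hrv hx
    have h1 : g ≤ |x - p| := hsep b (bar t) hb x hx' p hp
    rw [Real.norm_of_nonneg (by positivity)]
    exact Real.rpow_le_rpow_of_nonpos hg h1 (by linarith)
  · exact integrable_const _
  · refine (ae_restrict_mem (S.meas_I _ hrv)).mono fun x hx => ?_
    have hx' := S.I_subset_head b v' hrv hx
    intro p hp
    have h1 : g ≤ |x - p| := hsep b (bar t) hb x hx' p hp
    have h2 : |x - p| ≠ 0 := (lt_of_lt_of_le hg h1).ne'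
    have h3 : ContinuousAt (fun p : ℝ => |x - p| ^ (-2 * δ)) p :=
      ContinuousAt.rpow_const (f := fun p : ℝ => |x - p|) (by fun_prop) (Or.inl h2)
    exact h3.continuousWithinAt

end Sch

end Pool.Agent.DimDrop
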