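import Pool.Agent.Lib_MP_644907.UnifA
import Pool.Agent.Lib_MP_644907.UnifB
import Pool.Agent.Lib_MP_644907.CWb
import Pool.Agent.Lib_MP_644907.NoRec

/-!
# Piece UNIFC: uniform gap of the Hellinger affinities
-/

set_option autoImplicit false

namespace Pool.Agent.DimDrop

open Finset MeasureTheory Filter Topology

/-- the properties of the stationary measure (in the line model) which are used: it is carried by the cylinders, and along `w s^k t` its masses satisfy a linear
recurrence whose coefficients do not depend on `w` -/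
structure IsStat {N : ℕ} (S : Sch N) (ν : Measure ℝ) : Prop where
  prob : IsProbabilityMeasure ν
  supp : ∀ n, 1 ≤ n → ν (⋃ w ∈ words N n, S.I w)ᶜ = 0
  lrec : ∀ s t : Lt N, t ≠ s → t ≠ bar s → ∃ (d : ℕ) (q : ℕ → ℝ), (∃ i ∈ range (d + 1), q i ≠ 0) ∧
    ∀ w : List (Lt N), Red (w ++ [s]) → ∀ k : ℕ,
      ∑ i ∈ range (d + 1), q i * ν.real (S.I (w ++ (List.replicate (k + i + 1) s ++ [t]))) = 0

namespace Sch

variable {N : ℕ} {S : Sch N} {δ : ℝ} {m ν : Measure ℝ}

/-- the normalised masses of the extensions -/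
noncomputable def nx (S : Sch N) (ν : Measure ℝ) (w v : List (Lt N)) : ℝ :=
  open Classical in if Red (w ++ v) then ν.real (S.I (w ++ v)) / ν.real (S.I w) else 0

theorem nx_nonneg (S : Sch N) (ν : Measure ℝ) (w v : List (Lt N)) : 0 ≤ S.nx ν w v := by
  unfold nx
  split_ifs <;> positivity

theorem sum_nx (S : Sch N) (ν : Measure ℝ) [IsFiniteMeasure ν] (hs : ∀ n, 1 ≤ n → ν (⋃ w ∈ words N n, S.I w)ᶜ = 0)
    (w : List (Lt N)) (hw : w ≠ []) (hr : Red w) (h0 : 0 < ν.real (S.I w)) (L : ℕ) :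
    ∑ v ∈ words N L, S.nx ν w v = 1 := by
  classical
  unfold nx
  rw [← Finset.sum_filter, ← Finset.sum_div, ← S.add_words ν hs w hw hr L, div_self h0.ne']

theorem nx_le_one (S : Sch N) (ν : Measure ℝ) [IsFiniteMeasure ν] (hs : ∀ n, 1 ≤ n → ν (⋃ w ∈ words N n, S.I w)ᶜ = 0)
    (w : List (Lt N)) (hw : w ≠ []) (hr : Red w) (h0 : 0 < ν.real (S.I w)) (v : List (Lt N)) : S.nx ν w v ≤ 1 := by
  by_cases hv : Red (w ++ v)
  · rw [← S.sum_nx ν hs w hw hr h0 v.length]
    refine Finset.single_le_sum (f := fun v => S.nx ν w v) (fun u _ => S.nx_nonneg ν w u) ?_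
    exact mem_words.2 ⟨hv.append_right, rfl⟩
  · unfold nx
    rw [if_neg hv]
    exact zero_le_one

theorem aff_eq (S : Sch N) (ν m : Measure ℝ) (w : List (Lt N)) (h0 : 0 < ν.real (S.I w)) (h1 : 0 < m.real (S.I w)) (L : ℕ) :
    S.aff ν m L w = √(ν.real (S.I w) * m.real (S.I w)) * ∑ v ∈ words N L, √(S.nx ν w v * S.nx m w v) := by
  classical
  unfold aff
  rw [Finset.sum_filter, Finset.mul_sum]
  refine Finset.sum_congr rfl fun v _ => ?_
  unfold nx
  split_ifs with h
  · rw [← Real.sqrt_mul (by positivity)]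
    congr 1
    field_simp
  · simp

/-- **Uniform gap.** By contradiction there are reduced `w_n ≠ []` with `aff (n+1) w_n > (1 - 1/(n+1)) √(ν(w_n) m(w_n))`, in particular `ν (w_n), m (w_n) > 0`. Take an ultrafilter `U ≤ atTop`. The last letter of `w_n` is
`t` for `U`-almost all `n` (`ultra_const`), `p_n = pp w_n → p ∈ A (bar t)`, and for all `v` with `t :: v` reduced `x_n (v) = ν (w_n v) / ν (w_n) → x (v)`, `y_n (v) = m (w_n v) / m (w_n) → y (v) = κ ∫_{I v} |x - p|^{-2δ} dm`, `κ > 0`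
(`mass_append`, `ratio_cont`). For every `L`, `∑_{|v| = L} √(x_n y_n) ≥ 1 - 1/(n+1)` for `n + 1 ≥ L` (`aff_anti`), `∑ x_n = ∑ y_n = 1` (`add_words`), so in the limit `x (v) = y (v)` for all `v` (`hell`).
Take `s ≠ t, bar t` (`other`) and a letter `t' ≠ s, bar s` (`other`), `d`, `q` from `IsStat.lrec`: dividing by `ν (w_n)`, `∑_i q_i x_n (s^(k+i+1) t') = 0` (note `w_n ++ [s]` is reduced), so
`∑_i q_i y (s^(k+i+1) t') = 0` for all `k`, and `no_rec` (`p ∈ A (bar t)`, `bar t ≠ s, bar s`) gives `q = 0`, a contradiction. -/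
theorem unif (hN : 2 ≤ N) (hδ : 0 < δ) (hm : S.IsConf δ m) (hν : IsStat S ν) : ∃ (L : ℕ) (ε : ℝ), 1 ≤ L ∧ 0 < ε ∧ ε < 1 ∧
    ∀ w : List (Lt N), w ≠ [] → Red w → S.aff ν m L w ≤ (1 - ε) * √(ν.real (S.I w) * m.real (S.I w)) := by
  classical
  have hmp := hm.prob
  have hνp := hν.prob
  have hsm : ∀ n, 1 ≤ n → m (⋃ w ∈ words N n, S.I w)ᶜ = 0 := fun n hn => supp_words hm n hn
  by_contra hcon
  push Not at hcon
  have hch : ∀ n : ℕ, ∃ w : List (Lt N), w ≠ [] ∧ Red w ∧
      (1 - 1 / ((n : ℝ) + 2)) * √(ν.real (S.I w) * m.real (S.I w)) < S.aff ν m (n + 1) w := by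
    intro n
    refine hcon (n + 1) (1 / ((n : ℝ) + 2)) (by omega) (by positivity) ?_
    rw [div_lt_one (by positivity)]
    have : (0 : ℝ) ≤ n := Nat.cast_nonneg n
    linarith
  choose w hw hr haff using hch
  have hb : ∀ n, 0 < m.real (S.I (w n)) := fun n => mass_pos hN hm _ (hr n)
  have h12 : ∀ n : ℕ, 0 ≤ 1 - 1 / ((n : ℝ) + 2) := by
    intro n
    have : 1 / ((n : ℝ) + 2) ≤ 1 := by
      rw [div_le_one (by positivity)]
      have : (0 : ℝ) ≤ n := Nat.cast_nonneg n
      linarith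
    linarith
  have ha : ∀ n, 0 < ν.real (S.I (w n)) := by
    intro n
    rcases (measureReal_nonneg (μ := ν) (s := S.I (w n))).eq_or_lt with h | h
    · exfalso
      have h1 := (haff n).trans_le (S.aff_anti ν m hν.supp hsm (w n) (hw n) (hr n) 0 (n + 1) (Nat.zero_le _))
      have h2 : S.aff ν m 0 (w n) = √(ν.real (S.I (w n)) * m.real (S.I (w n))) := by
        unfold aff
        have h3 : (words N 0).filter (fun v => Red (w n ++ v)) = {[]} := by
          ext v
          rw [Finset.mem_filter, mem_words, Finset.mem_singleton]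
          constructor
          · exact fun h => List.length_eq_zero_iff.1 h.1.2
          · rintro rfl
            simpa using hr n
        rw [h3]
        simp
      rw [h2, ← h] at h1
      simp at h1
    · exact h
  -- the ultrafilter
  let U : Ultrafilter ℕ := hyperfilter ℕ
  have hU : (U : Filter ℕ) ≤ atTop := Nat.hyperfilter_le_atTop
  have hlast : ∀ n, ∃ (w' : List (Lt N)) (t : Lt N), w n = w' ++ [t] := by
    intro n
    refine ⟨(w n).dropLast, (w n).getLast (hw n), ?_⟩
    exact (List.dropLast_append_getLast (hw n)).symm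
  choose w' tt hwt using hlast
  obtain ⟨t, ht⟩ := ultra_const U tt
  have hpA : ∀ n, S.pp (w n) ∈ S.A (bar (tt n)) := by
    intro n
    rw [hwt n]
    exact (S.pole_mem (w' n) (tt n) (hwt n ▸ hr n)).2
  -- the limit pole
  obtain ⟨B, hB⟩ := S.isCompact_K0.isBounded.subset_closedBall 0
  have hpB : ∀ n, S.pp (w n) ∈ Set.Icc (-B) B := by
    intro n
    have := hB (S.A_subset_K0 _ (hpA n))
    rw [Metric.mem_closedBall, Real.dist_eq, sub_zero, abs_le] at this
    exact this
  obtain ⟨p, -, hp⟩ := ultra_lim U (fun n => S.pp (w n)) (-B) B hpB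
  have hpt : p ∈ S.A (bar t) := by
    refine IsClosed.mem_of_tendsto isClosed_Icc hp ?_
    filter_upwards [ht] with n hn
    have := hpA n
    rw [hn] at this
    exact this
  -- limits of the normalised masses
  have hx : ∀ v, ∃ L ∈ Set.Icc (0 : ℝ) 1, Tendsto (fun n => S.nx ν (w n) v) U (𝓝 L) := fun v =>
    ultra_lim U _ 0 1 fun n => ⟨S.nx_nonneg _ _ _, S.nx_le_one ν hν.supp _ (hw n) (hr n) (ha n) v⟩
  have hy : ∀ v, ∃ L ∈ Set.Icc (0 : ℝ) 1, Tendsto (fun n => S.nx m (w n) v) U (𝓝 L) := fun v =>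
    ultra_lim U _ 0 1 fun n => ⟨S.nx_nonneg _ _ _, S.nx_le_one m hsm _ (hw n) (hr n) (hb n) v⟩
  choose x hx01 hx using hx
  choose y hy01 hy using hy
  have hU2 : Tendsto (fun n : ℕ => 1 - 1 / ((n : ℝ) + 2)) U (𝓝 1) := by
    have h1 : Tendsto (fun n : ℕ => 1 - 1 / ((n : ℝ) + 2)) atTop (𝓝 (1 - 0)) := by
      refine tendsto_const_nhds.sub ?_
      have h2 : Tendsto (fun n : ℕ => (n : ℝ) + 2) atTop atTop :=
        tendsto_natCast_atTop_atTop.atTop_add tendsto_const_nhds
      exact h2.const_div_atTop 1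
    rw [sub_zero] at h1
    exact h1.mono_left hU
  -- equality of the limits
  have hxy : ∀ L : ℕ, ∀ v ∈ words N L, x v = y v := by
    intro L
    refine hell (words N L) x y (fun v _ => (hx01 v).1) (fun v _ => (hy01 v).1) ?_ ?_ ?_
    · refine tendsto_nhds_unique (tendsto_finsetSum _ fun v _ => hx v) ?_
      refine tendsto_const_nhds.congr fun n => ?_
      exact (S.sum_nx ν hν.supp _ (hw n) (hr n) (ha n) L).symm
    · refine tendsto_nhds_unique (tendsto_finsetSum _ fun v _ => hy v) ?_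
      refine tendsto_const_nhds.congr fun n => ?_
      exact (S.sum_nx m hsm _ (hw n) (hr n) (hb n) L).symm
    · have h1 : Tendsto (fun n => ∑ v ∈ words N L, √(S.nx ν (w n) v * S.nx m (w n) v)) U
          (𝓝 (∑ v ∈ words N L, √(x v * y v))) :=
        tendsto_finsetSum _ fun v _ => ((hx v).mul (hy v)).sqrt
      refine le_of_tendsto_of_tendsto hU2 h1 ?_
      filter_upwards [hU (eventually_ge_atTop L)] with n hn
      have hs : 0 < √(ν.real (S.I (w n)) * m.real (S.I (w n))) := Real.sqrt_pos.2 (mul_pos (ha n) (hb n))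
      have h2 := (haff n).trans_le (S.aff_anti ν m hν.supp hsm (w n) (hw n) (hr n) L (n + 1) (by omega))
      rw [S.aff_eq ν m (w n) (ha n) (hb n) L, mul_comm] at h2
      exact (lt_of_mul_lt_mul_left h2 hs.le).le
  -- the limit of the conformal masses
  have hyΦ : ∀ v : List (Lt N), v ≠ [] → Red (t :: v) →
      y v * (∑ b ∈ univ.filter (fun b : Lt N => b ≠ bar t), ∫ z in S.I [b], |z - p| ^ (-2 * δ) ∂m) =
        ∫ z in S.I v, |z - p| ^ (-2 * δ) ∂m := by
    intro v hv hrv
    have hpnh : Tendsto (fun n => S.pp (w n)) U (𝓝[S.A (bar t)] p) := by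
      refine tendsto_nhdsWithin_iff.2 ⟨hp, ?_⟩
      filter_upwards [ht] with n hn
      have := hpA n
      rw [hn] at this
      exact this
    have hΦ : ∀ v : List (Lt N), v ≠ [] → Red (t :: v) →
        Tendsto (fun n => ∫ z in S.I v, |z - S.pp (w n)| ^ (-2 * δ) ∂m) U
          (𝓝 (∫ z in S.I v, |z - p| ^ (-2 * δ) ∂m)) := fun v hv hrv =>
      ((S.ratio_cont hδ m v t hv hrv) p hpt).tendsto.comp hpnh
    have h1 : Tendsto (fun n => S.nx m (w n) v * (∑ b ∈ univ.filter (fun b : Lt N => b ≠ bar t),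
        ∫ z in S.I [b], |z - S.pp (w n)| ^ (-2 * δ) ∂m)) U
        (𝓝 (y v * (∑ b ∈ univ.filter (fun b : Lt N => b ≠ bar t), ∫ z in S.I [b], |z - p| ^ (-2 * δ) ∂m))) := by
      refine (hy v).mul (tendsto_finsetSum _ fun b hb => hΦ [b] (by simp) ?_)
      rw [red_cons_cons]
      exact ⟨(Finset.mem_filter.1 hb).2, red_one b⟩
    refine tendsto_nhds_unique h1 ((hΦ v hv hrv).congr' ?_)
    filter_upwards [ht] with n hn
    have hwn : w n = w' n ++ [t] := by rw [hwt n, hn]
    have hred : ∀ v : List (Lt N), v ≠ [] → Red (t :: v) → Red (w n ++ v) := by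
      intro v _ hrv
      rw [hwn]
      exact red_append_of [] (w' n) v t (hwn ▸ hr n) (by simpa using hrv)
    have h2 : S.nx m (w n) v = m.real (S.I (w n ++ v)) / m.real (S.I (w n)) := by
      unfold nx
      rw [if_pos (hred v hv hrv)]
    have h3 : m.real (S.I (w n)) = |S.cc (w n)| ^ (-2 * δ) *
        (∑ b ∈ univ.filter (fun b : Lt N => b ≠ bar t), ∫ z in S.I [b], |z - S.pp (w n)| ^ (-2 * δ) ∂m) := by
      rw [mass_add hm (w n) (hw n) (hr n), Finset.mul_sum]
      have h4 : univ.filter (fun b : Lt N => Red (w n ++ [b])) = univ.filter (fun b : Lt N => b ≠ bar t) := by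
        ext b
        simp only [Finset.mem_filter, Finset.mem_univ, true_and]
        rw [hwn, red_append_iff]
        constructor
        · exact fun h => h.2.1
        · exact fun h => ⟨hwn ▸ hr n, h, red_one b⟩
      rw [h4]
      refine Finset.sum_congr rfl fun b hb => ?_
      refine mass_append hm (w n) [b] (hw n) (by simp) (hred [b] (by simp) ?_)
      rw [red_cons_cons]
      exact ⟨(Finset.mem_filter.1 hb).2, red_one b⟩
    have h5 := mass_append hm (w n) v (hw n) hv (hred v hv hrv)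
    have hcc : 0 < |S.cc (w n)| ^ (-2 * δ) := Real.rpow_pos_of_pos (abs_pos.2 (S.cc_ne _ (hw n) (hr n))) _
    have hb' := hb n
    rw [h2, h5]
    set D := (∑ b ∈ univ.filter (fun b : Lt N => b ≠ bar t), ∫ z in S.I [b], |z - S.pp (w n)| ^ (-2 * δ) ∂m) with hD
    have hD0 : D ≠ 0 := by
      intro h0
      rw [h3, h0, mul_zero] at hb'
      exact lt_irrefl _ hb'
    rw [h3, div_mul_eq_mul_div, eq_div_iff (mul_ne_zero hcc.ne' hD0)]
    ring
  -- the recurrence
  obtain ⟨s, hst, hst'⟩ := other hN t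
  obtain ⟨t', hts, hts'⟩ := other hN s
  obtain ⟨d, q, ⟨i0, hi0, hq0⟩, hq⟩ := hν.lrec s t' hts hts'
  have hredk : ∀ j : ℕ, Red (t :: (List.replicate (j + 1) s ++ [t'])) := by
    intro j
    have h1 : Red (List.replicate (j + 1) s ++ [t']) :=
      red_replicate s [t'] ((red_cons_cons s t' []).2 ⟨hts', red_one _⟩) j
    rw [List.replicate_succ, List.cons_append] at h1 ⊢
    rw [red_cons_cons]
    exact ⟨hst', h1⟩
  have hrecx : ∀ k : ℕ, ∑ i ∈ range (d + 1), q i * x (List.replicate (k + i + 1) s ++ [t']) = 0 := by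
    intro k
    refine tendsto_nhds_unique (tendsto_finsetSum _ fun i _ => (hx _).const_mul (q i)) ?_
    refine tendsto_const_nhds.congr' ?_
    filter_upwards [ht] with n hn
    have hwn : w n = w' n ++ [t] := by rw [hwt n, hn]
    have hws : Red (w n ++ [s]) := by
      rw [hwn, red_append_iff]
      exact ⟨hwn ▸ hr n, hst', red_one s⟩
    have h1 := hq (w n) hws k
    have h2 : ∀ i ∈ range (d + 1), q i * S.nx ν (w n) (List.replicate (k + i + 1) s ++ [t']) =
        q i * ν.real (S.I (w n ++ (List.replicate (k + i + 1) s ++ [t']))) / ν.real (S.I (w n)) := by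
      intro i _
      unfold nx
      rw [if_pos, mul_div_assoc]
      rw [hwn]
      exact red_append_of [] (w' n) _ t (hwn ▸ hr n) (by simpa using hredk (k + i))
    rw [Finset.sum_congr rfl h2, ← Finset.sum_div, h1, zero_div]
  have hfin : ∀ k : ℕ, ∑ i ∈ range (d + 1), q i *
      ∫ z in S.I (List.replicate (k + i + 1) s ++ [t']), |z - p| ^ (-2 * δ) ∂m = 0 := by
    intro k
    have h1 : ∀ i ∈ range (d + 1), q i * ∫ z in S.I (List.replicate (k + i + 1) s ++ [t']), |z - p| ^ (-2 * δ) ∂m =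
        (q i * x (List.replicate (k + i + 1) s ++ [t'])) *
          (∑ b ∈ univ.filter (fun b : Lt N => b ≠ bar t), ∫ z in S.I [b], |z - p| ^ (-2 * δ) ∂m) := by
      intro i _
      rw [← hyΦ _ (by simp) (hredk (k + i)), hxy _ _ (mem_words.2 ⟨?_, rfl⟩)]
      · ring
      · have := hredk (k + i)
        rw [List.replicate_succ, List.cons_append] at this ⊢
        exact ((red_cons_cons _ _ _).1 this).2
    rw [Finset.sum_congr rfl h1, ← Finset.sum_mul, hrecx k, zero_mul]
  refine hq0 (no_rec hN hδ hm s t' hts hts' p ?_ ?_ d q hfin i0 hi0)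
  · intro hps
    have := S.A_inj hpt hps
    exact hst' this.symm
  · intro hps
    have := S.A_inj hpt hps
    apply hst
    have h2 := congrArg bar this
    simpa using h2.symm

end Sch

end Pool.Agent.DimDrop
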