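import Pool.Agent.Lib_MP_644907.Defs

/-!
# Piece WORDS: reduced words
-/

set_option autoImplicit false

namespace Pool.Agent.DimDrop

open Finset

variable {N : ℕ}

@[simp] theorem bar_bar (a : Lt N) : bar (bar a) = a := by
  simp [bar]

theorem bar_ne (a : Lt N) : bar a ≠ a := by
  intro h
  have := congrArg Prod.snd h
  simp [bar] at this

theorem mem_words {n : ℕ} {w : List (Lt N)} : w ∈ words N n ↔ Red w ∧ w.length = n := by
  unfold words
  simp only [Finset.mem_filter, Finset.mem_image, Finset.mem_univ, true_and]
  constructor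
  · rintro ⟨⟨f, rfl⟩, h⟩
    exact ⟨h, List.length_ofFn⟩
  · rintro ⟨h, rfl⟩
    exact ⟨⟨w.get, List.ofFn_get w⟩, h⟩

@[simp] theorem red_nil : Red ([] : List (Lt N)) := by simp [Red]

@[simp] theorem red_one (a : Lt N) : Red [a] := by simp [Red]

theorem red_cons_cons (a b : Lt N) (w : List (Lt N)) :
    Red (a :: b :: w) ↔ b ≠ bar a ∧ Red (b :: w) := by
  simp [Red]

theorem Red.append_left {w v : List (Lt N)} (h : Red (w ++ v)) : Red w :=
  List.IsChain.left_of_append h

theorem Red.append_right {w v : List (Lt N)} (h : Red (w ++ v)) : Red v :=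
  List.IsChain.right_of_append h

/-- two nonempty reduced words can be concatenated iff the letters at the joint are not inverse -/
theorem red_append_iff (w v : List (Lt N)) (a b : Lt N) :
    Red (w ++ [a] ++ (b :: v)) ↔ Red (w ++ [a]) ∧ b ≠ bar a ∧ Red (b :: v) := by
  rw [List.append_assoc]
  exact List.isChain_append_cons_cons

/-- the joint condition only depends on the last letter of `w` -/
theorem red_append_of (u w v : List (Lt N)) (a : Lt N) (h1 : Red (w ++ [a])) (h2 : Red (u ++ [a] ++ v)) :
    Red (w ++ [a] ++ v) := by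
  rw [List.append_assoc] at h2
  exact List.IsChain.append_overlap h1 h2.append_right (by simp)

/-- the word `s^k` followed by `v` is reduced if `s :: v` is -/
theorem red_replicate (s : Lt N) (v : List (Lt N)) (h : Red (s :: v)) (k : ℕ) :
    Red (List.replicate (k + 1) s ++ v) := by
  induction k with
  | zero => exact h
  | succ k ih =>
    rw [List.replicate_succ, List.cons_append] at ih ⊢
    rw [List.replicate_succ, List.cons_append, red_cons_cons]
    exact ⟨(bar_ne s).symm, ih⟩

theorem card_Lt : Fintype.card (Lt N) = 2 * N := by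
  simp [Lt, mul_comm]

theorem avoid (hN : 2 ≤ N) (a b : Lt N) : ∃ c : Lt N, c ≠ a ∧ c ≠ b := by
  classical
  have h : ({a, b} : Finset (Lt N)).card < (Finset.univ : Finset (Lt N)).card := by
    rw [Finset.card_univ, card_Lt]
    have := Finset.card_le_two (a := a) (b := b)
    omega
  obtain ⟨c, _, hc⟩ := Finset.exists_mem_notMem_of_card_lt_card h
  simp only [Finset.mem_insert, Finset.mem_singleton, not_or] at hc
  exact ⟨c, hc⟩

theorem bridge (hN : 2 ≤ N) (a b : Lt N) : ∃ c : Lt N, c ≠ bar a ∧ b ≠ bar c := by
  obtain ⟨c, h1, h2⟩ := avoid hN (bar a) (bar b)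
  refine ⟨c, h1, ?_⟩
  rintro rfl
  exact h2 (bar_bar c).symm

/-- a letter different from `a` and `bar a` -/
theorem other (hN : 2 ≤ N) (a : Lt N) : ∃ c : Lt N, c ≠ a ∧ c ≠ bar a := avoid hN a (bar a)

theorem three (hN : 2 ≤ N) (t : Lt N) : ∃ a b c : Lt N, a ≠ b ∧ a ≠ c ∧ b ≠ c ∧
    a ≠ bar t ∧ b ≠ bar t ∧ c ≠ bar t := by
  classical
  have h : 2 < ((Finset.univ : Finset (Lt N)).erase (bar t)).card := by
    rw [Finset.card_erase_of_mem (Finset.mem_univ _), Finset.card_univ, card_Lt]
    omega
  obtain ⟨a, b, c, ha, hb, hc, hab, hac, hbc⟩ := Finset.two_lt_card_iff.mp h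
  simp only [Finset.mem_erase, Finset.mem_univ, and_true] at ha hb hc
  exact ⟨a, b, c, hab, hac, hbc, ha, hb, hc⟩

open Classical in
theorem sum_words_add (n m : ℕ) (F : List (Lt N) → ℝ) : ∑ u ∈ words N (n + m), F u =
    ∑ w ∈ words N n, ∑ v ∈ (words N m).filter (fun v => Red (w ++ v)), F (w ++ v) := by
  rw [Finset.sum_sigma' (words N n) (fun w => (words N m).filter (fun v => Red (w ++ v)))
    (fun w v => F (w ++ v))]
  refine Finset.sum_bij' (i := fun u _ => ⟨u.take n, u.drop n⟩) (j := fun p _ => p.1 ++ p.2)
    ?_ ?_ ?_ ?_ ?_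
  · intro u hu
    rw [mem_words] at hu
    have h0 : Red (u.take n ++ u.drop n) := by rw [List.take_append_drop]; exact hu.1
    simp only [Finset.mem_sigma, Finset.mem_filter, mem_words]
    refine ⟨⟨h0.append_left, ?_⟩, ⟨h0.append_right, ?_⟩, h0⟩
    · rw [List.length_take, hu.2]; omega
    · rw [List.length_drop, hu.2]; omega
  · intro p hp
    simp only [Finset.mem_sigma, Finset.mem_filter, mem_words] at hp
    rw [mem_words, List.length_append, hp.1.2, hp.2.1.2]
    exact ⟨hp.2.2, rfl⟩
  · intro u _
    exact List.take_append_drop n u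
  · rintro ⟨w, v⟩ hp
    simp only [Finset.mem_sigma, Finset.mem_filter, mem_words] at hp
    have hn : w.length = n := hp.1.2
    simp only [Sigma.mk.injEq, heq_eq_eq]
    exact ⟨by rw [← hn, List.take_left], by rw [← hn, List.drop_left]⟩
  · intro u _
    simp only [List.take_append_drop]

theorem two_heads (hN : 2 ≤ N) (w : List (Lt N)) (hw : Red w) : ∃ g : Bool → Lt N,
    Function.Injective g ∧ ∀ b, Red (g b :: w) := by
  have key : ∃ a b : Lt N, a ≠ b ∧ Red (a :: w) ∧ Red (b :: w) := by
    cases w with
    | nil =>
      obtain ⟨a, b, c, h, _⟩ := three hN (⟨0, by omega⟩, true)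
      exact ⟨a, b, h, red_one a, red_one b⟩
    | cons t w =>
      obtain ⟨a, b, c, h, _, _, h1, h2, _⟩ := three hN t
      refine ⟨a, b, h, ?_, ?_⟩
      · rw [red_cons_cons]
        refine ⟨?_, hw⟩
        rintro rfl
        exact h1 (bar_bar a).symm
      · rw [red_cons_cons]
        refine ⟨?_, hw⟩
        rintro rfl
        exact h2 (bar_bar b).symm
  obtain ⟨a, b, h, h1, h2⟩ := key
  refine ⟨fun c => if c then a else b, ?_, ?_⟩
  · intro c d hcd
    cases c <;> cases d
    · rfl
    · simp only [if_true, Bool.false_eq_true, if_false] at hcd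
      exact absurd hcd.symm h
    · simp only [if_true, Bool.false_eq_true, if_false] at hcd
      exact absurd hcd h
    · rfl
  · intro c
    cases c
    · simpa using h2
    · simpa using h1

/-- at least `2^n` and at most `(2N)^n` reduced words -/
theorem card_words (hN : 2 ≤ N) (n : ℕ) : 2 ^ n ≤ (words N n).card ∧ (words N n).card ≤ (2 * N) ^ n := by
  classical
  constructor
  · induction n with
    | zero =>
      have : 0 < (words N 0).card := Finset.card_pos.mpr ⟨[], mem_words.mpr ⟨red_nil, rfl⟩⟩
      simpa using this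
    | succ n ih =>
      have hg : ∀ w : List (Lt N), ∃ g : Bool → Lt N, Red w →
          Function.Injective g ∧ ∀ b, Red (g b :: w) := by
        intro w
        by_cases hw : Red w
        · obtain ⟨g, hg⟩ := two_heads hN w hw
          exact ⟨g, fun _ => hg⟩
        · exact ⟨fun _ => (⟨0, by omega⟩, true), fun h => absurd h hw⟩
      choose g hg using hg
      have h : ((words N n) ×ˢ (Finset.univ : Finset Bool)).card ≤ (words N (n + 1)).card := by
        apply Finset.card_le_card_of_injOn (fun p => g p.1 p.2 :: p.1)
        · rintro ⟨w, b⟩ hp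
          have hp' : w ∈ words N n := by simpa using hp
          rw [mem_words] at hp'
          have : g w b :: w ∈ words N (n + 1) := by
            rw [mem_words]
            exact ⟨(hg w hp'.1).2 b, by rw [List.length_cons, hp'.2]⟩
          exact this
        · rintro ⟨w, b⟩ hp ⟨w', b'⟩ hp' h
          have hw : w ∈ words N n := by simpa using hp
          rw [mem_words] at hw
          simp only [List.cons.injEq] at h
          obtain ⟨h1, h2⟩ := h
          subst h2
          have := (hg w hw.1).1 h1
          subst this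
          rfl
      rw [Finset.card_product, Finset.card_univ, Fintype.card_bool] at h
      calc 2 ^ (n + 1) = 2 ^ n * 2 := pow_succ 2 n
        _ ≤ (words N n).card * 2 := Nat.mul_le_mul_right 2 ih
        _ ≤ _ := h
  · unfold words
    refine (Finset.card_filter_le _ _).trans (Finset.card_image_le.trans ?_)
    rw [Finset.card_univ, Fintype.card_fun, card_Lt, Fintype.card_fin]

/-- the inverse word -/
def winv (w : List (Lt N)) : List (Lt N) := (w.map bar).reverse

theorem red_winv {w : List (Lt N)} (h : Red w) : Red (winv w) := by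
  unfold Red winv
  rw [List.isChain_reverse, List.isChain_map]
  refine List.IsChain.imp ?_ h
  intro a b hab hc
  rw [bar_bar] at hc
  exact hab hc.symm

@[simp] theorem length_winv (w : List (Lt N)) : (winv w).length = w.length := by
  simp [winv]

end Pool.Agent.DimDrop
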