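import Pool.Agent.Lib_MP_644907.GeoB2

/-!
# Piece ZNA: the sums `Z n t = ∑_{|w| = n} |c_w|^{-2t}`
-/

set_option autoImplicit false

namespace Pool.Agent.DimDrop

open Finset

namespace Sch

variable {N : ℕ} (S : Sch N)

/-- the partition function -/
noncomputable def Z (n : ℕ) (t : ℝ) : ℝ := ∑ w ∈ words N n, |S.cc w| ^ (-2 * t)

private theorem ZnA_pos {n : ℕ} (hn : 1 ≤ n) {w : List (Lt N)} (hw : w ∈ words N n) :
    0 < |S.cc w| := by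
  obtain ⟨h1, h2⟩ := mem_words.1 hw
  have h3 : w ≠ [] := by
    rintro rfl
    simp at h2
    omega
  exact abs_pos.mpr (S.cc_ne w h3 h1)

private theorem ZnA_ne {n : ℕ} (hn : 1 ≤ n) {w : List (Lt N)} (hw : w ∈ words N n) :
    w ≠ [] := by
  obtain ⟨h1, h2⟩ := mem_words.1 hw
  rintro rfl
  simp at h2
  omega

theorem Z_cont (n : ℕ) (hn : 1 ≤ n) : Continuous (S.Z n) := by
  unfold Z
  refine continuous_finsetSum _ fun w hw => ?_
  exact Continuous.rpow continuous_const (by fun_prop) fun t => Or.inl (S.ZnA_pos hn hw).ne'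

theorem Z_pos (hN : 2 ≤ N) (n : ℕ) (hn : 1 ≤ n) (t : ℝ) : 0 < S.Z n t := by
  unfold Z
  refine Finset.sum_pos (fun w hw => Real.rpow_pos_of_pos (S.ZnA_pos hn hw) _) ?_
  rw [← Finset.card_pos]
  exact lt_of_lt_of_le (pow_pos (by norm_num) n) (card_words hN n).1

/-- `Z n 0` is the number of reduced words (`card_words`) -/
theorem Z_zero (hN : 2 ≤ N) (B : ℝ) : ∃ n : ℕ, 1 ≤ n ∧ B < S.Z n 0 := by
  obtain ⟨m, hm⟩ := pow_unbounded_of_one_lt B (one_lt_two : (1 : ℝ) < 2)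
  refine ⟨m + 1, by omega, ?_⟩
  have h1 : S.Z (m + 1) 0 = ((words N (m + 1)).card : ℝ) := by
    unfold Z
    simp
  rw [h1]
  have h2 : (2 : ℝ) ^ (m + 1) ≤ ((words N (m + 1)).card : ℝ) := by
    exact_mod_cast (card_words hN (m + 1)).1
  have h3 : (2 : ℝ) ^ m ≤ 2 ^ (m + 1) := pow_le_pow_right₀ (by norm_num) (by omega)
  linarith

/-- `Z n T ≤ (2N)^n (C κ^n)^T`, `κ < 1` (`contr`, `card_words`); take `T` with `2 N κ^T < 1`. -/
theorem Z_big (hN : 2 ≤ N) : ∃ T : ℝ, 0 < T ∧ ∀ ε : ℝ, 0 < ε → ∃ n : ℕ, 1 ≤ n ∧ S.Z n T < ε := by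
  obtain ⟨C, κ, hC, hκ0, hκ1, hb⟩ := S.contr hN
  have hNpos : (0 : ℝ) < 4 * N := by
    have : (2 : ℝ) ≤ N := by exact_mod_cast hN
    linarith
  obtain ⟨m, hm⟩ := exists_pow_lt_of_lt_one (show (0 : ℝ) < 1 / (4 * N) by positivity) hκ1
  refine ⟨((m + 1 : ℕ) : ℝ), by positivity, fun ε hε => ?_⟩
  have hq : 2 * (N : ℝ) * κ ^ (m + 1) ≤ 1 / 2 := by
    have h1 : κ ^ (m + 1) ≤ κ ^ m := pow_le_pow_of_le_one hκ0.le hκ1.le (by omega)
    have h2 : κ ^ (m + 1) ≤ 1 / (4 * N) := h1.trans hm.le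
    calc 2 * (N : ℝ) * κ ^ (m + 1) ≤ 2 * (N : ℝ) * (1 / (4 * N)) :=
          mul_le_mul_of_nonneg_left h2 (by positivity)
      _ = 1 / 2 := by field_simp; norm_num
  have hCp : 0 < C ^ (m + 1) := pow_pos hC _
  obtain ⟨k, hk⟩ := exists_pow_lt_of_lt_one (show (0 : ℝ) < ε / C ^ (m + 1) by positivity)
    (show (1 : ℝ) / 2 < 1 by norm_num)
  refine ⟨k + 1, by omega, ?_⟩
  have hterm : ∀ w ∈ words N (k + 1), |S.cc w| ^ (-2 * (((m + 1 : ℕ) : ℝ))) ≤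
      (C * κ ^ (k + 1)) ^ (m + 1) := by
    intro w hw
    have hw1 := mem_words.1 hw
    have h1 := hb w (ZnA_ne (by omega) hw) hw1.1
    rw [hw1.2] at h1
    have h2 : |S.cc w| ^ (-2 * (((m + 1 : ℕ) : ℝ))) = ((S.cc w ^ 2)⁻¹) ^ (m + 1) := by
      rw [Real.rpow_mul (abs_nonneg _), Real.rpow_natCast]
      congr 1
      rw [Real.rpow_neg (abs_nonneg _), Real.rpow_ofNat, sq_abs]
    rw [h2]
    exact pow_le_pow_left₀ (by positivity) h1 _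
  have hsum : S.Z (k + 1) (((m + 1 : ℕ) : ℝ)) ≤
      ((words N (k + 1)).card : ℝ) * (C * κ ^ (k + 1)) ^ (m + 1) := by
    unfold Z
    have := Finset.sum_le_card_nsmul (words N (k + 1)) _ _ hterm
    rwa [nsmul_eq_mul] at this
  have hcard : ((words N (k + 1)).card : ℝ) ≤ (2 * N) ^ (k + 1) := by
    exact_mod_cast (card_words hN (k + 1)).2
  have h5 : ((words N (k + 1)).card : ℝ) * (C * κ ^ (k + 1)) ^ (m + 1) ≤
      C ^ (m + 1) * (2 * (N : ℝ) * κ ^ (m + 1)) ^ (k + 1) := by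
    calc ((words N (k + 1)).card : ℝ) * (C * κ ^ (k + 1)) ^ (m + 1)
        ≤ (2 * N) ^ (k + 1) * (C * κ ^ (k + 1)) ^ (m + 1) :=
          mul_le_mul_of_nonneg_right hcard (by positivity)
      _ = C ^ (m + 1) * (2 * (N : ℝ) * κ ^ (m + 1)) ^ (k + 1) := by
          rw [mul_pow, mul_pow, mul_pow, mul_pow, ← pow_mul, ← pow_mul, mul_comm (k + 1) (m + 1)]
          ring
  have h6 : (2 * (N : ℝ) * κ ^ (m + 1)) ^ (k + 1) ≤ (1 / 2) ^ k := by
    calc (2 * (N : ℝ) * κ ^ (m + 1)) ^ (k + 1) ≤ (1 / 2) ^ (k + 1) :=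
          pow_le_pow_left₀ (by positivity) hq _
      _ ≤ (1 / 2) ^ k := pow_le_pow_of_le_one (by norm_num) (by norm_num) (by omega)
  calc S.Z (k + 1) (((m + 1 : ℕ) : ℝ)) ≤ C ^ (m + 1) * (2 * (N : ℝ) * κ ^ (m + 1)) ^ (k + 1) :=
        hsum.trans h5
    _ ≤ C ^ (m + 1) * (1 / 2) ^ k := mul_le_mul_of_nonneg_left h6 hCp.le
    _ < C ^ (m + 1) * (ε / C ^ (m + 1)) := mul_lt_mul_of_pos_left hk hCp
    _ = ε := by field_simp

end Sch

end Pool.Agent.DimDrop
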