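import Pool.Agent.Lib_MP_644907.ZnA

/-!
# Piece ZNB: quasi-multiplicativity
-/

set_option autoImplicit false

namespace Pool.Agent.DimDrop

open Finset

namespace Sch

variable {N : ℕ} (S : Sch N)

/-- two-sided bounds for the entry of a concatenation -/
theorem cc_app_bounds {g D : ℝ} (hg : ∀ a b, a ≠ b → ∀ x ∈ S.A a, ∀ y ∈ S.A b, g ≤ |x - y|)
    (hD : ∀ x ∈ S.K0, ∀ y ∈ S.K0, |x - y| ≤ D) (w v : List (Lt N)) (hw : w ≠ []) (hv : v ≠ [])
    (h : Red (w ++ v)) : g * (|S.cc w| * |S.cc v|) ≤ |S.cc (w ++ v)| ∧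
      |S.cc (w ++ v)| ≤ D * (|S.cc w| * |S.cc v|) := by
  rw [S.cc_append w v hw hv h, abs_mul, abs_mul]
  have hq : ∃ b v', v = b :: v' := by
    cases v with
    | nil => exact absurd rfl hv
    | cons b v' => exact ⟨b, v', rfl⟩
  obtain ⟨b, v', rfl⟩ := hq
  obtain ⟨w', a, rfl⟩ : ∃ w' a, w = w' ++ [a] :=
    ⟨w.dropLast, w.getLast hw, (List.dropLast_append_getLast hw).symm⟩
  obtain ⟨h1, h2, h3⟩ := (red_append_iff w' v' a b).1 h
  have hp := (S.pole_mem w' a h1).2
  have hq := S.qq_mem b v' h3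
  have hlow := hg b (bar a) h2 _ hq _ hp
  have hup := hD _ (S.A_subset_K0 b hq) _ (S.A_subset_K0 (bar a) hp)
  have hnn : 0 ≤ |S.cc (w' ++ [a])| * |S.cc (b :: v')| := by positivity
  constructor
  · rw [mul_comm g]
    exact mul_le_mul_of_nonneg_left hlow hnn
  · rw [mul_comm D]
    exact mul_le_mul_of_nonneg_left hup hnn

/-- `c ^ (-2 t)` is bounded for `0 ≤ t ≤ T` -/
theorem rpow_bd {c t T : ℝ} (hc : 0 < c) (h0 : 0 ≤ t) (hT : t ≤ T) :
    c ^ (-2 * t) ≤ 1 + c ^ (-2 * T) := by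
  have hp : 0 < c ^ (-2 * T) := Real.rpow_pos_of_pos hc _
  rcases le_or_gt 1 c with h | h
  · have := Real.rpow_le_one_of_one_le_of_nonpos h (by linarith : -2 * t ≤ 0)
    linarith
  · have := Real.rpow_le_rpow_of_exponent_ge hc h.le (by linarith : -2 * T ≤ -2 * t)
    linarith

/-- comparison of powers -/
theorem rpow_cmp {x y e t T : ℝ} (hy : 0 < y) (he : 0 < e) (hxy : e * y ≤ x)
    (h0 : 0 ≤ t) (hT : t ≤ T) : x ^ (-2 * t) ≤ (1 + e ^ (-2 * T)) * y ^ (-2 * t) := by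
  have h1 : x ^ (-2 * t) ≤ (e * y) ^ (-2 * t) :=
    Real.rpow_le_rpow_of_nonpos (mul_pos he hy) hxy (by linarith)
  rw [Real.mul_rpow he.le hy.le] at h1
  have h2 := rpow_bd he h0 hT
  have h3 : 0 ≤ y ^ (-2 * t) := (Real.rpow_pos_of_pos hy _).le
  exact h1.trans (mul_le_mul_of_nonneg_right h2 h3)

theorem cc_pos {n : ℕ} (hn : 1 ≤ n) {w : List (Lt N)} (hw : w ∈ words N n) : 0 < |S.cc w| := by
  rw [mem_words] at hw
  apply abs_pos.2
  apply S.cc_ne w _ hw.1
  rintro rfl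
  simp at hw
  omega

theorem ne_nil_of_mem {n : ℕ} (hn : 1 ≤ n) {w : List (Lt N)} (hw : w ∈ words N n) : w ≠ [] := by
  rw [mem_words] at hw
  rintro rfl
  simp at hw
  omega

/-- `|c_{wv}| = |c_w| |c_v| |q_v - p_w|`, and `g ≤ |q_v - p_w| ≤ D` if `w v` is reduced (`p_w ∈ A (bar (last w))`, `q_v ∈ A (head v)`, `sum_words_add`):
`Z (n+m) t ≤ g^(-2t) Z n t Z m t`. For the other inequality, for all `w ∈ words n`, `v ∈ words m` choose a letter `b` with `w b v` reduced
(`bridge`), `|c_{w b v}| ≤ |c_w| |c_b| |c_v| D^2`, and `(w, v) ↦ w b v` is injective into `words (n+m+1)`, so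
`Z n t Z m t ≤ C Z (n+m+1) t ≤ C' Z (n+m) t Z 1 t`; all constants are bounded for `0 ≤ t ≤ T`. -/
theorem Z_mul (hN : 2 ≤ N) (T : ℝ) (hT : 0 ≤ T) : ∃ C : ℝ, 0 < C ∧ ∀ t ∈ Set.Icc 0 T, ∀ n m : ℕ, 1 ≤ n → 1 ≤ m →
    S.Z (n + m) t ≤ C * (S.Z n t * S.Z m t) ∧ S.Z n t * S.Z m t ≤ C * S.Z (n + m) t := by
  classical
  obtain ⟨g, D, hg0, hD0, hg, hD, -, hcg, hcD⟩ := S.consts
  -- constants
  obtain ⟨C1, hC1⟩ : ∃ C1 : ℝ, C1 = 1 + g ^ (-2 * T) := ⟨_, rfl⟩
  obtain ⟨E, hE⟩ : ∃ E : ℝ, E = (D ^ 3)⁻¹ := ⟨_, rfl⟩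
  obtain ⟨C2, hC2⟩ : ∃ C2 : ℝ, C2 = 1 + E ^ (-2 * T) := ⟨_, rfl⟩
  obtain ⟨C3, hC3⟩ : ∃ C3 : ℝ, C3 = ((words N 1).card : ℝ) * C1 + 1 := ⟨_, rfl⟩
  have hE0 : 0 < E := by rw [hE]; positivity
  have hC1p : 0 < C1 := by
    rw [hC1]
    have : 0 < g ^ (-2 * T) := Real.rpow_pos_of_pos hg0 _
    linarith
  have hC2p : 0 < C2 := by
    rw [hC2]
    have : 0 < E ^ (-2 * T) := Real.rpow_pos_of_pos hE0 _
    linarith
  have hC3p : 0 < C3 := by
    rw [hC3]
    have : 0 ≤ ((words N 1).card : ℝ) * C1 := by positivity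
    linarith
  have hnn : ∀ (n : ℕ) (t : ℝ), 0 ≤ S.Z n t := by
    intro n t
    exact Finset.sum_nonneg fun w _ => Real.rpow_nonneg (abs_nonneg _) _
  -- the first inequality
  have first : ∀ t ∈ Set.Icc 0 T, ∀ n m : ℕ, 1 ≤ n → 1 ≤ m →
      S.Z (n + m) t ≤ C1 * (S.Z n t * S.Z m t) := by
    intro t ht n m hn hm
    unfold Z
    rw [sum_words_add n m (fun u => |S.cc u| ^ (-2 * t)), Finset.sum_mul_sum, Finset.mul_sum]
    apply Finset.sum_le_sum
    intro w hw
    rw [Finset.mul_sum]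
    have h1 : ∑ v ∈ (words N m).filter (fun v => Red (w ++ v)), |S.cc (w ++ v)| ^ (-2 * t) ≤
        ∑ v ∈ (words N m).filter (fun v => Red (w ++ v)),
          C1 * (|S.cc w| ^ (-2 * t) * |S.cc v| ^ (-2 * t)) := by
      apply Finset.sum_le_sum
      intro v hv
      rw [Finset.mem_filter] at hv
      have hb := (S.cc_app_bounds hg hD w v (ne_nil_of_mem hn hw) (ne_nil_of_mem hm hv.1) hv.2).1
      have hp : 0 < |S.cc w| * |S.cc v| := mul_pos (S.cc_pos hn hw) (S.cc_pos hm hv.1)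
      have := rpow_cmp hp hg0 hb ht.1 ht.2
      rw [Real.mul_rpow (abs_nonneg _) (abs_nonneg _), ← hC1] at this
      exact this
    apply h1.trans
    apply Finset.sum_le_sum_of_subset_of_nonneg (Finset.filter_subset _ _)
    intro v _ _
    have h2 : 0 ≤ |S.cc w| ^ (-2 * t) := Real.rpow_nonneg (abs_nonneg _) _
    have h3 : 0 ≤ |S.cc v| ^ (-2 * t) := Real.rpow_nonneg (abs_nonneg _) _
    positivity
  -- the sum over the letters
  have hone : ∀ t ∈ Set.Icc 0 T, S.Z 1 t ≤ C3 := by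
    intro t ht
    have h1 : S.Z 1 t ≤ ∑ w ∈ words N 1, C1 := by
      unfold Z
      apply Finset.sum_le_sum
      intro w hw
      have hw' := hw
      rw [mem_words] at hw'
      obtain ⟨a, rfl⟩ := List.length_eq_one_iff.1 hw'.2
      have h2 : |S.cc [a]| ^ (-2 * t) ≤ g ^ (-2 * t) :=
        Real.rpow_le_rpow_of_nonpos hg0 (hcg a) (by linarith [ht.1])
      have h3 := rpow_bd hg0 ht.1 ht.2
      rw [← hC1] at h3
      exact h2.trans h3
    rw [Finset.sum_const, nsmul_eq_mul] at h1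
    rw [hC3]
    linarith
  -- the second inequality, with a bridge
  have second : ∀ t ∈ Set.Icc 0 T, ∀ n m : ℕ, 1 ≤ n → 1 ≤ m →
      S.Z n t * S.Z m t ≤ C2 * S.Z (n + m + 1) t := by
    intro t ht n m hn hm
    have hbr : ∀ q : List (Lt N) × List (Lt N), ∃ b : Lt N,
        q ∈ words N n ×ˢ words N m → Red (q.1 ++ [b] ++ q.2) := by
      intro q
      by_cases hq : q ∈ words N n ×ˢ words N m
      · rw [Finset.mem_product] at hq
        have hw0 := ne_nil_of_mem hn hq.1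
        have hv0 := ne_nil_of_mem hm hq.2
        obtain ⟨w, v⟩ := q
        simp only at hq hw0 hv0 ⊢
        rw [mem_words, mem_words] at hq
        obtain ⟨⟨hw, -⟩, ⟨hv, -⟩⟩ := hq
        cases v with
        | nil => exact absurd rfl hv0
        | cons d v =>
          obtain ⟨w', a, rfl⟩ : ∃ w' a, w = w' ++ [a] :=
            ⟨w.dropLast, w.getLast hw0, (List.dropLast_append_getLast hw0).symm⟩
          obtain ⟨c, hc1, hc2⟩ := bridge hN a d
          refine ⟨c, fun _ => ?_⟩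
          have h1 : Red (w' ++ [a] ++ ([c])) := (red_append_iff w' [] a c).2 ⟨hw, hc1, red_one c⟩
          exact (red_append_iff (w' ++ [a]) v c d).2 ⟨h1, hc2, hv⟩
      · obtain ⟨c, -, -⟩ := bridge hN ((⟨0, by omega⟩ : Fin N), true) ((⟨0, by omega⟩ : Fin N), true)
        exact ⟨c, fun h => absurd h hq⟩
    choose b hb using hbr
    unfold Z
    rw [Finset.sum_mul_sum, ← Finset.sum_product']
    have h1 : ∑ q ∈ words N n ×ˢ words N m, |S.cc q.1| ^ (-2 * t) * |S.cc q.2| ^ (-2 * t) ≤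
        ∑ q ∈ words N n ×ˢ words N m, C2 * |S.cc (q.1 ++ [b q] ++ q.2)| ^ (-2 * t) := by
      apply Finset.sum_le_sum
      intro q hq
      have hr := hb q hq
      rw [Finset.mem_product] at hq
      have hw0 := ne_nil_of_mem hn hq.1
      have hv0 := ne_nil_of_mem hm hq.2
      have hr1 : Red (q.1 ++ ([b q] ++ q.2)) := by rw [← List.append_assoc]; exact hr
      have e1 := (S.cc_app_bounds hg hD q.1 ([b q] ++ q.2) hw0 (by simp) hr1).2
      have e2 := (S.cc_app_bounds hg hD [b q] q.2 (by simp) hv0 hr1.append_right).2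
      rw [← List.append_assoc] at e1
      have hcc : S.cc (q.1 ++ [b q] ++ q.2) ≠ 0 := S.cc_ne _ (by simp) hr
      have hposc : 0 < |S.cc (q.1 ++ [b q] ++ q.2)| := abs_pos.2 hcc
      have hle : E * |S.cc (q.1 ++ [b q] ++ q.2)| ≤ |S.cc q.1| * |S.cc q.2| := by
        rw [hE, inv_mul_le_iff₀ (by positivity)]
        have h3 : 0 ≤ |S.cc q.1| := abs_nonneg _
        have h4 : 0 ≤ |S.cc q.2| := abs_nonneg _
        calc |S.cc (q.1 ++ [b q] ++ q.2)| ≤ D * (|S.cc q.1| * |S.cc ([b q] ++ q.2)|) := e1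
          _ ≤ D * (|S.cc q.1| * (D * (|S.cc [b q]| * |S.cc q.2|))) := by gcongr
          _ ≤ D * (|S.cc q.1| * (D * (D * |S.cc q.2|))) := by
            gcongr
            exact hcD (b q)
          _ = D ^ 3 * (|S.cc q.1| * |S.cc q.2|) := by ring
      have := rpow_cmp hposc hE0 hle ht.1 ht.2
      rw [Real.mul_rpow (abs_nonneg _) (abs_nonneg _), ← hC2] at this
      exact this
    apply h1.trans
    rw [← Finset.mul_sum]
    apply mul_le_mul_of_nonneg_left _ hC2p.le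
    have hinj : Set.InjOn (fun q : List (Lt N) × List (Lt N) => q.1 ++ [b q] ++ q.2)
        ((words N n ×ˢ words N m : Finset (List (Lt N) × List (Lt N))) : Set _) := by
      rintro ⟨w, v⟩ hq ⟨w', v'⟩ hq' heq
      rw [Finset.mem_coe, Finset.mem_product, mem_words, mem_words] at hq hq'
      simp only at hq hq' heq
      rw [List.append_assoc, List.append_assoc] at heq
      have h5 := List.append_inj heq (by rw [hq.1.2, hq'.1.2])
      have h6 := List.append_inj h5.2 (by simp)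
      rw [h5.1, h6.2]
    rw [← Finset.sum_image hinj (f := fun u => |S.cc u| ^ (-2 * t))]
    apply Finset.sum_le_sum_of_subset_of_nonneg
    · intro u hu
      rw [Finset.mem_image] at hu
      obtain ⟨q, hq, rfl⟩ := hu
      have hr := hb q hq
      rw [Finset.mem_product, mem_words, mem_words] at hq
      rw [mem_words]
      refine ⟨hr, ?_⟩
      rw [List.length_append, List.length_append, hq.1.2, hq.2.2]
      simp only [List.length_cons, List.length_nil]
      omega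
    · intro u _ _
      exact Real.rpow_nonneg (abs_nonneg _) _
  refine ⟨C1 + C2 * (C1 * C3), by positivity, ?_⟩
  intro t ht n m hn hm
  constructor
  · apply (first t ht n m hn hm).trans
    apply mul_le_mul_of_nonneg_right _ (mul_nonneg (hnn n t) (hnn m t))
    have : 0 < C2 * (C1 * C3) := by positivity
    linarith
  · have h1 := second t ht n m hn hm
    have h2 := first t ht (n + m) 1 (by omega) le_rfl
    have h3 := hone t ht
    have h4 : S.Z (n + m + 1) t ≤ C1 * (S.Z (n + m) t * C3) := by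
      apply h2.trans
      have := hnn (n + m) t
      gcongr
    have h5 : C2 * S.Z (n + m + 1) t ≤ C2 * (C1 * (S.Z (n + m) t * C3)) := by gcongr
    have h6 : 0 ≤ C1 * S.Z (n + m) t := mul_nonneg hC1p.le (hnn _ _)
    calc S.Z n t * S.Z m t ≤ C2 * (C1 * (S.Z (n + m) t * C3)) := h1.trans h5
      _ = C2 * (C1 * C3) * S.Z (n + m) t := by ring
      _ ≤ (C1 + C2 * (C1 * C3)) * S.Z (n + m) t := by linarith

end Sch

end Pool.Agent.DimDrop
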